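import Mathlib

/-!
# MP_9dd972_gt, planar case: definitions

`ee t`, `ff t` : the orthonormal frame with angle `t`; `hS L` : the support function of a planar set
as a function of the angle; `rS L` : its right derivative (the last point of the face); `sigS L` :
the surface area measure on the line (Stieltjes measure of `rS L + ∫ hS L`); `polS K` : the polar
set; `LpS p K ω` : the L_p surface area measure exactly as in the problem (n = 2).
-/

set_option autoImplicit false

namespace Pool.Agent.MP9dd972

open MeasureTheory Set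
open scoped ENNReal NNReal Real

/-- The Euclidean plane. -/
abbrev E2 := EuclideanSpace ℝ (Fin 2)

/-- The unit vector with angle `t`. -/
noncomputable def ee (t : ℝ) : E2 := !₂[Real.cos t, Real.sin t]

/-- The unit vector with angle `t + π / 2`. -/
noncomputable def ff (t : ℝ) : E2 := !₂[-Real.sin t, Real.cos t]

/-- The cross product in the plane. -/
def crs (u v : E2) : ℝ := u 0 * v 1 - u 1 * v 0

/-- Support function of `L` in direction `ee t`. -/
noncomputable def hS (L : Set E2) (t : ℝ) : ℝ :=
  sSup ((fun x : E2 => (inner ℝ (ee t) x : ℝ)) '' L)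

/-- Right derivative of the support function: the last point of the face in direction `ee t`. -/
noncomputable def rS (L : Set E2) (t : ℝ) : ℝ :=
  sSup ((fun x : E2 => (inner ℝ (ff t) x : ℝ)) '' {x | x ∈ L ∧ (inner ℝ (ee t) x : ℝ) = hS L t})

open Classical in
/-- Surface area measure of `L` as a measure on the line of angles. -/
noncomputable def sigS (L : Set E2) : Measure ℝ :=
  if h : ∃ F : StieltjesFunction ℝ, ∀ t, F t = rS L t + ∫ s in (0 : ℝ)..t, hS L s then
    h.choose.measure else 0

/-- The polar set. -/
def polS (K : Set E2) : Set E2 := {u | ∀ x ∈ K, (inner ℝ u x : ℝ) ≤ 1}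

/-- A planar convex body with the origin in its interior. -/
structure Body (K : Set E2) : Prop where
  conv : Convex ℝ K
  comp : IsCompact K
  zero : (0 : E2) ∈ interior K

/-- The part of the boundary of `K` with an outer normal `ee t`, `t ∈ (a, b]`. -/
def tau (K : Set E2) (a b : ℝ) : Set E2 :=
  {x | x ∈ K ∧ ∃ t ∈ Ioc a b, (inner ℝ (ee t) x : ℝ) = hS K t}

/-- The L_p surface area measure of `K` on the set `ω` of unit vectors, as in the problem. -/
noncomputable def LpS (p : ℝ) (K ω : Set E2) : ℝ≥0∞ :=
  ∫⁻ x in {x | x ∈ K ∧ ∃ u ∈ ω, ∀ y ∈ K, inner ℝ u (y - x) ≤ 0},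
    (⨅ (u : E2) (_ : u ∈ Metric.sphere (0 : E2) 1 ∧ ∀ y ∈ K, inner ℝ u (y - x) ≤ 0),
      ENNReal.ofReal (inner ℝ u x ^ (1 - p))) ∂μH[((2 : ℕ) : ℝ) - 1]

/-- Two bodies with the same L_p surface area measure: `sigS C` has the density
`(hS K / hS C) ^ (1 - p)` with respect to `sigS K`. -/
structure LPair (p : ℝ) (K C : Set E2) : Prop where
  bK : Body K
  bC : Body C
  p0 : 0 < p
  p1 : p < 1
  dens : sigS C = (sigS K).withDensity (fun t => ENNReal.ofReal ((hS K t / hS C t) ^ (1 - p)))

/-- The sinusoid through the values of `hS K` at `a` and `b`. -/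
noncomputable def VV (K : Set E2) (a b t : ℝ) : ℝ :=
  (hS K a * Real.sin (b - t) + hS K b * Real.sin (t - a)) / Real.sin (b - a)

/-- A centred positive weight on the circle. -/
structure Wt (R : ℝ → ℝ) : Prop where
  cont : Continuous R
  per : ∀ t, R (t + 2 * π) = R t
  pos : ∀ t, 0 < R t
  c0 : ∫ t in (0 : ℝ)..2 * π, R t * Real.cos t = 0
  s0 : ∫ t in (0 : ℝ)..2 * π, R t * Real.sin t = 0

/-- First coordinate of the closed convex curve with radius of curvature `R`. -/
noncomputable def XX (R : ℝ → ℝ) (t : ℝ) : ℝ := ∫ s in (0 : ℝ)..t, R s * Real.cos s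

/-- Second coordinate of the closed convex curve with radius of curvature `R`. -/
noncomputable def XY (R : ℝ → ℝ) (t : ℝ) : ℝ := ∫ s in (0 : ℝ)..t, R s * Real.sin s

/-- The function with `y'' + y = R`. -/
noncomputable def yy (R : ℝ → ℝ) (t : ℝ) : ℝ := XX R t * Real.sin t - XY R t * Real.cos t

/-- Twice the area enclosed by the curve with radius of curvature `R`. -/
noncomputable def ar (R : ℝ → ℝ) : ℝ := ∫ t in (0 : ℝ)..2 * π, yy R t * R t

end Pool.Agent.MP9dd972
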