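import Mathlib
import Pool.Agent.Lib.MP_9dd972_gt.Defs

/-!
# MP_9dd972_gt, module ARC: exact identities on one arc
-/

set_option autoImplicit false

namespace Pool.Agent.MP9dd972

open MeasureTheory Set
open scoped ENNReal NNReal Real

/-- `gr`, `gi`: real and imaginary part of the function g. -/
noncomputable def gr (w v : ℝ → ℝ) (x : ℝ) : ℝ :=
  (w x / (2 * √(w x ^ 2 + v x ^ 2))) * (1 - 3 * (v x / w x) ^ 2 - 2 * (v x / w x) ^ 4)

noncomputable def gi (w v : ℝ → ℝ) (x : ℝ) : ℝ :=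
  -(w x / (2 * √(w x ^ 2 + v x ^ 2))) * ((v x / w x) * (1 - (v x / w x) ^ 2))

/-- `κ = w v' - w' v`. -/
noncomputable def kap (w v : ℝ → ℝ) (x : ℝ) : ℝ := w x * deriv v x - deriv w x * v x

namespace ArcAux

/-- Lipschitz on the interval. -/
def Lp (a b : ℝ) (f : ℝ → ℝ) : Prop := ∃ K : ℝ≥0, LipschitzOnWith K f (Icc a b)

theorem Lp.of {a b : ℝ} {f : ℝ → ℝ} {M : ℝ≥0} (h : LipschitzWith M f) : Lp a b f :=
  ⟨M, h.lipschitzOnWith⟩

theorem Lp.cont {a b : ℝ} {f : ℝ → ℝ} (h : Lp a b f) : ContinuousOn f (Icc a b) := by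
  obtain ⟨K, hK⟩ := h
  exact hK.continuousOn

theorem Lp.bdd {a b : ℝ} {f : ℝ → ℝ} (h : Lp a b f) : ∃ C, 0 ≤ C ∧ ∀ x ∈ Icc a b, |f x| ≤ C := by
  obtain ⟨C, hC⟩ := isCompact_Icc.exists_bound_of_continuousOn h.cont
  exact ⟨max C 0, le_max_right _ _, fun x hx => (hC x hx).trans (le_max_left _ _)⟩

theorem Lp.mul {a b : ℝ} {f g : ℝ → ℝ} (hf : Lp a b f) (hg : Lp a b g) :
    Lp a b (fun x => f x * g x) := by
  obtain ⟨Cf, hCf0, hCf⟩ := hf.bdd
  obtain ⟨Cg, hCg0, hCg⟩ := hg.bdd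
  obtain ⟨Kf, hKf⟩ := hf
  obtain ⟨Kg, hKg⟩ := hg
  refine ⟨⟨Cf * Kg + Cg * Kf, by positivity⟩, LipschitzOnWith.of_dist_le_mul ?_⟩
  intro x hx y hy
  have h1 := hKf.dist_le_mul x hx y hy
  have h2 := hKg.dist_le_mul x hx y hy
  rw [Real.dist_eq] at h1 h2 ⊢
  have h3 : f x * g x - f y * g y = f x * (g x - g y) + g y * (f x - f y) := by ring
  rw [h3]
  have h4 : |f x * (g x - g y)| ≤ Cf * (Kg * dist x y) := by
    rw [abs_mul]
    exact mul_le_mul (hCf x hx) h2 (abs_nonneg _) hCf0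
  have h5 : |g y * (f x - f y)| ≤ Cg * (Kf * dist x y) := by
    rw [abs_mul]
    exact mul_le_mul (hCg y hy) h1 (abs_nonneg _) hCg0
  refine (abs_add_le _ _).trans ((add_le_add h4 h5).trans ?_)
  change _ ≤ (Cf * Kg + Cg * Kf) * dist x y
  exact le_of_eq (by ring)

theorem Lp.add {a b : ℝ} {f g : ℝ → ℝ} (hf : Lp a b f) (hg : Lp a b g) :
    Lp a b (fun x => f x + g x) := by
  obtain ⟨Kf, hKf⟩ := hf
  obtain ⟨Kg, hKg⟩ := hg
  exact ⟨_, hKf.add hKg⟩

theorem Lp.neg {a b : ℝ} {f : ℝ → ℝ} (hf : Lp a b f) :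
    Lp a b (fun x => -f x) := by
  obtain ⟨Kf, hKf⟩ := hf
  exact ⟨_, hKf.neg⟩

theorem Lp.comp {a b : ℝ} (hab : a ≤ b) {f g : ℝ → ℝ} (hf : Lp a b f)
    (hg : ∀ x ∈ Icc a b, ContDiffAt ℝ 1 g (f x)) : Lp a b (fun x => g (f x)) := by
  have him := hf.cont.image_Icc hab
  have h1 : ContDiffOn ℝ 1 g (Icc (sInf (f '' Icc a b)) (sSup (f '' Icc a b))) := by
    rw [← him]
    rintro _ ⟨x, hx, rfl⟩
    exact (hg x hx).contDiffWithinAt
  obtain ⟨K, hK⟩ := h1.exists_lipschitzOnWith (by decide) (convex_Icc _ _) isCompact_Icc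
  obtain ⟨L, hL⟩ := hf
  refine ⟨K * L, hK.comp hL ?_⟩
  intro x hx
  rw [← him]
  exact mem_image_of_mem f hx

theorem Lp.ac {a b : ℝ} (hab : a ≤ b) {f : ℝ → ℝ} (hf : Lp a b f) :
    AbsolutelyContinuousOnInterval f a b := by
  obtain ⟨K, hK⟩ := hf
  refine LipschitzOnWith.absolutelyContinuousOnInterval (K := K) ?_
  rw [uIcc_of_le hab]
  exact hK

theorem Lp.sqInt {a b : ℝ} (hab : a ≤ b) {f : ℝ → ℝ} (hf : Lp a b f) :
    IntervalIntegrable (fun x => (deriv f x) ^ 2) volume a b := by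
  obtain ⟨K, hK⟩ := hf
  rw [intervalIntegrable_iff_integrableOn_Ioo_of_le hab]
  refine Integrable.of_bound (C := (K : ℝ) ^ 2) ?_ ?_
  · exact ((measurable_deriv f).pow_const 2).aestronglyMeasurable
  · rw [ae_restrict_iff' measurableSet_Ioo]
    filter_upwards with x hx
    have h1 : ‖deriv f x‖ ≤ K :=
      norm_deriv_le_of_lipschitzOn (Icc_mem_nhds hx.1 hx.2) hK
    rw [norm_pow]
    gcongr

/-- The function `t` is Lipschitz. -/
theorem lp_t {a b : ℝ} {c : ℝ} {t N : ℝ → ℝ} (hN : ContinuousOn N (Icc a b))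
    (hpos : ∀ x ∈ Icc a b, 0 < N x)
    (ht : ∀ x ∈ Icc a b, HasDerivWithinAt t (c / N x) (Icc a b) x) : Lp a b t := by
  have hc : ContinuousOn (fun x => c / N x) (Icc a b) :=
    continuousOn_const.div hN fun x hx => (hpos x hx).ne'
  obtain ⟨C, hC⟩ := isCompact_Icc.exists_bound_of_continuousOn hc
  refine ⟨⟨max C 0, le_max_right _ _⟩, ?_⟩
  refine Convex.lipschitzOnWith_of_nnnorm_hasDerivWithin_le (convex_Icc a b) (f' := fun x => c / N x)
    (fun x hx => ht x hx) ?_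
  intro x hx
  have := (hC x hx).trans (le_max_left C 0)
  exact this

/-- Almost every point is good. -/
theorem ae_good {w v : ℝ → ℝ} {M : ℝ≥0} (hw : LipschitzWith M w) (hv : LipschitzWith M v)
    {a b : ℝ} (hab : a < b) {c : ℝ} {t : ℝ → ℝ}
    (ht : ∀ x ∈ Icc a b, HasDerivWithinAt t (c / (w x ^ 2 + v x ^ 2)) (Icc a b) x) :
    ∀ᵐ x, x ∈ uIoc a b → (HasDerivAt w (deriv w x) x ∧ HasDerivAt v (deriv v x) x ∧
      HasDerivAt t (c / (w x ^ 2 + v x ^ 2)) x ∧ x ∈ Ioo a b) := by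
  have hne : ∀ᵐ x : ℝ, x ≠ b := by
    simp [ae_iff, measure_singleton]
  filter_upwards [hw.ae_differentiableAt, hv.ae_differentiableAt, hne] with x h1 h2 h3 h4
  rw [uIoc_of_le hab.le] at h4
  have h5 : x ∈ Ioo a b := ⟨h4.1, lt_of_le_of_ne h4.2 h3⟩
  exact ⟨h1.hasDerivAt, h2.hasDerivAt,
    (ht x ⟨h4.1.le, h4.2⟩).hasDerivAt (Icc_mem_nhds h5.1 h5.2), h5⟩

theorem lp_T {w v : ℝ → ℝ} {M : ℝ≥0} (hw : LipschitzWith M w) (hv : LipschitzWith M v)
    (hpos : ∀ x, 0 < w x) {a b : ℝ} (hab : a ≤ b) : Lp a b (fun x => v x / w x) := by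
  have h1 : Lp a b (fun x => (w x)⁻¹) :=
    Lp.comp (g := fun y => y⁻¹) hab (Lp.of hw) fun x _ => contDiffAt_inv ℝ (hpos x).ne'
  have h2 := (Lp.of (a := a) (b := b) hv).mul h1
  simpa only [div_eq_mul_inv] using h2

theorem deriv_T {w v : ℝ → ℝ} {x w' v' : ℝ} (h1 : HasDerivAt w w' x)
    (h2 : HasDerivAt v v' x) (hpos : 0 < w x) :
    HasDerivAt (fun x => v x / w x) ((w x * v' - w' * v x) / w x ^ 2) x := by
  have h := h2.div h1 hpos.ne'
  have e : (v' * w x - v x * w') / w x ^ 2 = (w x * v' - w' * v x) / w x ^ 2 := by ring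
  rw [e] at h
  exact h

/-- real part of the primitive -/
noncomputable def PR (T : ℝ) : ℝ := -(T * (1 - T ^ 2)) / (2 * √(1 + T ^ 2))

/-- imaginary part of the primitive -/
noncomputable def PI (T : ℝ) : ℝ := -(3 + T ^ 2) / (2 * √(1 + T ^ 2))

theorem sq_s (T : ℝ) : √(1 + T ^ 2) ^ 2 = 1 + T ^ 2 := Real.sq_sqrt (by positivity)

theorem s_pos (T : ℝ) : 0 < √(1 + T ^ 2) := Real.sqrt_pos.mpr (by positivity)

theorem hasDeriv_s (T : ℝ) : HasDerivAt (fun T : ℝ => √(1 + T ^ 2)) (T / √(1 + T ^ 2)) T := by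
  have h1 : HasDerivAt (fun T : ℝ => 1 + T ^ 2) (2 * T) T := by
    have := (hasDerivAt_pow 2 T).const_add 1
    simpa using this
  have h2 := h1.sqrt (by positivity)
  have e : 2 * T / (2 * √(1 + T ^ 2)) = T / √(1 + T ^ 2) := by
    have := (s_pos T).ne'
    field_simp
  rw [e] at h2
  exact h2

theorem hasDeriv_PR (T : ℝ) :
    HasDerivAt PR (-(1 - 3 * T ^ 2 - 2 * T ^ 4) / (2 * √(1 + T ^ 2) ^ 3)) T := by
  have h1 : HasDerivAt (fun T : ℝ => -(T * (1 - T ^ 2))) (-(1 - 3 * T ^ 2)) T := by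
    have h := ((hasDerivAt_id T).sub (hasDerivAt_pow 3 T)).neg
    have e : (fun T : ℝ => -(T * (1 - T ^ 2))) = -(id - fun x : ℝ => x ^ 3) := by
      funext x
      simp only [Pi.neg_apply, Pi.sub_apply, id]
      ring
    rw [e]
    have e2 : -(1 - (3 : ℕ) * T ^ (3 - 1)) = -(1 - 3 * T ^ 2) := by norm_num
    rw [e2] at h
    exact h
  have h2 := h1.div ((hasDeriv_s T).const_mul 2) (by have := s_pos T; positivity)
  have hs := s_pos T
  have hs2 := sq_s T
  have e : (-(1 - 3 * T ^ 2) * (2 * √(1 + T ^ 2)) - -(T * (1 - T ^ 2)) *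
      (2 * (T / √(1 + T ^ 2)))) / (2 * √(1 + T ^ 2)) ^ 2 =
      -(1 - 3 * T ^ 2 - 2 * T ^ 4) / (2 * √(1 + T ^ 2) ^ 3) := by
    generalize √(1 + T ^ 2) = s at hs hs2 ⊢
    have hs' := hs.ne'
    rw [div_eq_div_iff (by positivity) (by positivity)]
    have h5 : -(1 - 3 * T ^ 2) * (2 * s) - -(T * (1 - T ^ 2)) * (2 * (T / s)) =
        (-(1 - 3 * T ^ 2) * 2 * s ^ 2 + T * (1 - T ^ 2) * 2 * T) / s := by
      field_simp
      ring
    rw [h5, hs2, div_mul_eq_mul_div, div_eq_iff hs']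
    ring
  rw [e] at h2
  exact h2

theorem hasDeriv_PI (T : ℝ) :
    HasDerivAt PI (T * (1 - T ^ 2) / (2 * √(1 + T ^ 2) ^ 3)) T := by
  have h1 : HasDerivAt (fun T : ℝ => -(3 + T ^ 2)) (-(2 * T)) T := by
    have h := ((hasDerivAt_pow 2 T).const_add 3).neg
    have e : -((2 : ℕ) * T ^ (2 - 1)) = -(2 * T) := by norm_num
    rw [e] at h
    exact h
  have h2 := h1.div ((hasDeriv_s T).const_mul 2) (by have := s_pos T; positivity)
  have hs := s_pos T
  have hs2 := sq_s T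
  have e : (-(2 * T) * (2 * √(1 + T ^ 2)) - -(3 + T ^ 2) *
      (2 * (T / √(1 + T ^ 2)))) / (2 * √(1 + T ^ 2)) ^ 2 =
      T * (1 - T ^ 2) / (2 * √(1 + T ^ 2) ^ 3) := by
    generalize √(1 + T ^ 2) = s at hs hs2 ⊢
    have hs' := hs.ne'
    rw [div_eq_div_iff (by positivity) (by positivity)]
    have h5 : -(2 * T) * (2 * s) - -(3 + T ^ 2) * (2 * (T / s)) =
        (-(2 * T) * 2 * s ^ 2 + (3 + T ^ 2) * 2 * T) / s := by
      field_simp
      ring
    rw [h5, hs2, div_mul_eq_mul_div, div_eq_iff hs']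
    ring
  rw [e] at h2
  exact h2

theorem cd_s (T : ℝ) : ContDiffAt ℝ 1 (fun T : ℝ => √(1 + T ^ 2)) T :=
  (contDiffAt_const.add (contDiffAt_id.pow 2)).sqrt (by simp only [id]; positivity)

theorem cd_PR (T : ℝ) : ContDiffAt ℝ 1 PR T := by
  unfold PR
  refine ContDiffAt.div ?_ (contDiffAt_const.mul (cd_s T)) (by have := s_pos T; positivity)
  exact (contDiffAt_id.mul (contDiffAt_const.sub (contDiffAt_id.pow 2))).neg

theorem cd_PI (T : ℝ) : ContDiffAt ℝ 1 PI T := by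
  unfold PI
  refine ContDiffAt.div ?_ (contDiffAt_const.mul (cd_s T)) (by have := s_pos T; positivity)
  exact (contDiffAt_const.add (contDiffAt_id.pow 2)).neg

/-- n = w s -/
theorem n_eq {w v : ℝ} (hw : 0 < w) : √(w ^ 2 + v ^ 2) = w * √(1 + (v / w) ^ 2) := by
  have h1 : w ^ 2 + v ^ 2 = w ^ 2 * (1 + (v / w) ^ 2) := by
    field_simp
  rw [h1, Real.sqrt_mul (by positivity), Real.sqrt_sq hw.le]

theorem N_eq {w v : ℝ} (hw : 0 < w) : w ^ 2 + v ^ 2 = w ^ 2 * √(1 + (v / w) ^ 2) ^ 2 := by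
  rw [sq_s]
  field_simp

theorem gr_eq {w v : ℝ → ℝ} {x : ℝ} (hw : 0 < w x) :
    gr w v x = (1 - 3 * (v x / w x) ^ 2 - 2 * (v x / w x) ^ 4) / (2 * √(1 + (v x / w x) ^ 2)) := by
  unfold gr
  rw [n_eq hw]
  have := s_pos (v x / w x)
  generalize v x / w x = T at this ⊢
  field_simp

theorem gi_eq {w v : ℝ → ℝ} {x : ℝ} (hw : 0 < w x) :
    gi w v x = -(v x / w x * (1 - (v x / w x) ^ 2)) / (2 * √(1 + (v x / w x) ^ 2)) := by
  unfold gi
  rw [n_eq hw]
  have := s_pos (v x / w x)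
  generalize v x / w x = T at this ⊢
  field_simp

theorem lp_n {w v : ℝ → ℝ} {M : ℝ≥0} (hw : LipschitzWith M w) (hv : LipschitzWith M v)
    (hpos : ∀ x, 0 < w x) {a b : ℝ} (hab : a ≤ b) : Lp a b (fun x => √(w x ^ 2 + v x ^ 2)) := by
  have h1 : Lp a b (fun x => w x * w x + v x * v x) :=
    ((Lp.of hw).mul (Lp.of hw)).add ((Lp.of hv).mul (Lp.of hv))
  have h2 : Lp a b (fun x => √(w x * w x + v x * v x)) := by
    refine Lp.comp (g := Real.sqrt) hab h1 fun x _ => Real.contDiffAt_sqrt ?_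
    have h3 : 0 < w x * w x + v x * v x :=
      add_pos_of_pos_of_nonneg (mul_pos (hpos x) (hpos x)) (mul_self_nonneg _)
    exact h3.ne'
  have e : (fun x => √(w x ^ 2 + v x ^ 2)) = fun x => √(w x * w x + v x * v x) := by
    funext x
    rw [pow_two, pow_two]
  rw [e]
  exact h2

theorem lp_tt {w v : ℝ → ℝ} {M : ℝ≥0} (hw : LipschitzWith M w) (hv : LipschitzWith M v)
    (hpos : ∀ x, 0 < w x) {a b : ℝ}
    {c : ℝ} {t : ℝ → ℝ} (ht : ∀ x ∈ Icc a b, HasDerivWithinAt t (c / (w x ^ 2 + v x ^ 2)) (Icc a b) x) :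
    Lp a b t := by
  refine lp_t (N := fun x => w x ^ 2 + v x ^ 2) ?_ ?_ ht
  · exact ((hw.continuous.pow 2).add (hv.continuous.pow 2)).continuousOn
  · intro x _
    have := hpos x
    positivity

end ArcAux

open ArcAux

theorem arc_angle {w v : ℝ → ℝ} {M : ℝ≥0} (hw : LipschitzWith M w) (hv : LipschitzWith M v)
    (hpos : ∀ x, 0 < w x) {a b : ℝ} (hab : a < b) (ha : v a = -w a) (hb : v b = w b) :
    ∫ x in a..b, kap w v x / (w x ^ 2 + v x ^ 2) = π / 2 := by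
  have hL : Lp a b (fun x => Real.arctan (v x / w x)) :=
    Lp.comp (g := Real.arctan) hab.le (lp_T hw hv hpos hab.le)
      fun x _ => Real.contDiff_arctan.contDiffAt
  have h1 := (hL.ac hab.le).integral_deriv_eq_sub
  have h2 : v b / w b = 1 := by rw [hb]; exact div_self (hpos b).ne'
  have h3 : v a / w a = -1 := by rw [ha, neg_div, div_self (hpos a).ne']
  rw [h2, h3, Real.arctan_neg, Real.arctan_one] at h1
  have h4 : ∫ x in a..b, kap w v x / (w x ^ 2 + v x ^ 2) =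
      ∫ x in a..b, deriv (fun x => Real.arctan (v x / w x)) x := by
    refine intervalIntegral.integral_congr_ae ?_
    filter_upwards [hw.ae_differentiableAt, hv.ae_differentiableAt] with x g1 g2 _
    have g3 := (deriv_T g1.hasDerivAt g2.hasDerivAt (hpos x)).arctan
    rw [g3.deriv]
    have hp := hpos x
    have hN : 0 < w x ^ 2 + v x ^ 2 := by positivity
    unfold kap
    have hs : 1 + (v x / w x) ^ 2 ≠ 0 := by positivity
    field_simp
  rw [h4, h1]
  ring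

theorem arc_cos {w v : ℝ → ℝ} {M : ℝ≥0} (hw : LipschitzWith M w) (hv : LipschitzWith M v)
    (hpos : ∀ x, 0 < w x) {a b : ℝ} (hab : a < b) (ha : v a = -w a) (hb : v b = w b)
    {c : ℝ} {t : ℝ → ℝ} (ht : ∀ x ∈ Icc a b, HasDerivWithinAt t (c / (w x ^ 2 + v x ^ 2)) (Icc a b) x) :
    c * ∫ x in a..b, √(w x ^ 2 + v x ^ 2) * Real.cos (t x) * ((w x) ^ 3)⁻¹ =
      √2 * (Real.sin (t b) - Real.sin (t a)) +
      ∫ x in a..b, (Real.cos (t x) * gr w v x - Real.sin (t x) * gi w v x) *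
        ((kap w v x - c) / (w x ^ 2 + v x ^ 2)) := by
  have hT := lp_T hw hv hpos hab.le (a := a) (b := b)
  have htL := lp_tt hw hv hpos ht
  have hcos : Lp a b (fun x => Real.cos (t x)) :=
    Lp.comp (g := Real.cos) hab.le htL fun x _ => Real.contDiff_cos.contDiffAt
  have hsin : Lp a b (fun x => Real.sin (t x)) :=
    Lp.comp (g := Real.sin) hab.le htL fun x _ => Real.contDiff_sin.contDiffAt
  have hPR : Lp a b (fun x => PR (v x / w x)) := Lp.comp (g := PR) hab.le hT fun x _ => cd_PR _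
  have hPI : Lp a b (fun x => PI (v x / w x)) := Lp.comp (g := PI) hab.le hT fun x _ => cd_PI _
  have hG : Lp a b (fun x => Real.cos (t x) * PR (v x / w x) + -(Real.sin (t x) * PI (v x / w x))) :=
    (hcos.mul hPR).add (hsin.mul hPI).neg
  have hAC := hG.ac hab.le
  have hFTC := hAC.integral_deriv_eq_sub
  have h2 : v b / w b = 1 := by rw [hb]; exact div_self (hpos b).ne'
  have h3 : v a / w a = -1 := by rw [ha, neg_div, div_self (hpos a).ne']
  have hI1 : IntervalIntegrable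
      (fun x => c * (√(w x ^ 2 + v x ^ 2) * Real.cos (t x) * ((w x) ^ 3)⁻¹)) volume a b := by
    refine ContinuousOn.intervalIntegrable ?_
    rw [uIcc_of_le hab.le]
    refine continuousOn_const.mul (((lp_n hw hv hpos hab.le).cont.mul hcos.cont).mul ?_)
    exact ((hw.continuous.pow 3).continuousOn).inv₀ fun x _ => (pow_pos (hpos x) 3).ne'
  have hpt : ∀ᵐ x, x ∈ uIoc a b →
      deriv (fun x => Real.cos (t x) * PR (v x / w x) + -(Real.sin (t x) * PI (v x / w x))) x =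
      c * (√(w x ^ 2 + v x ^ 2) * Real.cos (t x) * ((w x) ^ 3)⁻¹) -
      (Real.cos (t x) * gr w v x - Real.sin (t x) * gi w v x) *
        ((kap w v x - c) / (w x ^ 2 + v x ^ 2)) := by
    filter_upwards [ae_good hw hv hab ht] with x hx hxm
    obtain ⟨g1, g2, g3, -⟩ := hx hxm
    have hp := hpos x
    have gT := deriv_T g1 g2 hp
    have gR := (hasDeriv_PR (v x / w x)).comp x gT
    have gI := (hasDeriv_PI (v x / w x)).comp x gT
    have gG := (g3.cos.mul gR).add (g3.sin.mul gI).neg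
    have e1 : deriv (fun x => Real.cos (t x) * PR (v x / w x) +
        -(Real.sin (t x) * PI (v x / w x))) x = _ := gG.deriv
    rw [e1]
    rw [gr_eq hp, gi_eq hp, n_eq hp, N_eq hp]
    unfold kap
    simp only [Function.comp_apply, PR, PI]
    have hs := s_pos (v x / w x)
    have hs2 := sq_s (v x / w x)
    generalize hκ : w x * deriv v x - deriv w x * v x = κ
    generalize v x / w x = T at hs hs2 ⊢
    generalize √(1 + T ^ 2) = s at hs hs2 ⊢
    generalize w x = W at hp ⊢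
    generalize Real.cos (t x) = C
    generalize Real.sin (t x) = S
    have hs' := hs.ne'
    have hp' := hp.ne'
    have hs4 : s ^ 4 = (1 + T ^ 2) ^ 2 := by rw [← hs2]; ring
    have e2 : -S * (c / (W ^ 2 * s ^ 2)) * (-(T * (1 - T ^ 2)) / (2 * s)) +
        C * (-(1 - 3 * T ^ 2 - 2 * T ^ 4) / (2 * s ^ 3) * (κ / W ^ 2)) +
        -(C * (c / (W ^ 2 * s ^ 2)) * (-(3 + T ^ 2) / (2 * s)) +
        S * (T * (1 - T ^ 2) / (2 * s ^ 3) * (κ / W ^ 2))) =
        (S * c * (T * (1 - T ^ 2)) - κ * C * (1 - 3 * T ^ 2 - 2 * T ^ 4) + C * c * (3 + T ^ 2) -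
          κ * S * (T * (1 - T ^ 2))) / (2 * W ^ 2 * s ^ 3) := by
      field_simp
      ring
    have e3 : c * (W * s * C * (W ^ 3)⁻¹) -
        (C * ((1 - 3 * T ^ 2 - 2 * T ^ 4) / (2 * s)) - S * (-(T * (1 - T ^ 2)) / (2 * s))) *
        ((κ - c) / (W ^ 2 * s ^ 2)) =
        (2 * c * C * s ^ 4 - (C * (1 - 3 * T ^ 2 - 2 * T ^ 4) + S * (T * (1 - T ^ 2))) * (κ - c)) /
          (2 * W ^ 2 * s ^ 3) := by
      field_simp
      ring
    rw [e3, hs4]
    refine Eq.trans e2 ?_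
    congr 1
    ring
  have hI2 : IntervalIntegrable
      (fun x => (Real.cos (t x) * gr w v x - Real.sin (t x) * gi w v x) *
        ((kap w v x - c) / (w x ^ 2 + v x ^ 2))) volume a b := by
    have hd := hI1.sub hAC.intervalIntegrable_deriv
    refine hd.congr_ae ?_
    rw [Filter.EventuallyEq, ae_restrict_iff' measurableSet_uIoc]
    filter_upwards [hpt] with x hx hxm
    have := hx hxm
    simp only [this]
    ring
  have hfin : ∫ x in a..b, deriv (fun x => Real.cos (t x) * PR (v x / w x) +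
      -(Real.sin (t x) * PI (v x / w x))) x =
      ∫ x in a..b, (c * (√(w x ^ 2 + v x ^ 2) * Real.cos (t x) * ((w x) ^ 3)⁻¹) -
      (Real.cos (t x) * gr w v x - Real.sin (t x) * gi w v x) *
        ((kap w v x - c) / (w x ^ 2 + v x ^ 2))) :=
    intervalIntegral.integral_congr_ae hpt
  rw [intervalIntegral.integral_sub hI1 hI2, intervalIntegral.integral_const_mul] at hfin
  rw [hFTC] at hfin
  simp only [h2, h3, PR, PI] at hfin
  have hr2 : √(2 : ℝ) * √2 = 2 := Real.mul_self_sqrt (by norm_num)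
  have hr0 : √(2 : ℝ) ≠ 0 := by positivity
  have hA : -(3 + (1 : ℝ) ^ 2) / (2 * √(1 + 1 ^ 2)) = -√2 := by
    norm_num
    field_simp
    linarith
  have hB : -(3 + (-1 : ℝ) ^ 2) / (2 * √(1 + (-1) ^ 2)) = -√2 := by
    norm_num
    field_simp
    linarith
  rw [hA, hB] at hfin
  norm_num at hfin
  linarith

theorem arc_sin {w v : ℝ → ℝ} {M : ℝ≥0} (hw : LipschitzWith M w) (hv : LipschitzWith M v)
    (hpos : ∀ x, 0 < w x) {a b : ℝ} (hab : a < b) (ha : v a = -w a) (hb : v b = w b)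
    {c : ℝ} {t : ℝ → ℝ} (ht : ∀ x ∈ Icc a b, HasDerivWithinAt t (c / (w x ^ 2 + v x ^ 2)) (Icc a b) x) :
    c * ∫ x in a..b, √(w x ^ 2 + v x ^ 2) * Real.sin (t x) * ((w x) ^ 3)⁻¹ =
      -√2 * (Real.cos (t b) - Real.cos (t a)) +
      ∫ x in a..b, (Real.sin (t x) * gr w v x + Real.cos (t x) * gi w v x) *
        ((kap w v x - c) / (w x ^ 2 + v x ^ 2)) := by
  have hT := lp_T hw hv hpos hab.le (a := a) (b := b)
  have htL := lp_tt hw hv hpos ht
  have hcos : Lp a b (fun x => Real.cos (t x)) :=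
    Lp.comp (g := Real.cos) hab.le htL fun x _ => Real.contDiff_cos.contDiffAt
  have hsin : Lp a b (fun x => Real.sin (t x)) :=
    Lp.comp (g := Real.sin) hab.le htL fun x _ => Real.contDiff_sin.contDiffAt
  have hPR : Lp a b (fun x => PR (v x / w x)) := Lp.comp (g := PR) hab.le hT fun x _ => cd_PR _
  have hPI : Lp a b (fun x => PI (v x / w x)) := Lp.comp (g := PI) hab.le hT fun x _ => cd_PI _
  have hG : Lp a b (fun x => Real.sin (t x) * PR (v x / w x) + Real.cos (t x) * PI (v x / w x)) :=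
    (hsin.mul hPR).add (hcos.mul hPI)
  have hAC := hG.ac hab.le
  have hFTC := hAC.integral_deriv_eq_sub
  have h2 : v b / w b = 1 := by rw [hb]; exact div_self (hpos b).ne'
  have h3 : v a / w a = -1 := by rw [ha, neg_div, div_self (hpos a).ne']
  have hI1 : IntervalIntegrable
      (fun x => c * (√(w x ^ 2 + v x ^ 2) * Real.sin (t x) * ((w x) ^ 3)⁻¹)) volume a b := by
    refine ContinuousOn.intervalIntegrable ?_
    rw [uIcc_of_le hab.le]
    refine continuousOn_const.mul (((lp_n hw hv hpos hab.le).cont.mul hsin.cont).mul ?_)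
    exact ((hw.continuous.pow 3).continuousOn).inv₀ fun x _ => (pow_pos (hpos x) 3).ne'
  have hpt : ∀ᵐ x, x ∈ uIoc a b →
      deriv (fun x => Real.sin (t x) * PR (v x / w x) + Real.cos (t x) * PI (v x / w x)) x =
      c * (√(w x ^ 2 + v x ^ 2) * Real.sin (t x) * ((w x) ^ 3)⁻¹) -
      (Real.sin (t x) * gr w v x + Real.cos (t x) * gi w v x) *
        ((kap w v x - c) / (w x ^ 2 + v x ^ 2)) := by
    filter_upwards [ae_good hw hv hab ht] with x hx hxm
    obtain ⟨g1, g2, g3, -⟩ := hx hxm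
    have hp := hpos x
    have gT := deriv_T g1 g2 hp
    have gR := (hasDeriv_PR (v x / w x)).comp x gT
    have gI := (hasDeriv_PI (v x / w x)).comp x gT
    have gG := (g3.sin.mul gR).add (g3.cos.mul gI)
    have e1 : deriv (fun x => Real.sin (t x) * PR (v x / w x) +
        Real.cos (t x) * PI (v x / w x)) x = _ := gG.deriv
    rw [e1]
    rw [gr_eq hp, gi_eq hp, n_eq hp, N_eq hp]
    unfold kap
    simp only [Function.comp_apply, PR, PI]
    have hs := s_pos (v x / w x)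
    have hs2 := sq_s (v x / w x)
    generalize hκ : w x * deriv v x - deriv w x * v x = κ
    generalize v x / w x = T at hs hs2 ⊢
    generalize √(1 + T ^ 2) = s at hs hs2 ⊢
    generalize w x = W at hp ⊢
    generalize Real.cos (t x) = C
    generalize Real.sin (t x) = S
    have hs' := hs.ne'
    have hp' := hp.ne'
    have hs4 : s ^ 4 = (1 + T ^ 2) ^ 2 := by rw [← hs2]; ring
    have e2 : C * (c / (W ^ 2 * s ^ 2)) * (-(T * (1 - T ^ 2)) / (2 * s)) +
        S * (-(1 - 3 * T ^ 2 - 2 * T ^ 4) / (2 * s ^ 3) * (κ / W ^ 2)) +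
        (-S * (c / (W ^ 2 * s ^ 2)) * (-(3 + T ^ 2) / (2 * s)) +
        C * (T * (1 - T ^ 2) / (2 * s ^ 3) * (κ / W ^ 2))) =
        (-(C * c * (T * (1 - T ^ 2))) - κ * S * (1 - 3 * T ^ 2 - 2 * T ^ 4) + S * c * (3 + T ^ 2) +
          κ * C * (T * (1 - T ^ 2))) / (2 * W ^ 2 * s ^ 3) := by
      field_simp
      ring
    have e3 : c * (W * s * S * (W ^ 3)⁻¹) -
        (S * ((1 - 3 * T ^ 2 - 2 * T ^ 4) / (2 * s)) + C * (-(T * (1 - T ^ 2)) / (2 * s))) *
        ((κ - c) / (W ^ 2 * s ^ 2)) =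
        (2 * c * S * s ^ 4 - (S * (1 - 3 * T ^ 2 - 2 * T ^ 4) - C * (T * (1 - T ^ 2))) * (κ - c)) /
          (2 * W ^ 2 * s ^ 3) := by
      field_simp
      ring
    rw [e3, hs4]
    refine Eq.trans e2 ?_
    congr 1
    ring
  have hI2 : IntervalIntegrable
      (fun x => (Real.sin (t x) * gr w v x + Real.cos (t x) * gi w v x) *
        ((kap w v x - c) / (w x ^ 2 + v x ^ 2))) volume a b := by
    have hd := hI1.sub hAC.intervalIntegrable_deriv
    refine hd.congr_ae ?_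
    rw [Filter.EventuallyEq, ae_restrict_iff' measurableSet_uIoc]
    filter_upwards [hpt] with x hx hxm
    have := hx hxm
    simp only [this]
    ring
  have hfin : ∫ x in a..b, deriv (fun x => Real.sin (t x) * PR (v x / w x) +
      Real.cos (t x) * PI (v x / w x)) x =
      ∫ x in a..b, (c * (√(w x ^ 2 + v x ^ 2) * Real.sin (t x) * ((w x) ^ 3)⁻¹) -
      (Real.sin (t x) * gr w v x + Real.cos (t x) * gi w v x) *
        ((kap w v x - c) / (w x ^ 2 + v x ^ 2))) :=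
    intervalIntegral.integral_congr_ae hpt
  rw [intervalIntegral.integral_sub hI1 hI2, intervalIntegral.integral_const_mul] at hfin
  rw [hFTC] at hfin
  simp only [h2, h3, PR, PI] at hfin
  have hr2 : √(2 : ℝ) * √2 = 2 := Real.mul_self_sqrt (by norm_num)
  have hr0 : √(2 : ℝ) ≠ 0 := by positivity
  have hA : -(3 + (1 : ℝ) ^ 2) / (2 * √(1 + 1 ^ 2)) = -√2 := by
    norm_num
    field_simp
    linarith
  have hB : -(3 + (-1 : ℝ) ^ 2) / (2 * √(1 + (-1) ^ 2)) = -√2 := by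
    norm_num
    field_simp
    linarith
  rw [hA, hB] at hfin
  norm_num at hfin
  linarith

theorem arc_g {w v : ℝ → ℝ} {x : ℝ} (hpos : 0 < w x) (habs : |v x| ≤ w x) :
    (gr w v x) ^ 2 + (gi w v x) ^ 2 ≤ (1 + 3 * (v x / w x) ^ 2) / 2 := by
  rw [gr_eq hpos, gi_eq hpos]
  have hS : (v x / w x) ^ 2 ≤ 1 := by
    rw [div_pow, div_le_one (by positivity)]
    exact sq_le_sq' (by have := neg_abs_le (v x); linarith) (by have := le_abs_self (v x); linarith)
  have hs := s_pos (v x / w x)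
  have hs2 := sq_s (v x / w x)
  generalize v x / w x = T at hs hs2 hS ⊢
  generalize √(1 + T ^ 2) = s at hs hs2 ⊢
  rw [div_pow, div_pow, ← add_div, div_le_iff₀ (by positivity)]
  have e1 : (2 * s) ^ 2 = 4 * (1 + T ^ 2) := by rw [mul_pow, hs2]; ring
  rw [e1]
  have h0 : 0 ≤ T ^ 2 := sq_nonneg T
  have hT4 : T ^ 4 = (T ^ 2) ^ 2 := by ring
  have e2 : (1 - 3 * T ^ 2 - 2 * T ^ 4) ^ 2 + (-(T * (1 - T ^ 2))) ^ 2 =
      (1 + T ^ 2) * (4 * (T ^ 2) ^ 3 + 9 * (T ^ 2) ^ 2 - 6 * T ^ 2 + 1) := by ring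
  rw [e2]
  generalize T ^ 2 = S at hS h0 ⊢
  have h1 : 4 * S ^ 3 + 9 * S ^ 2 - 12 * S - 1 ≤ 0 := by
    have : 4 * S ^ 3 + 9 * S ^ 2 - 12 * S - 1 = -((1 - S) * (4 * S ^ 2 + 13 * S + 1)) := by ring
    rw [this]
    have h3 : 0 ≤ 1 - S := by linarith
    have h4 : 0 ≤ 4 * S ^ 2 + 13 * S + 1 := by positivity
    have := mul_nonneg h3 h4
    linarith
  have h2 : 0 ≤ 1 + S := by linarith
  nlinarith [mul_nonneg h2 (neg_nonneg.mpr h1)]

theorem arc_energy {w v : ℝ → ℝ} {M : ℝ≥0} (hw : LipschitzWith M w) (hv : LipschitzWith M v)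
    (hpos : ∀ x, 0 < w x) {a b : ℝ} (hab : a < b)
    {c : ℝ} {t : ℝ → ℝ} (ht : ∀ x ∈ Icc a b, HasDerivWithinAt t (c / (w x ^ 2 + v x ^ 2)) (Icc a b) x) :
    (∫ x in a..b, ((deriv (fun x => √(w x ^ 2 + v x ^ 2) * Real.cos (t x)) x) ^ 2 -
        (√(w x ^ 2 + v x ^ 2) * Real.cos (t x)) ^ 2)) +
      ∫ x in a..b, ((deriv (fun x => √(w x ^ 2 + v x ^ 2) * Real.sin (t x)) x) ^ 2 -
        (√(w x ^ 2 + v x ^ 2) * Real.sin (t x)) ^ 2) =
      (∫ x in a..b, ((deriv w x) ^ 2 + (deriv v x) ^ 2 - (w x) ^ 2 - (v x) ^ 2)) -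
      ∫ x in a..b, ((kap w v x) ^ 2 - c ^ 2) / (w x ^ 2 + v x ^ 2) := by
  have htL := lp_tt hw hv hpos ht
  have hcos : Lp a b (fun x => Real.cos (t x)) :=
    Lp.comp (g := Real.cos) hab.le htL fun x _ => Real.contDiff_cos.contDiffAt
  have hsin : Lp a b (fun x => Real.sin (t x)) :=
    Lp.comp (g := Real.sin) hab.le htL fun x _ => Real.contDiff_sin.contDiffAt
  have hn := lp_n hw hv hpos hab.le (a := a) (b := b)
  have hA := hn.mul hcos
  have hB := hn.mul hsin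
  have hci : ∀ f : ℝ → ℝ, Lp a b f → IntervalIntegrable (fun x => f x ^ 2) volume a b := by
    intro f hf
    refine ContinuousOn.intervalIntegrable ?_
    rw [uIcc_of_le hab.le]
    exact hf.cont.pow 2
  have iA := (hA.sqInt hab.le).sub (hci _ hA)
  have iB := (hB.sqInt hab.le).sub (hci _ hB)
  have iw : Lp a b w := Lp.of hw
  have iv : Lp a b v := Lp.of hv
  have iC := (((iw.sqInt hab.le).add (iv.sqInt hab.le)).sub (hci _ iw)).sub (hci _ iv)
  have hpt : ∀ᵐ x, x ∈ uIoc a b →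
      ((deriv (fun x => √(w x ^ 2 + v x ^ 2) * Real.cos (t x)) x) ^ 2 -
        (√(w x ^ 2 + v x ^ 2) * Real.cos (t x)) ^ 2) +
      ((deriv (fun x => √(w x ^ 2 + v x ^ 2) * Real.sin (t x)) x) ^ 2 -
        (√(w x ^ 2 + v x ^ 2) * Real.sin (t x)) ^ 2) =
      ((deriv w x) ^ 2 + (deriv v x) ^ 2 - (w x) ^ 2 - (v x) ^ 2) -
      ((kap w v x) ^ 2 - c ^ 2) / (w x ^ 2 + v x ^ 2) := by
    filter_upwards [ae_good hw hv hab ht] with x hx hxm
    obtain ⟨g1, g2, g3, -⟩ := hx hxm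
    have hp := hpos x
    have hN : 0 < w x ^ 2 + v x ^ 2 := by positivity
    have gn := ((g1.pow 2).add (g2.pow 2)).sqrt hN.ne'
    have gA := gn.mul g3.cos
    have gB := gn.mul g3.sin
    have e1 : deriv (fun x => √(w x ^ 2 + v x ^ 2) * Real.cos (t x)) x = _ := gA.deriv
    have e2 : deriv (fun x => √(w x ^ 2 + v x ^ 2) * Real.sin (t x)) x = _ := gB.deriv
    rw [e1, e2]
    simp only [Pi.add_apply, Pi.pow_apply]
    unfold kap
    have hn2 : √(w x ^ 2 + v x ^ 2) ^ 2 = w x ^ 2 + v x ^ 2 := Real.sq_sqrt hN.le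
    have hn0 : 0 < √(w x ^ 2 + v x ^ 2) := Real.sqrt_pos.mpr hN
    have hcs : Real.sin (t x) ^ 2 + Real.cos (t x) ^ 2 = 1 := Real.sin_sq_add_cos_sq _
    generalize √(w x ^ 2 + v x ^ 2) = n at hn2 hn0 ⊢
    generalize Real.cos (t x) = C at hcs ⊢
    generalize Real.sin (t x) = S at hcs ⊢
    generalize deriv w x = w'
    generalize deriv v x = v'
    generalize w x = W at hn2 hN ⊢
    generalize v x = V at hn2 hN ⊢
    rw [← hn2]
    have hn' := hn0.ne'
    have k1 : ((2 : ℕ) * W ^ (2 - 1) * w' + (2 : ℕ) * V ^ (2 - 1) * v') / (2 * n) =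
        (W * w' + V * v') / n := by
      have h2n : (((2 : ℕ) : ℝ)) = 2 := by norm_num
      rw [h2n, div_eq_div_iff (by positivity) hn']
      ring
    rw [k1]
    have k2 : ((W * w' + V * v') / n * C + n * (-S * (c / n ^ 2))) ^ 2 - (n * C) ^ 2 +
        (((W * w' + V * v') / n * S + n * (C * (c / n ^ 2))) ^ 2 - (n * S) ^ 2) =
        ((W * w' + V * v') ^ 2 + c ^ 2) / n ^ 2 * (S ^ 2 + C ^ 2) - n ^ 2 * (S ^ 2 + C ^ 2) := by
      field_simp
      ring
    rw [k2, hcs]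
    have k3 : ((W * w' + V * v') ^ 2 + c ^ 2) =
        n ^ 2 * (w' ^ 2 + v' ^ 2) - ((W * v' - w' * V) ^ 2 - c ^ 2) := by
      rw [hn2]
      ring
    rw [k3, sub_div, mul_div_assoc, mul_comm (n ^ 2), div_mul_cancel₀ _ (by positivity)]
    rw [hn2]
    ring
  have iD : IntervalIntegrable (fun x => ((kap w v x) ^ 2 - c ^ 2) / (w x ^ 2 + v x ^ 2))
      volume a b := by
    refine (iC.sub (iA.add iB)).congr_ae ?_
    rw [Filter.EventuallyEq, ae_restrict_iff' measurableSet_uIoc]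
    filter_upwards [hpt] with x hx hxm
    have := hx hxm
    linarith
  rw [← intervalIntegral.integral_add iA iB]
  refine Eq.trans ?_ (intervalIntegral.integral_sub iC iD)
  exact intervalIntegral.integral_congr_ae hpt

end Pool.Agent.MP9dd972
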