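import Mathlib
import Pool.Agent.Lib.MP_9dd972_gt.Defs

/-!
# MP_9dd972_gt, module AREA: affine isoperimetric inequality with the constant 64
-/

set_option autoImplicit false

namespace Pool.Agent.MP9dd972

open MeasureTheory Set
open scoped ENNReal NNReal Real

namespace AreaAux

/-- length estimate on one arc -/
theorem area_arc_len {w : ℝ → ℝ} (hw : Continuous w) (hpos : ∀ t, 0 < w t) {α β : ℝ} (hab : α < β)
    (hlt : β - α < π) {c a b : ℝ} (hc : 0 < c)
    (ha : a * Real.sin (β - α) = ∫ t in α..β, ((w t) ^ 3)⁻¹ * Real.sin (β - t))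
    (hb : b * Real.sin (β - α) = ∫ t in α..β, ((w t) ^ 3)⁻¹ * Real.sin (t - α)) :
    ∫ t in α..β, ((w t) ^ 2)⁻¹ ≤ 4 / 3 * c + 1 / 3 * (c ^ 2)⁻¹ * (a * b * Real.sin (β - α)) := by
  have hs : 0 < Real.sin (β - α) := Real.sin_pos_of_pos_of_lt_pi (by linarith) hlt
  have hw3 : Continuous fun t => ((w t) ^ 3)⁻¹ :=
    (hw.pow 3).inv₀ fun t => (pow_pos (hpos t) 3).ne'
  have hw2 : Continuous fun t => ((w t) ^ 2)⁻¹ :=
    (hw.pow 2).inv₀ fun t => (pow_pos (hpos t) 2).ne'
  have hc1 : Continuous fun t => ((w t) ^ 3)⁻¹ * Real.sin (β - t) :=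
    hw3.mul (Real.continuous_sin.comp (continuous_const.sub continuous_id))
  have hc2 : Continuous fun t => ((w t) ^ 3)⁻¹ * Real.sin (t - α) :=
    hw3.mul (Real.continuous_sin.comp (continuous_id.sub continuous_const))
  have ha0 : 0 < a := by
    have : 0 < a * Real.sin (β - α) := by
      rw [ha]
      refine intervalIntegral.intervalIntegral_pos_of_pos_on (hc1.intervalIntegrable _ _) ?_ hab
      intro x hx
      exact mul_pos (inv_pos.2 (pow_pos (hpos x) 3))
        (Real.sin_pos_of_pos_of_lt_pi (by linarith [hx.2]) (by linarith [hx.1]))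
    exact pos_of_mul_pos_left this hs.le
  have hb0 : 0 < b := by
    have : 0 < b * Real.sin (β - α) := by
      rw [hb]
      refine intervalIntegral.intervalIntegral_pos_of_pos_on (hc2.intervalIntegrable _ _) ?_ hab
      intro x hx
      exact mul_pos (inv_pos.2 (pow_pos (hpos x) 3))
        (Real.sin_pos_of_pos_of_lt_pi (by linarith [hx.1]) (by linarith [hx.2]))
    exact pos_of_mul_pos_left this hs.le
  set s := Real.sin (β - α) with hsdef
  set φ : ℝ → ℝ := fun t => Real.sin (β - t) / (a * s) + Real.sin (t - α) / (b * s) with hφ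
  have hφpos : ∀ t ∈ Icc α β, 0 < φ t := by
    intro t ht
    have h1 : 0 ≤ Real.sin (β - t) := Real.sin_nonneg_of_nonneg_of_le_pi (by linarith [ht.2]) (by linarith [ht.1])
    have h2 : 0 ≤ Real.sin (t - α) := Real.sin_nonneg_of_nonneg_of_le_pi (by linarith [ht.1]) (by linarith [ht.2])
    have h1' : 0 ≤ Real.sin (β - t) / (a * s) := div_nonneg h1 (by positivity)
    have h2' : 0 ≤ Real.sin (t - α) / (b * s) := div_nonneg h2 (by positivity)
    rcases eq_or_lt_of_le ht.1 with h | h
    · have : 0 < Real.sin (β - t) := Real.sin_pos_of_pos_of_lt_pi (by linarith) (by linarith)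
      have : 0 < Real.sin (β - t) / (a * s) := div_pos this (by positivity)
      simp only [hφ]; linarith
    · have : 0 < Real.sin (t - α) := Real.sin_pos_of_pos_of_lt_pi (by linarith) (by linarith [ht.2])
      have : 0 < Real.sin (t - α) / (b * s) := div_pos this (by positivity)
      simp only [hφ]; linarith
  have hφc : Continuous φ := by
    simp only [hφ]
    fun_prop
  have hu : uIcc α β = Icc α β := uIcc_of_le hab.le
  have hφ2c : ContinuousOn (fun t => ((φ t) ^ 2)⁻¹) (uIcc α β) := by
    rw [hu]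
    exact (hφc.pow 2).continuousOn.inv₀ fun t ht => (pow_pos (hφpos t ht) 2).ne'
  -- the integral of φ⁻²
  have hder : ∀ t ∈ uIcc α β, HasDerivAt (fun t => Real.sin (t - α) / φ t) (1 / a * ((φ t) ^ 2)⁻¹) t := by
    intro t ht
    rw [hu] at ht
    have hp := hφpos t ht
    have d1 : HasDerivAt (fun t => Real.sin (t - α)) (Real.cos (t - α)) t := by
      simpa using ((hasDerivAt_id t).sub_const α).sin
    have d2 : HasDerivAt (fun t => Real.sin (β - t)) (-Real.cos (β - t)) t := by
      simpa using ((hasDerivAt_id t).const_sub β).sin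
    have d3 : HasDerivAt φ (-Real.cos (β - t) / (a * s) + Real.cos (t - α) / (b * s)) t :=
      (d2.div_const _).add (d1.div_const _)
    have d4 : HasDerivAt (fun t => Real.sin (t - α) / φ t) ((Real.cos (t - α) * φ t - Real.sin (t - α) *
        (-Real.cos (β - t) / (a * s) + Real.cos (t - α) / (b * s))) / (φ t) ^ 2) t := d1.div d3 hp.ne'
    refine d4.congr_deriv ?_
    have e : s = Real.cos (t - α) * Real.sin (β - t) + Real.sin (t - α) * Real.cos (β - t) := by
      rw [hsdef, show β - α = (t - α) + (β - t) by ring, Real.sin_add]; ring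
    have e2 : Real.cos (t - α) * φ t - Real.sin (t - α) *
        (-Real.cos (β - t) / (a * s) + Real.cos (t - α) / (b * s)) = 1 / a := by
      simp only [hφ]
      have : Real.cos (t - α) * (Real.sin (β - t) / (a * s) + Real.sin (t - α) / (b * s)) -
          Real.sin (t - α) * (-Real.cos (β - t) / (a * s) + Real.cos (t - α) / (b * s)) =
          (Real.cos (t - α) * Real.sin (β - t) + Real.sin (t - α) * Real.cos (β - t)) / (a * s) := by
        field_simp
        ring
      rw [this, ← e]
      field_simp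
    rw [e2, div_eq_mul_inv]
  have hint : ∫ t in α..β, 1 / a * ((φ t) ^ 2)⁻¹ = s * b := by
    rw [intervalIntegral.integral_eq_sub_of_hasDerivAt hder
      (ContinuousOn.intervalIntegrable (continuousOn_const.mul hφ2c))]
    have : φ β = 1 / b := by
      simp only [hφ, sub_self, Real.sin_zero, zero_div, zero_add, ← hsdef]
      field_simp
    rw [this, sub_self, Real.sin_zero, ← hsdef]
    field_simp
    ring
  have hint2 : ∫ t in α..β, ((φ t) ^ 2)⁻¹ = a * b * s := by
    rw [intervalIntegral.integral_const_mul] at hint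
    generalize ∫ t in α..β, ((φ t) ^ 2)⁻¹ = I at hint ⊢
    calc I = a * (1 / a * I) := by field_simp
      _ = a * b * s := by rw [hint]; ring
  -- the integral of R φ
  have hint3 : ∫ t in α..β, ((w t) ^ 3)⁻¹ * φ t = 2 := by
    have e : (fun t => ((w t) ^ 3)⁻¹ * φ t) = fun t =>
        (a * s)⁻¹ * (((w t) ^ 3)⁻¹ * Real.sin (β - t)) + (b * s)⁻¹ * (((w t) ^ 3)⁻¹ * Real.sin (t - α)) := by
      funext t
      simp only [hφ]
      ring
    rw [e, intervalIntegral.integral_add ((hc1.const_mul _).intervalIntegrable _ _)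
      ((hc2.const_mul _).intervalIntegrable _ _), intervalIntegral.integral_const_mul,
      intervalIntegral.integral_const_mul, ← ha, ← hb, inv_mul_cancel₀ (by positivity),
      inv_mul_cancel₀ (by positivity)]
    norm_num
  have i1 : IntervalIntegrable (fun t => 2 / 3 * c * (((w t) ^ 3)⁻¹ * φ t)) volume α β :=
    ((hw3.mul hφc).const_mul _).intervalIntegrable _ _
  have i2 : IntervalIntegrable (fun t => 1 / 3 * (c ^ 2)⁻¹ * ((φ t) ^ 2)⁻¹) volume α β :=
    ContinuousOn.intervalIntegrable (continuousOn_const.mul hφ2c)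
  have hle : ∫ t in α..β, ((w t) ^ 2)⁻¹ ≤
      ∫ t in α..β, (2 / 3 * c * (((w t) ^ 3)⁻¹ * φ t) + 1 / 3 * (c ^ 2)⁻¹ * ((φ t) ^ 2)⁻¹) := by
    refine intervalIntegral.integral_mono_on hab.le (hw2.intervalIntegrable _ _) ?_ ?_
    · exact i1.add i2
    · intro t ht
      have hp := hφpos t ht
      have hwt := hpos t
      have key : 0 ≤ 2 / 3 * c * (((w t) ^ 3)⁻¹ * φ t) + 1 / 3 * (c ^ 2)⁻¹ * ((φ t) ^ 2)⁻¹ - ((w t) ^ 2)⁻¹ := by
        have e : 2 / 3 * c * (((w t) ^ 3)⁻¹ * φ t) + 1 / 3 * (c ^ 2)⁻¹ * ((φ t) ^ 2)⁻¹ - ((w t) ^ 2)⁻¹ =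
            (2 * (c * φ t) + w t) * (c * φ t - w t) ^ 2 / (3 * (w t) ^ 3 * c ^ 2 * (φ t) ^ 2) := by
          field_simp
          ring
        rw [e]
        positivity
      linarith
  refine hle.trans (le_of_eq ?_)
  rw [intervalIntegral.integral_add i1 i2, intervalIntegral.integral_const_mul,
    intervalIntegral.integral_const_mul, hint2, hint3]
  ring

/-- decomposition of a chord in the frame of the end directions -/
theorem area_chord {R : ℝ → ℝ} (hR : Continuous R) {α β a b : ℝ}
    (ha : a * Real.sin (β - α) = ∫ t in α..β, R t * Real.sin (β - t))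
    (hb : b * Real.sin (β - α) = ∫ t in α..β, R t * Real.sin (t - α)) (hs : Real.sin (β - α) ≠ 0) :
    (∫ t in α..β, R t * Real.cos t) = a * Real.cos α + b * Real.cos β ∧
      (∫ t in α..β, R t * Real.sin t) = a * Real.sin α + b * Real.sin β := by
  have hc1 : Continuous fun t => R t * Real.sin (β - t) :=
    hR.mul (Real.continuous_sin.comp (continuous_const.sub continuous_id))
  have hc2 : Continuous fun t => R t * Real.sin (t - α) :=
    hR.mul (Real.continuous_sin.comp (continuous_id.sub continuous_const))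
  constructor
  · apply mul_left_cancel₀ hs
    rw [← intervalIntegral.integral_const_mul]
    have e : (fun t => Real.sin (β - α) * (R t * Real.cos t)) = fun t =>
        Real.cos α * (R t * Real.sin (β - t)) + Real.cos β * (R t * Real.sin (t - α)) := by
      funext t
      simp only [Real.sin_sub]
      ring
    rw [e, intervalIntegral.integral_add ((hc1.const_mul _).intervalIntegrable _ _)
      ((hc2.const_mul _).intervalIntegrable _ _), intervalIntegral.integral_const_mul,
      intervalIntegral.integral_const_mul, ← ha, ← hb]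
    ring
  · apply mul_left_cancel₀ hs
    rw [← intervalIntegral.integral_const_mul]
    have e : (fun t => Real.sin (β - α) * (R t * Real.sin t)) = fun t =>
        Real.sin α * (R t * Real.sin (β - t)) + Real.sin β * (R t * Real.sin (t - α)) := by
      funext t
      simp only [Real.sin_sub]
      ring
    rw [e, intervalIntegral.integral_add ((hc1.const_mul _).intervalIntegrable _ _)
      ((hc2.const_mul _).intervalIntegrable _ _), intervalIntegral.integral_const_mul,
      intervalIntegral.integral_const_mul, ← ha, ← hb]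
    ring

theorem area_XX_sub {R : ℝ → ℝ} (hR : Continuous R) (α β : ℝ) :
    XX R β - XX R α = ∫ t in α..β, R t * Real.cos t := by
  have hc : Continuous fun t => R t * Real.cos t := hR.mul Real.continuous_cos
  exact intervalIntegral.integral_interval_sub_left (hc.intervalIntegrable _ _) (hc.intervalIntegrable _ _)

theorem area_XY_sub {R : ℝ → ℝ} (hR : Continuous R) (α β : ℝ) :
    XY R β - XY R α = ∫ t in α..β, R t * Real.sin t := by
  have hc : Continuous fun t => R t * Real.sin t := hR.mul Real.continuous_sin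
  exact intervalIntegral.integral_interval_sub_left (hc.intervalIntegrable _ _) (hc.intervalIntegrable _ _)

theorem area_XX_cont {R : ℝ → ℝ} (hR : Continuous R) : Continuous (XX R) :=
  intervalIntegral.continuous_primitive
    (fun _ _ => (hR.mul Real.continuous_cos).intervalIntegrable _ _) 0

theorem area_XY_cont {R : ℝ → ℝ} (hR : Continuous R) : Continuous (XY R) :=
  intervalIntegral.continuous_primitive
    (fun _ _ => (hR.mul Real.continuous_sin).intervalIntegrable _ _) 0

theorem area_yy_cont {R : ℝ → ℝ} (hR : Continuous R) : Continuous (yy R) :=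
  ((area_XX_cont hR).mul Real.continuous_sin).sub ((area_XY_cont hR).mul Real.continuous_cos)

/-- the area of a sector is at least the area of the triangle -/
theorem area_sector {R : ℝ → ℝ} (hR : Continuous R) (hpos : ∀ t, 0 < R t) {α β : ℝ} (hab : α ≤ β)
    (hlt : β - α ≤ π) :
    XX R α * XY R β - XY R α * XX R β ≤ ∫ t in α..β, yy R t * R t := by
  have hcos : Continuous fun t => R t * Real.cos t := hR.mul Real.continuous_cos
  have hsin : Continuous fun t => R t * Real.sin t := hR.mul Real.continuous_sin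
  set g : ℝ → ℝ := fun t => (XX R t - XX R α) * Real.sin t - (XY R t - XY R α) * Real.cos t with hg
  have hgc : Continuous g :=
    (((area_XX_cont hR).sub continuous_const).mul Real.continuous_sin).sub
      (((area_XY_cont hR).sub continuous_const).mul Real.continuous_cos)
  have hg0 : ∀ t ∈ Icc α β, 0 ≤ g t := by
    intro t ht
    have e : g t = ∫ s in α..t, R s * Real.sin (t - s) := by
      have e1 : (fun s => R s * Real.sin (t - s)) = fun s =>
          Real.sin t * (R s * Real.cos s) - Real.cos t * (R s * Real.sin s) := by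
        funext s
        rw [Real.sin_sub]
        ring
      rw [e1, intervalIntegral.integral_sub ((hcos.const_mul _).intervalIntegrable _ _)
        ((hsin.const_mul _).intervalIntegrable _ _), intervalIntegral.integral_const_mul,
        intervalIntegral.integral_const_mul, ← area_XX_sub hR, ← area_XY_sub hR]
      simp only [hg]
      ring
    rw [e]
    refine intervalIntegral.integral_nonneg ht.1 fun s hs => ?_
    exact mul_nonneg (hpos s).le
      (Real.sin_nonneg_of_nonneg_of_le_pi (by linarith [hs.2]) (by linarith [hs.1, ht.2]))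
  have e : (fun t => yy R t * R t) = fun t =>
      g t * R t + (XX R α * (R t * Real.sin t) - XY R α * (R t * Real.cos t)) := by
    funext t
    simp only [hg, yy]
    ring
  have i1 : IntervalIntegrable (fun t => g t * R t) volume α β := (hgc.mul hR).intervalIntegrable _ _
  have i2 : IntervalIntegrable (fun t => XX R α * (R t * Real.sin t)) volume α β :=
    (hsin.const_mul _).intervalIntegrable _ _
  have i3 : IntervalIntegrable (fun t => XY R α * (R t * Real.cos t)) volume α β :=
    (hcos.const_mul _).intervalIntegrable _ _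
  rw [e, intervalIntegral.integral_add i1 (i2.sub i3), intervalIntegral.integral_sub i2 i3,
    intervalIntegral.integral_const_mul, intervalIntegral.integral_const_mul, ← area_XX_sub hR,
    ← area_XY_sub hR]
  have h0 : 0 ≤ ∫ t in α..β, g t * R t :=
    intervalIntegral.integral_nonneg hab fun t ht => mul_nonneg (hg0 t ht) (hpos t).le
  nlinarith

end AreaAux

open AreaAux in
/-- affine isoperimetric inequality with the constant 64 -/
theorem area_bound {w : ℝ → ℝ} (hw : Continuous w) (hpos : ∀ t, 0 < w t)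
    (hR : Wt (fun t => ((w t) ^ 3)⁻¹)) :
    (∫ t in (0 : ℝ)..2 * π, ((w t) ^ 2)⁻¹) ^ 3 ≤ 64 * ar (fun t => ((w t) ^ 3)⁻¹) := by
  have hpi := Real.pi_pos
  set R : ℝ → ℝ := fun t => ((w t) ^ 3)⁻¹ with hRdef
  have hRc : Continuous R := hR.cont
  have hRpos : ∀ t, 0 < R t := hR.pos
  have hw2 : Continuous fun t => ((w t) ^ 2)⁻¹ :=
    (hw.pow 2).inv₀ fun t => (pow_pos (hpos t) 2).ne'
  have hw2pos : ∀ t, 0 < ((w t) ^ 2)⁻¹ := fun t => inv_pos.2 (pow_pos (hpos t) 2)
  have X0 : XX R 0 = 0 := by simp [XX]
  have Y0 : XY R 0 = 0 := by simp [XY]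
  have X2 : XX R (2 * π) = 0 := hR.c0
  have Y2 : XY R (2 * π) = 0 := hR.s0
  have Ypi : 0 < XY R π := by
    refine intervalIntegral.intervalIntegral_pos_of_pos_on
      ((hRc.mul Real.continuous_sin).intervalIntegrable _ _) ?_ hpi
    intro x hx
    exact mul_pos (hRpos x) (Real.sin_pos_of_pos_of_lt_pi hx.1 hx.2)
  -- polar coordinates of the point X(π)
  obtain ⟨r, p, hr, hp0, hpp, hXp, hYp⟩ : ∃ r p : ℝ, 0 < r ∧ 0 < p ∧ p < π ∧
      XX R π = r * Real.cos p ∧ XY R π = r * Real.sin p := by
    have hq : 0 < XX R π ^ 2 + XY R π ^ 2 := by positivity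
    have hr : 0 < √(XX R π ^ 2 + XY R π ^ 2) := Real.sqrt_pos.2 hq
    have hsq : √(XX R π ^ 2 + XY R π ^ 2) ^ 2 = XX R π ^ 2 + XY R π ^ 2 := Real.sq_sqrt hq.le
    set r := √(XX R π ^ 2 + XY R π ^ 2) with hrdef
    have habs : |XX R π / r| ≤ 1 := by
      rw [abs_div, abs_of_pos hr, div_le_one hr]
      exact abs_le_of_sq_le_sq (by nlinarith [sq_nonneg (XY R π)]) hr.le
    have hcos : Real.cos (Real.arccos (XX R π / r)) = XX R π / r :=
      Real.cos_arccos (abs_le.1 habs).1 (abs_le.1 habs).2
    have hsin : Real.sin (Real.arccos (XX R π / r)) = XY R π / r := by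
      rw [Real.sin_arccos]
      have : 1 - (XX R π / r) ^ 2 = (XY R π / r) ^ 2 := by
        field_simp
        linarith
      rw [this, Real.sqrt_sq (by positivity)]
    have hsp : 0 < Real.sin (Real.arccos (XX R π / r)) := by
      rw [hsin]; positivity
    refine ⟨r, Real.arccos (XX R π / r), hr, ?_, ?_, ?_, ?_⟩
    · rcases (Real.arccos_nonneg (XX R π / r)).eq_or_lt with h | h
      · rw [← h, Real.sin_zero] at hsp
        exact absurd hsp (lt_irrefl _)
      · exact h
    · rcases (Real.arccos_le_pi (XX R π / r)).eq_or_lt with h | h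
      · rw [h, Real.sin_pi] at hsp
        exact absurd hsp (lt_irrefl _)
      · exact h
    · rw [hcos]; field_simp
    · rw [hsin]; field_simp
  have hs : 0 < Real.sin p := Real.sin_pos_of_pos_of_lt_pi hp0 hpp
  have s1 : Real.sin (p - 0) = Real.sin p := by rw [sub_zero]
  have s2 : Real.sin (π - p) = Real.sin p := Real.sin_pi_sub p
  have s3 : Real.sin (π + p - π) = Real.sin p := by rw [add_sub_cancel_left]
  have s4 : Real.sin (2 * π - (π + p)) = Real.sin p := by
    rw [show 2 * π - (π + p) = π - p by ring, Real.sin_pi_sub]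
  have cpi : Real.cos (π + p) = -Real.cos p := by rw [add_comm, Real.cos_add_pi]
  have spi : Real.sin (π + p) = -Real.sin p := by rw [add_comm, Real.sin_add_pi]
  -- coefficients of the chords
  have ex : ∀ α β : ℝ, Real.sin (β - α) = Real.sin p → ∃ a b : ℝ,
      a * Real.sin (β - α) = (∫ t in α..β, R t * Real.sin (β - t)) ∧
      b * Real.sin (β - α) = (∫ t in α..β, R t * Real.sin (t - α)) := by
    intro α β h
    rw [h]
    exact ⟨_, _, div_mul_cancel₀ _ hs.ne', div_mul_cancel₀ _ hs.ne'⟩
  obtain ⟨a1, b1, ha1, hb1⟩ := ex 0 p s1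
  obtain ⟨a2, b2, ha2, hb2⟩ := ex p π s2
  obtain ⟨a3, b3, ha3, hb3⟩ := ex π (π + p) s3
  obtain ⟨a4, b4, ha4, hb4⟩ := ex (π + p) (2 * π) s4
  have E1 := area_chord hRc ha1 hb1 (by rw [s1]; exact hs.ne')
  have E2 := area_chord hRc ha2 hb2 (by rw [s2]; exact hs.ne')
  have E3 := area_chord hRc ha3 hb3 (by rw [s3]; exact hs.ne')
  have E4 := area_chord hRc ha4 hb4 (by rw [s4]; exact hs.ne')
  rw [← area_XX_sub hRc, ← area_XY_sub hRc] at E1 E2 E3 E4
  rw [X0, Y0, Real.cos_zero, Real.sin_zero] at E1
  rw [hXp, hYp, Real.cos_pi, Real.sin_pi] at E2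
  rw [hXp, hYp, Real.cos_pi, Real.sin_pi, cpi, spi] at E3
  rw [X2, Y2, cpi, spi, Real.cos_two_pi, Real.sin_two_pi] at E4
  obtain ⟨E1x, E1y⟩ := E1
  obtain ⟨E2x, E2y⟩ := E2
  obtain ⟨E3x, E3y⟩ := E3
  obtain ⟨E4x, E4y⟩ := E4
  have hr1 : b1 + a2 = r := by
    apply mul_right_cancel₀ hs.ne'
    linarith
  have hr2 : b3 + a4 = r := by
    apply mul_right_cancel₀ hs.ne'
    linarith
  have hab1 : a1 = b2 := by
    have : a1 - b2 = (r - (b1 + a2)) * Real.cos p := by linarith
    rw [hr1] at this
    linarith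
  have hab2 : a3 = b4 := by
    have : b4 - a3 = ((b3 + a4) - r) * Real.cos p := by linarith
    rw [hr2] at this
    linarith
  -- area
  have A1 := area_sector hRc hRpos (α := 0) (β := p) hp0.le (by linarith)
  have A2 := area_sector hRc hRpos (α := p) (β := π) hpp.le (by linarith)
  have A3 := area_sector hRc hRpos (α := π) (β := π + p) (by linarith) (by linarith)
  have A4 := area_sector hRc hRpos (α := π + p) (β := 2 * π) (by linarith) (by linarith)
  have hyc : Continuous fun t => yy R t * R t := (area_yy_cont hRc).mul hRc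
  have hsum : ar R = (∫ t in (0 : ℝ)..p, yy R t * R t) + (∫ t in p..π, yy R t * R t) +
      (∫ t in π..π + p, yy R t * R t) + ∫ t in π + p..2 * π, yy R t * R t := by
    rw [intervalIntegral.integral_add_adjacent_intervals (hyc.intervalIntegrable _ _) (hyc.intervalIntegrable _ _),
      intervalIntegral.integral_add_adjacent_intervals (hyc.intervalIntegrable _ _) (hyc.intervalIntegrable _ _),
      intervalIntegral.integral_add_adjacent_intervals (hyc.intervalIntegrable _ _) (hyc.intervalIntegrable _ _)]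
    rfl
  have harea : Real.sin p * r * (a1 + a3) ≤ ar R := by
    rw [X0, Y0] at A1
    rw [X2, Y2] at A4
    rw [hXp, hYp] at A2 A3
    have e1 : XX R p = a1 + b1 * Real.cos p := by linarith
    have e2 : XY R p = b1 * Real.sin p := by linarith
    have e3 : XX R (π + p) = r * Real.cos p - a3 - b3 * Real.cos p := by linarith
    have e4 : XY R (π + p) = r * Real.sin p - b3 * Real.sin p := by linarith
    rw [e1, e2] at A2
    rw [e3, e4] at A3
    rw [hsum]
    have f2 : (a1 + b1 * Real.cos p) * (r * Real.sin p) - b1 * Real.sin p * (r * Real.cos p) =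
        a1 * r * Real.sin p := by ring
    have f3 : r * Real.cos p * (r * Real.sin p - b3 * Real.sin p) -
        r * Real.sin p * (r * Real.cos p - a3 - b3 * Real.cos p) = a3 * r * Real.sin p := by ring
    rw [f2] at A2
    rw [f3] at A3
    rw [zero_mul, zero_mul, sub_zero] at A1
    rw [mul_zero, mul_zero, sub_zero] at A4
    have f4 : Real.sin p * r * (a1 + a3) = a1 * r * Real.sin p + a3 * r * Real.sin p := by ring
    rw [f4]
    linarith
  -- length
  have hlsum : (∫ t in (0 : ℝ)..2 * π, ((w t) ^ 2)⁻¹) = (∫ t in (0 : ℝ)..p, ((w t) ^ 2)⁻¹) +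
      (∫ t in p..π, ((w t) ^ 2)⁻¹) + (∫ t in π..π + p, ((w t) ^ 2)⁻¹) + ∫ t in π + p..2 * π, ((w t) ^ 2)⁻¹ := by
    rw [intervalIntegral.integral_add_adjacent_intervals (hw2.intervalIntegrable _ _) (hw2.intervalIntegrable _ _),
      intervalIntegral.integral_add_adjacent_intervals (hw2.intervalIntegrable _ _) (hw2.intervalIntegrable _ _),
      intervalIntegral.integral_add_adjacent_intervals (hw2.intervalIntegrable _ _) (hw2.intervalIntegrable _ _)]
  have hl : 0 < ∫ t in (0 : ℝ)..2 * π, ((w t) ^ 2)⁻¹ :=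
    intervalIntegral.intervalIntegral_pos_of_pos_on (hw2.intervalIntegrable _ _) (fun x _ => hw2pos x) (by linarith)
  set l := ∫ t in (0 : ℝ)..2 * π, ((w t) ^ 2)⁻¹ with hldef
  have hc : 0 < l / 8 := by positivity
  have L1 := area_arc_len hw hpos hp0 (by linarith) hc ha1 hb1
  have L2 := area_arc_len hw hpos hpp (by linarith) hc ha2 hb2
  have L3 := area_arc_len hw hpos (α := π) (β := π + p) (by linarith) (by linarith) hc ha3 hb3
  have L4 := area_arc_len hw hpos (α := π + p) (β := 2 * π) (by linarith) (by linarith) hc ha4 hb4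
  rw [s1] at L1
  rw [s2] at L2
  rw [s3] at L3
  rw [s4] at L4
  have hQ : l ≤ 16 / 3 * (l / 8) + 1 / 3 * ((l / 8) ^ 2)⁻¹ * (Real.sin p * r * (a1 + a3)) := by
    have e : Real.sin p * r * (a1 + a3) = a1 * b1 * Real.sin p + a2 * b2 * Real.sin p +
        a3 * b3 * Real.sin p + a4 * b4 * Real.sin p := by
      rw [← hab1, ← hab2]
      have h1 : r * a1 = (b1 + a2) * a1 := by rw [hr1]
      have h2 : r * a3 = (b3 + a4) * a3 := by rw [hr2]
      calc Real.sin p * r * (a1 + a3) = Real.sin p * (r * a1 + r * a3) := by ring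
        _ = _ := by rw [h1, h2]; ring
    rw [e]
    linarith
  have hfin : l ^ 3 ≤ 64 * (Real.sin p * r * (a1 + a3)) := by
    have h1 : l * l ^ 2 ≤ (16 / 3 * (l / 8) + 1 / 3 * ((l / 8) ^ 2)⁻¹ * (Real.sin p * r * (a1 + a3))) * l ^ 2 :=
      mul_le_mul_of_nonneg_right hQ (by positivity)
    have h2 : (16 / 3 * (l / 8) + 1 / 3 * ((l / 8) ^ 2)⁻¹ * (Real.sin p * r * (a1 + a3))) * l ^ 2 =
        2 / 3 * l ^ 3 + 64 / 3 * (Real.sin p * r * (a1 + a3)) := by
      field_simp
      ring
    rw [h2, show l * l ^ 2 = l ^ 3 by ring] at h1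
    linarith
  linarith

end Pool.Agent.MP9dd972
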