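import Mathlib
import Pool.Agent.Lib.MP_9dd972_gt.Defs

/-!
# MP_9dd972_gt, planar case, module SUPP: support functions of compact planar sets
-/

set_option autoImplicit false

namespace Pool.Agent.MP9dd972

open MeasureTheory Set
open scoped ENNReal NNReal Real

namespace SuppAux

theorem inner_ee (t : ℝ) (x : E2) :
    (inner ℝ (ee t) x : ℝ) = Real.cos t * x 0 + Real.sin t * x 1 := by
  simp [ee, PiLp.inner_apply, Fin.sum_univ_two]
  ring

theorem inner_ff (t : ℝ) (x : E2) :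
    (inner ℝ (ff t) x : ℝ) = -Real.sin t * x 0 + Real.cos t * x 1 := by
  simp [ff, PiLp.inner_apply, Fin.sum_univ_two]
  ring

theorem ee_per (t : ℝ) : ee (t + 2 * π) = ee t := by
  simp [ee, Real.cos_add_two_pi, Real.sin_add_two_pi]

theorem ff_per (t : ℝ) : ff (t + 2 * π) = ff t := by
  simp [ff, Real.cos_add_two_pi, Real.sin_add_two_pi]

theorem cont_coord (i : Fin 2) : Continuous (fun x : E2 => x i) := by
  fun_prop

theorem cont_inner_ee (t : ℝ) : Continuous (fun x : E2 => (inner ℝ (ee t) x : ℝ)) := by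
  fun_prop

theorem cont_inner_ff (t : ℝ) : Continuous (fun x : E2 => (inner ℝ (ff t) x : ℝ)) := by
  fun_prop

theorem bddAbove_ee {L : Set E2} (hL : IsCompact L) (t : ℝ) :
    BddAbove ((fun x : E2 => (inner ℝ (ee t) x : ℝ)) '' L) :=
  (hL.image (cont_inner_ee t)).bddAbove

theorem exists_bound {L : Set E2} (hL : IsCompact L) :
    ∃ B : ℝ, 0 ≤ B ∧ ∀ x ∈ L, |x 0| ≤ B ∧ |x 1| ≤ B := by
  obtain ⟨B0, h0⟩ := (hL.image (cont_coord 0).abs).bddAbove
  obtain ⟨B1, h1⟩ := (hL.image (cont_coord 1).abs).bddAbove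
  refine ⟨max (max B0 B1) 0, le_max_right _ _, fun x hx => ⟨?_, ?_⟩⟩
  · exact (h0 ⟨x, hx, rfl⟩).trans ((le_max_left _ _).trans (le_max_left _ _))
  · exact (h1 ⟨x, hx, rfl⟩).trans ((le_max_right _ _).trans (le_max_left _ _))

theorem exists_max {L : Set E2} (hL : IsCompact L) (hne : L.Nonempty) (t : ℝ) :
    ∃ x ∈ L, (inner ℝ (ee t) x : ℝ) = hS L t := by
  obtain ⟨x, hx, hmax⟩ := hL.exists_isMaxOn hne (cont_inner_ee t).continuousOn
  refine ⟨x, hx, ?_⟩
  apply le_antisymm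
  · exact le_csSup (bddAbove_ee hL t) ⟨x, hx, rfl⟩
  · apply csSup_le (hne.image _)
    rintro _ ⟨y, hy, rfl⟩
    exact hmax hy

end SuppAux

open SuppAux

theorem inner_le_hS {L : Set E2} (hL : IsCompact L) {x : E2} (hx : x ∈ L) (t : ℝ) :
    (inner ℝ (ee t) x : ℝ) ≤ hS L t :=
  le_csSup (bddAbove_ee hL t) ⟨x, hx, rfl⟩

theorem exists_top {L : Set E2} (hL : IsCompact L) (hne : L.Nonempty) (t : ℝ) :
    ∃ x ∈ L, (inner ℝ (ee t) x : ℝ) = hS L t ∧ (inner ℝ (ff t) x : ℝ) = rS L t ∧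
      ∀ y ∈ L, (inner ℝ (ee t) y : ℝ) = hS L t → (inner ℝ (ff t) y : ℝ) ≤ rS L t := by
  have hF : IsCompact {x | x ∈ L ∧ (inner ℝ (ee t) x : ℝ) = hS L t} :=
    hL.inter_right (isClosed_eq (cont_inner_ee t) continuous_const)
  have hFne : {x | x ∈ L ∧ (inner ℝ (ee t) x : ℝ) = hS L t}.Nonempty := by
    obtain ⟨x, hx, h⟩ := exists_max hL hne t
    exact ⟨x, hx, h⟩
  have hbd : BddAbove ((fun x : E2 => (inner ℝ (ff t) x : ℝ)) ''
      {x | x ∈ L ∧ (inner ℝ (ee t) x : ℝ) = hS L t}) := (hF.image (cont_inner_ff t)).bddAbove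
  obtain ⟨x, hx, hmax⟩ := hF.exists_isMaxOn hFne (cont_inner_ff t).continuousOn
  refine ⟨x, hx.1, hx.2, ?_, ?_⟩
  · apply le_antisymm
    · exact le_csSup hbd ⟨x, hx, rfl⟩
    · apply csSup_le (hFne.image _)
      rintro _ ⟨y, hy, rfl⟩
      exact hmax hy
  · intro y hy h
    exact le_csSup hbd ⟨y, ⟨hy, h⟩, rfl⟩

theorem hS_lip {L : Set E2} (hL : IsCompact L) (hne : L.Nonempty) :
    ∃ M : ℝ≥0, LipschitzWith M (hS L) := by
  obtain ⟨B, hB0, hB⟩ := exists_bound hL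
  refine ⟨⟨2 * B, by positivity⟩, ?_⟩
  apply LipschitzWith.of_le_add_mul
  intro s t
  obtain ⟨x, hx, hxs⟩ := exists_max hL hne s
  have h1 : (inner ℝ (ee t) x : ℝ) ≤ hS L t := inner_le_hS hL hx t
  rw [← hxs]
  have hc : |Real.cos s - Real.cos t| ≤ |s - t| := by
    have := Real.abs_cos_sub_cos_le s t
    exact this
  have hs : |Real.sin s - Real.sin t| ≤ |s - t| := by
    have := Real.abs_sin_sub_sin_le s t
    exact this
  rw [inner_ee] at h1 ⊢
  obtain ⟨b0, b1⟩ := hB x hx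
  have e0 : (Real.cos s - Real.cos t) * x 0 ≤ |s - t| * B := by
    calc (Real.cos s - Real.cos t) * x 0 ≤ |(Real.cos s - Real.cos t) * x 0| := le_abs_self _
      _ = |Real.cos s - Real.cos t| * |x 0| := abs_mul _ _
      _ ≤ |s - t| * B := mul_le_mul hc b0 (abs_nonneg _) (abs_nonneg _)
  have e1 : (Real.sin s - Real.sin t) * x 1 ≤ |s - t| * B := by
    calc (Real.sin s - Real.sin t) * x 1 ≤ |(Real.sin s - Real.sin t) * x 1| := le_abs_self _
      _ = |Real.sin s - Real.sin t| * |x 1| := abs_mul _ _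
      _ ≤ |s - t| * B := mul_le_mul hs b1 (abs_nonneg _) (abs_nonneg _)
  rw [Real.dist_eq]
  change _ ≤ hS L t + (2 * B) * |s - t|
  nlinarith

theorem hS_per (L : Set E2) (t : ℝ) : hS L (t + 2 * π) = hS L t := by
  simp only [hS, ee_per]

theorem rS_per (L : Set E2) (t : ℝ) : rS L (t + 2 * π) = rS L t := by
  simp only [rS, hS_per, ee_per, ff_per]

theorem hS_tc {L : Set E2} (hL : IsCompact L) (hne : L.Nonempty) {a x b : ℝ} (hax : a ≤ x)
    (hxb : x ≤ b) (hpi : b - a ≤ π) :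
    hS L x * Real.sin (b - a) ≤ hS L a * Real.sin (b - x) + hS L b * Real.sin (x - a) := by
  obtain ⟨y, hy, hyx⟩ := exists_max hL hne x
  have ha := inner_le_hS hL hy a
  have hb := inner_le_hS hL hy b
  have s1 : 0 ≤ Real.sin (b - x) := Real.sin_nonneg_of_nonneg_of_le_pi (by linarith) (by linarith)
  have s2 : 0 ≤ Real.sin (x - a) := Real.sin_nonneg_of_nonneg_of_le_pi (by linarith) (by linarith)
  have key : (inner ℝ (ee x) y : ℝ) * Real.sin (b - a) =
      inner ℝ (ee a) y * Real.sin (b - x) + inner ℝ (ee b) y * Real.sin (x - a) := by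
    simp only [inner_ee, Real.sin_sub]
    ring
  rw [← hyx, key]
  have := mul_le_mul_of_nonneg_right ha s1
  have := mul_le_mul_of_nonneg_right hb s2
  linarith

theorem rS_bdd {L : Set E2} (hL : IsCompact L) (hne : L.Nonempty) : ∃ M : ℝ, ∀ t, |rS L t| ≤ M := by
  obtain ⟨B, hB0, hB⟩ := exists_bound hL
  refine ⟨2 * B, fun t => ?_⟩
  obtain ⟨x, hx, -, hr, -⟩ := exists_top hL hne t
  rw [← hr, inner_ff]
  obtain ⟨b0, b1⟩ := hB x hx
  have e0 : |-Real.sin t * x 0| ≤ B := by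
    rw [abs_mul, abs_neg]
    calc |Real.sin t| * |x 0| ≤ 1 * B :=
          mul_le_mul (Real.abs_sin_le_one t) b0 (abs_nonneg _) zero_le_one
      _ = B := one_mul B
  have e1 : |Real.cos t * x 1| ≤ B := by
    rw [abs_mul]
    calc |Real.cos t| * |x 1| ≤ 1 * B :=
          mul_le_mul (Real.abs_cos_le_one t) b1 (abs_nonneg _) zero_le_one
      _ = B := one_mul B
  calc |-Real.sin t * x 0 + Real.cos t * x 1| ≤ |-Real.sin t * x 0| + |Real.cos t * x 1| :=
        abs_add_le _ _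
    _ ≤ 2 * B := by linarith

end Pool.Agent.MP9dd972
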