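import Mathlib
import Pool.Agent.Lib.MP_9dd972_gt.Defs
import Pool.Agent.Lib.MP_9dd972_gt.Supp

/-!
# MP_9dd972_gt, planar case, module POL: the polar set
-/

set_option autoImplicit false

namespace Pool.Agent.MP9dd972

open MeasureTheory Set
open scoped ENNReal NNReal Real

namespace PolAux

theorem norm_ee (t : ℝ) : ‖ee t‖ = 1 := by
  rw [EuclideanSpace.norm_eq]
  simp [ee, Fin.sum_univ_two]

theorem inner_ee_self (t : ℝ) : (inner ℝ (ee t) (ee t) : ℝ) = 1 := by
  rw [real_inner_self_eq_norm_sq, norm_ee]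
  norm_num

theorem exists_ball {K : Set E2} (hK : Body K) : ∃ r > 0, Metric.closedBall (0 : E2) r ⊆ K := by
  have h := mem_interior_iff_mem_nhds.mp hK.zero
  exact Metric.nhds_basis_closedBall.mem_iff.mp h

theorem exists_norm_bound {K : Set E2} (hK : Body K) : ∃ B > 0, ∀ x ∈ K, ‖x‖ ≤ B := by
  obtain ⟨B, hB⟩ := hK.comp.isBounded.exists_norm_le
  exact ⟨max B 1, lt_max_of_lt_right one_pos, fun x hx => (hB x hx).trans (le_max_left _ _)⟩

end PolAux

open PolAux

theorem hS_pos {K : Set E2} (hK : Body K) (t : ℝ) : 0 < hS K t := by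
  obtain ⟨r, hr, hb⟩ := exists_ball hK
  have hx : r • ee t ∈ K := hb (by simp [norm_smul, norm_ee, abs_of_pos hr])
  have h := inner_le_hS hK.comp hx t
  rw [real_inner_smul_right, inner_ee_self, mul_one] at h
  linarith

theorem polS_compact {K : Set E2} (hK : Body K) : IsCompact (polS K) := by
  have hcl : IsClosed (polS K) := by
    have : polS K = ⋂ x ∈ K, {u : E2 | (inner ℝ u x : ℝ) ≤ 1} := by
      ext u
      simp [polS]
    rw [this]
    exact isClosed_biInter fun x _ => isClosed_le (by fun_prop) continuous_const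
  obtain ⟨r, hr, hb⟩ := exists_ball hK
  refine Metric.isCompact_of_isClosed_isBounded hcl ?_
  refine (isBounded_iff_forall_norm_le).mpr ⟨r⁻¹, fun u hu => ?_⟩
  rcases eq_or_ne u 0 with h0 | h0
  · simp [h0, hr.le]
  · have hn : 0 < ‖u‖ := norm_pos_iff.mpr h0
    have hx : (r / ‖u‖) • u ∈ K := hb (by
      rw [mem_closedBall_zero_iff, norm_smul, Real.norm_eq_abs, abs_of_pos (div_pos hr hn),
        div_mul_cancel₀ _ hn.ne'])
    have h := hu _ hx
    rw [real_inner_smul_right, real_inner_self_eq_norm_sq] at h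
    have h2 : r / ‖u‖ * ‖u‖ ^ 2 = r * ‖u‖ := by
      field_simp
    rw [h2] at h
    rw [← one_div, le_div_iff₀ hr]
    linarith

theorem polS_nonempty (K : Set E2) : (polS K).Nonempty :=
  ⟨0, fun x _ => by simp⟩

theorem hS_pol_pos {K : Set E2} (hK : Body K) (t : ℝ) : 0 < hS (polS K) t := by
  obtain ⟨B, hB, hb⟩ := exists_norm_bound hK
  have hu : B⁻¹ • ee t ∈ polS K := by
    intro x hx
    calc (inner ℝ (B⁻¹ • ee t) x : ℝ) ≤ ‖B⁻¹ • ee t‖ * ‖x‖ := real_inner_le_norm _ _
      _ = B⁻¹ * ‖x‖ := by rw [norm_smul, norm_ee, mul_one, Real.norm_eq_abs, abs_of_pos (inv_pos.mpr hB)]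
      _ ≤ B⁻¹ * B := mul_le_mul_of_nonneg_left (hb x hx) (inv_pos.mpr hB).le
      _ = 1 := inv_mul_cancel₀ hB.ne'
  have h := inner_le_hS (polS_compact hK) hu t
  rw [real_inner_smul_right, inner_ee_self, mul_one] at h
  exact lt_of_lt_of_le (inv_pos.mpr hB) h

theorem mem_body_iff {K : Set E2} (hK : Body K) {r t : ℝ} (hr : 0 ≤ r) :
    r • ee t ∈ K ↔ r * hS (polS K) t ≤ 1 := by
  constructor
  · intro h
    obtain ⟨u, hu, hut, -⟩ := exists_top (polS_compact hK) (polS_nonempty K) t
    have h1 := hu _ h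
    rw [real_inner_smul_right, real_inner_comm, hut] at h1
    exact h1
  · intro h
    by_contra hn
    obtain ⟨f, c, hf, hfc⟩ := geometric_hahn_banach_closed_point hK.conv hK.comp.isClosed hn
    have hc : 0 < c := by
      have := hf 0 (interior_subset hK.zero)
      simpa using this
    set y : E2 := (InnerProductSpace.toDual ℝ E2).symm f with hy
    have hfy : ∀ x, f x = inner ℝ y x := by
      intro x
      rw [hy, InnerProductSpace.toDual_symm_apply]
    have hu : c⁻¹ • y ∈ polS K := by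
      intro x hx
      rw [real_inner_smul_left, ← hfy x]
      calc c⁻¹ * f x ≤ c⁻¹ * c := mul_le_mul_of_nonneg_left (hf x hx).le (inv_pos.mpr hc).le
        _ = 1 := inv_mul_cancel₀ hc.ne'
    have h2 := inner_le_hS (polS_compact hK) hu t
    have h3 : r * (inner ℝ (ee t) (c⁻¹ • y) : ℝ) ≤ 1 :=
      (mul_le_mul_of_nonneg_left h2 hr).trans h
    rw [real_inner_smul_right, real_inner_comm] at h3
    have h4 : f (r • ee t) = r * inner ℝ y (ee t) := by
      rw [hfy, real_inner_smul_right]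
    rw [h4] at hfc
    have h5 : r * (c⁻¹ * (inner ℝ y (ee t) : ℝ)) = (r * inner ℝ y (ee t)) / c := by
      field_simp
    rw [h5, div_le_one hc] at h3
    linarith

theorem unit_mem_polS {K : Set E2} (hK : Body K) (t : ℝ) : (hS K t)⁻¹ • ee t ∈ polS K := by
  intro x hx
  rw [real_inner_smul_left]
  calc (hS K t)⁻¹ * (inner ℝ (ee t) x : ℝ) ≤ (hS K t)⁻¹ * hS K t :=
        mul_le_mul_of_nonneg_left (inner_le_hS hK.comp hx t) (inv_pos.mpr (hS_pos hK t)).le
    _ = 1 := inv_mul_cancel₀ (hS_pos hK t).ne'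

end Pool.Agent.MP9dd972
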