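import Mathlib
import Pool.Agent.Lib.MP_9dd972_gt.Defs
import Pool.Agent.Lib.MP_9dd972_gt.Supp
import Pool.Agent.Lib.MP_9dd972_gt.Pol

/-!
# MP_9dd972_gt, planar case, module CENT: the centroid condition in polar coordinates
-/

set_option autoImplicit false

namespace Pool.Agent.MP9dd972

open MeasureTheory Set
open scoped ENNReal NNReal Real

namespace CentAux

/-- Coordinates. -/
noncomputable def Phi : ℝ × ℝ ≃ᵐ E2 :=
  (MeasurableEquiv.finTwoArrow (α := ℝ)).symm.trans (MeasurableEquiv.toLp 2 (Fin 2 → ℝ))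

theorem Phi_apply (p : ℝ × ℝ) : Phi p = !₂[p.1, p.2] := rfl

theorem Phi_mp : MeasurePreserving Phi :=
  (volume_preserving_finTwoArrow ℝ).symm.trans
    (EuclideanSpace.volume_preserving_symm_measurableEquiv_toLp (Fin 2)).symm

theorem Phi_polar (r t : ℝ) : Phi (polarCoord.symm (r, t)) = r • ee t := by
  rw [Phi_apply, polarCoord_symm_apply]
  ext i
  fin_cases i <;> simp [ee]

theorem polar_int {K : Set E2} (hK : Body K) (F : E2 → ℝ) (c : ℝ → ℝ) (hc : Continuous c)
    (hF : ∀ r t, F (r • ee t) = r * c t) :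
    ∫ x in K, F x = ∫ t in Ioo (-π) π, ((hS (polS K) t)⁻¹) ^ 3 / 3 * c t := by
  obtain ⟨N, hN⟩ := hS_lip (polS_compact hK) (polS_nonempty K)
  set w : ℝ → ℝ := hS (polS K) with hw
  have hwc : Continuous w := hN.continuous
  have hwp : ∀ t, 0 < w t := hS_pol_pos hK
  have hKm : MeasurableSet K := hK.comp.isClosed.measurableSet
  have s1 : ∫ x in K, F x = ∫ x, K.indicator F x := (integral_indicator hKm).symm
  have s2 : ∫ x, K.indicator F x = ∫ p, K.indicator F (Phi p) :=
    (Phi_mp.integral_comp Phi.measurableEmbedding _).symm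
  have s3 : ∫ p, K.indicator F (Phi p) =
      ∫ p in polarCoord.target, p.1 • K.indicator F (Phi (polarCoord.symm p)) :=
    (integral_comp_polarCoord_symm (fun p => K.indicator F (Phi p))).symm
  set S : Set (ℝ × ℝ) := {z | z.2 * w z.1 ≤ 1} with hS'
  set g : ℝ × ℝ → ℝ := fun z => z.2 ^ 2 * c z.1 with hg
  have hSm : MeasurableSet S := (isClosed_le (by fun_prop) continuous_const).measurableSet
  have hgc : Continuous g := by fun_prop
  have s4 : ∫ p in polarCoord.target, p.1 • K.indicator F (Phi (polarCoord.symm p)) =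
      ∫ p in Ioi (0 : ℝ) ×ˢ Ioo (-π) π, S.indicator g p.swap := by
    rw [polarCoord_target]
    apply setIntegral_congr_fun (measurableSet_Ioi.prod measurableSet_Ioo)
    rintro ⟨r, t⟩ ⟨hr, -⟩
    have hr' : (0 : ℝ) < r := hr
    simp only
    rw [Phi_polar]
    by_cases hm : r • ee t ∈ K
    · rw [indicator_of_mem hm, hF]
      have hm2 : (r, t).swap ∈ S := (mem_body_iff hK hr'.le).mp hm
      rw [indicator_of_mem hm2]
      simp only [hg, Prod.swap, smul_eq_mul]
      ring
    · rw [indicator_of_notMem hm]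
      have hm2 : (r, t).swap ∉ S := fun h => hm ((mem_body_iff hK hr'.le).mpr h)
      rw [indicator_of_notMem hm2]
      simp
  have s5 : ∫ p in Ioi (0 : ℝ) ×ˢ Ioo (-π) π, S.indicator g p.swap =
      ∫ z in Ioo (-π) π ×ˢ Ioi (0 : ℝ), S.indicator g z :=
    setIntegral_prod_swap (μ := (volume : Measure ℝ)) (ν := (volume : Measure ℝ))
      (Ioo (-π) π) (Ioi (0 : ℝ)) (S.indicator g)
  obtain ⟨t0, -, ht0⟩ := (isCompact_Icc (a := -π) (b := π)).exists_isMinOn
    (nonempty_Icc.mpr (by linarith [Real.pi_pos])) hwc.continuousOn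
  have hint : IntegrableOn (S.indicator g) (Ioo (-π) π ×ˢ Ioi (0 : ℝ)) := by
    rw [IntegrableOn, integrable_indicator_iff hSm, IntegrableOn, Measure.restrict_restrict hSm]
    have hcomp : IsCompact (Icc (-π) π ×ˢ Icc (0 : ℝ) (w t0)⁻¹) := isCompact_Icc.prod isCompact_Icc
    refine (hgc.continuousOn.integrableOn_compact hcomp).mono_set ?_
    rintro ⟨t, r⟩ ⟨h1, h2, h3⟩
    have h3' : (0 : ℝ) < r := h3
    have h1' : r * w t ≤ 1 := h1
    have ht : t ∈ Icc (-π) π := Ioo_subset_Icc_self h2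
    refine ⟨ht, h3'.le, ?_⟩
    have h4 : w t0 ≤ w t := ht0 ht
    change r ≤ (w t0)⁻¹
    rw [← one_div, le_div_iff₀ (hwp t0)]
    exact (mul_le_mul_of_nonneg_left h4 h3'.le).trans h1'
  have s6 : ∫ z in Ioo (-π) π ×ˢ Ioi (0 : ℝ), S.indicator g z =
      ∫ t in Ioo (-π) π, ∫ r in Ioi (0 : ℝ), S.indicator g (t, r) :=
    setIntegral_prod (μ := (volume : Measure ℝ)) (ν := (volume : Measure ℝ)) _ hint
  rw [s1, s2, s3, s4, s5, s6]
  congr 1
  funext t
  have e1 : (fun r : ℝ => S.indicator g (t, r)) =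
      (Iic (w t)⁻¹).indicator (fun r => r ^ 2 * c t) := by
    funext r
    have hiff : (t, r) ∈ S ↔ r ∈ Iic (w t)⁻¹ := by
      change r * w t ≤ 1 ↔ r ≤ (w t)⁻¹
      rw [← one_div, le_div_iff₀ (hwp t)]
    by_cases hm : (t, r) ∈ S
    · rw [indicator_of_mem hm, indicator_of_mem (hiff.mp hm)]
    · rw [indicator_of_notMem hm, indicator_of_notMem (fun h => hm (hiff.mpr h))]
  rw [e1, setIntegral_indicator measurableSet_Iic, Ioi_inter_Iic,
    ← intervalIntegral.integral_of_le (inv_pos.mpr (hwp t)).le,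
    intervalIntegral.integral_mul_const, integral_pow]
  norm_num

end CentAux

open CentAux

theorem cent_wt {K : Set E2} (hK : Body K) (hc : ∫ x in K, x = (0 : E2)) :
    Wt (fun t => ((hS (polS K) t) ^ 3)⁻¹) := by
  obtain ⟨N, hN⟩ := hS_lip (polS_compact hK) (polS_nonempty K)
  have hwp : ∀ t, 0 < hS (polS K) t := hS_pol_pos hK
  have hint : Integrable (fun x : E2 => x) (volume.restrict K) :=
    (continuous_id.continuousOn.integrableOn_compact hK.comp)
  have hcoord : ∀ i : Fin 2, ∫ x in K, x i = 0 := by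
    intro i
    have h := (EuclideanSpace.proj (𝕜 := ℝ) i : E2 →L[ℝ] ℝ).integral_comp_comm hint
    rw [hc, map_zero] at h
    exact h
  have hcont : Continuous (fun t => ((hS (polS K) t) ^ 3)⁻¹) :=
    (hN.continuous.pow 3).inv₀ fun t => (pow_pos (hwp t) 3).ne'
  have key : ∀ (i : Fin 2) (c : ℝ → ℝ), Continuous c → (∀ t, c (t + 2 * π) = c t) →
      (∀ (r t : ℝ), (r • ee t) i = r * c t) →
      ∫ t in (0 : ℝ)..2 * π, ((hS (polS K) t) ^ 3)⁻¹ * c t = 0 := by
    intro i c hcc hcp hci
    have h1 := polar_int hK (fun x => x i) c hcc hci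
    rw [hcoord i] at h1
    rw [← integral_Ioc_eq_integral_Ioo, ← intervalIntegral.integral_of_le
      (by linarith [Real.pi_pos])] at h1
    have e1 : ∫ t in (-π)..π, ((hS (polS K) t)⁻¹) ^ 3 / 3 * c t =
        (1 / 3) * ∫ t in (-π)..π, ((hS (polS K) t) ^ 3)⁻¹ * c t := by
      rw [← intervalIntegral.integral_const_mul]
      congr 1
      funext t
      rw [inv_pow]
      ring
    rw [e1] at h1
    have hper : Function.Periodic (fun t => ((hS (polS K) t) ^ 3)⁻¹ * c t) (2 * π) := by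
      intro t
      simp only [hS_per, hcp]
    have h2 := hper.intervalIntegral_add_eq (-π) 0
    have e2 : -π + 2 * π = π := by ring
    rw [e2, zero_add] at h2
    rw [← h2]
    linarith
  refine ⟨hcont, fun t => by simp only [hS_per], fun t => inv_pos.mpr (pow_pos (hwp t) 3), ?_, ?_⟩
  · exact key 0 Real.cos Real.continuous_cos Real.cos_add_two_pi (fun r t => by simp [ee])
  · exact key 1 Real.sin Real.continuous_sin Real.sin_add_two_pi (fun r t => by simp [ee])

end Pool.Agent.MP9dd972
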