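import Mathlib
import Pool.Agent.Lib.MP_9dd972_gt.Defs

/-!
Integration by parts for a Stieltjes measure and a Lipschitz function.
-/

set_option autoImplicit false

namespace Pool.Agent.MP9dd972

open MeasureTheory Set
open scoped ENNReal NNReal Real

namespace IbpAux

theorem lip_ftc {f : ℝ → ℝ} {M : ℝ≥0} (hf : LipschitzWith M f) (x y : ℝ) :
    ∫ t in x..y, deriv f t = f y - f x :=
  (LipschitzOnWith.absolutelyContinuousOnInterval
    (hf.lipschitzOnWith (s := uIcc x y))).integral_deriv_eq_sub

theorem deriv_bound {f : ℝ → ℝ} {M : ℝ≥0} (hf : LipschitzWith M f) (t : ℝ) :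
    ‖deriv f t‖ ≤ M := norm_deriv_le_of_lipschitz hf

/-- The integrand on the product. -/
noncomputable def gg (f : ℝ → ℝ) (x y : ℝ) : ℝ := if x ≤ y then deriv f y else 0

theorem gg_meas (f : ℝ → ℝ) : Measurable (Function.uncurry (gg f)) := by
  have h : Function.uncurry (gg f) = fun p : ℝ × ℝ => if p.1 ≤ p.2 then deriv f p.2 else 0 := by
    funext p
    rfl
  rw [h]
  exact Measurable.ite (measurableSet_le measurable_fst measurable_snd)
    ((measurable_deriv f).comp measurable_snd) measurable_const

theorem gg_bound {f : ℝ → ℝ} {M : ℝ≥0} (hf : LipschitzWith M f) (x y : ℝ) :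
    ‖gg f x y‖ ≤ M := by
  unfold gg
  split_ifs
  · exact deriv_bound hf y
  · rw [norm_zero]
    exact M.coe_nonneg

theorem inner_one {f : ℝ → ℝ} {M : ℝ≥0} (hf : LipschitzWith M f) {a b x : ℝ}
    (hx : x ∈ Ioc a b) : ∫ y in Ioc a b, gg f x y = f b - f x := by
  have h1 : (fun y => gg f x y) = (Ici x).indicator (deriv f) := by
    funext y
    unfold gg
    rw [Set.indicator_apply]
    rfl
  have h2 : Ioc a b ∩ Ici x = Icc x b := by
    ext y
    rw [Set.mem_inter_iff, Set.mem_Ioc, Set.mem_Ici, Set.mem_Icc]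
    constructor
    · rintro ⟨⟨_, h3⟩, h4⟩
      exact ⟨h4, h3⟩
    · rintro ⟨h3, h4⟩
      exact ⟨⟨lt_of_lt_of_le hx.1 h3, h4⟩, h3⟩
  rw [h1, setIntegral_indicator measurableSet_Ici, h2, integral_Icc_eq_integral_Ioc,
    ← intervalIntegral.integral_of_le hx.2, lip_ftc hf]

theorem inner_two (F : StieltjesFunction ℝ) (f : ℝ → ℝ) {a b y : ℝ} (hy : y ∈ Ioc a b) :
    ∫ x in Ioc a b, gg f x y ∂F.measure = deriv f y * (F y - F a) := by
  have h1 : (fun x => gg f x y) = (Iic y).indicator (fun _ => deriv f y) := by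
    funext x
    unfold gg
    rw [Set.indicator_apply]
    rfl
  have h2 : Ioc a b ∩ Iic y = Ioc a y := by
    ext x
    rw [Set.mem_inter_iff, Set.mem_Ioc, Set.mem_Iic, Set.mem_Ioc]
    constructor
    · rintro ⟨⟨h3, _⟩, h4⟩
      exact ⟨h3, h4⟩
    · rintro ⟨h3, h4⟩
      exact ⟨⟨h3, h4.trans hy.2⟩, h4⟩
  rw [h1, setIntegral_indicator measurableSet_Iic, h2, setIntegral_const, measureReal_def,
    F.measure_Ioc, ENNReal.toReal_ofReal (sub_nonneg.mpr (F.mono hy.1.le)), smul_eq_mul, mul_comm]

end IbpAux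

open IbpAux in
theorem stieltjes_ibp (F : StieltjesFunction ℝ) {f : ℝ → ℝ} {M : ℝ≥0} (hf : LipschitzWith M f)
    {a b : ℝ} (hab : a ≤ b) :
    ∫ x in Ioc a b, f x ∂F.measure = f b * F b - f a * F a - ∫ x in a..b, deriv f x * F x := by
  have hfin1 : IsFiniteMeasure (F.measure.restrict (Ioc a b)) := by
    refine ⟨?_⟩
    rw [Measure.restrict_apply_univ, F.measure_Ioc]
    exact ENNReal.ofReal_lt_top
  have hfin2 : IsFiniteMeasure ((volume : Measure ℝ).restrict (Ioc a b)) := by
    refine ⟨?_⟩
    rw [Measure.restrict_apply_univ, Real.volume_Ioc]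
    exact ENNReal.ofReal_lt_top
  have hint : Integrable (Function.uncurry (gg f))
      ((F.measure.restrict (Ioc a b)).prod ((volume : Measure ℝ).restrict (Ioc a b))) := by
    refine Integrable.of_bound (gg_meas f).aestronglyMeasurable (M : ℝ) ?_
    exact Filter.Eventually.of_forall fun p => gg_bound hf p.1 p.2
  have hswap := integral_integral_swap hint
  have hG1 : Integrable (fun x => ∫ y in Ioc a b, gg f x y) (F.measure.restrict (Ioc a b)) :=
    hint.integral_prod_left
  have hG2 : Integrable (fun y => ∫ x in Ioc a b, gg f x y ∂F.measure)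
      ((volume : Measure ℝ).restrict (Ioc a b)) := hint.integral_prod_right
  -- the left side
  have hL : ∫ x in Ioc a b, f x ∂F.measure = f b * (F b - F a) -
      ∫ x in Ioc a b, (∫ y in Ioc a b, gg f x y) ∂F.measure := by
    have h1 : ∫ x in Ioc a b, f x ∂F.measure =
        ∫ x in Ioc a b, (f b - ∫ y in Ioc a b, gg f x y) ∂F.measure := by
      refine setIntegral_congr_fun measurableSet_Ioc fun x hx => ?_
      rw [inner_one hf hx]
      ring
    rw [h1, integral_sub (integrable_const _) hG1, setIntegral_const, measureReal_def,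
      F.measure_Ioc, ENNReal.toReal_ofReal (sub_nonneg.mpr (F.mono hab)), smul_eq_mul, mul_comm]
  -- the right side
  have hR1 : ∫ y in Ioc a b, (∫ x in Ioc a b, gg f x y ∂F.measure) =
      ∫ y in Ioc a b, deriv f y * (F y - F a) :=
    setIntegral_congr_fun measurableSet_Ioc fun y hy => inner_two F f hy
  have hd : IntegrableOn (fun y => deriv f y * F a) (Ioc a b) := by
    refine Integrable.mul_const ?_ _
    exact Integrable.of_bound (measurable_deriv f).aestronglyMeasurable (M : ℝ)
      (Filter.Eventually.of_forall fun y => deriv_bound hf y)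
  have hG3 : IntegrableOn (fun y => deriv f y * (F y - F a)) (Ioc a b) := by
    refine hG2.congr ?_
    refine (ae_restrict_iff' measurableSet_Ioc).mpr (Filter.Eventually.of_forall fun y hy => ?_)
    exact inner_two F f hy
  have hR2 : ∫ x in a..b, deriv f x * F x =
      (∫ y in Ioc a b, deriv f y * (F y - F a)) + F a * (f b - f a) := by
    rw [intervalIntegral.integral_of_le hab]
    have h1 : ∫ x in Ioc a b, deriv f x * F x =
        ∫ x in Ioc a b, (deriv f x * (F x - F a) + deriv f x * F a) := by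
      congr 1
      funext x
      ring
    have h2 : ∫ x in Ioc a b, deriv f x = f b - f a := by
      rw [← intervalIntegral.integral_of_le hab, lip_ftc hf]
    rw [h1, integral_add hG3 hd, integral_mul_const, h2]
    ring
  rw [hL, hR2, ← hR1, ← hswap]
  ring

end Pool.Agent.MP9dd972
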