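import Mathlib
import Pool.Agent.Lib.MP_9dd972_gt.Defs
import Pool.Agent.Lib.MP_9dd972_gt.Supp

/-!
# MP_9dd972_gt, planar case, module STJ: the surface area measure on the line of angles
-/

set_option autoImplicit false

namespace Pool.Agent.MP9dd972

open MeasureTheory Set
open scoped ENNReal NNReal Real

namespace StjAux

open SuppAux

theorem hS_cont {L : Set E2} (hL : IsCompact L) (hne : L.Nonempty) : Continuous (hS L) := by
  obtain ⟨M, hM⟩ := hS_lip hL hne
  exact hM.continuous

theorem hasDerivAt_ee (y : E2) (x : ℝ) :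
    HasDerivAt (fun t => (inner ℝ (ee t) y : ℝ)) (inner ℝ (ff x) y) x := by
  simp only [inner_ee, inner_ff]
  exact ((Real.hasDerivAt_cos x).mul_const _).add ((Real.hasDerivAt_sin x).mul_const _)

theorem hasDerivAt_ff (y : E2) (x : ℝ) :
    HasDerivAt (fun t => (inner ℝ (ff t) y : ℝ)) (-inner ℝ (ee x) y) x := by
  simp only [inner_ee, inner_ff]
  have h := ((Real.hasDerivAt_sin x).neg.mul_const (y 0)).add
    ((Real.hasDerivAt_cos x).mul_const (y 1))
  refine h.congr_deriv ?_
  ring

theorem cont_ee_t (y : E2) : Continuous fun t => (inner ℝ (ee t) y : ℝ) := by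
  simp only [inner_ee]
  fun_prop

/-- the short case, together with the inequality for the faces -/
theorem F_short {L : Set E2} (hL : IsCompact L) (hne : L.Nonempty) {a b : ℝ} (hab : a ≤ b)
    (hpi : b - a ≤ π / 2) : 0 ≤ rS L b - rS L a + ∫ s in a..b, hS L s := by
  rcases hab.eq_or_lt with rfl | hlt
  · simp
  obtain ⟨p, hp, hpe, hpf, -⟩ := exists_top hL hne a
  obtain ⟨p', hp', hpe', hpf', -⟩ := exists_top hL hne b
  have hint : ∫ s in a..b, (-(inner ℝ (ee s) p : ℝ)) =
      (inner ℝ (ff b) p : ℝ) - inner ℝ (ff a) p := by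
    refine intervalIntegral.integral_eq_sub_of_hasDerivAt (fun x _ => hasDerivAt_ff p x) ?_
    exact (cont_ee_t p).neg.intervalIntegrable _ _
  have hle : ∫ s in a..b, (inner ℝ (ee s) p : ℝ) ≤ ∫ s in a..b, hS L s := by
    refine intervalIntegral.integral_mono_on hab ((cont_ee_t p).intervalIntegrable _ _)
      ((hS_cont hL hne).intervalIntegrable _ _) fun x _ => inner_le_hS hL hp x
  rw [intervalIntegral.integral_neg] at hint
  have hd1 : (inner ℝ (ee a) p' : ℝ) ≤ inner ℝ (ee a) p := by
    rw [hpe]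
    exact inner_le_hS hL hp' a
  have hd2 : (inner ℝ (ee b) p : ℝ) ≤ inner ℝ (ee b) p' := by
    rw [hpe']
    exact inner_le_hS hL hp b
  have hsin : 0 < Real.sin (b - a) :=
    Real.sin_pos_of_pos_of_lt_pi (by linarith) (by linarith [Real.pi_pos])
  have hcos : 0 ≤ Real.cos (b - a) :=
    Real.cos_nonneg_of_neg_pi_div_two_le_of_le (by linarith [Real.pi_pos]) hpi
  have hrel : ∀ y : E2, (inner ℝ (ee a) y : ℝ) =
      Real.cos (b - a) * inner ℝ (ee b) y - Real.sin (b - a) * inner ℝ (ff b) y := by
    intro y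
    simp only [inner_ee, inner_ff, Real.cos_sub, Real.sin_sub]
    have h1 := Real.sin_sq_add_cos_sq b
    linear_combination (-(Real.cos a * y 0) - Real.sin a * y 1) * h1
  have hff : (inner ℝ (ff b) p : ℝ) ≤ inner ℝ (ff b) p' := by
    rw [hrel p, hrel p'] at hd1
    have h3 := mul_le_mul_of_nonneg_left hd2 hcos
    have h4 : Real.sin (b - a) * (inner ℝ (ff b) p : ℝ) ≤
        Real.sin (b - a) * inner ℝ (ff b) p' := by linarith
    exact le_of_mul_le_mul_left h4 hsin
  rw [← hpf, ← hpf']
  linarith

theorem F_nat {L : Set E2} (hL : IsCompact L) (hne : L.Nonempty) (n : ℕ) : ∀ a b : ℝ, a ≤ b →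
    b - a ≤ n * (π / 2) → 0 ≤ rS L b - rS L a + ∫ s in a..b, hS L s := by
  induction n with
  | zero =>
    intro a b hab h
    refine F_short hL hne hab ?_
    have : b - a ≤ 0 := by simpa using h
    linarith [Real.pi_pos]
  | succ n ih =>
    intro a b hab h
    rcases le_or_gt (b - a) (π / 2) with hs | hs
    · exact F_short hL hne hab hs
    · have h1 := ih a (b - π / 2) (by linarith) (by push_cast at h; linarith)
      have h2 := F_short hL hne (a := b - π / 2) (b := b) (by linarith [Real.pi_pos])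
        (by linarith)
      have h3 := intervalIntegral.integral_add_adjacent_intervals
        ((hS_cont hL hne).intervalIntegrable (μ := volume) a (b - π / 2))
        ((hS_cont hL hne).intervalIntegrable (μ := volume) (b - π / 2) b)
      linarith

end StjAux

open SuppAux StjAux

theorem F_mono {L : Set E2} (hL : IsCompact L) (hne : L.Nonempty) {a b : ℝ} (hab : a ≤ b) :
    0 ≤ rS L b - rS L a + ∫ s in a..b, hS L s := by
  obtain ⟨n, hn⟩ := exists_nat_ge ((b - a) / (π / 2))
  refine F_nat hL hne n a b hab ?_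
  rwa [div_le_iff₀ (by linarith [Real.pi_pos])] at hn

theorem rS_rc {L : Set E2} (hL : IsCompact L) (hne : L.Nonempty) (t : ℝ) :
    ContinuousWithinAt (rS L) (Ici t) t := by
  rw [ContinuousWithinAt, Filter.tendsto_iff_ultrafilter]
  intro U hU
  have hUt : Filter.Tendsto (fun x : ℝ => x) (U : Filter ℝ) (nhds t) :=
    hU.trans nhdsWithin_le_nhds
  choose p hp hpe hpf hptop using fun x => exists_top hL hne x
  obtain ⟨P, hPL, hP⟩ := hL.ultrafilter_le_nhds (U.map p) (by
    rw [Filter.le_principal_iff]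
    exact Filter.mem_map.2 (Filter.univ_mem' fun x => hp x))
  have hP' : Filter.Tendsto p (U : Filter ℝ) (nhds P) := hP
  have hee : Continuous ee := by
    unfold ee
    fun_prop
  have hff : Continuous ff := by
    unfold ff
    fun_prop
  have h1 : Filter.Tendsto (fun x => (inner ℝ (ee x) (p x) : ℝ)) (U : Filter ℝ)
      (nhds (inner ℝ (ee t) P)) := ((hee.tendsto t).comp hUt).inner hP'
  have h2 : Filter.Tendsto (fun x => (inner ℝ (ff x) (p x) : ℝ)) (U : Filter ℝ)
      (nhds (inner ℝ (ff t) P)) := ((hff.tendsto t).comp hUt).inner hP'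
  simp only [hpe] at h1
  simp only [hpf] at h2
  have h3 : Filter.Tendsto (hS L) (U : Filter ℝ) (nhds (hS L t)) :=
    ((hS_cont hL hne).tendsto t).comp hUt
  have h4 : (inner ℝ (ee t) P : ℝ) = hS L t := tendsto_nhds_unique h1 h3
  have h5 : (inner ℝ (ff t) P : ℝ) ≤ rS L t := hptop t P hPL h4
  have h6 : Filter.Tendsto (fun x => rS L t - ∫ s in t..x, hS L s) (U : Filter ℝ)
      (nhds (rS L t - ∫ s in t..t, hS L s)) := by
    refine Filter.Tendsto.sub tendsto_const_nhds ?_
    have hc : Continuous fun x => ∫ s in t..x, hS L s :=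
      intervalIntegral.continuous_primitive
        (fun a b => (hS_cont hL hne).intervalIntegrable a b) t
    exact (hc.tendsto t).comp hUt
  rw [intervalIntegral.integral_same, sub_zero] at h6
  have h7 : ∀ᶠ x in (U : Filter ℝ), rS L t - ∫ s in t..x, hS L s ≤ rS L x := by
    have : ∀ᶠ x in nhdsWithin t (Ici t), rS L t - ∫ s in t..x, hS L s ≤ rS L x := by
      filter_upwards [self_mem_nhdsWithin] with x hx
      have := F_mono hL hne (a := t) (b := x) hx
      linarith
    exact hU this
  have h8 : rS L t ≤ inner ℝ (ff t) P := le_of_tendsto_of_tendsto h6 h2 h7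
  rw [le_antisymm h8 h5]
  exact h2

theorem deriv_hS {L : Set E2} (hL : IsCompact L) (hne : L.Nonempty) {t : ℝ}
    (hd : DifferentiableAt ℝ (hS L) t) : deriv (hS L) t = rS L t := by
  obtain ⟨p, hp, hpe, hpf, -⟩ := exists_top hL hne t
  have h1 : HasDerivAt (fun x => hS L x - inner ℝ (ee x) p)
      (deriv (hS L) t - inner ℝ (ff t) p) t := hd.hasDerivAt.sub (hasDerivAt_ee p t)
  have h2 : IsLocalMin (fun x => hS L x - inner ℝ (ee x) p) t := by
    refine Filter.Eventually.of_forall fun x => ?_
    change hS L t - inner ℝ (ee t) p ≤ hS L x - inner ℝ (ee x) p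
    have := inner_le_hS hL hp x
    rw [hpe]
    linarith
  have h3 := h2.hasDerivAt_eq_zero h1
  rw [← hpf]
  linarith

theorem sigS_eq {L : Set E2} (hL : IsCompact L) (hne : L.Nonempty) :
    ∃ F : StieltjesFunction ℝ, (∀ t, F t = rS L t + ∫ s in (0 : ℝ)..t, hS L s) ∧
      sigS L = F.measure := by
  have hc : Continuous fun x => ∫ s in (0 : ℝ)..x, hS L s :=
    intervalIntegral.continuous_primitive
      (fun a b => (hS_cont hL hne).intervalIntegrable a b) 0
  let F : StieltjesFunction ℝ :=
    { toFun := fun t => rS L t + ∫ s in (0 : ℝ)..t, hS L s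
      mono' := by
        intro a b hab
        have h1 := F_mono hL hne hab
        have h2 := intervalIntegral.integral_interval_sub_left
          ((hS_cont hL hne).intervalIntegrable (μ := volume) 0 b)
          ((hS_cont hL hne).intervalIntegrable (μ := volume) 0 a)
        change rS L a + ∫ s in (0 : ℝ)..a, hS L s ≤ rS L b + ∫ s in (0 : ℝ)..b, hS L s
        linarith
      right_continuous' := fun t => (rS_rc hL hne t).add hc.continuousWithinAt }
  have hF : ∀ t, F t = rS L t + ∫ s in (0 : ℝ)..t, hS L s := fun t => rfl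
  have hex : ∃ F : StieltjesFunction ℝ, ∀ t, F t = rS L t + ∫ s in (0 : ℝ)..t, hS L s := ⟨F, hF⟩
  refine ⟨hex.choose, hex.choose_spec, ?_⟩
  unfold sigS
  rw [dif_pos hex]

theorem sigS_Ioc {L : Set E2} (hL : IsCompact L) (hne : L.Nonempty) {a b : ℝ} (hab : a ≤ b) :
    sigS L (Ioc a b) = ENNReal.ofReal (rS L b - rS L a + ∫ s in a..b, hS L s) := by
  obtain ⟨F, hF, hs⟩ := sigS_eq hL hne
  have h2 := intervalIntegral.integral_interval_sub_left
    ((hS_cont hL hne).intervalIntegrable (μ := volume) 0 b)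
    ((hS_cont hL hne).intervalIntegrable (μ := volume) 0 a)
  have h3 : F b - F a = rS L b - rS L a + ∫ s in a..b, hS L s := by
    rw [hF, hF]
    linarith
  rw [hs, StieltjesFunction.measure_Ioc, h3]

theorem sigS_lf (L : Set E2) : IsLocallyFiniteMeasure (sigS L) := by
  unfold sigS
  by_cases h : ∃ F : StieltjesFunction ℝ, ∀ t, F t = rS L t + ∫ s in (0 : ℝ)..t, hS L s
  · rw [dif_pos h]
    infer_instance
  · rw [dif_neg h]
    infer_instance

end Pool.Agent.MP9dd972
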