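import Mathlib
import Pool.Agent.Lib.MP_9dd972_gt.Defs
import Pool.Agent.Lib.MP_9dd972_gt.Supp
import Pool.Agent.Lib.MP_9dd972_gt.Stj
import Pool.Agent.Lib.MP_9dd972_gt.Ibp

/-!
# MP_9dd972_gt, planar case, module SIBP: integration by parts for `sigS`
-/

set_option autoImplicit false

namespace Pool.Agent.MP9dd972

open MeasureTheory Set
open scoped ENNReal NNReal Real

namespace SibpAux

theorem ii_deriv {f : ℝ → ℝ} {M : ℝ≥0} (hf : LipschitzWith M f) (a b : ℝ) :
    IntervalIntegrable (deriv f) volume a b :=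
  (hf.lipschitzOnWith (s := uIcc a b)).absolutelyContinuousOnInterval.intervalIntegrable_deriv

theorem ii_deriv_mul {f g : ℝ → ℝ} {M N : ℝ≥0} (hf : LipschitzWith M f) (hg : LipschitzWith N g)
    (a b : ℝ) : IntervalIntegrable (fun x => deriv f x * deriv g x) volume a b := by
  have hi := ii_deriv hg a b
  rw [intervalIntegrable_iff] at hi ⊢
  refine Integrable.bdd_mul (c := (M : ℝ)) hi (measurable_deriv f).aestronglyMeasurable ?_
  exact Filter.Eventually.of_forall fun x => norm_deriv_le_of_lipschitz hf

theorem ac {f : ℝ → ℝ} {M : ℝ≥0} (hf : LipschitzWith M f) (a b : ℝ) :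
    AbsolutelyContinuousOnInterval f a b :=
  (hf.lipschitzOnWith (s := uIcc a b)).absolutelyContinuousOnInterval

/-- Integration by parts against a smooth function. -/
theorem ibp_smooth {h f f' : ℝ → ℝ} {N K : ℝ≥0} (hh : LipschitzWith N h)
    (hf' : LipschitzWith K f')
    (hd : ∀ x, deriv f x = f' x) (hd' : ∀ x, deriv f' x = -f x) (a b : ℝ) :
    ∫ x in a..b, deriv f x * deriv h x = f' b * h b - f' a * h a + ∫ x in a..b, f x * h x := by
  have h1 := (ac hf' a b).integral_mul_deriv_eq_deriv_mul (ac hh a b)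
  simp only [hd, hd'] at h1 ⊢
  rw [h1, ← sub_neg_eq_add, ← intervalIntegral.integral_neg]
  simp only [neg_mul]

end SibpAux

open SibpAux

theorem sig_ibp {L : Set E2} (hL : IsCompact L) (hne : L.Nonempty) {f : ℝ → ℝ} {M : ℝ≥0}
    (hf : LipschitzWith M f) {a b : ℝ} (hab : a ≤ b) :
    ∫ x in Ioc a b, f x ∂(sigS L) = f b * rS L b - f a * rS L a -
      (∫ x in a..b, deriv f x * deriv (hS L) x) + ∫ x in a..b, f x * hS L x := by
  obtain ⟨F, hF, hs⟩ := sigS_eq hL hne
  obtain ⟨N, hN⟩ := hS_lip hL hne
  have hc : Continuous (hS L) := hN.continuous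
  rw [hs, stieltjes_ibp F hf hab]
  set G : ℝ → ℝ := fun x => ∫ s in a..x, hS L s with hG
  set c : ℝ := ∫ s in (0 : ℝ)..a, hS L s with hcdef
  have hFG : ∀ x, F x = rS L x + G x + c := by
    intro x
    rw [hF x, hG, hcdef,
      ← intervalIntegral.integral_add_adjacent_intervals (hc.intervalIntegrable 0 a)
        (hc.intervalIntegrable a x)]
    ring
  have hfac : AbsolutelyContinuousOnInterval f a b := ac hf a b
  have hGac : AbsolutelyContinuousOnInterval G a b :=
    (hc.intervalIntegrable a b).absolutelyContinuousOnInterval_intervalIntegral (c := a) (by simp)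
  have hGc : Continuous G := intervalIntegral.continuous_primitive
    (fun u v => hc.intervalIntegrable u v) a
  have hGd : ∀ x, deriv G x = hS L x := fun x => hc.deriv_integral _ a x
  have i1 := ii_deriv_mul hf hN a b
  have i2 : IntervalIntegrable (fun x => deriv f x * G x) volume a b :=
    (ii_deriv hf a b).mul_continuousOn hGc.continuousOn
  have i3 : IntervalIntegrable (fun x => deriv f x * c) volume a b := (ii_deriv hf a b).mul_const c
  have e1 : ∫ x in a..b, deriv f x * F x =
      ∫ x in a..b, (deriv f x * deriv (hS L) x + deriv f x * G x + deriv f x * c) := by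
    apply intervalIntegral.integral_congr_ae
    filter_upwards [hN.ae_differentiableAt_real] with x hx _
    rw [hFG x, deriv_hS hL hne hx]
    ring
  have e2 : ∫ x in a..b, deriv f x * G x = f b * G b - f a * G a - ∫ x in a..b, f x * hS L x := by
    have := hGac.integral_mul_deriv_eq_deriv_mul hfac
    have e3 : ∫ x in a..b, deriv f x * G x = ∫ x in a..b, G x * deriv f x := by
      simp only [mul_comm]
    rw [e3, this]
    simp only [hGd]
    have e4 : ∫ x in a..b, hS L x * f x = ∫ x in a..b, f x * hS L x := by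
      simp only [mul_comm]
    rw [e4]
    ring
  have e5 : ∫ x in a..b, deriv f x * c = (f b - f a) * c := by
    rw [intervalIntegral.integral_mul_const, hfac.integral_deriv_eq_sub]
  rw [e1, intervalIntegral.integral_add (i1.add i2) i3, intervalIntegral.integral_add i1 i2, e2, e5,
    hFG a, hFG b]
  ring

theorem sig_sin {L : Set E2} (hL : IsCompact L) (hne : L.Nonempty) {a b : ℝ} (hab : a ≤ b) :
    ∫ x in Ioc a b, Real.sin (b - x) ∂(sigS L) =
      hS L b - hS L a * Real.cos (b - a) - rS L a * Real.sin (b - a) := by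
  obtain ⟨N, hN⟩ := hS_lip hL hne
  have l1 : LipschitzWith 1 (fun x : ℝ => Real.sin (b - x)) := by
    apply LipschitzWith.mk_one
    intro x y
    rw [Real.dist_eq, Real.dist_eq]
    refine (Real.abs_sin_sub_sin_le _ _).trans (le_of_eq ?_)
    rw [abs_sub_comm]
    congr 1
    ring
  have l2 : LipschitzWith 1 (fun x : ℝ => -Real.cos (b - x)) := by
    apply LipschitzWith.mk_one
    intro x y
    rw [Real.dist_eq, Real.dist_eq]
    have := Real.abs_cos_sub_cos_le (b - y) (b - x)
    have e : -Real.cos (b - x) - -Real.cos (b - y) = Real.cos (b - y) - Real.cos (b - x) := by ring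
    rw [e]
    refine this.trans (le_of_eq ?_)
    congr 1
    ring
  have d1 : ∀ x, HasDerivAt (fun x : ℝ => Real.sin (b - x)) (-Real.cos (b - x)) x := by
    intro x
    have := ((hasDerivAt_id' x).const_sub b).sin
    simpa using this
  have d2 : ∀ x, HasDerivAt (fun x : ℝ => -Real.cos (b - x)) (-Real.sin (b - x)) x := by
    intro x
    have := ((hasDerivAt_id' x).const_sub b).cos.fun_neg
    simpa using this
  have h1 := sig_ibp hL hne l1 hab
  have h2 := ibp_smooth hN l2 (fun x => (d1 x).deriv) (fun x => (d2 x).deriv) a b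
  rw [h1, h2]
  simp
  ring

theorem sig_cos {L : Set E2} (hL : IsCompact L) (hne : L.Nonempty) {a b : ℝ} (hab : a ≤ b) :
    ∫ x in Ioc a b, Real.cos (b - x) ∂(sigS L) =
      rS L b - rS L a * Real.cos (b - a) + hS L a * Real.sin (b - a) := by
  obtain ⟨N, hN⟩ := hS_lip hL hne
  have l1 : LipschitzWith 1 (fun x : ℝ => Real.cos (b - x)) := by
    apply LipschitzWith.mk_one
    intro x y
    rw [Real.dist_eq, Real.dist_eq]
    refine (Real.abs_cos_sub_cos_le _ _).trans (le_of_eq ?_)
    rw [abs_sub_comm]
    congr 1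
    ring
  have l2 : LipschitzWith 1 (fun x : ℝ => Real.sin (b - x)) := by
    apply LipschitzWith.mk_one
    intro x y
    rw [Real.dist_eq, Real.dist_eq]
    refine (Real.abs_sin_sub_sin_le _ _).trans (le_of_eq ?_)
    rw [abs_sub_comm]
    congr 1
    ring
  have d1 : ∀ x, HasDerivAt (fun x : ℝ => Real.cos (b - x)) (Real.sin (b - x)) x := by
    intro x
    have := ((hasDerivAt_id' x).const_sub b).cos
    simpa using this
  have d2 : ∀ x, HasDerivAt (fun x : ℝ => Real.sin (b - x)) (-Real.cos (b - x)) x := by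
    intro x
    have := ((hasDerivAt_id' x).const_sub b).sin
    simpa using this
  have h1 := sig_ibp hL hne l1 hab
  have h2 := ibp_smooth hN l2 (fun x => (d1 x).deriv) (fun x => (d2 x).deriv) a b
  rw [h1, h2]
  simp
  ring

theorem sig_sin' {L : Set E2} (hL : IsCompact L) (hne : L.Nonempty) {a b : ℝ} (hab : a ≤ b) :
    ∫ x in Ioc a b, Real.sin (x - a) ∂(sigS L) =
      hS L a - hS L b * Real.cos (b - a) + rS L b * Real.sin (b - a) := by
  obtain ⟨N, hN⟩ := hS_lip hL hne
  have l1 : LipschitzWith 1 (fun x : ℝ => Real.sin (x - a)) := by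
    apply LipschitzWith.mk_one
    intro x y
    rw [Real.dist_eq, Real.dist_eq]
    refine (Real.abs_sin_sub_sin_le _ _).trans (le_of_eq ?_)
    congr 1
    ring
  have l2 : LipschitzWith 1 (fun x : ℝ => Real.cos (x - a)) := by
    apply LipschitzWith.mk_one
    intro x y
    rw [Real.dist_eq, Real.dist_eq]
    refine (Real.abs_cos_sub_cos_le _ _).trans (le_of_eq ?_)
    congr 1
    ring
  have d1 : ∀ x, HasDerivAt (fun x : ℝ => Real.sin (x - a)) (Real.cos (x - a)) x := by
    intro x
    have := ((hasDerivAt_id' x).sub_const a).sin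
    simpa using this
  have d2 : ∀ x, HasDerivAt (fun x : ℝ => Real.cos (x - a)) (-Real.sin (x - a)) x := by
    intro x
    have := ((hasDerivAt_id' x).sub_const a).cos
    simpa using this
  have h1 := sig_ibp hL hne l1 hab
  have h2 := ibp_smooth hN l2 (fun x => (d1 x).deriv) (fun x => (d2 x).deriv) a b
  rw [h1, h2]
  simp
  ring

theorem sig_cos' {L : Set E2} (hL : IsCompact L) (hne : L.Nonempty) {a b : ℝ} (hab : a ≤ b) :
    ∫ x in Ioc a b, Real.cos (x - a) ∂(sigS L) =
      rS L b * Real.cos (b - a) - rS L a + hS L b * Real.sin (b - a) := by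
  obtain ⟨N, hN⟩ := hS_lip hL hne
  have l1 : LipschitzWith 1 (fun x : ℝ => Real.cos (x - a)) := by
    apply LipschitzWith.mk_one
    intro x y
    rw [Real.dist_eq, Real.dist_eq]
    refine (Real.abs_cos_sub_cos_le _ _).trans (le_of_eq ?_)
    congr 1
    ring
  have l2 : LipschitzWith 1 (fun x : ℝ => -Real.sin (x - a)) := by
    apply LipschitzWith.mk_one
    intro x y
    rw [Real.dist_eq, Real.dist_eq]
    have := Real.abs_sin_sub_sin_le (y - a) (x - a)
    have e : -Real.sin (x - a) - -Real.sin (y - a) = Real.sin (y - a) - Real.sin (x - a) := by ring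
    rw [e]
    refine this.trans (le_of_eq ?_)
    rw [abs_sub_comm]
    congr 1
    ring
  have d1 : ∀ x, HasDerivAt (fun x : ℝ => Real.cos (x - a)) (-Real.sin (x - a)) x := by
    intro x
    have := ((hasDerivAt_id' x).sub_const a).cos
    simpa using this
  have d2 : ∀ x, HasDerivAt (fun x : ℝ => -Real.sin (x - a)) (-Real.cos (x - a)) x := by
    intro x
    have := ((hasDerivAt_id' x).sub_const a).sin.fun_neg
    simpa using this
  have h1 := sig_ibp hL hne l1 hab
  have h2 := ibp_smooth hN l2 (fun x => (d1 x).deriv) (fun x => (d2 x).deriv) a b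
  rw [h1, h2]
  simp
  ring

end Pool.Agent.MP9dd972
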