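import Mathlib
import Pool.Agent.Lib.MP_9dd972_gt.Defs
import Pool.Agent.Lib.MP_9dd972_gt.Supp
import Pool.Agent.Lib.MP_9dd972_gt.Stj
import Pool.Agent.Lib.MP_9dd972_gt.Sibp
import Pool.Agent.Lib.MP_9dd972_gt.Pol

/-!
# MP_9dd972_gt, planar case, module DER: one-sided derivatives of the support function
-/

set_option autoImplicit false

namespace Pool.Agent.MP9dd972

open MeasureTheory Set
open scoped ENNReal NNReal Real

namespace DerAux

open Filter Topology

theorem abs_sin_le (x : ℝ) (hx : 0 ≤ x) : |Real.sin x| ≤ x := by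
  have := Real.abs_sin_le_abs (x := x)
  rwa [abs_of_nonneg hx] at this

end DerAux

open DerAux Filter Topology in
theorem hasDerivWithinAt_hS {L : Set E2} (hL : IsCompact L) (hne : L.Nonempty) (t : ℝ) :
    HasDerivWithinAt (hS L) (rS L t) (Ici t) t := by
  have := sigS_lf L
  have hcont : Continuous (hS L) := (hS_lip hL hne).choose_spec.continuous
  -- the main part
  have h1 : HasDerivAt (fun b => hS L t * Real.cos (b - t) + rS L t * Real.sin (b - t))
      (rS L t) t := by
    have h2 : HasDerivAt (fun b : ℝ => b - t) 1 t := (hasDerivAt_id t).sub_const t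
    have h3 := (h2.cos.const_mul (hS L t)).add (h2.sin.const_mul (rS L t))
    have h4 : hS L t * (-Real.sin (t - t) * 1) + rS L t * (Real.cos (t - t) * 1) = rS L t := by
      simp
    rw [h4] at h3
    exact h3
  -- the remainder
  have h5 : HasDerivWithinAt (fun b => ∫ x in Ioc t b, Real.sin (b - x) ∂(sigS L)) 0 (Ici t) t := by
    rw [hasDerivWithinAt_iff_isLittleO]
    simp only [smul_zero, sub_zero, Ioc_self, Measure.restrict_empty, integral_zero_measure]
    rw [Asymptotics.isLittleO_iff]
    intro ε hε
    have h6 : Tendsto (fun b => rS L b - rS L t + ∫ s in t..b, hS L s) (𝓝[≥] t) (𝓝 0) := by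
      have h7 : Tendsto (rS L) (𝓝[≥] t) (𝓝 (rS L t)) := rS_rc hL hne t
      have h8 : Continuous (fun b => ∫ s in t..b, hS L s) :=
        intervalIntegral.continuous_primitive (fun a b => hcont.intervalIntegrable a b) t
      have h9 : Tendsto (fun b => ∫ s in t..b, hS L s) (𝓝[≥] t) (𝓝 (∫ s in t..t, hS L s)) :=
        h8.continuousWithinAt.tendsto
      have h10 := (h7.sub_const (rS L t)).add h9
      simpa using h10
    have h11 : ∀ᶠ b in 𝓝[≥] t, rS L b - rS L t + ∫ s in t..b, hS L s < ε :=
      h6.eventually (gt_mem_nhds hε)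
    filter_upwards [h11, self_mem_nhdsWithin] with b hb hbt
    have hbt' : t ≤ b := hbt
    have h12 := norm_setIntegral_le_of_norm_le_const (μ := sigS L) (s := Ioc t b)
      (f := fun x => Real.sin (b - x)) (C := b - t)
      (measure_Ioc_lt_top) (by
        intro x hx
        rw [Real.norm_eq_abs]
        refine (abs_sin_le _ (by linarith [hx.2])).trans ?_
        linarith [hx.1])
    have h13 : (sigS L).real (Ioc t b) = rS L b - rS L t + ∫ s in t..b, hS L s := by
      rw [Measure.real, sigS_Ioc hL hne hbt', ENNReal.toReal_ofReal (F_mono hL hne hbt')]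
    rw [h13] at h12
    refine h12.trans ?_
    rw [Real.norm_eq_abs, abs_of_nonneg (sub_nonneg.2 hbt'), mul_comm]
    exact mul_le_mul_of_nonneg_right hb.le (sub_nonneg.2 hbt')
  have h14 := h1.hasDerivWithinAt.add h5
  rw [add_zero] at h14
  refine h14.congr ?_ ?_
  · intro b hb
    have := sig_sin hL hne (a := t) (b := b) hb
    simp only [Pi.add_apply]
    rw [this]
    ring
  · simp

namespace DerAux

open Filter Topology

/-- The left derivative. -/
theorem hasDerivWithinAt_left {L : Set E2} (hL : IsCompact L) (hne : L.Nonempty) (t : ℝ) :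
    HasDerivWithinAt (hS L) (rS L t - (sigS L).real {t}) (Iic t) t := by
  have := sigS_lf L
  obtain ⟨F, -, hF⟩ := sigS_eq hL hne
  have h1 : HasDerivAt (fun a => hS L t * Real.cos (t - a) - rS L t * Real.sin (t - a)
      + (sigS L).real {t} * Real.sin (t - a)) (rS L t - (sigS L).real {t}) t := by
    have h2 : HasDerivAt (fun b : ℝ => t - b) (-1) t := (hasDerivAt_id t).const_sub t
    have h3 := ((h2.cos.const_mul (hS L t)).sub (h2.sin.const_mul (rS L t))).add
      (h2.sin.const_mul ((sigS L).real {t}))
    have h4 : hS L t * (-Real.sin (t - t) * (-1)) - rS L t * (Real.cos (t - t) * (-1))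
        + (sigS L).real {t} * (Real.cos (t - t) * (-1)) = rS L t - (sigS L).real {t} := by
      simp
      ring
    rw [h4] at h3
    exact h3
  have h5 : HasDerivWithinAt (fun a => ∫ x in Ioo a t, Real.sin (x - a) ∂(sigS L)) 0 (Iic t) t := by
    rw [hasDerivWithinAt_iff_isLittleO]
    simp only [smul_zero, sub_zero, Ioo_self, Measure.restrict_empty, integral_zero_measure]
    rw [Asymptotics.isLittleO_iff]
    intro ε hε
    have h6 : Tendsto (fun a => Function.leftLim F t - F a) (𝓝[<] t) (𝓝 0) := by
      have h7 : Tendsto F (𝓝[<] t) (𝓝 (Function.leftLim F t)) := F.mono.tendsto_leftLim t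
      have h8 := h7.const_sub (Function.leftLim F t)
      simpa using h8
    have h11 : ∀ᶠ a in 𝓝[<] t, Function.leftLim F t - F a < ε :=
      h6.eventually (gt_mem_nhds hε)
    have h12 : ∀ᶠ a in 𝓝[≤] t, a = t ∨ Function.leftLim F t - F a < ε := by
      rw [← Iio_insert, nhdsWithin_insert, eventually_sup]
      refine ⟨?_, ?_⟩
      · rw [eventually_pure]
        exact Or.inl rfl
      · filter_upwards [h11] with a ha
        exact Or.inr ha
    filter_upwards [h12, self_mem_nhdsWithin] with a ha hat
    rcases ha with ha | ha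
    · subst ha
      simp
    have hat' : a ≤ t := hat
    have h13 := norm_setIntegral_le_of_norm_le_const (μ := sigS L) (s := Ioo a t)
      (f := fun x => Real.sin (x - a)) (C := t - a)
      (measure_Ioo_lt_top) (by
        intro x hx
        rw [Real.norm_eq_abs]
        refine (abs_sin_le _ (by linarith [hx.1])).trans ?_
        linarith [hx.2])
    have h14 : (sigS L).real (Ioo a t) ≤ ε := by
      rw [Measure.real, hF, StieltjesFunction.measure_Ioo]
      rcases le_or_gt 0 (Function.leftLim F t - F a) with h15 | h15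
      · rw [ENNReal.toReal_ofReal h15]
        exact ha.le
      · rw [ENNReal.ofReal_of_nonpos h15.le]
        simpa using hε.le
    refine h13.trans ?_
    rw [Real.norm_eq_abs, abs_sub_comm, abs_of_nonneg (sub_nonneg.2 hat'), mul_comm]
    exact mul_le_mul_of_nonneg_right h14 (sub_nonneg.2 hat')
  have h14 := h1.hasDerivWithinAt.add h5
  rw [add_zero] at h14
  have key : ∀ a ≤ t, hS L a = hS L t * Real.cos (t - a) - rS L t * Real.sin (t - a)
      + (sigS L).real {t} * Real.sin (t - a) + ∫ x in Ioo a t, Real.sin (x - a) ∂(sigS L) := by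
    intro a hat
    rcases hat.eq_or_lt with rfl | hlt
    · simp
    have h15 := sig_sin' hL hne (a := a) (b := t) hat
    have h16 : ∫ x in Ioc a t, Real.sin (x - a) ∂(sigS L) =
        (∫ x in Ioo a t, Real.sin (x - a) ∂(sigS L)) + (sigS L).real {t} * Real.sin (t - a) := by
      have h17 : Ioc a t = Ioo a t ∪ {t} := (Ioo_union_right hlt).symm
      have hci : ContinuousOn (fun x => Real.sin (x - a)) (Icc a t) := by fun_prop
      have hint : IntegrableOn (fun x => Real.sin (x - a)) (Icc a t) (sigS L) :=
        hci.integrableOn_Icc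
      rw [h17, setIntegral_union]
      · rw [integral_singleton, smul_eq_mul]
      · rw [Set.disjoint_singleton_right]
        intro h
        exact lt_irrefl _ h.2
      · exact measurableSet_singleton t
      · exact hint.mono_set Ioo_subset_Icc_self
      · exact hint.mono_set (by
          rw [Set.singleton_subset_iff]
          exact ⟨hat, le_refl t⟩)
    rw [h16] at h15
    linarith
  refine h14.congr ?_ ?_
  · intro a ha
    simp only [Pi.add_apply]
    exact key a ha
  · simp

end DerAux

open DerAux in
theorem deriv_diff {K C : Set E2} {p : ℝ} (h : LPair p K C) {z : ℝ} (hz : hS K z = hS C z) :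
    HasDerivAt (fun t => hS C t - hS K t) (rS C z - rS K z) z := by
  have hKn : K.Nonempty := ⟨0, interior_subset h.bK.zero⟩
  have hCn : C.Nonempty := ⟨0, interior_subset h.bC.zero⟩
  have hpos : 0 < hS K z := hS_pos h.bK z
  have h1 : sigS C {z} = sigS K {z} := by
    rw [h.dens, withDensity_apply _ (measurableSet_singleton z), lintegral_singleton, ← hz,
      div_self hpos.ne', Real.one_rpow, ENNReal.ofReal_one, one_mul]
  have h2 : (sigS C).real {z} = (sigS K).real {z} := by
    rw [Measure.real, Measure.real, h1]
  have hr := (hasDerivWithinAt_hS h.bC.comp hCn z).sub (hasDerivWithinAt_hS h.bK.comp hKn z)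
  have hl := (hasDerivWithinAt_left h.bC.comp hCn z).sub (hasDerivWithinAt_left h.bK.comp hKn z)
  have h3 : rS C z - (sigS C).real {z} - (rS K z - (sigS K).real {z}) = rS C z - rS K z := by
    rw [h2]
    ring
  rw [h3] at hl
  have h4 := hl.union hr
  rw [Iic_union_Ici, hasDerivWithinAt_univ] at h4
  exact h4

end Pool.Agent.MP9dd972
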