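import Mathlib
import Pool.Agent.Lib.MP_9dd972_gt.Defs
import Pool.Agent.Lib.MP_9dd972_gt.Supp

/-!
# MP_9dd972_gt, module EQS: bodies with the same support function are equal
-/

set_option autoImplicit false

namespace Pool.Agent.MP9dd972

open MeasureTheory Set
open scoped ENNReal NNReal Real

namespace EqsAux

/-- Every vector of the plane is a nonnegative multiple of some `ee t`. -/
theorem exists_polar (y : E2) : ∃ r t : ℝ, 0 ≤ r ∧ y = r • ee t := by
  set z : ℂ := ⟨y 0, y 1⟩ with hz
  refine ⟨‖z‖, Complex.arg z, norm_nonneg z, ?_⟩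
  have h0 : y 0 = ‖z‖ * Real.cos (Complex.arg z) := by
    rw [Complex.norm_mul_cos_arg]
  have h1 : y 1 = ‖z‖ * Real.sin (Complex.arg z) := by
    rw [Complex.norm_mul_sin_arg]
  ext i
  fin_cases i
  · simpa [ee] using h0
  · simpa [ee] using h1

theorem sub_of_hS {K C : Set E2} (hK : Body K) (hC : Body C) (h : ∀ t, hS K t = hS C t) :
    K ⊆ C := by
  intro x hx
  by_contra hxC
  obtain ⟨f, u, hfu, hux⟩ :=
    geometric_hahn_banach_closed_point hC.conv hC.comp.isClosed hxC
  set y : E2 := (InnerProductSpace.toDual ℝ E2).symm f with hy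
  have hf : ∀ v : E2, f v = (inner ℝ y v : ℝ) := by
    intro v
    rw [hy, InnerProductSpace.toDual_symm_apply]
  obtain ⟨r, t, hr, hyr⟩ := exists_polar y
  have hCne : C.Nonempty := ⟨0, interior_subset hC.zero⟩
  obtain ⟨c, hc, hct⟩ := SuppAux.exists_max hC.comp hCne t
  have h1 : f c < f x := (hfu c hc).trans hux
  rw [hf, hf, hyr, real_inner_smul_left, real_inner_smul_left] at h1
  have h2 : (inner ℝ (ee t) x : ℝ) ≤ inner ℝ (ee t) c := by
    rw [hct, ← h t]
    exact inner_le_hS hK.comp hx t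
  have h3 := mul_le_mul_of_nonneg_left h2 hr
  linarith

end EqsAux

theorem eq_of_hS {K C : Set E2} (hK : Body K) (hC : Body C) (h : ∀ t, hS K t = hS C t) :
    K = C :=
  Subset.antisymm (EqsAux.sub_of_hS hK hC h) (EqsAux.sub_of_hS hC hK fun t => (h t).symm)

end Pool.Agent.MP9dd972
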