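import Mathlib
import Pool.Agent.Lib.MP_9dd972_gt.Defs
import Pool.Agent.Lib.MP_9dd972_gt.Supp
import Pool.Agent.Lib.MP_9dd972_gt.Sibp

/-!
# MP_9dd972_gt, module SECT: area of a sector against an inscribed quadrilateral
-/

set_option autoImplicit false

namespace Pool.Agent.MP9dd972

open MeasureTheory Set
open scoped ENNReal NNReal Real

namespace SectAux

theorem se_ie (t : ℝ) (x : E2) : (inner ℝ (ee t) x : ℝ) = Real.cos t * x 0 + Real.sin t * x 1 := by
  simp [ee, PiLp.inner_apply, Fin.sum_univ_two]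
  ring

theorem se_if (t : ℝ) (x : E2) : (inner ℝ (ff t) x : ℝ) = -Real.sin t * x 0 + Real.cos t * x 1 := by
  simp [ff, PiLp.inner_apply, Fin.sum_univ_two]
  ring

theorem se_hd (U : E2) (x : ℝ) :
    HasDerivAt (fun y => (inner ℝ (ee y) U : ℝ)) (inner ℝ (ff x) U) x := by
  simp only [se_ie, se_if]
  exact ((Real.hasDerivAt_cos x).mul_const (U 0)).add ((Real.hasDerivAt_sin x).mul_const (U 1))

theorem se_hd2 (U : E2) (x : ℝ) :
    HasDerivAt (fun y => (inner ℝ (ff y) U : ℝ)) (-(inner ℝ (ee x) U : ℝ)) x := by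
  simp only [se_ie, se_if]
  have h := ((Real.hasDerivAt_sin x).neg.mul_const (U 0)).add
    ((Real.hasDerivAt_cos x).mul_const (U 1))
  refine h.congr_deriv ?_
  ring

theorem se_wr (t : ℝ) (U V : E2) : (inner ℝ (ee t) U : ℝ) * (inner ℝ (ff t) V : ℝ) -
    (inner ℝ (ff t) U : ℝ) * (inner ℝ (ee t) V : ℝ) = crs U V := by
  simp only [se_ie, se_if, crs]
  have h := Real.sin_sq_add_cos_sq t
  linear_combination (U 0 * V 1 - U 1 * V 0) * h

/-- the frame at `b` in terms of the frame at `t` -/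
theorem se_rot (b t : ℝ) (U : E2) : (inner ℝ (ee b) U : ℝ) =
    Real.cos (b - t) * (inner ℝ (ee t) U : ℝ) + Real.sin (b - t) * (inner ℝ (ff t) U : ℝ) := by
  simp only [se_ie, se_if, Real.sin_sub, Real.cos_sub]
  have h := Real.sin_sq_add_cos_sq t
  linear_combination (-(Real.cos b * U 0 + Real.sin b * U 1)) * h

theorem se_cont (U : E2) : Continuous (fun y => (inner ℝ (ee y) U : ℝ)) :=
  continuous_iff_continuousAt.2 fun x => (se_hd U x).continuousAt

theorem se_cont2 (U : E2) : Continuous (fun y => (inner ℝ (ff y) U : ℝ)) :=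
  continuous_iff_continuousAt.2 fun x => (se_hd2 U x).continuousAt

theorem se_lip (U : E2) : LipschitzWith (‖U‖₊) (fun x => (inner ℝ (ee x) U : ℝ)) := by
  refine lipschitzWith_of_nnnorm_deriv_le (fun x => (se_hd U x).differentiableAt) fun x => ?_
  rw [(se_hd U x).deriv]
  have hn : ‖ff x‖ = 1 := by
    rw [EuclideanSpace.norm_eq]
    simp [ff, Fin.sum_univ_two]
  have := norm_inner_le_norm (𝕜 := ℝ) (ff x) U
  rw [hn, one_mul] at this
  exact_mod_cast this

theorem se_ac {f f' : ℝ → ℝ} (hf : ∀ x, HasDerivAt f (f' x) x) (hc : Continuous f') (a b : ℝ) :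
    AbsolutelyContinuousOnInterval f a b := by
  refine ContDiffOn.absolutelyContinuousOnInterval (ContDiff.contDiffOn ?_)
  rw [contDiff_one_iff_deriv]
  refine ⟨fun x => (hf x).differentiableAt, ?_⟩
  rw [show deriv f = f' from funext fun x => (hf x).deriv]
  exact hc

theorem se_acw {w : ℝ → ℝ} {M : ℝ≥0} (hw : LipschitzWith M w) (a b : ℝ) :
    AbsolutelyContinuousOnInterval w a b :=
  (hw.lipschitzOnWith (s := uIcc a b)).absolutelyContinuousOnInterval

theorem se_ii {f : ℝ → ℝ} (hf : Measurable f) (C : ℝ) (h : ∀ x, |f x| ≤ C) (a b : ℝ) :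
    IntervalIntegrable f volume a b := by
  rw [intervalIntegrable_iff]
  refine Measure.integrableOn_of_bounded (M := C) ?_ hf.aestronglyMeasurable
    (Filter.Eventually.of_forall fun x => h x)
  simp [uIoc]

theorem se_dsq {w : ℝ → ℝ} {M : ℝ≥0} (hw : LipschitzWith M w) (a b : ℝ) :
    IntervalIntegrable (fun x => (deriv w x) ^ 2) volume a b := by
  refine se_ii ((measurable_deriv w).pow_const 2) ((M : ℝ) ^ 2) (fun x => ?_) a b
  rw [abs_pow]
  have h := norm_deriv_le_of_lipschitz (x₀ := x) hw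
  rw [Real.norm_eq_abs] at h
  exact pow_le_pow_left₀ (abs_nonneg _) h 2

theorem se_iw {w : ℝ → ℝ} {M : ℝ≥0} (hw : LipschitzWith M w) (a b : ℝ) :
    IntervalIntegrable (fun x => (w x) ^ 2 - (deriv w x) ^ 2) volume a b :=
  ((hw.continuous.pow 2).intervalIntegrable a b).sub (se_dsq hw a b)

/-- evaluation of the two integrals in `sig_ibp` for `f = w - q` -/
theorem se_eval {w : ℝ → ℝ} {M : ℝ≥0} (hw : LipschitzWith M w) (Z : E2) (a b : ℝ) :
    -(∫ x in a..b, deriv (fun y => w y - (inner ℝ (ee y) Z : ℝ)) x * deriv w x) +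
      ∫ x in a..b, (w x - (inner ℝ (ee x) Z : ℝ)) * w x =
      (∫ x in a..b, ((w x) ^ 2 - (deriv w x) ^ 2)) +
        (w b * (inner ℝ (ff b) Z : ℝ) - w a * (inner ℝ (ff a) Z : ℝ)) := by
  have hq2 := se_ac (se_hd2 Z) (se_cont Z).neg a b
  have e1 := (se_acw hw a b).integral_deriv_mul_eq_sub hq2
  have hd2 : deriv (fun y => (inner ℝ (ff y) Z : ℝ)) = fun x => -(inner ℝ (ee x) Z : ℝ) :=
    funext fun x => (se_hd2 Z x).deriv
  rw [hd2] at e1
  have hwd := (se_acw hw a b).intervalIntegrable_deriv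
  have i2 : IntervalIntegrable (fun x => deriv w x * (inner ℝ (ff x) Z : ℝ) +
      w x * -(inner ℝ (ee x) Z : ℝ)) volume a b :=
    (hwd.mul_continuousOn (se_cont2 Z).continuousOn).add
      ((hw.continuous.mul (se_cont Z).neg).intervalIntegrable a b)
  have i3 : IntervalIntegrable (fun x => (w x - (inner ℝ (ee x) Z : ℝ)) * w x) volume a b :=
    ((hw.continuous.sub (se_cont Z)).mul hw.continuous).intervalIntegrable a b
  have i4 : IntervalIntegrable (fun x => (deriv w x) ^ 2 - deriv w x * (inner ℝ (ff x) Z : ℝ))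
      volume a b := (se_dsq hw a b).sub (hwd.mul_continuousOn (se_cont2 Z).continuousOn)
  have k1 : ∫ x in a..b, deriv (fun y => w y - (inner ℝ (ee y) Z : ℝ)) x * deriv w x =
      ∫ x in a..b, ((deriv w x) ^ 2 - deriv w x * (inner ℝ (ff x) Z : ℝ)) := by
    refine intervalIntegral.integral_congr_ae ?_
    filter_upwards [hw.ae_differentiableAt_real] with x hx _
    have h2 := (hx.hasDerivAt).sub (se_hd Z x)
    have h3 : deriv (fun y => w y - (inner ℝ (ee y) Z : ℝ)) x =
        deriv w x - (inner ℝ (ff x) Z : ℝ) := h2.deriv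
    rw [h3]
    ring
  have i5 : IntervalIntegrable (fun x => -((deriv w x) ^ 2 - deriv w x * (inner ℝ (ff x) Z : ℝ)))
      volume a b := i4.neg
  have e2 : ∫ x in a..b, (deriv w x * (inner ℝ (ff x) Z : ℝ) + w x * -(inner ℝ (ee x) Z : ℝ)) =
      w b * (inner ℝ (ff b) Z : ℝ) - w a * (inner ℝ (ff a) Z : ℝ) := e1
  rw [k1, ← e2, ← intervalIntegral.integral_neg, ← intervalIntegral.integral_add i5 i3,
    ← intervalIntegral.integral_add (se_iw hw a b) i2]
  refine intervalIntegral.integral_congr fun x _ => ?_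
  ring

end SectAux

open SectAux in
theorem sect {L : Set E2} (hL : IsCompact L) (hne : L.Nonempty) {a b : ℝ} (hab : a < b)
    {u v z : E2} (hu : u ∈ L) (hv : v ∈ L) (hz : z ∈ L)
    (hua : (inner ℝ (ee a) u : ℝ) = hS L a) (hvb : (inner ℝ (ee b) v : ℝ) = hS L b) :
    crs u z + crs z v ≤ (∫ x in a..b, ((hS L x) ^ 2 - (deriv (hS L) x) ^ 2)) +
      (inner ℝ (ee b) v : ℝ) * (inner ℝ (ff b) v : ℝ) -
      (inner ℝ (ee a) u : ℝ) * (inner ℝ (ff a) u : ℝ) := by
  obtain ⟨M, hM⟩ := hS_lip hL hne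
  have hep : LipschitzWith (M + ‖z‖₊) (fun x => hS L x - (inner ℝ (ee x) z : ℝ)) :=
    hM.sub (se_lip z)
  have hep0 : ∀ x, 0 ≤ hS L x - (inner ℝ (ee x) z : ℝ) := fun x =>
    sub_nonneg.2 (inner_le_hS hL hz x)
  have hra : (inner ℝ (ff a) u : ℝ) ≤ rS L a := by
    obtain ⟨P, -, -, -, hP⟩ := exists_top hL hne a
    exact hP u hu hua
  obtain ⟨Ψ, hΨ⟩ : ∃ Ψ : ℝ → ℝ, Ψ = fun t =>
      (hS L t - (inner ℝ (ee t) z : ℝ)) * (inner ℝ (ff t) v : ℝ) -
      (hS L a - (inner ℝ (ee a) z : ℝ)) * (inner ℝ (ff a) u : ℝ) +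
      ((∫ x in a..t, ((hS L x) ^ 2 - (deriv (hS L) x) ^ 2)) +
        (hS L t * (inner ℝ (ff t) z : ℝ) - hS L a * (inner ℝ (ff a) z : ℝ))) := ⟨_, rfl⟩
  have hcont : Continuous Ψ := by
    rw [hΨ]
    have hprim : Continuous fun t => ∫ x in a..t, ((hS L x) ^ 2 - (deriv (hS L) x) ^ 2) :=
      intervalIntegral.continuous_primitive (fun c d => se_iw hM c d) a
    have c1 := hM.continuous
    exact ((((c1.sub (se_cont z)).mul (se_cont2 v)).sub continuous_const).add
      (hprim.add ((c1.mul (se_cont2 z)).sub continuous_const)))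
  have hpos : ∀ t ∈ Ioo (max a (b - π / 2)) b, 0 ≤ Ψ t := by
    intro t ht
    have hat : a < t := lt_of_le_of_lt (le_max_left _ _) ht.1
    have hbt : b - t < π / 2 := by
      have := lt_of_le_of_lt (le_max_right a (b - π / 2)) ht.1
      linarith
    have hrb : rS L t ≤ (inner ℝ (ff t) v : ℝ) := by
      obtain ⟨P, hPL, hP1, hP2, -⟩ := exists_top hL hne t
      have hsin : 0 < Real.sin (b - t) :=
        Real.sin_pos_of_pos_of_lt_pi (sub_pos.2 ht.2) (by linarith [Real.pi_pos])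
      have hcos : 0 ≤ Real.cos (b - t) :=
        Real.cos_nonneg_of_neg_pi_div_two_le_of_le (by linarith [ht.2, Real.pi_pos]) hbt.le
      have r1 := se_rot b t v
      have r2 := se_rot b t P
      have l1 : (inner ℝ (ee b) P : ℝ) ≤ inner ℝ (ee b) v := by
        rw [hvb]; exact inner_le_hS hL hPL b
      have l2 : (inner ℝ (ee t) v : ℝ) ≤ inner ℝ (ee t) P := by
        rw [hP1]; exact inner_le_hS hL hv t
      have l3 := mul_le_mul_of_nonneg_left l2 hcos
      have l4 : Real.sin (b - t) * (inner ℝ (ff t) P : ℝ) ≤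
          Real.sin (b - t) * (inner ℝ (ff t) v : ℝ) := by linarith
      rw [← hP2]
      exact le_of_mul_le_mul_left l4 hsin
    have hibp := sig_ibp hL hne hep hat.le
    have hev := se_eval hM z a t
    have hnn : 0 ≤ ∫ x in Ioc a t, (hS L x - (inner ℝ (ee x) z : ℝ)) ∂(sigS L) :=
      setIntegral_nonneg measurableSet_Ioc fun x _ => hep0 x
    have m1 := mul_le_mul_of_nonneg_left hrb (hep0 t)
    have m2 := mul_le_mul_of_nonneg_left hra (hep0 a)
    rw [hΨ]
    simp only
    linarith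
  have hlim : 0 ≤ Ψ b := by
    have hm : max a (b - π / 2) < b := max_lt hab (by linarith [Real.pi_pos])
    refine ge_of_tendsto (hcont.continuousWithinAt (s := Iio b) (x := b)) ?_
    filter_upwards [Ioo_mem_nhdsLT hm] with t ht
    exact hpos t ht
  rw [hΨ] at hlim
  simp only at hlim
  rw [← hua, ← hvb] at hlim
  have w1 := se_wr b z v
  have w2 := se_wr a u z
  linarith

end Pool.Agent.MP9dd972
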