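import Mathlib
import Pool.Agent.Lib.MP_9dd972_gt.Defs

/-!
# MP_9dd972_gt, module PEXT: periodic Lipschitz extension
-/

set_option autoImplicit false

namespace Pool.Agent.MP9dd972.PextAux

open MeasureTheory Set
open scoped ENNReal NNReal Real

/-- the cell index of `x` -/
noncomputable def idx (a P x : ℝ) : ℤ := ⌊(x - a) / P⌋

theorem idx_le {a P : ℝ} (hP : 0 < P) (x : ℝ) : a ≤ x - P * idx a P x := by
  have h := Int.floor_le ((x - a) / P)
  rw [le_div_iff₀ hP] at h
  unfold idx
  linarith

theorem lt_idx {a P : ℝ} (hP : 0 < P) (x : ℝ) : x - P * idx a P x < a + P := by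
  have h := Int.lt_floor_add_one ((x - a) / P)
  rw [div_lt_iff₀ hP] at h
  unfold idx
  linarith

theorem dist_le {f : ℝ → ℝ} {M : ℝ≥0} {a P : ℝ} (hP : 0 < P)
    (hf : LipschitzOnWith M f (Icc a (a + P))) (h : f (a + P) = f a) {x y : ℝ} (hxy : x ≤ y) :
    |f (x - P * idx a P x) - f (y - P * idx a P y)| ≤ M * (y - x) := by
  have hl : ∀ u ∈ Icc a (a + P), ∀ v ∈ Icc a (a + P), |f u - f v| ≤ M * |u - v| := by
    intro u hu v hv
    have := hf.dist_le_mul u hu v hv
    rwa [Real.dist_eq, Real.dist_eq] at this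
  have hx1 := idx_le (a := a) hP x
  have hx2 := lt_idx (a := a) hP x
  have hy1 := idx_le (a := a) hP y
  have hy2 := lt_idx (a := a) hP y
  have hk : idx a P x ≤ idx a P y :=
    Int.floor_le_floor (div_le_div_of_nonneg_right (by linarith) hP.le)
  have hxm : x - P * idx a P x ∈ Icc a (a + P) := ⟨hx1, hx2.le⟩
  have hym : y - P * idx a P y ∈ Icc a (a + P) := ⟨hy1, hy2.le⟩
  rcases hk.eq_or_lt with he | hlt
  · have h1 := hl _ hxm _ hym
    rw [← he] at h1 ⊢
    have h2 : |x - P * (idx a P x : ℝ) - (y - P * (idx a P x : ℝ))| = y - x := by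
      rw [show x - P * (idx a P x : ℝ) - (y - P * (idx a P x : ℝ)) = -(y - x) by ring, abs_neg,
        abs_of_nonneg (by linarith)]
    rwa [h2] at h1
  · have h1 := hl _ hxm (a + P) ⟨by linarith, le_rfl⟩
    have h2 := hl a ⟨le_rfl, by linarith⟩ _ hym
    rw [abs_of_nonpos (by linarith : x - P * (idx a P x : ℝ) - (a + P) ≤ 0)] at h1
    rw [abs_of_nonpos (by linarith : a - (y - P * (idx a P y : ℝ)) ≤ 0)] at h2
    have h3 : (idx a P x : ℝ) + 1 ≤ idx a P y := by exact_mod_cast hlt
    have h4 : P * ((idx a P x : ℝ) + 1) ≤ P * idx a P y := mul_le_mul_of_nonneg_left h3 hP.le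
    have h5 : f (x - P * (idx a P x : ℝ)) - f (y - P * (idx a P y : ℝ)) =
        (f (x - P * (idx a P x : ℝ)) - f (a + P)) + (f a - f (y - P * (idx a P y : ℝ))) := by
      rw [h]; ring
    have hM : (0 : ℝ) ≤ M := M.2
    calc |f (x - P * (idx a P x : ℝ)) - f (y - P * (idx a P y : ℝ))|
        ≤ |f (x - P * (idx a P x : ℝ)) - f (a + P)| +
            |f a - f (y - P * (idx a P y : ℝ))| := by
          rw [h5]; exact abs_add_le _ _
      _ ≤ M * -(x - P * (idx a P x : ℝ) - (a + P)) +
            M * -(a - (y - P * (idx a P y : ℝ))) := add_le_add h1 h2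
      _ = M * (y - x + (P * ((idx a P x : ℝ) + 1) - P * idx a P y)) := by ring
      _ ≤ M * (y - x) := mul_le_mul_of_nonneg_left (by linarith) hM

end Pool.Agent.MP9dd972.PextAux

namespace Pool.Agent.MP9dd972

open MeasureTheory Set
open scoped ENNReal NNReal Real

theorem pext {f : ℝ → ℝ} {M : ℝ≥0} {a P : ℝ} (hP : 0 < P)
    (hf : LipschitzOnWith M f (Icc a (a + P))) (h : f (a + P) = f a) :
    ∃ g : ℝ → ℝ, LipschitzWith M g ∧ (∀ x, g (x + P) = g x) ∧ ∀ x ∈ Icc a (a + P), g x = f x := by
  refine ⟨fun x => f (x - P * PextAux.idx a P x), ?_, ?_, ?_⟩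
  · refine LipschitzWith.of_dist_le_mul fun x y => ?_
    rw [Real.dist_eq, Real.dist_eq]
    rcases le_total x y with hxy | hxy
    · have h1 := PextAux.dist_le hP hf h hxy
      rw [abs_sub_comm x y, abs_of_nonneg (by linarith : 0 ≤ y - x)]
      exact h1
    · have h1 := PextAux.dist_le hP hf h hxy
      rw [abs_sub_comm, abs_of_nonneg (by linarith : 0 ≤ x - y)]
      exact h1
  · intro x
    have h1 : PextAux.idx a P (x + P) = PextAux.idx a P x + 1 := by
      unfold PextAux.idx
      rw [show (x + P - a) / P = (x - a) / P + 1 by field_simp; ring, Int.floor_add_one]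
    dsimp only
    rw [h1]
    congr 1
    push_cast
    ring
  · intro x hx
    rcases hx.2.eq_or_lt with he | hlt
    · have h1 : PextAux.idx a P x = 1 := by
        unfold PextAux.idx
        rw [he, show (a + P - a) / P = 1 by field_simp; ring, Int.floor_one]
      dsimp only
      rw [h1, he, h]
      congr 1
      push_cast
      ring
    · have h1 : PextAux.idx a P x = 0 := by
        unfold PextAux.idx
        rw [Int.floor_eq_zero_iff]
        exact ⟨div_nonneg (by linarith [hx.1]) hP.le, (div_lt_one hP).2 (by linarith)⟩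
      dsimp only
      rw [h1]
      congr 1
      push_cast
      ring

end Pool.Agent.MP9dd972
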