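import Mathlib
import Pool.Agent.Lib.MP_9dd972_gt.Defs

/-!
# MP_9dd972_gt, planar case, module EXX: three concurrent zeros
-/

set_option autoImplicit false

namespace Pool.Agent.MP9dd972

open MeasureTheory Set
open scoped ENNReal NNReal Real

namespace ExxAux

/-- the pointwise identity behind the improvement step -/
theorem abs_sub_eq {u l e : ℝ} (he : 0 ≤ e) (h : (0 ≤ l ∧ e * l ≤ u) ∨ l ≤ 0) :
    |u - e * l| = |u| - e * l - 2 * min (e * |l|) (max (-u) 0) := by
  rcases h with ⟨hl, hu⟩ | hl
  · have h1 : 0 ≤ e * l := mul_nonneg he hl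
    have h2 : 0 ≤ u := h1.trans hu
    rw [abs_of_nonneg (by linarith : (0 : ℝ) ≤ u - e * l), abs_of_nonneg h2,
      max_eq_right (by linarith : -u ≤ 0),
      min_eq_right (mul_nonneg he (abs_nonneg l))]
    ring
  · have h1 : e * l ≤ 0 := mul_nonpos_of_nonneg_of_nonpos he hl
    rw [abs_of_nonpos hl]
    rcases le_or_gt 0 u with h2 | h2
    · rw [abs_of_nonneg (by linarith : (0 : ℝ) ≤ u - e * l), abs_of_nonneg h2,
        max_eq_right (by linarith : -u ≤ 0), min_eq_right (by linarith : (0 : ℝ) ≤ e * -l)]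
      ring
    · rw [max_eq_left (by linarith : (0 : ℝ) ≤ -u), abs_of_neg h2]
      rcases le_total (e * -l) (-u) with h3 | h3
      · rw [min_eq_left h3, abs_of_nonpos (by linarith : u - e * l ≤ 0)]
        ring
      · rw [min_eq_right h3, abs_of_nonneg (by linarith : (0 : ℝ) ≤ u - e * l)]
        ring

theorem key {u R : ℝ → ℝ} (hu : Continuous u) (hup : ∀ t, u (t + 2 * π) = u t)
    (hR : Wt R) (h0 : ∫ t in (0 : ℝ)..2 * π, u t * R t = 0)
    (hmin : ∀ p q : ℝ, ∫ t in (0 : ℝ)..2 * π, |u t| * R t ≤
      ∫ t in (0 : ℝ)..2 * π, |u t - (p * Real.cos t + q * Real.sin t)| * R t) (a : ℝ) :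
    ∃ t ∈ Icc a (a + π), u t ≤ 0 := by
  by_contra hcon
  push Not at hcon
  have hpi := Real.pi_pos
  obtain ⟨t1, ht1, hd⟩ := isCompact_Icc.exists_isMinOn (s := Icc a (a + π))
    ⟨a, left_mem_Icc.2 (by linarith)⟩ hu.continuousOn
  set d := u t1 with hdd
  have hd0 : 0 < d := hcon t1 ht1
  have hd' : ∀ t ∈ Icc a (a + π), d ≤ u t := fun t ht => hd ht
  -- shifted integrals
  have shift : ∀ f : ℝ → ℝ, (∀ t, f (t + 2 * π) = f t) →
      ∫ t in (0 : ℝ)..2 * π, f t = ∫ t in a..(a + 2 * π), f t := by
    intro f hf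
    have h1 : Function.Periodic f (2 * π) := hf
    have h2 := h1.intervalIntegral_add_eq 0 a
    rwa [zero_add] at h2
  have hcos : ∀ t : ℝ, Real.cos (t + 2 * π) = Real.cos t := Real.cos_add_two_pi
  have hsin : ∀ t : ℝ, Real.sin (t + 2 * π) = Real.sin t := Real.sin_add_two_pi
  have hRc := hR.cont
  by_cases hneg : ∃ t0 ∈ Icc a (a + 2 * π), u t0 < 0
  · obtain ⟨t0, ht0, hut⟩ := hneg
    have h1 : a + π < t0 := by
      by_contra h
      exact absurd (hcon t0 ⟨ht0.1, not_lt.1 h⟩) (by linarith)
    have h2 : t0 < a + 2 * π := by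
      refine lt_of_le_of_ne ht0.2 ?_
      rintro rfl
      rw [hup] at hut
      exact absurd (hcon a ⟨le_rfl, by linarith⟩) (by linarith)
    have h3 : Real.sin (t0 - a) < 0 := by
      have h4 : Real.sin (t0 - a) = -Real.sin (t0 - a - π) := by
        rw [Real.sin_sub_pi]; ring
      rw [h4]
      have h5 := Real.sin_pos_of_pos_of_lt_pi (x := t0 - a - π) (by linarith) (by linarith)
      linarith
    set g : ℝ → ℝ := fun t => min (d * |Real.sin (t - a)|) (max (-u t) 0) with hg
    have hgc : Continuous g := by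
      rw [hg]; fun_prop
    have hg0 : ∀ t, 0 ≤ g t := fun t =>
      le_min (mul_nonneg hd0.le (abs_nonneg _)) (le_max_right _ _)
    have hgpos : 0 < ∫ t in a..(a + 2 * π), g t * R t := by
      refine intervalIntegral.integral_pos (by linarith) (hgc.mul hRc).continuousOn
        (fun t _ => mul_nonneg (hg0 t) (hR.pos t).le) ⟨t0, ht0, ?_⟩
      refine mul_pos (lt_min (mul_pos hd0 (abs_pos.2 h3.ne)) ?_) (hR.pos t0)
      exact lt_max_of_lt_left (by linarith)
    have hm := hmin (-(d * Real.sin a)) (d * Real.cos a)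
    have hl : ∀ t, -(d * Real.sin a) * Real.cos t + d * Real.cos a * Real.sin t
        = d * Real.sin (t - a) := by
      intro t; rw [Real.sin_sub]; ring
    simp only [hl] at hm
    rw [shift (fun t => |u t| * R t) (fun t => by simp only [hup, hR.per]),
      shift (fun t => |u t - d * Real.sin (t - a)| * R t) (fun t => by
        have h6 : t + 2 * π - a = t - a + 2 * π := by ring
        simp only [hup, hR.per, h6, hsin])] at hm
    have hid : ∀ t ∈ uIcc a (a + 2 * π), |u t - d * Real.sin (t - a)| * R t =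
        |u t| * R t - d * Real.sin (t - a) * R t - 2 * (g t * R t) := by
      intro t ht
      rw [uIcc_of_le (by linarith)] at ht
      have h7 : |u t - d * Real.sin (t - a)| = |u t| - d * Real.sin (t - a) - 2 * g t := by
        refine abs_sub_eq hd0.le ?_
        rcases le_or_gt t (a + π) with h8 | h8
        · left
          have h9 : 0 ≤ Real.sin (t - a) :=
            Real.sin_nonneg_of_nonneg_of_le_pi (by linarith [ht.1]) (by linarith)
          refine ⟨h9, ?_⟩
          have h10 := hd' t ⟨ht.1, h8⟩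
          nlinarith [Real.sin_le_one (t - a)]
        · right
          have h4 : Real.sin (t - a) = -Real.sin (t - a - π) := by
            rw [Real.sin_sub_pi]; ring
          rw [h4]
          have h5 := Real.sin_nonneg_of_nonneg_of_le_pi (x := t - a - π) (by linarith)
            (by linarith [ht.2])
          linarith
      rw [h7]; ring
    rw [intervalIntegral.integral_congr (g := fun t => |u t| * R t - d * Real.sin (t - a) * R t
      - 2 * (g t * R t)) hid] at hm
    have hI1 : IntervalIntegrable (fun t => |u t| * R t) volume a (a + 2 * π) :=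
      (hu.abs.mul hRc).intervalIntegrable _ _
    have hI2 : IntervalIntegrable (fun t => d * Real.sin (t - a) * R t) volume a (a + 2 * π) :=
      (by fun_prop : Continuous (fun t => d * Real.sin (t - a) * R t)).intervalIntegrable _ _
    have hI3 : IntervalIntegrable (fun t => 2 * (g t * R t)) volume a (a + 2 * π) :=
      (continuous_const.mul (hgc.mul hRc)).intervalIntegrable _ _
    rw [intervalIntegral.integral_sub (hI1.sub hI2) hI3, intervalIntegral.integral_sub hI1 hI2,
      intervalIntegral.integral_const_mul] at hm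
    have hz : ∫ t in a..(a + 2 * π), d * Real.sin (t - a) * R t = 0 := by
      rw [← shift (fun t => d * Real.sin (t - a) * R t) (fun t => by
        have h6 : t + 2 * π - a = t - a + 2 * π := by ring
        simp only [hR.per, h6, hsin])]
      have h11 : ∀ t, d * Real.sin (t - a) * R t = d * Real.cos a * (R t * Real.sin t)
          - d * Real.sin a * (R t * Real.cos t) := by
        intro t; rw [Real.sin_sub]; ring
      simp only [h11]
      rw [intervalIntegral.integral_sub, intervalIntegral.integral_const_mul,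
        intervalIntegral.integral_const_mul, hR.c0, hR.s0]
      · ring
      · exact (continuous_const.mul (hRc.mul Real.continuous_sin)).intervalIntegrable _ _
      · exact (continuous_const.mul (hRc.mul Real.continuous_cos)).intervalIntegrable _ _
    rw [hz] at hm
    linarith
  · push Not at hneg
    rw [shift (fun t => u t * R t) (fun t => by simp only [hup, hR.per])] at h0
    have h1 : 0 < ∫ t in a..(a + 2 * π), u t * R t := by
      refine intervalIntegral.integral_pos (by linarith) (hu.mul hRc).continuousOn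
        (fun t ht => mul_nonneg (hneg t ⟨ht.1.le, ht.2⟩) (hR.pos t).le) ⟨a, ⟨le_rfl, by linarith⟩, ?_⟩
      exact mul_pos (hcon a ⟨le_rfl, by linarith⟩) (hR.pos a)
    linarith

theorem integral_sq (p q : ℝ) :
    ∫ t in (0 : ℝ)..2 * π, (p * Real.cos t + q * Real.sin t) ^ 2 = π * (p ^ 2 + q ^ 2) := by
  have h : ∀ t : ℝ, (p * Real.cos t + q * Real.sin t) ^ 2 =
      p ^ 2 * Real.cos t ^ 2 + q ^ 2 * Real.sin t ^ 2 + 2 * p * q * (Real.sin t * Real.cos t) := by
    intro t; ring
  simp only [h]
  rw [intervalIntegral.integral_add, intervalIntegral.integral_add,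
    intervalIntegral.integral_const_mul, intervalIntegral.integral_const_mul,
    intervalIntegral.integral_const_mul, integral_cos_sq, integral_sin_sq,
    integral_sin_mul_cos₁]
  · simp
    ring
  all_goals exact Continuous.intervalIntegrable (by fun_prop) _ _

theorem exists_min {v R : ℝ → ℝ} (hv : Continuous v) (hR : Wt R) :
    ∃ x : ℝ × ℝ, ∀ y : ℝ × ℝ,
      ∫ t in (0 : ℝ)..2 * π, |v t - (x.1 * Real.cos t + x.2 * Real.sin t)| * R t ≤
      ∫ t in (0 : ℝ)..2 * π, |v t - (y.1 * Real.cos t + y.2 * Real.sin t)| * R t := by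
  have hpi := Real.pi_pos
  have hRc := hR.cont
  obtain ⟨t1, _, ht1⟩ := isCompact_Icc.exists_isMinOn (s := Icc (0 : ℝ) (2 * π))
    ⟨0, left_mem_Icc.2 (by linarith)⟩ hRc.continuousOn
  set r := R t1 with hr
  have hr0 : 0 < r := hR.pos t1
  have hr' : ∀ t ∈ Icc (0 : ℝ) (2 * π), r ≤ R t := fun t ht => ht1 ht
  set F : ℝ × ℝ → ℝ := fun x =>
    ∫ t in (0 : ℝ)..2 * π, |v t - (x.1 * Real.cos t + x.2 * Real.sin t)| * R t with hF
  have hFc : Continuous F := by
    refine intervalIntegral.continuous_parametric_intervalIntegral_of_continuous'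
      (f := fun (x : ℝ × ℝ) t => |v t - (x.1 * Real.cos t + x.2 * Real.sin t)| * R t) ?_ 0 (2 * π)
    unfold Function.uncurry
    fun_prop
  set C := ∫ t in (0 : ℝ)..2 * π, |v t| * R t with hC
  have hlow : ∀ x : ℝ × ℝ, r * (π / 2) * ‖x‖ - C ≤ F x := by
    intro x
    have h1 : ∫ t in (0 : ℝ)..2 * π, (r * |x.1 * Real.cos t + x.2 * Real.sin t| - |v t| * R t)
        ≤ F x := by
      refine intervalIntegral.integral_mono_on (by linarith)
        (Continuous.intervalIntegrable (by fun_prop) _ _)
        (Continuous.intervalIntegrable (by fun_prop) _ _) ?_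
      intro t ht
      have h2 := hr' t ht
      have h3 : |x.1 * Real.cos t + x.2 * Real.sin t| ≤
          |v t - (x.1 * Real.cos t + x.2 * Real.sin t)| + |v t| := by
        have h4 := abs_sub_abs_le_abs_sub (x.1 * Real.cos t + x.2 * Real.sin t) (v t)
        rw [abs_sub_comm] at h4
        linarith
      have h5 : 0 ≤ |x.1 * Real.cos t + x.2 * Real.sin t| := abs_nonneg _
      have h6 : 0 < R t := hR.pos t
      nlinarith [mul_le_mul_of_nonneg_right h3 h6.le, mul_le_mul_of_nonneg_right h2 h5]
    have h7 : ∫ t in (0 : ℝ)..2 * π, (r * |x.1 * Real.cos t + x.2 * Real.sin t| - |v t| * R t)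
        = r * (∫ t in (0 : ℝ)..2 * π, |x.1 * Real.cos t + x.2 * Real.sin t|) - C := by
      rw [intervalIntegral.integral_sub (Continuous.intervalIntegrable (by fun_prop) _ _)
        (Continuous.intervalIntegrable (by fun_prop) _ _), intervalIntegral.integral_const_mul]
    have h8 : π / 2 * ‖x‖ ≤ ∫ t in (0 : ℝ)..2 * π, |x.1 * Real.cos t + x.2 * Real.sin t| := by
      set s := |x.1| + |x.2| with hs
      have hs1 : ‖x‖ ≤ s := by
        rw [Prod.norm_def]
        refine max_le ?_ ?_
        · rw [Real.norm_eq_abs]; linarith [abs_nonneg x.2]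
        · rw [Real.norm_eq_abs]; linarith [abs_nonneg x.1]
      have hs0 : 0 ≤ s := by positivity
      rcases hs0.eq_or_lt with h9 | h9
      · have h10 : ‖x‖ = 0 := le_antisymm (by linarith) (norm_nonneg _)
        rw [h10, mul_zero]
        exact intervalIntegral.integral_nonneg (by linarith) (fun t _ => abs_nonneg _)
      · have h11 : ∫ t in (0 : ℝ)..2 * π, (x.1 * Real.cos t + x.2 * Real.sin t) ^ 2 ≤
            ∫ t in (0 : ℝ)..2 * π, s * |x.1 * Real.cos t + x.2 * Real.sin t| := by
          refine intervalIntegral.integral_mono_on (by linarith)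
            (Continuous.intervalIntegrable (by fun_prop) _ _)
            (Continuous.intervalIntegrable (by fun_prop) _ _) ?_
          intro t _
          have h12 : |x.1 * Real.cos t + x.2 * Real.sin t| ≤ s := by
            refine (abs_add_le _ _).trans ?_
            rw [abs_mul, abs_mul]
            have h13 := mul_le_mul_of_nonneg_left (Real.abs_cos_le_one t) (abs_nonneg x.1)
            have h14 := mul_le_mul_of_nonneg_left (Real.abs_sin_le_one t) (abs_nonneg x.2)
            linarith
          rw [← sq_abs, sq]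
          exact mul_le_mul_of_nonneg_right h12 (abs_nonneg _)
        rw [integral_sq, intervalIntegral.integral_const_mul] at h11
        have h15 : s ^ 2 ≤ 2 * (x.1 ^ 2 + x.2 ^ 2) := by
          rw [hs]
          nlinarith [sq_abs x.1, sq_abs x.2, sq_nonneg (|x.1| - |x.2|)]
        have h16 : π / 2 * s ≤ ∫ t in (0 : ℝ)..2 * π, |x.1 * Real.cos t + x.2 * Real.sin t| := by
          refine le_of_mul_le_mul_left ?_ h9
          nlinarith
        nlinarith
    nlinarith
  have htend : Filter.Tendsto F (Filter.cocompact (ℝ × ℝ)) Filter.atTop := by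
    refine Filter.tendsto_atTop_mono hlow ?_
    refine Filter.tendsto_atTop_add_const_right _ _ ?_
    exact (tendsto_norm_cocompact_atTop (E := ℝ × ℝ)).const_mul_atTop (by positivity)
  obtain ⟨x, hx⟩ := hFc.exists_forall_le htend
  exact ⟨x, hx⟩

end ExxAux

theorem exists_zeros {v R : ℝ → ℝ} (hv : Continuous v) (hvp : ∀ t, v (t + 2 * π) = v t)
    (hR : Wt R) (h0 : ∫ t in (0 : ℝ)..2 * π, v t * R t = 0) :
    ∃ x y z₁ z₂ z₃ : ℝ, z₁ ≤ z₂ ∧ z₂ ≤ z₃ ∧ z₃ ≤ z₁ + 2 * π ∧
      z₂ - z₁ ≤ π ∧ z₃ - z₂ ≤ π ∧ z₁ + 2 * π - z₃ ≤ π ∧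
      v z₁ = x * Real.cos z₁ + y * Real.sin z₁ ∧
      v z₂ = x * Real.cos z₂ + y * Real.sin z₂ ∧
      v z₃ = x * Real.cos z₃ + y * Real.sin z₃ := by
  have hpi := Real.pi_pos
  have hRc := hR.cont
  obtain ⟨⟨x, y⟩, hmin⟩ := ExxAux.exists_min hv hR
  simp only at hmin
  set u : ℝ → ℝ := fun t => v t - (x * Real.cos t + y * Real.sin t) with hu
  have huc : Continuous u := by rw [hu]; fun_prop
  have hup : ∀ t, u (t + 2 * π) = u t := by
    intro t
    simp only [hu, hvp, Real.cos_add_two_pi, Real.sin_add_two_pi]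
  have hu0 : ∫ t in (0 : ℝ)..2 * π, u t * R t = 0 := by
    have h1 : ∀ t, u t * R t = v t * R t - (x * (R t * Real.cos t) + y * (R t * Real.sin t)) := by
      intro t; simp only [hu]; ring
    simp only [h1]
    rw [intervalIntegral.integral_sub, intervalIntegral.integral_add,
      intervalIntegral.integral_const_mul, intervalIntegral.integral_const_mul, hR.c0, hR.s0, h0]
    · ring
    all_goals exact Continuous.intervalIntegrable (by fun_prop) _ _
  have hP : ∀ a, ∃ t ∈ Icc a (a + π), u t ≤ 0 := by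
    refine ExxAux.key huc hup hR hu0 ?_
    intro p q
    have h1 := hmin (x + p, y + q)
    simp only at h1
    refine h1.trans (le_of_eq ?_)
    refine intervalIntegral.integral_congr ?_
    intro t _
    simp only [hu]
    congr 2
    ring
  have hN : ∀ a, ∃ t ∈ Icc a (a + π), -u t ≤ 0 := by
    refine ExxAux.key (u := fun t => -u t) huc.neg (fun t => by simp only [hup]) hR ?_ ?_
    · simp only [neg_mul]
      rw [intervalIntegral.integral_neg, hu0, neg_zero]
    intro p q
    have h1 := hmin (x - p, y - q)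
    simp only [abs_neg] at h1 ⊢
    refine h1.trans (le_of_eq ?_)
    refine intervalIntegral.integral_congr ?_
    intro t _
    simp only [hu]
    rw [← abs_neg]
    congr 2
    ring
  have hZ : ∀ a, ∃ t ∈ Icc a (a + π), u t = 0 := by
    intro a
    obtain ⟨s, hs, hs0⟩ := hP a
    obtain ⟨t, ht, ht0⟩ := hN a
    have h1 := isPreconnected_Icc.intermediate_value hs ht huc.continuousOn
    obtain ⟨w, hw, hw0⟩ := h1 ⟨hs0, by linarith⟩
    exact ⟨w, hw, hw0⟩
  have hcl : IsClosed {t | u t = 0} := isClosed_eq huc continuous_const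
  obtain ⟨z1, hz1, hz10⟩ := hZ 0
  obtain ⟨z2, ⟨hz2, hz20⟩, hz2m⟩ := (isCompact_Icc.inter_right hcl).exists_isGreatest
    (s := Icc z1 (z1 + π) ∩ {t | u t = 0}) ⟨z1, ⟨⟨le_rfl, by linarith⟩, hz10⟩⟩
  obtain ⟨z3, ⟨hz3, hz30⟩, hz3m⟩ := (isCompact_Icc.inter_right hcl).exists_isLeast
    (s := Icc (z1 + π) (z1 + 2 * π) ∩ {t | u t = 0})
    ⟨z1 + 2 * π, ⟨⟨by linarith, le_rfl⟩, by
      show u (z1 + 2 * π) = 0
      rw [hup]; exact hz10⟩⟩
  have hz20' : u z2 = 0 := hz20
  have hz30' : u z3 = 0 := hz30
  refine ⟨x, y, z1, z2, z3, hz2.1, hz2.2.trans hz3.1, hz3.2, by linarith [hz2.2], ?_,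
    by linarith [hz3.1], ?_, ?_, ?_⟩
  · by_contra hcon
    push Not at hcon
    obtain ⟨t, ht, ht0⟩ := hZ ((z2 + z3 - π) / 2)
    have h1 : z2 < t := by linarith [ht.1]
    have h2 : t < z3 := by linarith [ht.2]
    rcases le_total t (z1 + π) with h3 | h3
    · have h4 : t ≤ z2 := hz2m ⟨⟨by linarith [hz2.1], h3⟩, ht0⟩
      linarith
    · have h4 : z3 ≤ t := hz3m ⟨⟨h3, by linarith [hz3.2]⟩, ht0⟩
      linarith
  · have h := hz10; simp only [hu] at h; linarith
  · have h := hz20'; simp only [hu] at h; linarith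
  · have h := hz30'; simp only [hu] at h; linarith

end Pool.Agent.MP9dd972
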