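import Mathlib
import Pool.Agent.Lib.MP_9dd972_gt.Defs

/-!
# MP_9dd972_gt, module WIRT: Wirtinger inequality on an interval of length at most π
-/

set_option autoImplicit false

namespace Pool.Agent.MP9dd972.WirtAux

open MeasureTheory Set
open scoped ENNReal NNReal Real

theorem sq_intervalIntegrable {f : ℝ → ℝ} {M : ℝ≥0} (hf : LipschitzWith M f) (a b : ℝ) :
    IntervalIntegrable (fun x => (deriv f x) ^ 2) volume a b := by
  rw [intervalIntegrable_iff]
  refine Measure.integrableOn_of_bounded (M := (M : ℝ) ^ 2) ?_ ?_ ?_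
  · simp
  · exact ((measurable_deriv f).pow_const 2).aestronglyMeasurable
  · refine Filter.Eventually.of_forall fun x => ?_
    have h1 : ‖deriv f x‖ ≤ M := norm_deriv_le_of_lipschitz hf
    rw [norm_pow]
    exact pow_le_pow_left₀ (norm_nonneg _) h1 2

theorem key {f : ℝ → ℝ} {M : ℝ≥0} (hf : LipschitzWith M f) {a b k : ℝ} (hab : a ≤ b)
    (hpi : b - a ≤ π) (ha : f a = 0) (hb : f b = 0) (hk0 : 0 < k) (hk1 : k < 1) :
    k ^ 2 * ∫ x in a..b, (f x) ^ 2 ≤ ∫ x in a..b, (deriv f x) ^ 2 := by
  set d : ℝ := (π - k * (b - a)) / 2 with hd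
  have hd0 : 0 < d := by
    have h1 : k * (b - a) ≤ k * π := mul_le_mul_of_nonneg_left hpi hk0.le
    have h2 : k * π < 1 * π := mul_lt_mul_of_pos_right hk1 Real.pi_pos
    rw [hd]
    linarith
  have hu : uIcc a b = Icc a b := uIcc_of_le hab
  have hsin : ∀ x ∈ Icc a b, 0 < Real.sin (k * (x - a) + d) := by
    intro x hx
    refine Real.sin_pos_of_pos_of_lt_pi ?_ ?_
    · have : 0 ≤ k * (x - a) := mul_nonneg hk0.le (by linarith [hx.1])
      linarith
    · have h3 : k * (x - a) ≤ k * (b - a) := mul_le_mul_of_nonneg_left (by linarith [hx.2]) hk0.le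
      have h4 : k * (b - a) + d = π - d := by rw [hd]; ring
      linarith
  set φ : ℝ → ℝ := fun x => k * Real.cos (k * (x - a) + d) / Real.sin (k * (x - a) + d) with hφ
  have hφC : ContDiffOn ℝ 1 φ (uIcc a b) := by
    rw [hu, hφ]
    refine ContDiffOn.div ?_ ?_ fun x hx => (hsin x hx).ne'
    · exact (ContDiff.contDiffOn (by fun_prop))
    · exact (ContDiff.contDiffOn (by fun_prop))
  have hφd : ∀ x ∈ Icc a b, deriv φ x = -k ^ 2 - φ x ^ 2 := by
    intro x hx
    have hs := (hsin x hx).ne'
    have h1 : HasDerivAt (fun x => k * (x - a) + d) k x := by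
      have := (((hasDerivAt_id x).sub_const a).const_mul k).add_const d
      simpa using this
    have h2 : HasDerivAt φ ((k * (-Real.sin (k * (x - a) + d) * k) *
        Real.sin (k * (x - a) + d) - k * Real.cos (k * (x - a) + d) *
        (Real.cos (k * (x - a) + d) * k)) / Real.sin (k * (x - a) + d) ^ 2) x :=
      (h1.cos.const_mul k).div h1.sin hs
    rw [h2.deriv, hφ]
    dsimp only
    rw [div_pow, eq_sub_iff_add_eq]
    rw [← add_div, div_eq_iff (pow_ne_zero 2 hs)]
    ring
  have hfAC : AbsolutelyContinuousOnInterval f a b :=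
    (hf.lipschitzOnWith (s := uIcc a b)).absolutelyContinuousOnInterval
  have hφAC : AbsolutelyContinuousOnInterval φ a b := hφC.absolutelyContinuousOnInterval
  have hFAC : AbsolutelyContinuousOnInterval (fun x => f x * f x) a b := hfAC.fun_mul hfAC
  have hint := hFAC.integral_deriv_mul_eq_sub hφAC
  rw [ha, hb] at hint
  simp only [mul_zero, zero_mul, sub_zero] at hint
  have hI1 : IntervalIntegrable (fun x => deriv (fun y => f y * f y) x * φ x +
      f x * f x * deriv φ x) volume a b :=
    (hFAC.intervalIntegrable_deriv.mul_continuousOn hφAC.continuousOn).add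
      (hφAC.intervalIntegrable_deriv.continuousOn_mul hFAC.continuousOn)
  have hI2 : IntervalIntegrable (fun x => (deriv f x) ^ 2) volume a b :=
    sq_intervalIntegrable hf a b
  have hI3 : IntervalIntegrable (fun x => k ^ 2 * (f x) ^ 2) volume a b := by
    refine Continuous.intervalIntegrable ?_ a b
    have := hf.continuous
    fun_prop
  have hmono : ∫ x in a..b, (deriv (fun y => f y * f y) x * φ x + f x * f x * deriv φ x) ≤
      ∫ x in a..b, ((deriv f x) ^ 2 - k ^ 2 * (f x) ^ 2) := by
    refine intervalIntegral.integral_mono_ae_restrict hab hI1 (hI2.sub hI3) ?_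
    have h1 : ∀ᵐ x : ℝ, DifferentiableAt ℝ f x := hf.ae_differentiableAt
    filter_upwards [ae_restrict_of_ae h1, ae_restrict_mem measurableSet_Icc] with x hx hx2
    have h2 : deriv (fun y => f y * f y) x = 2 * f x * deriv f x := by
      have := (hx.hasDerivAt.mul hx.hasDerivAt).deriv
      rw [show (fun y => f y * f y) = f * f from rfl, this]
      ring
    rw [h2, hφd x hx2]
    nlinarith [sq_nonneg (deriv f x - f x * φ x)]
  rw [hint, intervalIntegral.integral_sub hI2 hI3, intervalIntegral.integral_const_mul] at hmono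
  linarith

end Pool.Agent.MP9dd972.WirtAux

namespace Pool.Agent.MP9dd972

open MeasureTheory Set
open scoped ENNReal NNReal Real

theorem wirt {f : ℝ → ℝ} {M : ℝ≥0} (hf : LipschitzWith M f) {a b : ℝ} (hab : a ≤ b)
    (hpi : b - a ≤ π) (ha : f a = 0) (hb : f b = 0) :
    ∫ x in a..b, (f x) ^ 2 ≤ ∫ x in a..b, (deriv f x) ^ 2 := by
  have h1 : Filter.Tendsto (fun k : ℝ => k ^ 2 * ∫ x in a..b, (f x) ^ 2)
      (nhdsWithin 1 (Iio 1)) (nhds (1 ^ 2 * ∫ x in a..b, (f x) ^ 2)) := by
    refine Filter.Tendsto.mono_left ?_ nhdsWithin_le_nhds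
    exact (((continuous_id.pow 2).mul continuous_const).tendsto 1)
  rw [one_pow, one_mul] at h1
  refine le_of_tendsto h1 ?_
  filter_upwards [Ioo_mem_nhdsLT (show (0 : ℝ) < 1 by norm_num)] with k hk
  exact WirtAux.key hf hab hpi ha hb hk.1 hk.2

end Pool.Agent.MP9dd972
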