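import Mathlib
import Pool.Agent.Lib.MP_9dd972_gt.Defs
import Pool.Agent.Lib.MP_9dd972_gt.Wirt
import Pool.Agent.Lib.MP_9dd972_gt.Exx

set_option autoImplicit false

namespace Pool.Agent.MP9dd972

open MeasureTheory Set
open scoped ENNReal NNReal Real

namespace StarAux

theorem deriv_intInt {f : ℝ → ℝ} {M : ℝ≥0} (hf : LipschitzWith M f) (a b : ℝ) :
    IntervalIntegrable (deriv f) volume a b :=
  (hf.lipschitzOnWith (s := uIcc a b)).absolutelyContinuousOnInterval.intervalIntegrable_deriv

theorem deriv_sq_intInt {f : ℝ → ℝ} {M : ℝ≥0} (hf : LipschitzWith M f) (a b : ℝ) :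
    IntervalIntegrable (fun x => (deriv f x) ^ 2) volume a b := by
  have h1 : IntervalIntegrable (fun _ : ℝ => (M : ℝ) ^ 2) volume a b :=
    intervalIntegrable_const
  apply h1.mono_fun
  · exact ((measurable_deriv f).pow_const 2).aestronglyMeasurable
  · refine Filter.Eventually.of_forall (fun x => ?_)
    have h2 : ‖deriv f x‖ ≤ M := norm_deriv_le_of_lipschitz hf
    change ‖(deriv f x) ^ 2‖ ≤ ‖(M : ℝ) ^ 2‖
    rw [norm_pow, norm_pow]
    exact pow_le_pow_left₀ (norm_nonneg _) (h2.trans (le_abs_self _)) 2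

/-- Integration by parts against a sinusoid over a period. -/
theorem period_parts {f : ℝ → ℝ} {M : ℝ≥0} (hf : LipschitzWith M f)
    (hp : ∀ t, f (t + 2 * π) = f t) (x y : ℝ) :
    ∫ t in (0 : ℝ)..2 * π, (deriv f t * (-x * Real.sin t + y * Real.cos t) -
      f t * (x * Real.cos t + y * Real.sin t)) = 0 := by
  set g : ℝ → ℝ := fun t => -x * Real.sin t + y * Real.cos t with hg
  have hgd : ∀ t, HasDerivAt g (-(x * Real.cos t + y * Real.sin t)) t := by
    intro t
    have h1 := ((Real.hasDerivAt_sin t).const_mul (-x)).add ((Real.hasDerivAt_cos t).const_mul y)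
    refine h1.congr_deriv ?_
    ring
  have hgL : ∃ K : ℝ≥0, LipschitzWith K g := by
    refine ⟨Real.toNNReal (|x| + |y|), ?_⟩
    apply lipschitzWith_of_nnnorm_deriv_le (fun t => (hgd t).differentiableAt)
    intro t
    rw [(hgd t).deriv, ← NNReal.coe_le_coe, coe_nnnorm, Real.coe_toNNReal _ (by positivity),
      norm_neg]
    refine (norm_add_le _ _).trans ?_
    rw [norm_mul, norm_mul, Real.norm_eq_abs, Real.norm_eq_abs, Real.norm_eq_abs,
      Real.norm_eq_abs]
    have h1 := Real.abs_cos_le_one t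
    have h2 := Real.abs_sin_le_one t
    have h3 := abs_nonneg x
    have h4 := abs_nonneg y
    nlinarith
  obtain ⟨K, hK⟩ := hgL
  have h := AbsolutelyContinuousOnInterval.integral_deriv_mul_eq_sub
    (hf.lipschitzOnWith (s := uIcc (0 : ℝ) (2 * π))).absolutelyContinuousOnInterval
    (hK.lipschitzOnWith (s := uIcc (0 : ℝ) (2 * π))).absolutelyContinuousOnInterval
  have h5 : f (2 * π) = f 0 := by
    have := hp 0
    rwa [zero_add] at this
  have h6 : g (2 * π) = g 0 := by simp [hg]
  rw [h5, h6, sub_self] at h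
  refine Eq.trans ?_ h
  apply intervalIntegral.integral_congr
  intro t _
  have h7 : deriv g t = -(x * Real.cos t + y * Real.sin t) := (hgd t).deriv
  change deriv f t * g t - f t * (x * Real.cos t + y * Real.sin t) =
    deriv f t * g t + f t * deriv g t
  rw [h7]
  ring

end StarAux

open StarAux in
theorem star {v R : ℝ → ℝ} {M : ℝ≥0} (hv : LipschitzWith M v)
    (hvp : ∀ t, v (t + 2 * π) = v t) (hR : Wt R) (h0 : ∫ t in (0 : ℝ)..2 * π, v t * R t = 0) :
    ∫ t in (0 : ℝ)..2 * π, (v t) ^ 2 ≤ ∫ t in (0 : ℝ)..2 * π, (deriv v t) ^ 2 := by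
  obtain ⟨x, y, z₁, z₂, z₃, h12, h23, h31, hp1, hp2, hp3, hz1, hz2, hz3⟩ :=
    exists_zeros hv.continuous hvp hR h0
  set q : ℝ → ℝ := fun t => x * Real.cos t + y * Real.sin t with hq
  set q' : ℝ → ℝ := fun t => -x * Real.sin t + y * Real.cos t with hq'
  have hqd : ∀ t, HasDerivAt q (q' t) t := by
    intro t
    have h1 := ((Real.hasDerivAt_cos t).const_mul x).add ((Real.hasDerivAt_sin t).const_mul y)
    refine h1.congr_deriv ?_
    simp only [hq']
    ring
  have hqL : LipschitzWith (Real.toNNReal (|x| + |y|)) q := by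
    apply lipschitzWith_of_nnnorm_deriv_le (fun t => (hqd t).differentiableAt)
    intro t
    rw [(hqd t).deriv, ← NNReal.coe_le_coe, coe_nnnorm, Real.coe_toNNReal _ (by positivity)]
    refine (norm_add_le _ _).trans ?_
    rw [norm_mul, norm_mul, norm_neg, Real.norm_eq_abs, Real.norm_eq_abs, Real.norm_eq_abs,
      Real.norm_eq_abs]
    have h1 := Real.abs_cos_le_one t
    have h2 := Real.abs_sin_le_one t
    have h3 := abs_nonneg x
    have h4 := abs_nonneg y
    nlinarith
  have hqp : ∀ t, q (t + 2 * π) = q t := by intro t; simp [hq]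
  set u : ℝ → ℝ := fun t => v t - q t with hu
  have huL : LipschitzWith (M + Real.toNNReal (|x| + |y|)) u := hv.sub hqL
  have hup : Function.Periodic u (2 * π) := by
    intro t
    simp only [hu, hvp, hqp]
  have hu1 : u z₁ = 0 := by simp only [hu, hq]; linarith
  have hu2 : u z₂ = 0 := by simp only [hu, hq]; linarith
  have hu3 : u z₃ = 0 := by simp only [hu, hq]; linarith
  have hu4 : u (z₁ + 2 * π) = 0 := by rw [hup]; exact hu1
  have huc : ∀ a b, IntervalIntegrable (fun t => (u t) ^ 2) volume a b := fun a b =>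
    (huL.continuous.pow 2).intervalIntegrable a b
  have hdp : Function.Periodic (deriv u) (2 * π) := by
    intro t
    rw [← deriv_comp_add_const]
    congr 1
    ext s
    exact hup s
  have hmain : ∫ t in (0 : ℝ)..2 * π, (u t) ^ 2 ≤ ∫ t in (0 : ℝ)..2 * π, (deriv u t) ^ 2 := by
    have e1 : ∫ t in (0 : ℝ)..2 * π, (u t) ^ 2 = ∫ t in z₁..z₁ + 2 * π, (u t) ^ 2 := by
      have hper : Function.Periodic (fun t => (u t) ^ 2) (2 * π) := by
        intro t
        simp only [hup t]
      have := hper.intervalIntegral_add_eq 0 z₁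
      rwa [zero_add] at this
    have e2 : ∫ t in (0 : ℝ)..2 * π, (deriv u t) ^ 2 =
        ∫ t in z₁..z₁ + 2 * π, (deriv u t) ^ 2 := by
      have hper : Function.Periodic (fun t => (deriv u t) ^ 2) (2 * π) := by
        intro t
        simp only [hdp t]
      have := hper.intervalIntegral_add_eq 0 z₁
      rwa [zero_add] at this
    rw [e1, e2, ← intervalIntegral.integral_add_adjacent_intervals (huc z₁ z₃) (huc z₃ _),
      ← intervalIntegral.integral_add_adjacent_intervals (huc z₁ z₂) (huc z₂ _),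
      ← intervalIntegral.integral_add_adjacent_intervals (deriv_sq_intInt huL z₁ z₃)
        (deriv_sq_intInt huL z₃ _),
      ← intervalIntegral.integral_add_adjacent_intervals (deriv_sq_intInt huL z₁ z₂)
        (deriv_sq_intInt huL z₂ _)]
    exact add_le_add (add_le_add (wirt huL h12 hp1 hu1 hu2) (wirt huL h23 hp2 hu2 hu3))
      (wirt huL h31 hp3 hu3 hu4)
  -- expansion
  have hv1 := period_parts hv hvp x y
  have hq1 := period_parts hqL hqp x y
  have hqderiv : deriv q = q' := by ext t; exact (hqd t).deriv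
  have hcq : Continuous q := hqL.continuous
  have hcq' : Continuous q' := by simp only [hq']; fun_prop
  have hI1 : IntervalIntegrable (fun t => (deriv v t) ^ 2) volume 0 (2 * π) :=
    deriv_sq_intInt hv _ _
  have hI2 : IntervalIntegrable (fun t => (v t) ^ 2) volume 0 (2 * π) :=
    (hv.continuous.pow 2).intervalIntegrable _ _
  have hI3 : IntervalIntegrable (fun t => deriv v t * q' t - v t * q t) volume 0 (2 * π) :=
    ((deriv_intInt hv _ _).mul_continuousOn hcq'.continuousOn).sub
      ((hv.continuous.mul hcq).intervalIntegrable _ _)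
  have hI4 : IntervalIntegrable (fun t => q' t * q' t - q t * q t) volume 0 (2 * π) :=
    ((hcq'.mul hcq').sub (hcq.mul hcq)).intervalIntegrable _ _
  have hkey : (∫ t in (0 : ℝ)..2 * π, (deriv u t) ^ 2) - ∫ t in (0 : ℝ)..2 * π, (u t) ^ 2 =
      (∫ t in (0 : ℝ)..2 * π, (deriv v t) ^ 2) - ∫ t in (0 : ℝ)..2 * π, (v t) ^ 2 := by
    rw [← intervalIntegral.integral_sub (deriv_sq_intInt huL _ _) (huc _ _)]
    have e3 : ∫ t in (0 : ℝ)..2 * π, ((deriv u t) ^ 2 - (u t) ^ 2) =
        ∫ t in (0 : ℝ)..2 * π, ((((deriv v t) ^ 2 - (v t) ^ 2) -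
          2 * (deriv v t * q' t - v t * q t)) + (q' t * q' t - q t * q t)) := by
      apply intervalIntegral.integral_congr_ae
      filter_upwards [hv.ae_differentiableAt_real] with t ht _
      have h1 : deriv u t = deriv v t - q' t := (ht.hasDerivAt.sub (hqd t)).deriv
      rw [h1]
      simp only [hu]
      ring
    rw [e3, intervalIntegral.integral_add ((hI1.sub hI2).sub (hI3.const_mul 2)) hI4,
      intervalIntegral.integral_sub (hI1.sub hI2) (hI3.const_mul 2),
      intervalIntegral.integral_sub hI1 hI2, intervalIntegral.integral_const_mul]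
    have e4 : ∫ t in (0 : ℝ)..2 * π, (deriv v t * q' t - v t * q t) = 0 := hv1
    have e5 : ∫ t in (0 : ℝ)..2 * π, (q' t * q' t - q t * q t) = 0 := by
      rw [hqderiv] at hq1
      exact hq1
    rw [e4, e5]
    ring
  linarith

end Pool.Agent.MP9dd972
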