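import Mathlib
import Pool.Agent.Lib.MP_9dd972_gt.Defs
import Pool.Agent.Lib.MP_9dd972_gt.Star
import Pool.Agent.Lib.MP_9dd972_gt.Pext

set_option autoImplicit false

namespace Pool.Agent.MP9dd972

open MeasureTheory Set
open scoped ENNReal NNReal Real

namespace MinkAux

theorem hasDerivAt_XX {R : ℝ → ℝ} (hR : Wt R) (t : ℝ) :
    HasDerivAt (XX R) (R t * Real.cos t) t := by
  have hc : Continuous fun s => R s * Real.cos s := hR.cont.mul Real.continuous_cos
  exact intervalIntegral.integral_hasDerivAt_right (hc.intervalIntegrable _ _)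
    (hc.stronglyMeasurableAtFilter _ _) hc.continuousAt

theorem hasDerivAt_XY {R : ℝ → ℝ} (hR : Wt R) (t : ℝ) :
    HasDerivAt (XY R) (R t * Real.sin t) t := by
  have hc : Continuous fun s => R s * Real.sin s := hR.cont.mul Real.continuous_sin
  exact intervalIntegral.integral_hasDerivAt_right (hc.intervalIntegrable _ _)
    (hc.stronglyMeasurableAtFilter _ _) hc.continuousAt

/-- The derivative of `yy R`. -/
noncomputable def dy (R : ℝ → ℝ) (t : ℝ) : ℝ := XX R t * Real.cos t + XY R t * Real.sin t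

theorem hasDerivAt_yy {R : ℝ → ℝ} (hR : Wt R) (t : ℝ) : HasDerivAt (yy R) (dy R t) t := by
  have h := ((hasDerivAt_XX hR t).mul (Real.hasDerivAt_sin t)).sub
    ((hasDerivAt_XY hR t).mul (Real.hasDerivAt_cos t))
  refine h.congr_deriv ?_
  unfold dy
  ring

theorem hasDerivAt_dy {R : ℝ → ℝ} (hR : Wt R) (t : ℝ) : HasDerivAt (dy R) (R t - yy R t) t := by
  have h := ((hasDerivAt_XX hR t).mul (Real.hasDerivAt_cos t)).add
    ((hasDerivAt_XY hR t).mul (Real.hasDerivAt_sin t))
  refine h.congr_deriv ?_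
  unfold yy
  have := Real.sin_sq_add_cos_sq t
  linear_combination (R t) * this

theorem XX_per {R : ℝ → ℝ} (hR : Wt R) (t : ℝ) : XX R (t + 2 * π) = XX R t := by
  have hc : Continuous fun s => R s * Real.cos s := hR.cont.mul Real.continuous_cos
  have hp : Function.Periodic (fun s => R s * Real.cos s) (2 * π) := by
    intro s
    simp only [hR.per, Real.cos_add_two_pi]
  have h1 : XX R (t + 2 * π) = XX R t + ∫ s in t..t + 2 * π, R s * Real.cos s := by
    unfold XX
    rw [intervalIntegral.integral_add_adjacent_intervals (hc.intervalIntegrable _ _)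
      (hc.intervalIntegrable _ _)]
  have h2 := hp.intervalIntegral_add_eq t 0
  rw [zero_add] at h2
  rw [h1, h2, hR.c0, add_zero]

theorem XY_per {R : ℝ → ℝ} (hR : Wt R) (t : ℝ) : XY R (t + 2 * π) = XY R t := by
  have hc : Continuous fun s => R s * Real.sin s := hR.cont.mul Real.continuous_sin
  have hp : Function.Periodic (fun s => R s * Real.sin s) (2 * π) := by
    intro s
    simp only [hR.per, Real.sin_add_two_pi]
  have h1 : XY R (t + 2 * π) = XY R t + ∫ s in t..t + 2 * π, R s * Real.sin s := by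
    unfold XY
    rw [intervalIntegral.integral_add_adjacent_intervals (hc.intervalIntegrable _ _)
      (hc.intervalIntegrable _ _)]
  have h2 := hp.intervalIntegral_add_eq t 0
  rw [zero_add] at h2
  rw [h1, h2, hR.s0, add_zero]

theorem yy_per {R : ℝ → ℝ} (hR : Wt R) (t : ℝ) : yy R (t + 2 * π) = yy R t := by
  unfold yy
  rw [XX_per hR, XY_per hR, Real.sin_add_two_pi, Real.cos_add_two_pi]

theorem dy_per {R : ℝ → ℝ} (hR : Wt R) (t : ℝ) : dy R (t + 2 * π) = dy R t := by
  unfold dy
  rw [XX_per hR, XY_per hR, Real.sin_add_two_pi, Real.cos_add_two_pi]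

theorem lip_of_per {u du : ℝ → ℝ} (hd : ∀ t, HasDerivAt u (du t) t) (hc : Continuous du)
    (hp : ∀ t, du (t + 2 * π) = du t) : ∃ N : ℝ≥0, LipschitzWith N u := by
  have hp' : Function.Periodic du (2 * π) := hp
  obtain ⟨B, hB⟩ := (isCompact_Icc (a := (0 : ℝ)) (b := 2 * π)).exists_bound_of_continuousOn
    hc.continuousOn
  have hb : ∀ t, ‖du t‖ ≤ max B 0 := by
    intro t
    obtain ⟨s, hs, hst⟩ := hp'.exists_mem_Ico₀ Real.two_pi_pos t
    rw [hst]
    exact (hB s ⟨hs.1, hs.2.le⟩).trans (le_max_left _ _)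
  refine ⟨⟨max B 0, le_max_right _ _⟩, ?_⟩
  refine lipschitzWith_of_nnnorm_deriv_le (fun t => (hd t).differentiableAt) ?_
  intro t
  rw [(hd t).deriv]
  exact hb t

theorem per_deriv {u : ℝ → ℝ} (hp : ∀ t, u (t + 2 * π) = u t) (t : ℝ) :
    deriv u (t + 2 * π) = deriv u t := by
  have h : (fun x => u (x + 2 * π)) = u := funext hp
  have := deriv_comp_add_const u (2 * π) t
  rw [h] at this
  exact this.symm

end MinkAux

open MinkAux

theorem mink {R : ℝ → ℝ} (hR : Wt R) (hA : 0 < ar R) {a : ℝ} {f : ℝ → ℝ} {M : ℝ≥0}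
    (hf : LipschitzOnWith M f (Icc a (a + 2 * π))) (hfa : f (a + 2 * π) = f a) :
    -((∫ t in a..a + 2 * π, f t * R t) ^ 2 / ar R) ≤
      ∫ t in a..a + 2 * π, ((deriv f t) ^ 2 - (f t) ^ 2) := by
  obtain ⟨g, hgL, hgp, hgf⟩ := pext Real.two_pi_pos hf hfa
  have hle : a ≤ a + 2 * π := by linarith [Real.two_pi_pos]
  have hle0 : (0 : ℝ) ≤ 2 * π := Real.two_pi_pos.le
  -- transfer to g
  have e1 : ∫ t in a..a + 2 * π, f t * R t = ∫ t in (0 : ℝ)..2 * π, g t * R t := by
    have h1 : ∫ t in a..a + 2 * π, f t * R t = ∫ t in a..a + 2 * π, g t * R t := by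
      apply intervalIntegral.integral_congr
      intro t ht
      rw [uIcc_of_le hle] at ht
      simp only [hgf t ht]
    have hp : Function.Periodic (fun t => g t * R t) (2 * π) := by
      intro s
      simp only [hR.per, hgp]
    have h2 := hp.intervalIntegral_add_eq a 0
    rw [zero_add] at h2
    rw [h1, h2]
  have e2 : ∫ t in a..a + 2 * π, ((deriv f t) ^ 2 - (f t) ^ 2) =
      ∫ t in (0 : ℝ)..2 * π, ((deriv g t) ^ 2 - (g t) ^ 2) := by
    have h1 : ∫ t in a..a + 2 * π, ((deriv f t) ^ 2 - (f t) ^ 2) =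
        ∫ t in a..a + 2 * π, ((deriv g t) ^ 2 - (g t) ^ 2) := by
      rw [intervalIntegral.integral_of_le hle, intervalIntegral.integral_of_le hle,
        integral_Ioc_eq_integral_Ioo, integral_Ioc_eq_integral_Ioo]
      refine setIntegral_congr_fun measurableSet_Ioo ?_
      intro t ht
      have hE : g =ᶠ[nhds t] f := by
        filter_upwards [Ioo_mem_nhds ht.1 ht.2] with x hx
        exact hgf x ⟨hx.1.le, hx.2.le⟩
      simp only [hE.deriv_eq, hE.eq_of_nhds]
    have hp : Function.Periodic (fun t => (deriv g t) ^ 2 - (g t) ^ 2) (2 * π) := by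
      intro s
      simp only [per_deriv hgp, hgp]
    have h2 := hp.intervalIntegral_add_eq a 0
    rw [zero_add] at h2
    rw [h1, h2]
  rw [e1, e2]
  set A := ar R with hAdef
  set m := ∫ t in (0 : ℝ)..2 * π, g t * R t with hm
  set c := m / A with hc
  -- the functions
  have hyd := hasDerivAt_yy hR
  have hdyd := hasDerivAt_dy hR
  have hyc : Continuous (yy R) := continuous_iff_continuousAt.2 fun t => (hyd t).continuousAt
  have hdyc : Continuous (dy R) := continuous_iff_continuousAt.2 fun t => (hdyd t).continuousAt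
  have hgc : Continuous g := hgL.continuous
  obtain ⟨N, hN⟩ := lip_of_per hyd hdyc (dy_per hR)
  obtain ⟨N', hN'⟩ := lip_of_per hdyd (hR.cont.sub hyc)
    (fun t => by simp only [hR.per, yy_per hR])
  obtain ⟨N2, hN2⟩ : ∃ N2 : ℝ≥0, LipschitzWith N2 (fun t => c * yy R t) :=
    lip_of_per (fun t => (hyd t).const_mul c) (hdyc.const_mul c |> fun h => h)
      (fun t => by simp only [dy_per hR])
  have hvL : LipschitzWith (M + N2) (fun t => g t - c * yy R t) := hgL.sub hN2
  have hvp : ∀ t, (fun t => g t - c * yy R t) (t + 2 * π) = (fun t => g t - c * yy R t) t := by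
    intro t
    simp only [hgp, yy_per hR]
  -- integrability
  have iyy : IntervalIntegrable (fun t => yy R t ^ 2) volume 0 (2 * π) :=
    (hyc.pow 2).intervalIntegrable _ _
  have igg : IntervalIntegrable (fun t => g t ^ 2) volume 0 (2 * π) :=
    (hgc.pow 2).intervalIntegrable _ _
  have igy : IntervalIntegrable (fun t => g t * yy R t) volume 0 (2 * π) :=
    (hgc.mul hyc).intervalIntegrable _ _
  have igR : IntervalIntegrable (fun t => g t * R t) volume 0 (2 * π) :=
    (hgc.mul hR.cont).intervalIntegrable _ _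
  have iyR : IntervalIntegrable (fun t => yy R t * R t) volume 0 (2 * π) :=
    (hyc.mul hR.cont).intervalIntegrable _ _
  have gAC : AbsolutelyContinuousOnInterval g 0 (2 * π) :=
    hgL.lipschitzOnWith.absolutelyContinuousOnInterval
  have yAC : AbsolutelyContinuousOnInterval (yy R) 0 (2 * π) :=
    hN.lipschitzOnWith.absolutelyContinuousOnInterval
  have dyAC : AbsolutelyContinuousOnInterval (dy R) 0 (2 * π) :=
    hN'.lipschitzOnWith.absolutelyContinuousOnInterval
  have hbd : ∀ t, |deriv g t| ≤ M := fun t => by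
    have := norm_deriv_le_of_lipschitz (f := g) hgL (x₀ := t)
    simpa using this
  have idg : IntervalIntegrable (deriv g) volume 0 (2 * π) := gAC.intervalIntegrable_deriv
  have idg2 : IntervalIntegrable (fun t => deriv g t ^ 2) volume 0 (2 * π) := by
    refine (intervalIntegrable_const (c := (M : ℝ) ^ 2)).mono_fun
      ((measurable_deriv g).pow_const 2).aestronglyMeasurable ?_
    refine Filter.Eventually.of_forall fun t => ?_
    simp only [norm_pow, Real.norm_eq_abs]
    have h1 := hbd t
    have h2 : |(M : ℝ)| = M := abs_of_nonneg M.2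
    rw [h2]
    exact pow_le_pow_left₀ (abs_nonneg _) h1 2
  have idgdy : IntervalIntegrable (fun t => deriv g t * dy R t) volume 0 (2 * π) :=
    idg.mul_continuousOn hdyc.continuousOn
  have idy2 : IntervalIntegrable (fun t => dy R t ^ 2) volume 0 (2 * π) :=
    (hdyc.pow 2).intervalIntegrable _ _
  -- integration by parts
  have hdd : deriv (dy R) = fun t => R t - yy R t := funext fun t => (hdyd t).deriv
  have hdy' : deriv (yy R) = dy R := funext fun t => (hyd t).deriv
  have g2 : g (2 * π) = g 0 := by simpa using hgp 0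
  have dy2 : dy R (2 * π) = dy R 0 := by simpa using dy_per hR 0
  have y2 : yy R (2 * π) = yy R 0 := by simpa using yy_per hR 0
  have I1 : ∫ t in (0 : ℝ)..2 * π, deriv g t * dy R t = -m + ∫ t in (0 : ℝ)..2 * π, g t * yy R t := by
    have h := gAC.integral_mul_deriv_eq_deriv_mul dyAC
    rw [g2, dy2, sub_self, zero_sub, hdd] at h
    have h3 : ∫ t in (0 : ℝ)..2 * π, g t * (R t - yy R t) =
        m - ∫ t in (0 : ℝ)..2 * π, g t * yy R t := by
      rw [hm, ← intervalIntegral.integral_sub igR igy]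
      congr 1
      ext t
      ring
    linarith
  have I2 : ∫ t in (0 : ℝ)..2 * π, dy R t ^ 2 = -A + ∫ t in (0 : ℝ)..2 * π, yy R t ^ 2 := by
    have h := yAC.integral_mul_deriv_eq_deriv_mul dyAC
    rw [y2, dy2, sub_self, zero_sub, hdd, hdy'] at h
    have h3 : ∫ t in (0 : ℝ)..2 * π, yy R t * (R t - yy R t) =
        A - ∫ t in (0 : ℝ)..2 * π, yy R t ^ 2 := by
      rw [hAdef, ar, ← intervalIntegral.integral_sub iyR iyy]
      congr 1
      ext t
      ring
    have h4 : ∫ t in (0 : ℝ)..2 * π, dy R t * dy R t = ∫ t in (0 : ℝ)..2 * π, dy R t ^ 2 := by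
      congr 1
      ext t
      ring
    linarith
  -- apply star
  have h0 : ∫ t in (0 : ℝ)..2 * π, (fun t => g t - c * yy R t) t * R t = 0 := by
    have h1 : ∫ t in (0 : ℝ)..2 * π, (fun t => g t - c * yy R t) t * R t =
        m - c * A := by
      rw [hm, hAdef, ar, ← intervalIntegral.integral_const_mul,
        ← intervalIntegral.integral_sub igR (iyR.const_mul c)]
      congr 1
      ext t
      ring
    rw [h1, hc]
    field_simp
    ring
  have hS := star hvL hvp hR h0
  have L1 : ∫ t in (0 : ℝ)..2 * π, ((fun t => g t - c * yy R t) t) ^ 2 =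
      (∫ t in (0 : ℝ)..2 * π, g t ^ 2) - 2 * c * (∫ t in (0 : ℝ)..2 * π, g t * yy R t) +
        c ^ 2 * ∫ t in (0 : ℝ)..2 * π, yy R t ^ 2 := by
    rw [← intervalIntegral.integral_const_mul, ← intervalIntegral.integral_const_mul,
      ← intervalIntegral.integral_sub igg (igy.const_mul _),
      ← intervalIntegral.integral_add (igg.sub (igy.const_mul _)) (iyy.const_mul _)]
    congr 1
    ext t
    ring
  have L2 : ∫ t in (0 : ℝ)..2 * π, (deriv (fun t => g t - c * yy R t) t) ^ 2 =
      (∫ t in (0 : ℝ)..2 * π, deriv g t ^ 2) -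
        2 * c * (∫ t in (0 : ℝ)..2 * π, deriv g t * dy R t) +
        c ^ 2 * ∫ t in (0 : ℝ)..2 * π, dy R t ^ 2 := by
    rw [← intervalIntegral.integral_const_mul, ← intervalIntegral.integral_const_mul,
      ← intervalIntegral.integral_sub idg2 (idgdy.const_mul _),
      ← intervalIntegral.integral_add (idg2.sub (idgdy.const_mul _)) (idy2.const_mul _)]
    refine intervalIntegral.integral_congr_ae ?_
    filter_upwards [hgL.ae_differentiableAt_real] with t ht _
    have h1 : HasDerivAt (fun t => g t - c * yy R t) (deriv g t - c * dy R t) t :=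
      ht.hasDerivAt.sub ((hyd t).const_mul c)
    rw [h1.deriv]
    ring
  rw [L1, L2, I1, I2] at hS
  have hfin : ∫ t in (0 : ℝ)..2 * π, ((deriv g t) ^ 2 - (g t) ^ 2) =
      (∫ t in (0 : ℝ)..2 * π, deriv g t ^ 2) - ∫ t in (0 : ℝ)..2 * π, g t ^ 2 :=
    intervalIntegral.integral_sub idg2 igg
  rw [hfin]
  have hcA : c * A = m := by rw [hc]; field_simp
  have hcm : m ^ 2 / A = c * m := by rw [hc]; ring
  have hcA2 : c ^ 2 * A = c * m := by rw [sq, mul_assoc, hcA]
  rw [hcm]
  nlinarith

end Pool.Agent.MP9dd972
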