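import Mathlib
import Pool.Agent.Lib.MP_9dd972_gt.Defs
import Pool.Agent.Lib.MP_9dd972_gt.Mink
import Pool.Agent.Lib.MP_9dd972_gt.Area
import Pool.Agent.Lib.MP_9dd972_gt.Arc

set_option autoImplicit false

namespace Pool.Agent.MP9dd972

open MeasureTheory Set
open scoped ENNReal NNReal Real

namespace T7Aux

/-! ### integrability -/

theorem int_of_bdd {f : ℝ → ℝ} (hm : Measurable f) {a b C : ℝ} (hab : a ≤ b)
    (hC : ∀ x ∈ Icc a b, |f x| ≤ C) : IntervalIntegrable f volume a b := by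
  rw [intervalIntegrable_iff_integrableOn_Icc_of_le hab]
  refine Integrable.of_bound (C := C) hm.aestronglyMeasurable ?_
  rw [ae_restrict_iff' measurableSet_Icc]
  filter_upwards with x hx
  exact hC x hx

theorem kap_meas {w v : ℝ → ℝ} (hw : Continuous w) (hv : Continuous v) : Measurable (kap w v) :=
  (hw.measurable.mul (measurable_deriv v)).sub ((measurable_deriv w).mul hv.measurable)

theorem kap_bdd {w v : ℝ → ℝ} {M : ℝ≥0} (hw : LipschitzWith M w) (hv : LipschitzWith M v)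
    (a b : ℝ) : ∃ C, 0 ≤ C ∧ ∀ x ∈ Icc a b, |kap w v x| ≤ C := by
  obtain ⟨C1, hC1⟩ := (isCompact_Icc (a := a) (b := b)).exists_bound_of_continuousOn
    hw.continuous.continuousOn
  obtain ⟨C2, hC2⟩ := (isCompact_Icc (a := a) (b := b)).exists_bound_of_continuousOn
    hv.continuous.continuousOn
  refine ⟨max C1 0 * M + M * max C2 0, by positivity, fun x hx => ?_⟩
  have h1 : |w x| ≤ max C1 0 := (hC1 x hx).trans (le_max_left _ _)
  have h2 : |v x| ≤ max C2 0 := (hC2 x hx).trans (le_max_left _ _)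
  have h3 : |deriv w x| ≤ M := norm_deriv_le_of_lipschitz hw
  have h4 : |deriv v x| ≤ M := norm_deriv_le_of_lipschitz hv
  unfold kap
  calc |w x * deriv v x - deriv w x * v x| ≤ |w x * deriv v x| + |deriv w x * v x| := abs_sub _ _
    _ ≤ _ := by
      rw [abs_mul, abs_mul]
      gcongr

theorem kap_int {w v : ℝ → ℝ} {M : ℝ≥0} (hw : LipschitzWith M w) (hv : LipschitzWith M v)
    {a b : ℝ} (hab : a ≤ b) : IntervalIntegrable (kap w v) volume a b := by
  obtain ⟨C, -, hC⟩ := kap_bdd hw hv a b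
  exact int_of_bdd (kap_meas hw.continuous hv.continuous) hab hC

theorem kap2_int {w v : ℝ → ℝ} {M : ℝ≥0} (hw : LipschitzWith M w) (hv : LipschitzWith M v)
    {a b : ℝ} (hab : a ≤ b) : IntervalIntegrable (fun x => kap w v x ^ 2) volume a b := by
  obtain ⟨C, hC0, hC⟩ := kap_bdd hw hv a b
  refine int_of_bdd (C := C ^ 2) ((kap_meas hw.continuous hv.continuous).pow_const 2) hab ?_
  intro x hx
  rw [abs_pow]
  exact pow_le_pow_left₀ (abs_nonneg _) (hC x hx) 2

/-! ### one arc -/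

section arc

variable {w v : ℝ → ℝ} {M : ℝ≥0}

theorem Ninv_cont (hw : Continuous w) (hv : Continuous v) (hpos : ∀ x, 0 < w x) :
    Continuous fun x => (w x ^ 2 + v x ^ 2)⁻¹ := by
  refine ((hw.pow 2).add (hv.pow 2)).inv₀ fun x => ?_
  have := hpos x
  have h2 : 0 < w x ^ 2 + v x ^ 2 := by positivity
  exact h2.ne'

/-- The energy of one arc. -/
noncomputable def EE (w v : ℝ → ℝ) (c a b : ℝ) : ℝ :=
  ∫ x in a..b, (kap w v x - c) ^ 2 * (w x ^ 2 + v x ^ 2)⁻¹

noncomputable def mm (w v : ℝ → ℝ) (a b : ℝ) : ℝ := ∫ x in a..b, (w x ^ 2 + v x ^ 2)⁻¹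

theorem kN_int (hw : LipschitzWith M w) (hv : LipschitzWith M v) (hpos : ∀ x, 0 < w x)
    {a b : ℝ} (hab : a ≤ b) :
    IntervalIntegrable (fun x => kap w v x * (w x ^ 2 + v x ^ 2)⁻¹) volume a b :=
  (kap_int hw hv hab).mul_continuousOn
    (Ninv_cont hw.continuous hv.continuous hpos).continuousOn

theorem k2N_int (hw : LipschitzWith M w) (hv : LipschitzWith M v) (hpos : ∀ x, 0 < w x)
    {a b : ℝ} (hab : a ≤ b) :
    IntervalIntegrable (fun x => kap w v x ^ 2 * (w x ^ 2 + v x ^ 2)⁻¹) volume a b :=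
  (kap2_int hw hv hab).mul_continuousOn
    (Ninv_cont hw.continuous hv.continuous hpos).continuousOn

theorem EE_int (hw : LipschitzWith M w) (hv : LipschitzWith M v) (hpos : ∀ x, 0 < w x)
    {a b : ℝ} (hab : a ≤ b) (c : ℝ) :
    IntervalIntegrable (fun x => (kap w v x - c) ^ 2 * (w x ^ 2 + v x ^ 2)⁻¹) volume a b := by
  have hN := (Ninv_cont hw.continuous hv.continuous hpos).intervalIntegrable (μ := volume) a b
  have h := ((k2N_int hw hv hpos hab).sub ((kN_int hw hv hpos hab).const_mul (2 * c))).add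
    (hN.const_mul (c ^ 2))
  refine h.congr ?_
  intro x _
  ring

theorem arc_E (hw : LipschitzWith M w) (hv : LipschitzWith M v) (hpos : ∀ x, 0 < w x)
    {a b : ℝ} (hab : a < b) (ha : v a = -w a) (hb : v b = w b) (c : ℝ) :
    ∫ x in a..b, ((kap w v x) ^ 2 - c ^ 2) / (w x ^ 2 + v x ^ 2) =
      EE w v c a b + c * π - 2 * c ^ 2 * mm w v a b := by
  have hN := (Ninv_cont hw.continuous hv.continuous hpos).intervalIntegrable (μ := volume) a b
  have h1 := arc_angle hw hv hpos hab ha hb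
  have h2 : ∀ x, ((kap w v x) ^ 2 - c ^ 2) / (w x ^ 2 + v x ^ 2) =
      (kap w v x - c) ^ 2 * (w x ^ 2 + v x ^ 2)⁻¹ + (2 * c) * (kap w v x * (w x ^ 2 + v x ^ 2)⁻¹) -
        (2 * c ^ 2) * (w x ^ 2 + v x ^ 2)⁻¹ := by
    intro x
    rw [div_eq_mul_inv]
    ring
  simp_rw [h2]
  rw [intervalIntegral.integral_sub ((EE_int hw hv hpos hab.le c).add
    ((kN_int hw hv hpos hab.le).const_mul (2 * c))) (hN.const_mul _),
    intervalIntegral.integral_add (EE_int hw hv hpos hab.le c)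
    ((kN_int hw hv hpos hab.le).const_mul (2 * c)), intervalIntegral.integral_const_mul,
    intervalIntegral.integral_const_mul]
  simp_rw [div_eq_mul_inv] at h1
  rw [h1]
  unfold EE mm
  ring

theorem EE_nonneg {a b : ℝ} (hab : a ≤ b) (c : ℝ) : 0 ≤ EE w v c a b := by
  refine intervalIntegral.integral_nonneg hab fun x _ => ?_
  positivity

theorem mm_pos (hw : Continuous w) (hv : Continuous v) (hpos : ∀ x, 0 < w x) {a b : ℝ}
    (hab : a < b) : 0 < mm w v a b := by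
  refine intervalIntegral.intervalIntegral_pos_of_pos
    ((Ninv_cont hw hv hpos).intervalIntegrable _ _) (fun x => ?_) hab
  have := hpos x
  positivity

theorem w2_cont (hw : Continuous w) (hpos : ∀ x, 0 < w x) : Continuous fun x => ((w x) ^ 2)⁻¹ :=
  (hw.pow 2).inv₀ fun x => (pow_pos (hpos x) 2).ne'

theorem mm_le (hw : Continuous w) (hv : Continuous v) (hpos : ∀ x, 0 < w x) {a b : ℝ}
    (hab : a ≤ b) : mm w v a b ≤ ∫ x in a..b, ((w x) ^ 2)⁻¹ := by
  refine intervalIntegral.integral_mono_on hab ((Ninv_cont hw hv hpos).intervalIntegrable _ _)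
    ((w2_cont hw hpos).intervalIntegrable _ _) fun x _ => ?_
  have := hpos x
  have h2 : 0 ≤ v x ^ 2 := sq_nonneg _
  exact inv_anti₀ (by positivity) (by linarith)

theorem gr_cont (hw : Continuous w) (hv : Continuous v) (hpos : ∀ x, 0 < w x) :
    Continuous (gr w v) := by
  have h1 : Continuous fun x => √(w x ^ 2 + v x ^ 2) := ((hw.pow 2).add (hv.pow 2)).sqrt
  have h2 : Continuous fun x => v x / w x := hv.div hw fun x => (hpos x).ne'
  unfold gr
  refine (hw.div (continuous_const.mul h1) fun x => ?_).mul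
    ((continuous_const.sub (continuous_const.mul (h2.pow 2))).sub (continuous_const.mul (h2.pow 4)))
  have := hpos x
  have h3 : 0 < 2 * √(w x ^ 2 + v x ^ 2) := by positivity
  exact h3.ne'

theorem gi_cont (hw : Continuous w) (hv : Continuous v) (hpos : ∀ x, 0 < w x) :
    Continuous (gi w v) := by
  have h1 : Continuous fun x => √(w x ^ 2 + v x ^ 2) := ((hw.pow 2).add (hv.pow 2)).sqrt
  have h2 : Continuous fun x => v x / w x := hv.div hw fun x => (hpos x).ne'
  unfold gi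
  refine (hw.div (continuous_const.mul h1) fun x => ?_).neg.mul
    (h2.mul (continuous_const.sub (h2.pow 2)))
  have := hpos x
  have h3 : 0 < 2 * √(w x ^ 2 + v x ^ 2) := by positivity
  exact h3.ne'

/-- The Cauchy-Schwarz step on one arc. -/
theorem arc_cs (hw : LipschitzWith M w) (hv : LipschitzWith M v) (hpos : ∀ x, 0 < w x)
    {a b : ℝ} (hab : a < b) (habs : ∀ x ∈ Icc a b, |v x| ≤ w x) {t : ℝ → ℝ} (ht : Continuous t)
    (c m1 m2 : ℝ) {k : ℝ} (hk : 0 < k) :
    m1 * (∫ x in a..b, (Real.cos (t x) * gr w v x - Real.sin (t x) * gi w v x) *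
        ((kap w v x - c) / (w x ^ 2 + v x ^ 2))) +
      m2 * (∫ x in a..b, (Real.sin (t x) * gr w v x + Real.cos (t x) * gi w v x) *
        ((kap w v x - c) / (w x ^ 2 + v x ^ 2))) ≤
      k / 2 * (m1 ^ 2 + m2 ^ 2) * ((3 * (∫ x in a..b, ((w x) ^ 2)⁻¹) - 2 * mm w v a b) / 2) +
        EE w v c a b / (2 * k) := by
  have hwc := hw.continuous
  have hvc := hv.continuous
  have hNc := Ninv_cont hwc hvc hpos
  have hgr := gr_cont hwc hvc hpos
  have hgi := gi_cont hwc hvc hpos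
  have hcos : Continuous fun x => Real.cos (t x) := Real.continuous_cos.comp ht
  have hsin : Continuous fun x => Real.sin (t x) := Real.continuous_sin.comp ht
  have hkc : IntervalIntegrable (fun x => (kap w v x - c) / (w x ^ 2 + v x ^ 2)) volume a b := by
    have hN := hNc.intervalIntegrable (μ := volume) a b
    refine ((kN_int hw hv hpos hab.le).sub (hN.const_mul c)).congr ?_
    intro x _
    simp only [div_eq_mul_inv]
    ring
  have hα : Continuous fun x => Real.cos (t x) * gr w v x - Real.sin (t x) * gi w v x :=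
    (hcos.mul hgr).sub (hsin.mul hgi)
  have hβ : Continuous fun x => Real.sin (t x) * gr w v x + Real.cos (t x) * gi w v x :=
    (hsin.mul hgr).add (hcos.mul hgi)
  have hA := hkc.continuousOn_mul hα.continuousOn
  have hB := hkc.continuousOn_mul hβ.continuousOn
  rw [← intervalIntegral.integral_const_mul, ← intervalIntegral.integral_const_mul,
    ← intervalIntegral.integral_add (hA.const_mul m1) (hB.const_mul m2)]
  have hN := hNc.intervalIntegrable (μ := volume) a b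
  have hw2 := (w2_cont hwc hpos).intervalIntegrable (μ := volume) a b
  have hE := EE_int hw hv hpos hab.le c
  have hrhs : k / 2 * (m1 ^ 2 + m2 ^ 2) * ((3 * (∫ x in a..b, ((w x) ^ 2)⁻¹) - 2 * mm w v a b) / 2) +
        EE w v c a b / (2 * k) = ∫ x in a..b, (k / 2 * (m1 ^ 2 + m2 ^ 2) * (3 / 2)) * ((w x) ^ 2)⁻¹ -
          (k / 2 * (m1 ^ 2 + m2 ^ 2)) * (w x ^ 2 + v x ^ 2)⁻¹ +
          (1 / (2 * k)) * ((kap w v x - c) ^ 2 * (w x ^ 2 + v x ^ 2)⁻¹) := by
    rw [intervalIntegral.integral_add ((hw2.const_mul _).sub (hN.const_mul _)) (hE.const_mul _),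
      intervalIntegral.integral_sub (hw2.const_mul _) (hN.const_mul _),
      intervalIntegral.integral_const_mul, intervalIntegral.integral_const_mul,
      intervalIntegral.integral_const_mul]
    unfold EE mm
    ring
  rw [hrhs]
  refine intervalIntegral.integral_mono_on hab.le ((hA.const_mul m1).add (hB.const_mul m2))
    (((hw2.const_mul _).sub (hN.const_mul _)).add (hE.const_mul _)) fun x hx => ?_
  have hg := arc_g (hpos x) (habs x hx)
  have hwx := hpos x
  set Nx := w x ^ 2 + v x ^ 2 with hNx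
  have hNpos : 0 < Nx := by positivity
  have e1 : ((w x) ^ 2)⁻¹ = (1 + (v x / w x) ^ 2) * Nx⁻¹ := by
    rw [hNx]
    field_simp
  set G1 := Real.cos (t x) * gr w v x - Real.sin (t x) * gi w v x with hG1
  set G2 := Real.sin (t x) * gr w v x + Real.cos (t x) * gi w v x with hG2
  have hGG : G1 ^ 2 + G2 ^ 2 = (gr w v x) ^ 2 + (gi w v x) ^ 2 := by
    rw [hG1, hG2]
    have := Real.sin_sq_add_cos_sq (t x)
    linear_combination ((gr w v x) ^ 2 + (gi w v x) ^ 2) * this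
  have h1 : (m1 * G1 + m2 * G2) ^ 2 ≤ (m1 ^ 2 + m2 ^ 2) * ((1 + 3 * (v x / w x) ^ 2) / 2) := by
    have h2 : (m1 * G1 + m2 * G2) ^ 2 ≤ (m1 ^ 2 + m2 ^ 2) * (G1 ^ 2 + G2 ^ 2) := by
      nlinarith [sq_nonneg (m1 * G2 - m2 * G1)]
    refine h2.trans ?_
    rw [hGG]
    exact mul_le_mul_of_nonneg_left hg (by positivity)
  set K := kap w v x - c with hK
  have h3 : (m1 * G1 + m2 * G2) * K ≤ k / 2 * ((m1 ^ 2 + m2 ^ 2) * ((1 + 3 * (v x / w x) ^ 2) / 2)) +
      1 / (2 * k) * K ^ 2 := by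
    have h4 : (m1 * G1 + m2 * G2) * K ≤ k / 2 * (m1 * G1 + m2 * G2) ^ 2 + 1 / (2 * k) * K ^ 2 := by
      have h5 : 0 ≤ (k * (m1 * G1 + m2 * G2) - K) ^ 2 / (2 * k) := by positivity
      have h6 : (k * (m1 * G1 + m2 * G2) - K) ^ 2 / (2 * k) =
          k / 2 * (m1 * G1 + m2 * G2) ^ 2 + 1 / (2 * k) * K ^ 2 - (m1 * G1 + m2 * G2) * K := by
        field_simp
        ring
      linarith
    have h7 := mul_le_mul_of_nonneg_left h1 (by positivity : 0 ≤ k / 2)
    linarith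
  have h8 := mul_le_mul_of_nonneg_right h3 (inv_pos.2 hNpos).le
  rw [e1]
  simp only [div_eq_mul_inv] at h8 ⊢
  nlinarith [h8]

end arc

/-! ### gluing -/

theorem Lp_glue {f : ℝ → ℝ} {a b c : ℝ} (h1 : ArcAux.Lp a b f)
    (h2 : ArcAux.Lp b c f) : ArcAux.Lp a c f := by
  obtain ⟨K1, hK1⟩ := h1
  obtain ⟨K2, hK2⟩ := h2
  refine ⟨max K1 K2, LipschitzOnWith.of_dist_le_mul ?_⟩
  have hm1 : (K1 : ℝ) ≤ ((max K1 K2 : ℝ≥0) : ℝ) := by exact_mod_cast le_max_left K1 K2
  have hm2 : (K2 : ℝ) ≤ ((max K1 K2 : ℝ≥0) : ℝ) := by exact_mod_cast le_max_right K1 K2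
  have key : ∀ x ∈ Icc a c, ∀ y ∈ Icc a c, x ≤ y →
      dist (f x) (f y) ≤ ((max K1 K2 : ℝ≥0) : ℝ) * dist x y := by
    intro x hx y hy hxy
    rcases le_total y b with hyb | hyb
    · refine (hK1.dist_le_mul x ⟨hx.1, hxy.trans hyb⟩ y ⟨hy.1, hyb⟩).trans ?_
      exact mul_le_mul_of_nonneg_right hm1 dist_nonneg
    rcases le_total b x with hxb | hxb
    · refine (hK2.dist_le_mul x ⟨hxb, hx.2⟩ y ⟨hyb, hy.2⟩).trans ?_
      exact mul_le_mul_of_nonneg_right hm2 dist_nonneg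
    · have e1 := hK1.dist_le_mul x ⟨hx.1, hxb⟩ b ⟨hx.1.trans hxb, le_rfl⟩
      have e2 := hK2.dist_le_mul b ⟨le_rfl, hyb.trans hy.2⟩ y ⟨hyb, hy.2⟩
      have e3 := mul_le_mul_of_nonneg_right hm1 (dist_nonneg (x := x) (y := b))
      have e4 := mul_le_mul_of_nonneg_right hm2 (dist_nonneg (x := b) (y := y))
      have e5 : dist x y = dist x b + dist b y := by
        rw [Real.dist_eq, Real.dist_eq, Real.dist_eq, abs_of_nonpos (by linarith),
          abs_of_nonpos (by linarith), abs_of_nonpos (by linarith)]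
        ring
      have e6 := dist_triangle (f x) (f b) (f y)
      rw [e5, mul_add]
      linarith
  intro x hx y hy
  rcases le_total x y with h | h
  · exact key x hx y hy h
  · rw [dist_comm (f x), dist_comm x]
    exact key y hy x hx h

theorem Lp_congr {f g : ℝ → ℝ} {a b : ℝ} (h : ArcAux.Lp a b f) (he : ∀ x ∈ Icc a b, g x = f x) :
    ArcAux.Lp a b g := by
  obtain ⟨K, hK⟩ := h
  refine ⟨K, LipschitzOnWith.of_dist_le_mul ?_⟩
  intro x hx y hy
  rw [he x hx, he y hy]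
  exact hK.dist_le_mul x hx y hy

/-- The glued function `w ^ 2 + V ^ 2`. -/
noncomputable def NN (w : ℝ → ℝ) (v : ℕ → ℝ → ℝ) (τ : ℕ → ℝ) (x : ℝ) : ℝ :=
  if x ≤ τ 1 then w x ^ 2 + v 0 x ^ 2 else if x ≤ τ 2 then w x ^ 2 + v 1 x ^ 2 else
    if x ≤ τ 3 then w x ^ 2 + v 2 x ^ 2 else w x ^ 2 + v 3 x ^ 2

section glue

variable {w : ℝ → ℝ} {M : ℝ≥0} {τ : ℕ → ℝ} {v : ℕ → ℝ → ℝ}

theorem node (hva : ∀ j < 4, v j (τ j) = -w (τ j)) (hvb : ∀ j < 4, v j (τ (j + 1)) = w (τ (j + 1)))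
    {j : ℕ} (hj : j < 3) : v j (τ (j + 1)) ^ 2 = v (j + 1) (τ (j + 1)) ^ 2 := by
  rw [hvb j (by omega), hva (j + 1) (by omega)]
  ring

theorem NN_cont (hw : Continuous w) (hv : ∀ j < 4, Continuous (v j))
    (hτ : ∀ j < 4, τ j < τ (j + 1)) (hva : ∀ j < 4, v j (τ j) = -w (τ j))
    (hvb : ∀ j < 4, v j (τ (j + 1)) = w (τ (j + 1))) : Continuous (NN w v τ) := by
  have h0 := hτ 0 (by omega)
  have h1 := hτ 1 (by omega)
  have h2 := hτ 2 (by omega)
  have hg : ∀ j < 4, Continuous fun x => w x ^ 2 + v j x ^ 2 := fun j hj =>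
    (hw.pow 2).add ((hv j hj).pow 2)
  have n0 := node hva hvb (j := 0) (by omega)
  have n1 := node hva hvb (j := 1) (by omega)
  have n2 := node hva hvb (j := 2) (by omega)
  unfold NN
  refine Continuous.if_le (hg 0 (by omega)) (Continuous.if_le (hg 1 (by omega))
    (Continuous.if_le (hg 2 (by omega)) (hg 3 (by omega)) continuous_id continuous_const ?_)
    continuous_id continuous_const ?_) continuous_id continuous_const ?_
  · intro x hx
    rw [hx, n2]
  · intro x hx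
    rw [hx, if_pos h2.le, n1]
  · intro x hx
    rw [hx, if_pos h1.le, n0]

theorem NN_eq (hτ : ∀ j < 4, τ j < τ (j + 1)) (hva : ∀ j < 4, v j (τ j) = -w (τ j))
    (hvb : ∀ j < 4, v j (τ (j + 1)) = w (τ (j + 1))) {j : ℕ} (hj : j < 4) {x : ℝ}
    (hx : x ∈ Icc (τ j) (τ (j + 1))) : NN w v τ x = w x ^ 2 + v j x ^ 2 := by
  have h0 := hτ 0 (by omega)
  have h1 := hτ 1 (by omega)
  have h2 := hτ 2 (by omega)
  have n0 := node hva hvb (j := 0) (by omega)
  have n1 := node hva hvb (j := 1) (by omega)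
  have n2 := node hva hvb (j := 2) (by omega)
  obtain ⟨hx1, hx2⟩ := hx
  unfold NN
  interval_cases j
  · rw [if_pos hx2]
  · by_cases hc : x ≤ τ 1
    · have : x = τ 1 := le_antisymm hc hx1
      rw [if_pos hc, this, n0]
    · rw [if_neg hc, if_pos hx2]
  · have hc1 : ¬ x ≤ τ 1 := by
      simp only [Nat.reduceAdd] at h1
      linarith
    rw [if_neg hc1]
    by_cases hc : x ≤ τ 2
    · have : x = τ 2 := le_antisymm hc hx1
      rw [if_pos hc, this, n1]
    · rw [if_neg hc, if_pos hx2]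
  · have hc2 : ¬ x ≤ τ 2 := by
      simp only [Nat.reduceAdd] at h2
      linarith
    have hc1 : ¬ x ≤ τ 1 := by
      simp only [Nat.reduceAdd] at h1 h2
      linarith
    rw [if_neg hc1, if_neg hc2]
    by_cases hc : x ≤ τ 3
    · have : x = τ 3 := le_antisymm hc hx1
      rw [if_pos hc, this, n2]
    · rw [if_neg hc]

theorem NN_pos (hpos : ∀ x, 0 < w x) (x : ℝ) : 0 < NN w v τ x := by
  have := hpos x
  unfold NN
  split_ifs <;> positivity

end glue

/-! ### final algebra -/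

theorem final_alg {c m l S E H a Z Q1 Q2 m1 m2 : ℝ} (hm : 0 < m) (hml : m ≤ l) (hc : c = 2 * π / m)
    (hH : H = (3 * l - 2 * m) / 2) (hS : S = m1 ^ 2 + m2 ^ 2) (hE : 0 ≤ E) (hla : l ^ 3 ≤ 64 * a)
    (hcs : ∀ k : ℝ, 0 < k → c * S ≤ k / 2 * S * H + E / (2 * k))
    (hQ : Q1 + Q2 = Z - E) (h1 : -(m1 ^ 2 / a) ≤ Q1) (h2 : -(m2 ^ 2 / a) ≤ Q2) : 0 ≤ Z := by
  have hpi := Real.pi_gt_three
  have hl : 0 < l := lt_of_lt_of_le hm hml
  have ha : 0 < a := by
    have : 0 < l ^ 3 := by positivity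
    linarith
  have hHpos : 0 < H := by rw [hH]; linarith
  have hcpos : 0 < c := by rw [hc]; positivity
  have h3 := hcs (c / H) (by positivity)
  have h4 : c / H / 2 * S * H + E / (2 * (c / H)) = c * S / 2 + E * H / (2 * c) := by
    field_simp
  rw [h4] at h3
  have h5 : c ^ 2 * S ≤ E * H := by
    have h6 : c * S / 2 ≤ E * H / (2 * c) := by linarith
    rw [le_div_iff₀ (by positivity)] at h6
    nlinarith [h6]
  have h6 : 4 * π ^ 2 * S ≤ m ^ 2 * (E * H) := by
    have h7 : c ^ 2 * m ^ 2 = 4 * π ^ 2 := by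
      rw [hc]
      field_simp
      ring
    calc 4 * π ^ 2 * S = m ^ 2 * (c ^ 2 * S) := by rw [← h7]; ring
      _ ≤ m ^ 2 * (E * H) := mul_le_mul_of_nonneg_left h5 (by positivity)
  have h7 : m ^ 2 * (3 * l - 2 * m) ≤ l ^ 3 := by
    nlinarith [mul_nonneg (sq_nonneg (l - m)) (by linarith : 0 ≤ l + 2 * m)]
  have h8 : m ^ 2 * (E * H) ≤ E * (l ^ 3 / 2) := by
    rw [hH]
    have := mul_le_mul_of_nonneg_left h7 hE
    linarith
  have hS0 : 0 ≤ S := by rw [hS]; positivity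
  have h9 : 36 * S ≤ E * (l ^ 3 / 2) := by
    have h10 : 36 * S ≤ 4 * π ^ 2 * S := by
      apply mul_le_mul_of_nonneg_right _ hS0
      nlinarith
    linarith
  have h10 : S ≤ a * E := by
    have h11 : E * (l ^ 3 / 2) ≤ E * (32 * a) := mul_le_mul_of_nonneg_left (by linarith) hE
    have h12 : 0 ≤ a * E := by positivity
    linarith
  have h11 : m1 ^ 2 / a + m2 ^ 2 / a ≤ E := by
    rw [← add_div, ← hS, div_le_iff₀ ha]
    linarith
  linarith

end T7Aux

open T7Aux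

theorem t7 {w : ℝ → ℝ} {M : ℝ≥0} (hw : LipschitzWith M w) (hper : ∀ t, w (t + 2 * π) = w t)
    (hpos : ∀ t, 0 < w t) (hR : Wt (fun t => ((w t) ^ 3)⁻¹)) {τ : ℕ → ℝ}
    (hτ : ∀ j < 4, τ j < τ (j + 1)) (hτ4 : τ 4 = τ 0 + 2 * π) {v : ℕ → ℝ → ℝ}
    (hv : ∀ j < 4, LipschitzWith M (v j)) (hva : ∀ j < 4, v j (τ j) = -w (τ j))
    (hvb : ∀ j < 4, v j (τ (j + 1)) = w (τ (j + 1)))
    (habs : ∀ j < 4, ∀ x ∈ Icc (τ j) (τ (j + 1)), |v j x| ≤ w x) :
    0 ≤ ∑ j ∈ Finset.range 4, ∫ x in τ j..τ (j + 1),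
      ((deriv w x) ^ 2 + (deriv (v j) x) ^ 2 - (w x) ^ 2 - (v j x) ^ 2) := by
  have hwc := hw.continuous
  have hvc : ∀ j < 4, Continuous (v j) := fun j hj => (hv j hj).continuous
  have hNc := NN_cont hwc hvc hτ hva hvb
  have hNpos := NN_pos (v := v) (τ := τ) hpos
  have hNeq : ∀ j < 4, ∀ x ∈ Icc (τ j) (τ (j + 1)), NN w v τ x = w x ^ 2 + v j x ^ 2 :=
    fun j hj x hx => NN_eq hτ hva hvb hj hx
  have hNic : Continuous fun x => (NN w v τ x)⁻¹ := hNc.inv₀ fun x => (hNpos x).ne'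
  -- `m`, `l`, `c`
  have hmj : ∀ j < 4, ∫ x in τ j..τ (j + 1), (NN w v τ x)⁻¹ = mm w (v j) (τ j) (τ (j + 1)) := by
    intro j hj
    apply intervalIntegral.integral_congr
    intro x hx
    rw [uIcc_of_le (hτ j hj).le] at hx
    simp only [hNeq j hj x hx]
  set m := ∑ j ∈ Finset.range 4, mm w (v j) (τ j) (τ (j + 1)) with hm
  have hmint : ∫ x in τ 0..τ 4, (NN w v τ x)⁻¹ = m := by
    rw [hm, ← intervalIntegral.sum_integral_adjacent_intervals (n := 4)
      (fun k _ => hNic.intervalIntegrable _ _)]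
    exact Finset.sum_congr rfl fun j hj => hmj j (Finset.mem_range.1 hj)
  have hmpos : 0 < m := by
    refine Finset.sum_pos (fun j hj => ?_) ⟨0, by simp⟩
    exact mm_pos hwc (hvc j (Finset.mem_range.1 hj)) hpos (hτ j (Finset.mem_range.1 hj))
  set l := ∑ j ∈ Finset.range 4, ∫ x in τ j..τ (j + 1), ((w x) ^ 2)⁻¹ with hl
  have hw2 := w2_cont hwc hpos
  have hlint : ∫ x in (0 : ℝ)..2 * π, ((w x) ^ 2)⁻¹ = l := by
    have hp : Function.Periodic (fun x => ((w x) ^ 2)⁻¹) (2 * π) := by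
      intro x
      simp only [hper]
    have h1 := hp.intervalIntegral_add_eq 0 (τ 0)
    rw [zero_add] at h1
    rw [h1, ← hτ4, hl, ← intervalIntegral.sum_integral_adjacent_intervals (n := 4)
      (fun k _ => hw2.intervalIntegrable _ _)]
  have hml : m ≤ l := by
    refine Finset.sum_le_sum fun j hj => ?_
    exact mm_le hwc (hvc j (Finset.mem_range.1 hj)) hpos (hτ j (Finset.mem_range.1 hj)).le
  obtain ⟨c, hc⟩ : ∃ c, c = 2 * π / m := ⟨_, rfl⟩
  -- the function `t`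
  obtain ⟨t, ht⟩ : ∃ t : ℝ → ℝ, t = fun x => ∫ s in τ 0..x, c * (NN w v τ s)⁻¹ := ⟨_, rfl⟩
  have hcN : Continuous fun x => c * (NN w v τ x)⁻¹ := continuous_const.mul hNic
  have htd : ∀ x, HasDerivAt t (c * (NN w v τ x)⁻¹) x := by
    intro x
    rw [ht]
    exact intervalIntegral.integral_hasDerivAt_right (hcN.intervalIntegrable _ _)
      (hcN.stronglyMeasurableAtFilter _ _) hcN.continuousAt
  have htc : Continuous t := continuous_iff_continuousAt.2 fun x => (htd x).continuousAt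
  have ht0 : t (τ 0) = 0 := by rw [ht]; simp
  have ht4 : t (τ 4) = 2 * π := by
    rw [ht]
    simp only
    rw [intervalIntegral.integral_const_mul, hmint, hc]
    field_simp
  have htj : ∀ j < 4, ∀ x ∈ Icc (τ j) (τ (j + 1)),
      HasDerivWithinAt t (c / (w x ^ 2 + v j x ^ 2)) (Icc (τ j) (τ (j + 1))) x := by
    intro j hj x hx
    have := (htd x).hasDerivWithinAt (s := Icc (τ j) (τ (j + 1)))
    rwa [hNeq j hj x hx, ← div_eq_mul_inv] at this
  -- trigonometric functions `φ` with `cos`, `sin`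
  have hLp : ∀ φ : ℝ → ℝ, LipschitzWith 1 φ → ArcAux.Lp (τ 0) (τ 4) (fun x => √(NN w v τ x) * φ (t x)) := by
    intro φ hφ
    have hj : ∀ j < 4, ArcAux.Lp (τ j) (τ (j + 1)) (fun x => √(NN w v τ x) * φ (t x)) := by
      intro j hj
      have h1 := ArcAux.lp_n hw (hv j hj) hpos (hτ j hj).le
      have h2 : ArcAux.Lp (τ j) (τ (j + 1)) t := ArcAux.lp_tt hw (hv j hj) hpos (htj j hj)
      have h3 : ArcAux.Lp (τ j) (τ (j + 1)) (fun x => φ (t x)) := by
        obtain ⟨K, hK⟩ := h2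
        exact ⟨1 * K, hφ.comp_lipschitzOnWith hK⟩
      refine Lp_congr (h1.mul h3) fun x hx => ?_
      simp only [hNeq j hj x hx]
    exact Lp_glue (Lp_glue (Lp_glue (hj 0 (by omega)) (hj 1 (by omega))) (hj 2 (by omega)))
      (hj 3 (by omega))
  have hderiv : ∀ φ : ℝ → ℝ, ∀ j < 4, ∀ x ∈ Ioo (τ j) (τ (j + 1)),
      deriv (fun x => √(NN w v τ x) * φ (t x)) x =
        deriv (fun x => √(w x ^ 2 + v j x ^ 2) * φ (t x)) x := by
    intro φ j hj x hx
    apply Filter.EventuallyEq.deriv_eq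
    filter_upwards [Icc_mem_nhds hx.1 hx.2] with y hy
    rw [hNeq j hj y hy]
  have hQint : ∀ φ : ℝ → ℝ, LipschitzWith 1 φ → ∀ j < 4,
      IntervalIntegrable (fun x => (deriv (fun x => √(NN w v τ x) * φ (t x)) x) ^ 2 -
        (√(NN w v τ x) * φ (t x)) ^ 2) volume (τ j) (τ (j + 1)) := by
    intro φ hφ j hj
    have h1 := ArcAux.lp_n hw (hv j hj) hpos (hτ j hj).le
    have h2 : ArcAux.Lp (τ j) (τ (j + 1)) t := ArcAux.lp_tt hw (hv j hj) hpos (htj j hj)
    have h3 : ArcAux.Lp (τ j) (τ (j + 1)) (fun x => φ (t x)) := by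
      obtain ⟨K, hK⟩ := h2
      exact ⟨1 * K, hφ.comp_lipschitzOnWith hK⟩
    have h4 : ArcAux.Lp (τ j) (τ (j + 1)) (fun x => √(NN w v τ x) * φ (t x)) := by
      refine Lp_congr (h1.mul h3) fun x hx => ?_
      simp only [hNeq j hj x hx]
    refine (h4.sqInt (hτ j hj).le).sub ?_
    refine Continuous.intervalIntegrable ?_ _ _
    exact (hNc.sqrt.mul (hφ.continuous.comp htc)).pow 2
  have hQj : ∀ φ : ℝ → ℝ, LipschitzWith 1 φ → ∀ j < 4,
      ∫ x in τ j..τ (j + 1), ((deriv (fun x => √(NN w v τ x) * φ (t x)) x) ^ 2 -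
        (√(NN w v τ x) * φ (t x)) ^ 2) =
      ∫ x in τ j..τ (j + 1), ((deriv (fun x => √(w x ^ 2 + v j x ^ 2) * φ (t x)) x) ^ 2 -
        (√(w x ^ 2 + v j x ^ 2) * φ (t x)) ^ 2) := by
    intro φ _ j hj
    apply intervalIntegral.integral_congr_Ioo_of_le (hτ j hj).le
    intro x hx
    simp only [hderiv φ j hj x hx, hNeq j hj x (Ioo_subset_Icc_self hx)]
  have hRc : Continuous fun x => ((w x) ^ 3)⁻¹ := hR.cont
  have hMj : ∀ φ : ℝ → ℝ, LipschitzWith 1 φ → ∀ j < 4,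
      ∫ x in τ j..τ (j + 1), √(NN w v τ x) * φ (t x) * ((w x) ^ 3)⁻¹ =
      ∫ x in τ j..τ (j + 1), √(w x ^ 2 + v j x ^ 2) * φ (t x) * ((w x) ^ 3)⁻¹ := by
    intro φ _ j hj
    apply intervalIntegral.integral_congr
    intro x hx
    rw [uIcc_of_le (hτ j hj).le] at hx
    simp only [hNeq j hj x hx]
  have hA : 0 < ar (fun t => ((w t) ^ 3)⁻¹) := by
    have h1 := area_bound hwc hpos hR
    rw [hlint] at h1
    have h2 : 0 < l ^ 3 := by
      have : 0 < l := lt_of_lt_of_le hmpos hml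
      positivity
    linarith
  -- Minkowski
  have hmink : ∀ φ : ℝ → ℝ, LipschitzWith 1 φ → φ (t (τ 4)) = φ (t (τ 0)) →
      -((∑ j ∈ Finset.range 4, ∫ x in τ j..τ (j + 1),
          √(w x ^ 2 + v j x ^ 2) * φ (t x) * ((w x) ^ 3)⁻¹) ^ 2 / ar (fun t => ((w t) ^ 3)⁻¹)) ≤
        ∑ j ∈ Finset.range 4, ∫ x in τ j..τ (j + 1),
          ((deriv (fun x => √(w x ^ 2 + v j x ^ 2) * φ (t x)) x) ^ 2 -
            (√(w x ^ 2 + v j x ^ 2) * φ (t x)) ^ 2) := by
    intro φ hφ hend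
    obtain ⟨K, hK⟩ := hLp φ hφ
    rw [hτ4] at hK
    have hN4 : NN w v τ (τ 0 + 2 * π) = NN w v τ (τ 0) := by
      rw [← hτ4, hNeq 3 (by omega) (τ 4) ⟨(hτ 3 (by omega)).le, le_rfl⟩,
        hNeq 0 (by omega) (τ 0) ⟨le_rfl, (hτ 0 (by omega)).le⟩, hva 0 (by omega),
        hvb 3 (by omega)]
      have h1 : w (τ 4) = w (τ 0) := by rw [hτ4, hper]
      simp only [Nat.reduceAdd]
      rw [h1]
      ring
    have h1 := mink hR hA hK (by
      simp only [hN4]
      rw [← hτ4, hend])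
    rw [← hτ4] at h1
    have e1 : ∫ x in τ 0..τ 4, √(NN w v τ x) * φ (t x) * ((w x) ^ 3)⁻¹ =
        ∑ j ∈ Finset.range 4, ∫ x in τ j..τ (j + 1),
          √(w x ^ 2 + v j x ^ 2) * φ (t x) * ((w x) ^ 3)⁻¹ := by
      have hcc : Continuous fun x => √(NN w v τ x) * φ (t x) * ((w x) ^ 3)⁻¹ :=
        (hNc.sqrt.mul (hφ.continuous.comp htc)).mul hRc
      rw [← intervalIntegral.sum_integral_adjacent_intervals (n := 4)
        (f := fun x => √(NN w v τ x) * φ (t x) * ((w x) ^ 3)⁻¹)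
        (fun k _ => hcc.intervalIntegrable _ _)]
      exact Finset.sum_congr rfl fun j hj => hMj φ hφ j (Finset.mem_range.1 hj)
    have e2 : ∫ x in τ 0..τ 4, ((deriv (fun x => √(NN w v τ x) * φ (t x)) x) ^ 2 -
        (√(NN w v τ x) * φ (t x)) ^ 2) = ∑ j ∈ Finset.range 4, ∫ x in τ j..τ (j + 1),
          ((deriv (fun x => √(w x ^ 2 + v j x ^ 2) * φ (t x)) x) ^ 2 -
            (√(w x ^ 2 + v j x ^ 2) * φ (t x)) ^ 2) := by
      rw [← intervalIntegral.sum_integral_adjacent_intervals (n := 4)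
        (fun k hk => hQint φ hφ k hk)]
      exact Finset.sum_congr rfl fun j hj => hQj φ hφ j (Finset.mem_range.1 hj)
    rw [e1, e2] at h1
    exact h1
  have hcosL : LipschitzWith 1 Real.cos := Real.lipschitzWith_cos
  have hsinL : LipschitzWith 1 Real.sin := Real.lipschitzWith_sin
  have hm1 := hmink Real.cos hcosL (by rw [ht4, ht0, Real.cos_two_pi, Real.cos_zero])
  have hm2 := hmink Real.sin hsinL (by rw [ht4, ht0, Real.sin_two_pi, Real.sin_zero])
  set m1 := ∑ j ∈ Finset.range 4, ∫ x in τ j..τ (j + 1),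
          √(w x ^ 2 + v j x ^ 2) * Real.cos (t x) * ((w x) ^ 3)⁻¹ with hm1def
  set m2 := ∑ j ∈ Finset.range 4, ∫ x in τ j..τ (j + 1),
          √(w x ^ 2 + v j x ^ 2) * Real.sin (t x) * ((w x) ^ 3)⁻¹ with hm2def
  have hcm1 : c * m1 = ∑ j ∈ Finset.range 4, ∫ x in τ j..τ (j + 1),
      (Real.cos (t x) * gr w (v j) x - Real.sin (t x) * gi w (v j) x) *
        ((kap w (v j) x - c) / (w x ^ 2 + v j x ^ 2)) := by
    rw [hm1def, Finset.mul_sum]
    have h1 : ∀ j ∈ Finset.range 4, c * ∫ x in τ j..τ (j + 1),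
          √(w x ^ 2 + v j x ^ 2) * Real.cos (t x) * ((w x) ^ 3)⁻¹ =
        (√2 * Real.sin (t (τ (j + 1))) - √2 * Real.sin (t (τ j))) + ∫ x in τ j..τ (j + 1),
          (Real.cos (t x) * gr w (v j) x - Real.sin (t x) * gi w (v j) x) *
            ((kap w (v j) x - c) / (w x ^ 2 + v j x ^ 2)) := by
      intro j hj
      have hj' := Finset.mem_range.1 hj
      rw [arc_cos hw (hv j hj') hpos (hτ j hj') (hva j hj') (hvb j hj') (htj j hj')]
      ring
    rw [Finset.sum_congr rfl h1, Finset.sum_add_distrib,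
      Finset.sum_range_sub (fun j => √2 * Real.sin (t (τ j)))]
    rw [ht4, ht0, Real.sin_two_pi, Real.sin_zero]
    ring
  have hcm2 : c * m2 = ∑ j ∈ Finset.range 4, ∫ x in τ j..τ (j + 1),
      (Real.sin (t x) * gr w (v j) x + Real.cos (t x) * gi w (v j) x) *
        ((kap w (v j) x - c) / (w x ^ 2 + v j x ^ 2)) := by
    rw [hm2def, Finset.mul_sum]
    have h1 : ∀ j ∈ Finset.range 4, c * ∫ x in τ j..τ (j + 1),
          √(w x ^ 2 + v j x ^ 2) * Real.sin (t x) * ((w x) ^ 3)⁻¹ =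
        (-√2 * Real.cos (t (τ (j + 1))) - -√2 * Real.cos (t (τ j))) + ∫ x in τ j..τ (j + 1),
          (Real.sin (t x) * gr w (v j) x + Real.cos (t x) * gi w (v j) x) *
            ((kap w (v j) x - c) / (w x ^ 2 + v j x ^ 2)) := by
      intro j hj
      have hj' := Finset.mem_range.1 hj
      rw [arc_sin hw (hv j hj') hpos (hτ j hj') (hva j hj') (hvb j hj') (htj j hj')]
      ring
    rw [Finset.sum_congr rfl h1, Finset.sum_add_distrib,
      Finset.sum_range_sub (fun j => -√2 * Real.cos (t (τ j)))]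
    rw [ht4, ht0, Real.cos_two_pi, Real.cos_zero]
    ring
  set E := ∑ j ∈ Finset.range 4, EE w (v j) c (τ j) (τ (j + 1)) with hE
  have hEpos : 0 ≤ E := Finset.sum_nonneg fun j hj => EE_nonneg (hτ j (Finset.mem_range.1 hj)).le c
  refine final_alg (c := c) (m := m) (l := l) (S := m1 ^ 2 + m2 ^ 2) (E := E)
    (H := (3 * l - 2 * m) / 2) (a := ar (fun t => ((w t) ^ 3)⁻¹)) (m1 := m1) (m2 := m2)
    hmpos hml hc rfl rfl hEpos ?_ ?_ ?_ hm1 hm2
  · rw [← hlint]
    exact area_bound hwc hpos hR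
  · intro k hk
    have h1 : c * (m1 ^ 2 + m2 ^ 2) = m1 * (c * m1) + m2 * (c * m2) := by ring
    rw [h1, hcm1, hcm2, Finset.mul_sum, Finset.mul_sum, ← Finset.sum_add_distrib]
    have h2 : k / 2 * (m1 ^ 2 + m2 ^ 2) * ((3 * l - 2 * m) / 2) + E / (2 * k) =
        ∑ j ∈ Finset.range 4, (k / 2 * (m1 ^ 2 + m2 ^ 2) *
          ((3 * (∫ x in τ j..τ (j + 1), ((w x) ^ 2)⁻¹) - 2 * mm w (v j) (τ j) (τ (j + 1))) / 2) +
          EE w (v j) c (τ j) (τ (j + 1)) / (2 * k)) := by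
      rw [Finset.sum_add_distrib, ← Finset.mul_sum, ← Finset.sum_div, ← Finset.sum_div,
        Finset.sum_sub_distrib, ← Finset.mul_sum, ← Finset.mul_sum]
    rw [h2]
    refine Finset.sum_le_sum fun j hj => ?_
    have hj' := Finset.mem_range.1 hj
    exact arc_cs hw (hv j hj') hpos (hτ j hj') (habs j hj') htc c m1 m2 hk
  · rw [← Finset.sum_add_distrib]
    have h1 : ∀ j ∈ Finset.range 4,
        ((∫ x in τ j..τ (j + 1), ((deriv (fun x => √(w x ^ 2 + v j x ^ 2) * Real.cos (t x)) x) ^ 2 -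
            (√(w x ^ 2 + v j x ^ 2) * Real.cos (t x)) ^ 2)) +
          ∫ x in τ j..τ (j + 1), ((deriv (fun x => √(w x ^ 2 + v j x ^ 2) * Real.sin (t x)) x) ^ 2 -
            (√(w x ^ 2 + v j x ^ 2) * Real.sin (t x)) ^ 2)) =
        (∫ x in τ j..τ (j + 1),
          ((deriv w x) ^ 2 + (deriv (v j) x) ^ 2 - (w x) ^ 2 - (v j x) ^ 2)) -
          (EE w (v j) c (τ j) (τ (j + 1)) + c * π - 2 * c ^ 2 * mm w (v j) (τ j) (τ (j + 1))) := by
      intro j hj
      have hj' := Finset.mem_range.1 hj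
      rw [arc_energy hw (hv j hj') hpos (hτ j hj') (htj j hj'),
        arc_E hw (hv j hj') hpos (hτ j hj') (hva j hj') (hvb j hj') c]
    rw [Finset.sum_congr rfl h1, Finset.sum_sub_distrib, Finset.sum_sub_distrib,
      Finset.sum_add_distrib, Finset.sum_const, ← Finset.mul_sum, ← hm, ← hE]
    simp only [Finset.card_range, nsmul_eq_mul, Nat.cast_ofNat]
    have h3 : c * m = 2 * π := by
      rw [hc]
      field_simp
    have h4 : 2 * c ^ 2 * m = 4 * (c * π) := by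
      have : 2 * c ^ 2 * m = 2 * c * (c * m) := by ring
      rw [this, h3]
      ring
    rw [h4]
    ring

end Pool.Agent.MP9dd972
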