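import Mathlib
import Pool.Agent.Lib.MP_9dd972_gt.Defs
import Pool.Agent.Lib.MP_9dd972_gt.T7
import Pool.Agent.Lib.MP_9dd972_gt.Supp
import Pool.Agent.Lib.MP_9dd972_gt.Sect

/-!
# MP_9dd972_gt, module EVAL: evaluation of T7 for the special curve
-/

set_option autoImplicit false

namespace Pool.Agent.MP9dd972

open MeasureTheory Set
open scoped ENNReal NNReal Real

namespace EvalAux

theorem ev_ie (t : ℝ) (x : E2) : (inner ℝ (ee t) x : ℝ) = Real.cos t * x 0 + Real.sin t * x 1 := by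
  simp [ee, PiLp.inner_apply, Fin.sum_univ_two]
  ring

theorem ev_if (t : ℝ) (x : E2) : (inner ℝ (ff t) x : ℝ) = -Real.sin t * x 0 + Real.cos t * x 1 := by
  simp [ff, PiLp.inner_apply, Fin.sum_univ_two]
  ring

theorem ev_hd (U : E2) (x : ℝ) :
    HasDerivAt (fun y => (inner ℝ (ee y) U : ℝ)) (inner ℝ (ff x) U) x := by
  simp only [ev_ie, ev_if]
  exact ((Real.hasDerivAt_cos x).mul_const (U 0)).add ((Real.hasDerivAt_sin x).mul_const (U 1))

theorem ev_hd2 (U : E2) (x : ℝ) :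
    HasDerivAt (fun y => (inner ℝ (ff y) U : ℝ)) (-(inner ℝ (ee x) U : ℝ)) x := by
  simp only [ev_ie, ev_if]
  have h := ((Real.hasDerivAt_sin x).neg.mul_const (U 0)).add
    ((Real.hasDerivAt_cos x).mul_const (U 1))
  refine h.congr_deriv ?_
  ring

theorem ev_wr (t : ℝ) (U V : E2) : (inner ℝ (ee t) U : ℝ) * (inner ℝ (ff t) V : ℝ) -
    (inner ℝ (ff t) U : ℝ) * (inner ℝ (ee t) V : ℝ) = crs U V := by
  simp only [ev_ie, ev_if, crs]
  have h := Real.sin_sq_add_cos_sq t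
  linear_combination (U 0 * V 1 - U 1 * V 0) * h

theorem ev_sin3 (a b x : ℝ) (U : E2) : (inner ℝ (ee x) U : ℝ) * Real.sin (b - a) =
    (inner ℝ (ee a) U : ℝ) * Real.sin (b - x) + (inner ℝ (ee b) U : ℝ) * Real.sin (x - a) := by
  simp only [ev_ie, Real.sin_sub]
  have h := Real.sin_sq_add_cos_sq x
  ring_nf

theorem ev_cont (U : E2) : Continuous (fun y => (inner ℝ (ee y) U : ℝ)) :=
  continuous_iff_continuousAt.2 fun x => (ev_hd U x).continuousAt

theorem ev_cont2 (U : E2) : Continuous (fun y => (inner ℝ (ff y) U : ℝ)) :=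
  continuous_iff_continuousAt.2 fun x => (ev_hd2 U x).continuousAt

theorem ev_ac {f f' : ℝ → ℝ} (hf : ∀ x, HasDerivAt f (f' x) x) (hc : Continuous f') (a b : ℝ) :
    AbsolutelyContinuousOnInterval f a b := by
  refine ContDiffOn.absolutelyContinuousOnInterval (ContDiff.contDiffOn ?_)
  rw [contDiff_one_iff_deriv]
  refine ⟨fun x => (hf x).differentiableAt, ?_⟩
  rw [show deriv f = f' from funext fun x => (hf x).deriv]
  exact hc

theorem ev_acw {w : ℝ → ℝ} {M : ℝ≥0} (hw : LipschitzWith M w) (a b : ℝ) :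
    AbsolutelyContinuousOnInterval w a b :=
  (hw.lipschitzOnWith (s := uIcc a b)).absolutelyContinuousOnInterval

theorem ev_ii {f : ℝ → ℝ} (hf : Measurable f) (C : ℝ) (h : ∀ x, |f x| ≤ C) (a b : ℝ) :
    IntervalIntegrable f volume a b := by
  rw [intervalIntegrable_iff]
  refine Measure.integrableOn_of_bounded (M := C) ?_ hf.aestronglyMeasurable
    (Filter.Eventually.of_forall fun x => h x)
  simp [uIoc]

theorem ev_dsq {w : ℝ → ℝ} {M : ℝ≥0} (hw : LipschitzWith M w) (a b : ℝ) :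
    IntervalIntegrable (fun x => (deriv w x) ^ 2) volume a b := by
  refine ev_ii ((measurable_deriv w).pow_const 2) ((M : ℝ) ^ 2) (fun x => ?_) a b
  rw [abs_pow]
  have h := norm_deriv_le_of_lipschitz (x₀ := x) hw
  rw [Real.norm_eq_abs] at h
  exact pow_le_pow_left₀ (abs_nonneg _) h 2

/-- the basic quadratic evaluation -/
theorem ev_quad {w v : ℝ → ℝ} {M : ℝ≥0} (hw : LipschitzWith M w) (U : E2) (lam g : ℝ) {a b : ℝ}
    (hab : a ≤ b)
    (hv : ∀ x ∈ Ioo a b, v =ᶠ[nhds x] fun y => lam * (w y - g * (inner ℝ (ee y) U : ℝ))) :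
    ∫ x in a..b, ((deriv w x) ^ 2 + (deriv v x) ^ 2 - (w x) ^ 2 - (v x) ^ 2) =
      -(1 + lam ^ 2) * (∫ x in a..b, ((w x) ^ 2 - (deriv w x) ^ 2)) +
      lam ^ 2 * (-2 * g * (w b * (inner ℝ (ff b) U : ℝ) - w a * (inner ℝ (ff a) U : ℝ)) +
        g ^ 2 * ((inner ℝ (ee b) U : ℝ) * (inner ℝ (ff b) U : ℝ) -
          (inner ℝ (ee a) U : ℝ) * (inner ℝ (ff a) U : ℝ))) := by
  have hq := ev_ac (ev_hd U) (ev_cont2 U) a b
  have hq2 := ev_ac (ev_hd2 U) (ev_cont U).neg a b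
  have e1 := (ev_acw hw a b).integral_deriv_mul_eq_sub hq2
  have e2 := hq.integral_deriv_mul_eq_sub hq2
  have hd1 : deriv (fun y => (inner ℝ (ee y) U : ℝ)) = fun x => (inner ℝ (ff x) U : ℝ) :=
    funext fun x => (ev_hd U x).deriv
  have hd2 : deriv (fun y => (inner ℝ (ff y) U : ℝ)) = fun x => -(inner ℝ (ee x) U : ℝ) :=
    funext fun x => (ev_hd2 U x).deriv
  rw [hd2] at e1 e2
  rw [hd1] at e2
  have i1 : IntervalIntegrable (fun x => (w x) ^ 2 - (deriv w x) ^ 2) volume a b :=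
    ((hw.continuous.pow 2).intervalIntegrable a b).sub (ev_dsq hw a b)
  have i2 : IntervalIntegrable (fun x => deriv w x * (inner ℝ (ff x) U : ℝ) +
      w x * -(inner ℝ (ee x) U : ℝ)) volume a b :=
    ((ev_acw hw a b).intervalIntegrable_deriv.mul_continuousOn (ev_cont2 U).continuousOn).add
      ((hw.continuous.mul (ev_cont U).neg).intervalIntegrable a b)
  have i3 : IntervalIntegrable (fun x => (inner ℝ (ff x) U : ℝ) * (inner ℝ (ff x) U : ℝ) +
      (inner ℝ (ee x) U : ℝ) * -(inner ℝ (ee x) U : ℝ)) volume a b :=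
    (((ev_cont2 U).mul (ev_cont2 U)).add ((ev_cont U).mul (ev_cont U).neg)).intervalIntegrable a b
  have key : ∫ x in a..b, ((deriv w x) ^ 2 + (deriv v x) ^ 2 - (w x) ^ 2 - (v x) ^ 2) =
      ∫ x in a..b, ((-(1 + lam ^ 2) * ((w x) ^ 2 - (deriv w x) ^ 2)) +
        ((-2 * lam ^ 2 * g) * (deriv w x * (inner ℝ (ff x) U : ℝ) + w x * -(inner ℝ (ee x) U : ℝ)) +
        (lam ^ 2 * g ^ 2) * ((inner ℝ (ff x) U : ℝ) * (inner ℝ (ff x) U : ℝ) +
          (inner ℝ (ee x) U : ℝ) * -(inner ℝ (ee x) U : ℝ)))) := by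
    refine intervalIntegral.integral_congr_ae ?_
    have hb : ∀ᵐ x : ℝ, x ≠ b := by
      simpa [ae_iff] using (measure_singleton (μ := (volume : Measure ℝ)) b)
    filter_upwards [hw.ae_differentiableAt_real, hb] with x hx hxb hx2
    rw [uIoc_of_le hab] at hx2
    have hxI : x ∈ Ioo a b := ⟨hx2.1, lt_of_le_of_ne hx2.2 hxb⟩
    have h1 := (hv x hxI).deriv_eq
    have h2 : HasDerivAt (fun y => lam * (w y - g * (inner ℝ (ee y) U : ℝ)))
        (lam * (deriv w x - g * (inner ℝ (ff x) U : ℝ))) x :=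
      ((hx.hasDerivAt).sub ((ev_hd U x).const_mul g)).const_mul lam
    rw [h1, h2.deriv, (hv x hxI).eq_of_nhds]
    ring
  rw [key, intervalIntegral.integral_add (i1.const_mul _) ((i2.const_mul _).add (i3.const_mul _)),
    intervalIntegral.integral_add (i2.const_mul _) (i3.const_mul _),
    intervalIntegral.integral_const_mul, intervalIntegral.integral_const_mul,
    intervalIntegral.integral_const_mul, e1, e2]
  ring

/-- one arc -/
theorem ev_one {L : Set E2} (hL : IsCompact L) (hne : L.Nonempty) (hpos : ∀ t, 0 < hS L t)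
    {U V Z : E2} (hU : U ∈ L) (hV : V ∈ L) (hZ : Z ∈ L) {a s b : ℝ} (h1 : a < s) (h2 : s < b)
    (h3 : s - a < π) (h4 : b - s < π) (hUa : (inner ℝ (ee a) U : ℝ) = hS L a)
    (hVb : (inner ℝ (ee b) V : ℝ) = hS L b)
    (hs1 : (inner ℝ (ee s) U : ℝ) = inner ℝ (ee s) V)
    (hs2 : 0 < (inner ℝ (ee s) U : ℝ)) (hs3 : (inner ℝ (ee s) U : ℝ) < hS L s) :
    ∃ (lam : ℝ) (v : ℝ → ℝ) (M : ℝ≥0), 0 < lam ∧ LipschitzWith M v ∧ v a = -hS L a ∧
      v b = hS L b ∧ (∀ x ∈ Icc a b, |v x| ≤ hS L x) ∧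
      ∫ x in a..b, ((deriv (hS L) x) ^ 2 + (deriv v x) ^ 2 - (hS L x) ^ 2 - (v x) ^ 2) ≤
        (1 + lam) ^ 2 * crs U V - (1 + lam ^ 2) * (crs U Z + crs Z V) +
        2 * ((inner ℝ (ee b) V : ℝ) * (inner ℝ (ff b) V : ℝ) -
          (inner ℝ (ee a) U : ℝ) * (inner ℝ (ff a) U : ℝ)) := by
  obtain ⟨M, hM⟩ := hS_lip hL hne
  set w := hS L with hw
  obtain ⟨g, hg⟩ : ∃ g : ℝ, g = w s / (inner ℝ (ee s) U : ℝ) := ⟨_, rfl⟩
  have hgs : w s = g * (inner ℝ (ee s) U : ℝ) := by rw [hg]; field_simp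
  have hg1 : 1 < g := by rw [hg, one_lt_div hs2]; exact hs3
  have hg0 : 0 < g := lt_trans one_pos hg1
  obtain ⟨lam, hlam⟩ : ∃ lam : ℝ, lam = 1 / (g - 1) := ⟨_, rfl⟩
  have hg1' : 0 < g - 1 := sub_pos.2 hg1
  have hlam0 : 0 < lam := by rw [hlam]; exact one_div_pos.2 hg1'
  have hlg : lam * (g - 1) = 1 := by rw [hlam]; field_simp
  obtain ⟨A, hA⟩ : ∃ A : ℝ → ℝ, A = fun x => lam * (w x - g * (inner ℝ (ee x) U : ℝ)) := ⟨_, rfl⟩
  obtain ⟨B, hB⟩ : ∃ B : ℝ → ℝ, B = fun x => -lam * (w x - g * (inner ℝ (ee x) V : ℝ)) := ⟨_, rfl⟩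
  have hAs : A s = 0 := by rw [hA]; simp only; rw [hgs]; ring
  have hBs : B s = 0 := by rw [hB]; simp only; rw [hgs, hs1]; ring
  -- Lipschitz
  have hqL : ∀ U : E2, LipschitzWith (‖U‖₊) (fun x => (inner ℝ (ee x) U : ℝ)) := by
    intro U
    refine lipschitzWith_of_nnnorm_deriv_le (fun x => (ev_hd U x).differentiableAt) fun x => ?_
    rw [(ev_hd U x).deriv]
    have hn : ‖ff x‖ = 1 := by
      rw [EuclideanSpace.norm_eq]
      simp [ff, Fin.sum_univ_two]
    have := norm_inner_le_norm (𝕜 := ℝ) (ff x) U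
    rw [hn, one_mul] at this
    exact_mod_cast this
  have hlin : ∀ (c : ℝ) (U : E2), ∃ K : ℝ≥0,
      LipschitzWith K (fun x => c * (w x - g * (inner ℝ (ee x) U : ℝ))) := by
    intro c U
    have h5 : LipschitzWith (‖g‖₊ * ‖U‖₊) (fun x => g * (inner ℝ (ee x) U : ℝ)) := by
      exact (lipschitzWith_smul g).comp (hqL U)
    have h6 := hM.sub h5
    refine ⟨‖c‖₊ * (M + ‖g‖₊ * ‖U‖₊), ?_⟩
    exact (lipschitzWith_smul c).comp h6
  obtain ⟨KA, hKA⟩ := hlin lam U
  obtain ⟨KB, hKB⟩ := hlin (-lam) V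
  rw [← hA] at hKA
  rw [← hB] at hKB
  obtain ⟨v, hv⟩ : ∃ v : ℝ → ℝ, v = fun x => A (min x s) + B (max x s) := ⟨_, rfl⟩
  have hvl : ∀ x ≤ s, v x = A x := by
    intro x hx
    rw [hv]; simp only
    rw [min_eq_left hx, max_eq_right hx, hBs, add_zero]
  have hvr : ∀ x, s ≤ x → v x = B x := by
    intro x hx
    rw [hv]; simp only
    rw [min_eq_right hx, max_eq_left hx, hAs, zero_add]
  have hvL : LipschitzWith (KA * 1 + KB * 1) v := by
    rw [hv]
    refine (hKA.comp ?_).add (hKB.comp ?_)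
    · exact LipschitzWith.id.min_const s
    · exact LipschitzWith.id.max_const s
  refine ⟨lam, v, _, hlam0, hvL, ?_, ?_, ?_, ?_⟩
  · rw [hvl a h1.le, hA]; simp only
    rw [hUa]
    linear_combination (-w a) * hlg
  · rw [hvr b h2.le, hB]; simp only
    rw [hVb]
    linear_combination (w b) * hlg
  · intro x hx
    rcases le_total x s with hxs | hxs
    · rw [hvl x hxs, hA]; simp only
      have hqw : (inner ℝ (ee x) U : ℝ) ≤ w x := inner_le_hS hL hU x
      have hwx : 0 < w x := hpos x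
      have hsin : 0 < Real.sin (s - a) := Real.sin_pos_of_pos_of_lt_pi (by linarith) h3
      have hsn : 0 ≤ Real.sin (s - x) :=
        Real.sin_nonneg_of_nonneg_of_le_pi (by linarith) (by linarith [hx.1])
      have htc := hS_tc hL hne hx.1 hxs h3.le
      rw [← hw, hgs] at htc
      have hid := ev_sin3 a s x U
      have hUa' : (0 : ℝ) < inner ℝ (ee a) U := by rw [hUa]; exact hpos a
      have hle : w x * Real.sin (s - a) ≤ (g * (inner ℝ (ee x) U : ℝ)) * Real.sin (s - a) := by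
        have h7 : w a * Real.sin (s - x) ≤ g * ((inner ℝ (ee a) U : ℝ) * Real.sin (s - x)) := by
          rw [hUa]
          have : 0 ≤ w a * Real.sin (s - x) := mul_nonneg (hpos a).le hsn
          nlinarith
        calc w x * Real.sin (s - a) ≤ _ := htc
          _ ≤ g * ((inner ℝ (ee a) U : ℝ) * Real.sin (s - x)) +
              g * (inner ℝ (ee s) U : ℝ) * Real.sin (x - a) := by linarith
          _ = _ := by rw [mul_assoc g _ (Real.sin (s - a)), hid]; ring
      have hle2 : w x ≤ g * (inner ℝ (ee x) U : ℝ) := le_of_mul_le_mul_right hle hsin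
      rw [abs_le]
      constructor
      · have h8 : lam * (w x - g * w x) ≤ lam * (w x - g * (inner ℝ (ee x) U : ℝ)) := by
          refine mul_le_mul_of_nonneg_left ?_ hlam0.le
          have := mul_le_mul_of_nonneg_left hqw hg0.le
          linarith
        have h9 : lam * (w x - g * w x) = -w x := by linear_combination (-w x) * hlg
        linarith
      · have : lam * (w x - g * (inner ℝ (ee x) U : ℝ)) ≤ 0 :=
          mul_nonpos_of_nonneg_of_nonpos hlam0.le (by linarith)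
        linarith
    · rw [hvr x hxs, hB]; simp only
      have hqw : (inner ℝ (ee x) V : ℝ) ≤ w x := inner_le_hS hL hV x
      have hwx : 0 < w x := hpos x
      have hsin : 0 < Real.sin (b - s) := Real.sin_pos_of_pos_of_lt_pi (by linarith) h4
      have hsn : 0 ≤ Real.sin (x - s) :=
        Real.sin_nonneg_of_nonneg_of_le_pi (by linarith) (by linarith [hx.2])
      have htc := hS_tc hL hne hxs hx.2 h4.le
      rw [← hw, hgs, hs1] at htc
      have hid := ev_sin3 s b x V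
      have hle : w x * Real.sin (b - s) ≤ (g * (inner ℝ (ee x) V : ℝ)) * Real.sin (b - s) := by
        have h7 : w b * Real.sin (x - s) ≤ g * ((inner ℝ (ee b) V : ℝ) * Real.sin (x - s)) := by
          rw [hVb]
          have : 0 ≤ w b * Real.sin (x - s) := mul_nonneg (hpos b).le hsn
          nlinarith
        calc w x * Real.sin (b - s) ≤ _ := htc
          _ ≤ g * (inner ℝ (ee s) V : ℝ) * Real.sin (b - x) +
              g * ((inner ℝ (ee b) V : ℝ) * Real.sin (x - s)) := by linarith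
          _ = _ := by rw [mul_assoc g _ (Real.sin (b - s)), hid]; ring
      have hle2 : w x ≤ g * (inner ℝ (ee x) V : ℝ) := le_of_mul_le_mul_right hle hsin
      rw [abs_le]
      constructor
      · have : 0 ≤ -lam * (w x - g * (inner ℝ (ee x) V : ℝ)) :=
          mul_nonneg_of_nonpos_of_nonpos (by linarith) (by linarith)
        linarith
      · have h8 : lam * (w x - g * w x) ≤ lam * (w x - g * (inner ℝ (ee x) V : ℝ)) := by
          refine mul_le_mul_of_nonneg_left ?_ hlam0.le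
          have := mul_le_mul_of_nonneg_left hqw hg0.le
          linarith
        have h9 : lam * (w x - g * w x) = -w x := by linear_combination (-w x) * hlg
        linarith
  · -- the integral
    have hdv : IntervalIntegrable (fun x => (deriv w x) ^ 2 + (deriv v x) ^ 2 - (w x) ^ 2 -
        (v x) ^ 2) volume a s := (((ev_dsq hM a s).add (ev_dsq hvL a s)).sub
          ((hM.continuous.pow 2).intervalIntegrable a s)).sub
          ((hvL.continuous.pow 2).intervalIntegrable a s)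
    have hdv2 : IntervalIntegrable (fun x => (deriv w x) ^ 2 + (deriv v x) ^ 2 - (w x) ^ 2 -
        (v x) ^ 2) volume s b := (((ev_dsq hM s b).add (ev_dsq hvL s b)).sub
          ((hM.continuous.pow 2).intervalIntegrable s b)).sub
          ((hvL.continuous.pow 2).intervalIntegrable s b)
    have iw : IntervalIntegrable (fun x => (w x) ^ 2 - (deriv w x) ^ 2) volume a s :=
      ((hM.continuous.pow 2).intervalIntegrable a s).sub (ev_dsq hM a s)
    have iw2 : IntervalIntegrable (fun x => (w x) ^ 2 - (deriv w x) ^ 2) volume s b :=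
      ((hM.continuous.pow 2).intervalIntegrable s b).sub (ev_dsq hM s b)
    have q1 := ev_quad (v := v) hM U lam g h1.le (fun x hx => by
      filter_upwards [Iio_mem_nhds hx.2] with y hy
      rw [hvl y (le_of_lt hy), hA])
    have q2 := ev_quad (v := v) hM V (-lam) g h2.le (fun x hx => by
      filter_upwards [Ioi_mem_nhds hx.1] with y hy
      rw [hvr y (le_of_lt hy), hB])
    have hsec := sect hL hne (h1.trans h2) hU hV hZ hUa hVb
    rw [← hw] at hsec
    have hsp := intervalIntegral.integral_add_adjacent_intervals iw iw2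
    have hwr := ev_wr s U V
    rw [← intervalIntegral.integral_add_adjacent_intervals hdv hdv2, q1, q2]
    rw [← hsp] at hsec
    have hl2 : lam * g = 1 + lam := by linear_combination hlg
    have hk := mul_le_mul_of_nonneg_left hsec (show (0 : ℝ) ≤ 1 + lam ^ 2 by positivity)
    rw [hgs, ← hUa, ← hVb, ← hs1]
    rw [← hs1] at hwr
    have hg2 : lam ^ 2 * g ^ 2 = (1 + lam) ^ 2 := by rw [← mul_pow, hl2]
    have hg3 : lam ^ 2 * g = lam * (1 + lam) := by rw [pow_two, mul_assoc, hl2]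
    linear_combination hk + (crs U V + ((inner ℝ (ee b) V : ℝ) * (inner ℝ (ff b) V : ℝ) -
      (inner ℝ (ee a) U : ℝ) * (inner ℝ (ff a) U : ℝ))) * hg2 -
      2 * ((inner ℝ (ee b) V : ℝ) * (inner ℝ (ff b) V : ℝ) -
      (inner ℝ (ee a) U : ℝ) * (inner ℝ (ff a) U : ℝ)) * hg3 + lam ^ 2 * g ^ 2 * hwr

end EvalAux

open EvalAux in
theorem eval_ineq {L : Set E2} (hL : IsCompact L) (hne : L.Nonempty) (hpos : ∀ t, 0 < hS L t)
    (hW : Wt (fun t => ((hS L t) ^ 3)⁻¹)) {u z : ℕ → E2} (hu : ∀ j, u j ∈ L) (hz : ∀ j, z j ∈ L)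
    (hu4 : u 4 = u 0) {θ σ : ℕ → ℝ} (hθ4 : θ 4 = θ 0 + 2 * π)
    (hθσ : ∀ j < 4, θ j < σ j ∧ σ j < θ (j + 1) ∧ σ j - θ j < π ∧ θ (j + 1) - σ j < π)
    (htop : ∀ j ≤ 4, (inner ℝ (ee (θ j)) (u j) : ℝ) = hS L (θ j))
    (hs : ∀ j < 4, (inner ℝ (ee (σ j)) (u j) : ℝ) = inner ℝ (ee (σ j)) (u (j + 1)) ∧
      0 < (inner ℝ (ee (σ j)) (u j) : ℝ) ∧ (inner ℝ (ee (σ j)) (u j) : ℝ) < hS L (σ j)) :
    ∃ lam : ℕ → ℝ, (∀ j, 0 < lam j) ∧
      0 ≤ ∑ j ∈ Finset.range 4, ((1 + lam j) ^ 2 * crs (u j) (u (j + 1)) -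
        (1 + lam j ^ 2) * (crs (u j) (z j) + crs (z j) (u (j + 1)))) := by
  obtain ⟨M, hM⟩ := hS_lip hL hne
  have hone : ∀ j : ℕ, ∃ (lam : ℝ) (v : ℝ → ℝ) (K : ℝ≥0), 0 < lam ∧ (j < 4 →
      (LipschitzWith K v ∧ v (θ j) = -hS L (θ j) ∧ v (θ (j + 1)) = hS L (θ (j + 1)) ∧
      (∀ x ∈ Icc (θ j) (θ (j + 1)), |v x| ≤ hS L x) ∧
      ∫ x in (θ j)..(θ (j + 1)), ((deriv (hS L) x) ^ 2 + (deriv v x) ^ 2 - (hS L x) ^ 2 - (v x) ^ 2) ≤
        (1 + lam) ^ 2 * crs (u j) (u (j + 1)) -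
        (1 + lam ^ 2) * (crs (u j) (z j) + crs (z j) (u (j + 1))) +
        2 * ((inner ℝ (ee (θ (j + 1))) (u (j + 1)) : ℝ) * (inner ℝ (ff (θ (j + 1))) (u (j + 1)) : ℝ) -
          (inner ℝ (ee (θ j)) (u j) : ℝ) * (inner ℝ (ff (θ j)) (u j) : ℝ)))) := by
    intro j
    by_cases hj : j < 4
    · obtain ⟨a1, a2, a3, a4⟩ := hθσ j hj
      obtain ⟨b1, b2, b3⟩ := hs j hj
      obtain ⟨lam, v, K, c1, c2⟩ := ev_one hL hne hpos (hu j) (hu (j + 1)) (hz j) a1 a2 a3 a4
        (htop j hj.le) (htop (j + 1) hj) b1 b2 b3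
      exact ⟨lam, v, K, c1, fun _ => c2⟩
    · exact ⟨1, 0, 0, one_pos, fun h => absurd h hj⟩
  choose lam v K hlam hrest using hone
  refine ⟨lam, hlam, ?_⟩
  have hKle : ∀ j < 4, K j ≤ M + ∑ i ∈ Finset.range 4, K i := by
    intro j hj
    exact (Finset.single_le_sum (f := K) (fun i _ => zero_le) (Finset.mem_range.2 hj)).trans
      (le_add_of_nonneg_left zero_le)
  have ht := t7 (hM.weaken (le_add_of_nonneg_right (zero_le : 0 ≤ ∑ i ∈ Finset.range 4, K i)))
    (hS_per L) hpos hW (τ := θ) (fun j hj => (hθσ j hj).1.trans (hθσ j hj).2.1) hθ4 (v := v)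
    (fun j hj => (hrest j hj).1.weaken (hKle j hj)) (fun j hj => (hrest j hj).2.1)
    (fun j hj => (hrest j hj).2.2.1) (fun j hj => (hrest j hj).2.2.2.1)
  obtain ⟨β, hβ⟩ : ∃ β : ℕ → ℝ, β = fun j =>
    (inner ℝ (ee (θ j)) (u j) : ℝ) * (inner ℝ (ff (θ j)) (u j) : ℝ) := ⟨_, rfl⟩
  have hβ4 : β 4 = β 0 := by
    rw [hβ]; simp only
    rw [hu4, hθ4]
    simp only [ev_ie, ev_if, Real.cos_add_two_pi, Real.sin_add_two_pi]
  have hsum : ∑ j ∈ Finset.range 4, (β (j + 1) - β j) = 0 := by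
    rw [Finset.sum_range_sub, hβ4, sub_self]
  have hle : ∑ j ∈ Finset.range 4, ∫ x in θ j..θ (j + 1),
      ((deriv (hS L) x) ^ 2 + (deriv (v j) x) ^ 2 - (hS L x) ^ 2 - (v j x) ^ 2) ≤
      ∑ j ∈ Finset.range 4, (((1 + lam j) ^ 2 * crs (u j) (u (j + 1)) -
        (1 + lam j ^ 2) * (crs (u j) (z j) + crs (z j) (u (j + 1)))) + 2 * (β (j + 1) - β j)) := by
    refine Finset.sum_le_sum fun j hj => ?_
    have := (hrest j (Finset.mem_range.1 hj)).2.2.2.2
    rw [hβ]
    exact this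
  rw [Finset.sum_add_distrib, ← Finset.mul_sum, hsum] at hle
  linarith

end Pool.Agent.MP9dd972
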