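import Mathlib
import Pool.Agent.Lib.MP_9dd972_gt.Defs
import Pool.Agent.Lib.MP_9dd972_gt.Supp
import Pool.Agent.Lib.MP_9dd972_gt.Pol

/-!
# MP_9dd972_gt, module GEO: contact directions and vertices of the circumscribed quadrilateral
-/

set_option autoImplicit false

namespace Pool.Agent.MP9dd972

open MeasureTheory Set
open scoped ENNReal NNReal Real

namespace GeoAux

theorem inner_smul_ee (s t r : ℝ) : (inner ℝ (ee s) (r • ee t) : ℝ) = r * Real.cos (s - t) := by
  simp [ee, PiLp.inner_apply, Fin.sum_univ_two, Real.cos_sub]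
  ring

/-- `r • ee θ` is a contact point of `K` in direction `ee φ`. -/
structure Con (K : Set E2) (φ θ r : ℝ) : Prop where
  pos : 0 < r
  lo : -(π / 2) < θ - φ
  hi : θ - φ < π / 2
  mem : r • ee θ ∈ K
  eq : r * Real.cos (θ - φ) = hS K φ

theorem ee_per (t : ℝ) : ee (t + 2 * π) = ee t := by
  simp [ee, Real.cos_add_two_pi, Real.sin_add_two_pi]

theorem Con.per {K : Set E2} {φ θ r : ℝ} (h : Con K φ θ r) :
    Con K (φ + 2 * π) (θ + 2 * π) r where
  pos := h.pos
  lo := by have := h.lo; linarith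
  hi := by have := h.hi; linarith
  mem := by rw [ee_per]; exact h.mem
  eq := by
    rw [hS_per, ← h.eq]
    congr 2
    ring

/-- polar form of a point with a positive inner product -/
theorem polar {h y φ t : ℝ} :
    h * Real.cos (t - φ) + h * y * Real.sin (t - φ) =
      h * √(1 + y ^ 2) * Real.cos (t - (φ + Real.arctan y)) := by
  have h1 : t - (φ + Real.arctan y) = (t - φ) - Real.arctan y := by ring
  have h2 : 0 < √(1 + y ^ 2) := Real.sqrt_pos.2 (by positivity)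
  rw [h1, Real.cos_sub (t - φ) (Real.arctan y), Real.cos_arctan, Real.sin_arctan]
  field_simp

theorem exists_con {K : Set E2} (hK : Body K) (φ : ℝ) : ∃ θ r, Con K φ θ r := by
  have hne : K.Nonempty := ⟨0, interior_subset hK.zero⟩
  obtain ⟨p, hp, hpe, -, -⟩ := exists_top hK.comp hne φ
  have hh := hS_pos hK φ
  set h := hS K φ with hhdef
  set y : ℝ := (inner ℝ (ff φ) p : ℝ) / h with hy
  have h2 : 0 < √(1 + y ^ 2) := Real.sqrt_pos.2 (by positivity)
  have hyh : h * y = (inner ℝ (ff φ) p : ℝ) := by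
    rw [hy]
    field_simp
  have hpeq : p = (h * √(1 + y ^ 2)) • ee (φ + Real.arctan y) := by
    have e1 : p 0 = h * Real.cos φ - h * y * Real.sin φ := by
      rw [hyh, ← hpe, SuppAux.inner_ee, SuppAux.inner_ff]
      have := Real.sin_sq_add_cos_sq φ
      linear_combination (-(p 0)) * this
    have e2 : p 1 = h * Real.sin φ + h * y * Real.cos φ := by
      rw [hyh, ← hpe, SuppAux.inner_ee, SuppAux.inner_ff]
      have := Real.sin_sq_add_cos_sq φ
      linear_combination (-(p 1)) * this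
    ext i
    fin_cases i
    · show p 0 = (h * √(1 + y ^ 2)) * Real.cos (φ + Real.arctan y)
      rw [e1, Real.cos_add, Real.cos_arctan, Real.sin_arctan]
      field_simp
    · show p 1 = (h * √(1 + y ^ 2)) * Real.sin (φ + Real.arctan y)
      rw [e2, Real.sin_add, Real.cos_arctan, Real.sin_arctan]
      field_simp
  refine ⟨φ + Real.arctan y, h * √(1 + y ^ 2), ?_, ?_, ?_, ?_, ?_⟩
  · positivity
  · have := Real.neg_pi_div_two_lt_arctan y
    linarith
  · have := Real.arctan_lt_pi_div_two y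
    linarith
  · rw [← hpeq]
    exact hp
  · have h3 : φ + Real.arctan y - φ = Real.arctan y := by ring
    rw [h3, Real.cos_arctan]
    field_simp
    exact hhdef

theorem Con.top {K : Set E2} (hK : Body K) {φ θ r : ℝ} (h : Con K φ θ r) :
    (inner ℝ (ee θ) ((hS K φ)⁻¹ • ee φ) : ℝ) = hS (polS K) θ := by
  have hh := hS_pos hK φ
  apply le_antisymm
  · exact inner_le_hS (polS_compact hK) (unit_mem_polS hK φ) θ
  · rw [inner_smul_ee]
    have h1 := (mem_body_iff hK h.pos.le).1 h.mem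
    have h2 : hS (polS K) θ ≤ 1 / r := by
      rw [le_div_iff₀ h.pos]
      linarith
    refine h2.trans (le_of_eq ?_)
    have hr := h.pos
    rw [← h.eq]
    have hc : 0 < Real.cos (θ - φ) := Real.cos_pos_of_mem_Ioo ⟨h.lo, h.hi⟩
    field_simp

/-- The vertex. -/
structure Ver (K : Set E2) (φ φ' ψ σ ρ : ℝ) : Prop where
  pos : 0 < ρ
  lo : -(π / 2) < σ - φ
  hi : σ - φ < π / 2
  lo' : -(π / 2) < σ - φ'
  hi' : σ - φ' < π / 2
  eq : ρ * Real.cos (σ - φ) = hS K φ
  eq' : ρ * Real.cos (σ - φ') = hS K φ'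
  out : hS K ψ < ρ * Real.cos (ψ - σ)

theorem exists_ver {K : Set E2} (hK : Body K) {φ φ' ψ : ℝ} (hφ : φ < φ') (hπ : φ' - φ < π)
    (hV : hS K ψ < VV K φ φ' ψ) : ∃ σ ρ, Ver K φ φ' ψ σ ρ := by
  have hh := hS_pos hK φ
  have hh' := hS_pos hK φ'
  have hsin : 0 < Real.sin (φ' - φ) := Real.sin_pos_of_pos_of_lt_pi (by linarith) hπ
  set h := hS K φ with hhdef
  set h' := hS K φ' with hh'def
  set y : ℝ := (h' - h * Real.cos (φ' - φ)) / (h * Real.sin (φ' - φ)) with hy
  have h2 : 0 < √(1 + y ^ 2) := Real.sqrt_pos.2 (by positivity)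
  have hVt : ∀ t, VV K φ φ' t = h * √(1 + y ^ 2) * Real.cos (t - (φ + Real.arctan y)) := by
    intro t
    rw [← polar]
    unfold VV
    rw [← hhdef, ← hh'def]
    have e1 : φ' - t = (φ' - φ) - (t - φ) := by ring
    rw [e1, Real.sin_sub (φ' - φ) (t - φ), hy]
    field_simp
    ring
  have hV1 : h * √(1 + y ^ 2) * Real.cos (φ + Real.arctan y - φ) = h := by
    have h3 : φ + Real.arctan y - φ = Real.arctan y := by ring
    rw [h3, Real.cos_arctan]
    field_simp
  have hV2 : h * √(1 + y ^ 2) * Real.cos (φ + Real.arctan y - φ') = h' := by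
    have h3 := hVt φ'
    have h4 : VV K φ φ' φ' = h' := by
      unfold VV
      rw [← hhdef, ← hh'def, sub_self, Real.sin_zero]
      field_simp
      ring
    rw [h4] at h3
    rw [h3, ← Real.cos_neg]
    congr 2
    ring
  have ha := Real.neg_pi_div_two_lt_arctan y
  have hb := Real.arctan_lt_pi_div_two y
  have hρ : 0 < h * √(1 + y ^ 2) := by positivity
  have hcos : 0 < Real.cos (φ' - (φ + Real.arctan y)) := by
    have h5 : Real.cos (φ' - (φ + Real.arctan y)) = Real.cos (φ + Real.arctan y - φ') := by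
      rw [← Real.cos_neg]
      congr 1
      ring
    rw [h5]
    by_contra hcon
    have : h * √(1 + y ^ 2) * Real.cos (φ + Real.arctan y - φ') ≤ 0 :=
      mul_nonpos_of_nonneg_of_nonpos hρ.le (not_lt.1 hcon)
    linarith
  refine ⟨φ + Real.arctan y, h * √(1 + y ^ 2), hρ, by linarith, by linarith, ?_, by linarith,
    hV1, hV2, ?_⟩
  · by_contra hcon
    have h6 : π / 2 ≤ φ' - (φ + Real.arctan y) := by linarith
    have h7 : φ' - (φ + Real.arctan y) ≤ π + π / 2 := by linarith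
    have := Real.cos_nonpos_of_pi_div_two_le_of_le h6 h7
    linarith
  · rw [← hVt]
    exact hV

theorem Ver.not_mem {K : Set E2} (hK : Body K) {φ φ' ψ σ ρ : ℝ} (h : Ver K φ φ' ψ σ ρ) :
    ρ • ee σ ∉ K := by
  intro hmem
  have h1 := inner_le_hS hK.comp hmem ψ
  rw [inner_smul_ee] at h1
  have := h.out
  linarith

theorem lt_ver {K : Set E2} (hK : Body K) {φ φ' ψ σ ρ θ r : ℝ} (hφ : φ < φ')
    (hπ : φ' - φ < π) (h : Ver K φ φ' ψ σ ρ) (hc : Con K φ θ r) : θ < σ := by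
  have hsin : 0 < Real.sin (φ' - φ) := Real.sin_pos_of_pos_of_lt_pi (by linarith) hπ
  have hh := hS_pos hK φ
  have h1 := inner_le_hS hK.comp hc.mem φ'
  rw [inner_smul_ee, ← h.eq'] at h1
  have e1 : φ' - θ = (φ' - φ) - (θ - φ) := by ring
  have e2 : Real.cos (σ - φ') = Real.cos ((φ' - φ) - (σ - φ)) := by
    rw [← Real.cos_neg]
    congr 1
    ring
  rw [e1, e2, Real.cos_sub (φ' - φ) (θ - φ), Real.cos_sub (φ' - φ) (σ - φ)] at h1
  have hE := h.eq
  have hC := hc.eq
  have h3 : Real.sin (φ' - φ) * (r * Real.sin (θ - φ)) ≤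
      Real.sin (φ' - φ) * (ρ * Real.sin (σ - φ)) := by
    have h4 : r * Real.cos (θ - φ) = ρ * Real.cos (σ - φ) := by rw [hE, hC]
    have h5 : Real.cos (φ' - φ) * (r * Real.cos (θ - φ)) =
      Real.cos (φ' - φ) * (ρ * Real.cos (σ - φ)) := by rw [h4]
    nlinarith
  have h4 : r * Real.sin (θ - φ) ≤ ρ * Real.sin (σ - φ) := le_of_mul_le_mul_left h3 hsin
  have h5 : r * ρ * Real.sin (θ - σ) =
      hS K φ * (r * Real.sin (θ - φ) - ρ * Real.sin (σ - φ)) := by
    have e3 : θ - σ = (θ - φ) - (σ - φ) := by ring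
    rw [e3, Real.sin_sub]
    linear_combination (r * Real.sin (θ - φ)) * hE - (ρ * Real.sin (σ - φ)) * hC
  have h6 : r * ρ * Real.sin (θ - σ) ≤ 0 := by
    rw [h5]
    exact mul_nonpos_of_nonneg_of_nonpos hh.le (by linarith)
  have hrρ : 0 < r * ρ := mul_pos hc.pos h.pos
  have h7 : Real.sin (θ - σ) ≤ 0 := by
    by_contra hcon
    have := mul_pos hrρ (not_le.1 hcon)
    linarith
  have h8 := h.lo
  have h9 := h.hi
  have h10 := hc.lo
  have h11 := hc.hi
  rcases lt_trichotomy θ σ with h12 | h12 | h12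
  · exact h12
  · exfalso
    subst h12
    have hcpos : 0 < Real.cos (θ - φ) := Real.cos_pos_of_mem_Ioo ⟨h10, h11⟩
    have : r = ρ := by
      have h13 : r * Real.cos (θ - φ) = ρ * Real.cos (θ - φ) := by rw [hE, hC]
      exact mul_right_cancel₀ hcpos.ne' h13
    rw [this] at hc
    exact h.not_mem hK hc.mem
  · exfalso
    have := Real.sin_pos_of_pos_of_lt_pi (x := θ - σ) (by linarith) (by linarith)
    linarith

theorem ver_lt {K : Set E2} (hK : Body K) {φ φ' ψ σ ρ θ r : ℝ} (hφ : φ < φ')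
    (hπ : φ' - φ < π) (h : Ver K φ φ' ψ σ ρ) (hc : Con K φ' θ r) : σ < θ := by
  have hsin : 0 < Real.sin (φ' - φ) := Real.sin_pos_of_pos_of_lt_pi (by linarith) hπ
  have hh := hS_pos hK φ'
  have h1 := inner_le_hS hK.comp hc.mem φ
  rw [inner_smul_ee, ← h.eq] at h1
  have e1 : Real.cos (φ - θ) = Real.cos ((φ' - φ) + (θ - φ')) := by
    rw [← Real.cos_neg]
    congr 1
    ring
  have e2 : σ - φ = (φ' - φ) + (σ - φ') := by ring
  rw [e1, e2, Real.cos_add (φ' - φ) (θ - φ'), Real.cos_add (φ' - φ) (σ - φ')] at h1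
  have hE := h.eq'
  have hC := hc.eq
  have h3 : Real.sin (φ' - φ) * (ρ * Real.sin (σ - φ')) ≤
      Real.sin (φ' - φ) * (r * Real.sin (θ - φ')) := by
    have h4 : r * Real.cos (θ - φ') = ρ * Real.cos (σ - φ') := by rw [hE, hC]
    have h5 : Real.cos (φ' - φ) * (r * Real.cos (θ - φ')) =
      Real.cos (φ' - φ) * (ρ * Real.cos (σ - φ')) := by rw [h4]
    nlinarith
  have h4 : ρ * Real.sin (σ - φ') ≤ r * Real.sin (θ - φ') := le_of_mul_le_mul_left h3 hsin
  have h5 : r * ρ * Real.sin (θ - σ) =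
      hS K φ' * (r * Real.sin (θ - φ') - ρ * Real.sin (σ - φ')) := by
    have e3 : θ - σ = (θ - φ') - (σ - φ') := by ring
    rw [e3, Real.sin_sub]
    linear_combination (r * Real.sin (θ - φ')) * hE - (ρ * Real.sin (σ - φ')) * hC
  have h6 : 0 ≤ r * ρ * Real.sin (θ - σ) := by
    rw [h5]
    exact mul_nonneg hh.le (by linarith)
  have hrρ : 0 < r * ρ := mul_pos hc.pos h.pos
  have h7 : 0 ≤ Real.sin (θ - σ) := by
    by_contra hcon
    have := mul_neg_of_pos_of_neg hrρ (not_le.1 hcon)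
    linarith
  have h8 := h.lo'
  have h9 := h.hi'
  have h10 := hc.lo
  have h11 := hc.hi
  rcases lt_trichotomy σ θ with h12 | h12 | h12
  · exact h12
  · exfalso
    subst h12
    have hcpos : 0 < Real.cos (σ - φ') := Real.cos_pos_of_mem_Ioo ⟨h10, h11⟩
    have : r = ρ := by
      have h13 : r * Real.cos (σ - φ') = ρ * Real.cos (σ - φ') := by rw [hE, hC]
      exact mul_right_cancel₀ hcpos.ne' h13
    rw [this] at hc
    exact h.not_mem hK hc.mem
  · exfalso
    have := Real.sin_neg_of_neg_of_neg_pi_lt (x := θ - σ) (by linarith) (by linarith)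
    linarith

end GeoAux

open GeoAux in
theorem geo {K : Set E2} (hK : Body K) {φ ψ : ℕ → ℝ} (hφ4 : φ 4 = φ 0 + 2 * π)
    (hgap : ∀ j < 4, φ j < φ (j + 1) ∧ φ (j + 1) - φ j < π)
    (hψ : ∀ j < 4, φ j < ψ j ∧ ψ j < φ (j + 1))
    (hV : ∀ j < 4, hS K (ψ j) < VV K (φ j) (φ (j + 1)) (ψ j)) :
    ∃ θ σ : ℕ → ℝ, θ 4 = θ 0 + 2 * π ∧
      (∀ j < 4, θ j < σ j ∧ σ j < θ (j + 1) ∧ σ j - θ j < π ∧ θ (j + 1) - σ j < π) ∧
      (∀ j ≤ 4, (inner ℝ (ee (θ j)) ((hS K (φ j))⁻¹ • ee (φ j)) : ℝ) = hS (polS K) (θ j)) ∧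
      (∀ j < 4, (inner ℝ (ee (σ j)) ((hS K (φ j))⁻¹ • ee (φ j)) : ℝ) =
          inner ℝ (ee (σ j)) ((hS K (φ (j + 1)))⁻¹ • ee (φ (j + 1))) ∧
        0 < (inner ℝ (ee (σ j)) ((hS K (φ j))⁻¹ • ee (φ j)) : ℝ) ∧
        (inner ℝ (ee (σ j)) ((hS K (φ j))⁻¹ • ee (φ j)) : ℝ) < hS (polS K) (σ j)) := by
  choose T R hTR using fun j : ℕ => exists_con hK (φ j)
  have hver : ∀ j : ℕ, ∃ σ ρ, j < 4 → Ver K (φ j) (φ (j + 1)) (ψ j) σ ρ := by
    intro j
    by_cases hj : j < 4
    · obtain ⟨σ, ρ, h⟩ := exists_ver hK (hgap j hj).1 (hgap j hj).2 (hV j hj)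
      exact ⟨σ, ρ, fun _ => h⟩
    · exact ⟨0, 0, fun h => absurd h hj⟩
  choose σ ρ hσρ using hver
  let θ : ℕ → ℝ := fun j => if j = 4 then T 0 + 2 * π else T j
  let r : ℕ → ℝ := fun j => if j = 4 then R 0 else R j
  have hcon : ∀ j, Con K (φ j) (θ j) (r j) := by
    intro j
    by_cases hj : j = 4
    · subst hj
      simp only [θ, r, if_true, hφ4]
      exact (hTR 0).per
    · simp only [θ, r, hj, if_false]
      exact hTR j
  refine ⟨θ, σ, ?_, ?_, ?_, ?_⟩
  · simp [θ]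
  · intro j hj
    have hc := hcon j
    have hc' := hcon (j + 1)
    have hv := hσρ j hj
    have h1 := hc.lo
    have h2 := hc'.hi
    have h3 := hv.hi
    have h4 := hv.lo'
    exact ⟨lt_ver hK (hgap j hj).1 (hgap j hj).2 hv hc,
      ver_lt hK (hgap j hj).1 (hgap j hj).2 hv hc', by linarith, by linarith⟩
  · intro j _
    exact (hcon j).top hK
  · intro j hj
    have hv := hσρ j hj
    have hρ := hv.pos
    have hh := hS_pos hK (φ j)
    have hh' := hS_pos hK (φ (j + 1))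
    have hhψ := hS_pos hK (ψ j)
    have e1 : (inner ℝ (ee (σ j)) ((hS K (φ j))⁻¹ • ee (φ j)) : ℝ) = (ρ j)⁻¹ := by
      rw [inner_smul_ee, ← hv.eq]
      have hc : 0 < Real.cos (σ j - φ j) := Real.cos_pos_of_mem_Ioo ⟨hv.lo, hv.hi⟩
      field_simp
    have e2 : (inner ℝ (ee (σ j)) ((hS K (φ (j + 1)))⁻¹ • ee (φ (j + 1))) : ℝ) =
        (ρ j)⁻¹ := by
      rw [inner_smul_ee, ← hv.eq']
      have hc : 0 < Real.cos (σ j - φ (j + 1)) := Real.cos_pos_of_mem_Ioo ⟨hv.lo', hv.hi'⟩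
      field_simp
    rw [e1, e2]
    refine ⟨rfl, inv_pos.2 hρ, ?_⟩
    refine lt_of_lt_of_le ?_ (inner_le_hS (polS_compact hK) (unit_mem_polS hK (ψ j)) (σ j))
    rw [inner_smul_ee]
    have h5 := hv.out
    have h6 : Real.cos (σ j - ψ j) = Real.cos (ψ j - σ j) := by
      rw [← Real.cos_neg]
      congr 1
      ring
    rw [h6, inv_eq_one_div, inv_mul_eq_div, div_lt_div_iff₀ hρ hhψ]
    linarith

end Pool.Agent.MP9dd972
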