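import Mathlib
import Pool.Agent.Lib.MP_9dd972_gt.Defs

set_option autoImplicit false

namespace Pool.Agent.MP9dd972

open MeasureTheory Set
open scoped ENNReal NNReal Real

theorem body_of_centred {K : Set E2} (hK : Convex ℝ K) (hKc : IsCompact K)
    (hKi : (interior K).Nonempty) (hc : ∫ x in K, x = (0 : E2)) : Body K := by
  refine ⟨hK, hKc, ?_⟩
  by_contra h0
  obtain ⟨l, hl⟩ := geometric_hahn_banach_open_point hK.interior isOpen_interior h0
  have hl0 : ∀ a ∈ interior K, l a < 0 := by
    intro a ha
    have := hl a ha
    rwa [map_zero] at this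
  have hlK : ∀ a ∈ K, l a ≤ 0 := by
    have hcl : closure (interior K) ⊆ {a | l a ≤ 0} :=
      closure_minimal (fun a ha => (hl0 a ha).le) (isClosed_le l.continuous continuous_const)
    intro a ha
    refine hcl ?_
    rw [hK.closure_interior_eq_closure_of_nonempty_interior hKi]
    exact subset_closure ha
  have hint : IntegrableOn (fun x : E2 => x) K := continuousOn_id.integrableOn_compact hKc
  have h1 : ∫ x in K, l x = 0 := by
    have h2 := l.integral_comp_comm hint
    rw [hc, map_zero] at h2
    exact h2
  have h3 : ∫ x in K, - l x = 0 := by rw [integral_neg, h1, neg_zero]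
  have hlint : IntegrableOn (fun x : E2 => - l x) K :=
    (l.continuous.neg.continuousOn).integrableOn_compact hKc
  have hmeas : MeasurableSet K := hKc.measurableSet
  have h4 : ∀ᵐ x ∂(volume.restrict K), 0 ≤ - l x := by
    rw [ae_restrict_iff' hmeas]
    exact Filter.Eventually.of_forall fun x hx => by
      have := hlK x hx
      linarith
  have h5 := (integral_eq_zero_iff_of_nonneg_ae h4 hlint).mp h3
  have h6 : volume (interior K) = 0 := by
    rw [Filter.EventuallyEq, ae_restrict_iff' hmeas] at h5
    refine measure_mono_null ?_ (ae_iff.mp h5)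
    intro x hx
    simp only [Set.mem_setOf_eq, Pi.zero_apply, Classical.not_imp]
    refine ⟨interior_subset hx, ?_⟩
    have := hl0 x hx
    intro h
    linarith
  exact (isOpen_interior.measure_pos volume hKi).ne' h6

end Pool.Agent.MP9dd972
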