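import Mathlib
import Pool.Agent.Lib.MP_9dd972_gt.Defs
import Pool.Agent.Lib.MP_9dd972_gt.Supp
import Pool.Agent.Lib.MP_9dd972_gt.Stj
import Pool.Agent.Lib.MP_9dd972_gt.Sibp

/-!
# MP_9dd972_gt, planar case, module TAU2: H^1 of a boundary arc, lower bound
-/

set_option autoImplicit false

namespace Pool.Agent.MP9dd972

open MeasureTheory Set
open scoped ENNReal NNReal Real

namespace Tau2Aux

theorem Body.ne {K : Set E2} (hK : Body K) : K.Nonempty := ⟨0, interior_subset hK.zero⟩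

theorem frame (b s : ℝ) (x : E2) : (inner ℝ (ff b) x : ℝ) =
    Real.cos (b - s) * inner ℝ (ff s) x - Real.sin (b - s) * inner ℝ (ee s) x := by
  rw [SuppAux.inner_ff, SuppAux.inner_ff, SuppAux.inner_ee, Real.sin_sub, Real.cos_sub]
  have hcs := Real.sin_sq_add_cos_sq s
  linear_combination (Real.sin b * x 0 - Real.cos b * x 1) * hcs

/-- `G` -/
noncomputable def GG (K : Set E2) (b s : ℝ) : ℝ :=
  rS K s * Real.cos (b - s) - hS K s * Real.sin (b - s)

theorem norm_ff (t : ℝ) : ‖ff t‖ = 1 := by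
  rw [EuclideanSpace.norm_eq]
  simp [ff, Fin.sum_univ_two]

theorem lip_pi (b : ℝ) : LipschitzWith 1 fun x : E2 => (inner ℝ (ff b) x : ℝ) := by
  refine LipschitzWith.of_dist_le_mul fun x y => ?_
  rw [Real.dist_eq, ← inner_sub_right, NNReal.coe_one, one_mul, dist_eq_norm]
  have h := abs_real_inner_le_norm (ff b) (x - y)
  rwa [norm_ff, one_mul] at h

theorem exists_GG {K : Set E2} (hK : Body K) (b s : ℝ) :
    ∃ x ∈ K, (inner ℝ (ee s) x : ℝ) = hS K s ∧ (inner ℝ (ff b) x : ℝ) = GG K b s := by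
  obtain ⟨x, hx, h1, h2, -⟩ := exists_top hK.comp (Body.ne hK) s
  refine ⟨x, hx, h1, ?_⟩
  rw [frame b s x, h1, h2, GG]
  ring

theorem GG_rc {K : Set E2} (hK : Body K) (b t : ℝ) : ContinuousWithinAt (GG K b) (Ici t) t := by
  obtain ⟨M, hM⟩ := hS_lip hK.comp (Body.ne hK)
  have h1 := rS_rc hK.comp (Body.ne hK) t
  have h2 : ContinuousWithinAt (fun s => Real.cos (b - s)) (Ici t) t := by fun_prop
  have h3 : ContinuousWithinAt (fun s => Real.sin (b - s)) (Ici t) t := by fun_prop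
  exact (h1.mul h2).sub (hM.continuous.continuousWithinAt.mul h3)

theorem claim {K : Set E2} (hK : Body K) {a b : ℝ} (hab : a ≤ b) :
    Ioc (GG K b a) (GG K b b) ⊆ (fun x : E2 => (inner ℝ (ff b) x : ℝ)) '' tau K a b := by
  intro y hy
  obtain ⟨M, hM⟩ := hS_lip hK.comp (Body.ne hK)
  set S : Set ℝ := {s | s ∈ Icc a b ∧ y ≤ GG K b s} with hSdef
  have hbS : b ∈ S := ⟨⟨hab, le_rfl⟩, hy.2⟩
  have hSb : BddBelow S := ⟨a, fun s hs => hs.1.1⟩
  set t := sInf S with ht
  have hat : a ≤ t := le_csInf ⟨b, hbS⟩ fun s hs => hs.1.1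
  have htb : t ≤ b := csInf_le hSb hbS
  have hlow : ∀ s ∈ Ico a t, GG K b s < y := by
    intro s hs
    by_contra hcon
    push Not at hcon
    exact not_lt.2 (csInf_le hSb ⟨⟨hs.1, hs.2.le.trans htb⟩, hcon⟩) hs.2
  have hGt : y ≤ GG K b t := by
    by_contra hcon
    push Not at hcon
    have h1 : ∀ᶠ s in nhdsWithin t (Ici t), GG K b s < y :=
      (GG_rc hK b t).tendsto.eventually (gt_mem_nhds hcon)
    obtain ⟨ε, hε, hε'⟩ := Metric.mem_nhdsWithin_iff.1 h1
    have h2 : t + ε ≤ t := by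
      refine le_csInf ⟨b, hbS⟩ fun s hs => ?_
      by_contra hcon2
      push Not at hcon2
      have hts : t ≤ s := csInf_le hSb hs
      have h3 : s ∈ Metric.ball t ε ∩ Ici t := by
        refine ⟨?_, hts⟩
        rw [Metric.mem_ball, Real.dist_eq, abs_of_nonneg (by linarith)]
        linarith
      exact not_lt.2 hs.2 (hε' h3)
    linarith
  have hat' : a < t := by
    rcases hat.lt_or_eq with h | h
    · exact h
    · rw [← h] at hGt
      exact absurd hy.1 (not_lt.2 hGt)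
  -- left limit
  have hx : ∀ n : ℕ, ∃ x ∈ K, (inner ℝ (ee (t - (t - a) / ((n : ℝ) + 1))) x : ℝ) =
      hS K (t - (t - a) / ((n : ℝ) + 1)) ∧ (inner ℝ (ff b) x : ℝ) ≤ y := by
    intro n
    obtain ⟨x, hx, h1, h2⟩ := exists_GG hK b (t - (t - a) / ((n : ℝ) + 1))
    refine ⟨x, hx, h1, ?_⟩
    rw [h2]
    have hn : (0 : ℝ) < (n : ℝ) + 1 := by positivity
    refine (hlow _ ⟨?_, ?_⟩).le
    · have : (t - a) / ((n : ℝ) + 1) ≤ t - a :=
        div_le_self (by linarith) (by linarith [(Nat.cast_nonneg n : (0 : ℝ) ≤ n)])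
      linarith
    · have : 0 < (t - a) / ((n : ℝ) + 1) := div_pos (by linarith) hn
      linarith
  choose u huK hu1 hu2 using hx
  obtain ⟨P, hPK, φ, hφ, hlim⟩ := hK.comp.tendsto_subseq huK
  have hs : Filter.Tendsto (fun n : ℕ => t - (t - a) / ((n : ℝ) + 1)) Filter.atTop (nhds t) := by
    have h := (tendsto_const_nhds (x := t)).sub
      ((tendsto_one_div_add_atTop_nhds_zero_nat (𝕜 := ℝ)).const_mul (t - a))
    rw [mul_zero, sub_zero] at h
    refine h.congr fun n => ?_
    ring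
  have hs' := hs.comp hφ.tendsto_atTop
  have hcont : Continuous fun q : E2 × ℝ => (inner ℝ (ee q.2) q.1 : ℝ) := by
    have : (fun q : E2 × ℝ => (inner ℝ (ee q.2) q.1 : ℝ)) =
        fun q : E2 × ℝ => Real.cos q.2 * q.1 0 + Real.sin q.2 * q.1 1 := by
      funext q
      exact SuppAux.inner_ee _ _
    rw [this]
    have c0 : Continuous fun q : E2 × ℝ => q.1 0 := (SuppAux.cont_coord 0).comp continuous_fst
    have c1 : Continuous fun q : E2 × ℝ => q.1 1 := (SuppAux.cont_coord 1).comp continuous_fst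
    exact ((Real.continuous_cos.comp continuous_snd).mul c0).add
      ((Real.continuous_sin.comp continuous_snd).mul c1)
  have hP1 : (inner ℝ (ee t) P : ℝ) = hS K t := by
    have l1 := (hcont.tendsto (P, t)).comp (hlim.prodMk_nhds hs')
    have l2 := (hM.continuous.tendsto t).comp hs'
    refine tendsto_nhds_unique l1 (l2.congr fun n => ?_)
    exact (hu1 (φ n)).symm
  have hP2 : (inner ℝ (ff b) P : ℝ) ≤ y := by
    have l1 := ((SuppAux.cont_inner_ff b).tendsto P).comp hlim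
    exact le_of_tendsto' l1 fun n => hu2 (φ n)
  obtain ⟨Q, hQK, hQ1, hQ2⟩ := exists_GG hK b t
  have hQ3 : y ≤ (inner ℝ (ff b) Q : ℝ) := by rw [hQ2]; exact hGt
  have hseg : ∃ x ∈ segment ℝ P Q, (inner ℝ (ff b) x : ℝ) = y := by
    have hc : ContinuousOn (fun x : E2 => (inner ℝ (ff b) x : ℝ)) (segment ℝ P Q) :=
      (SuppAux.cont_inner_ff b).continuousOn
    have hpc : IsPreconnected (segment ℝ P Q) := (convex_segment P Q).isPreconnected
    obtain ⟨x, hx, hxy⟩ := hpc.intermediate_value (left_mem_segment ℝ P Q)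
      (right_mem_segment ℝ P Q) hc ⟨hP2, hQ3⟩
    exact ⟨x, hx, hxy⟩
  obtain ⟨x, hxs, hxy⟩ := hseg
  refine ⟨x, ⟨hK.conv.segment_subset hPK hQK hxs, t, ⟨hat', htb⟩, ?_⟩, hxy⟩
  obtain ⟨α, β, hα, hβ, hαβ, rfl⟩ := hxs
  rw [inner_add_right, inner_smul_right, inner_smul_right, hP1, hQ1, ← add_mul, hαβ, one_mul]

end Tau2Aux

open Tau2Aux in
theorem tau_lower {K : Set E2} (hK : Body K) {a b : ℝ} (hab : a ≤ b) (hlt : b - a < π / 2) :
    ENNReal.ofReal (Real.cos (b - a)) * sigS K (Ioc a b) ≤ μH[1] (tau K a b) := by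
  have hne := Body.ne hK
  have hlf := sigS_lf K
  have hcos : 0 ≤ Real.cos (b - a) :=
    Real.cos_nonneg_of_neg_pi_div_two_le_of_le (by linarith [Real.pi_pos]) hlt.le
  have hfin : sigS K (Ioc a b) ≠ ∞ := by
    rw [sigS_Ioc hK.comp hne hab]
    exact ENNReal.ofReal_ne_top
  have h1 : Real.cos (b - a) * (sigS K).real (Ioc a b) ≤ GG K b b - GG K b a := by
    have e := sig_cos hK.comp hne hab
    have e2 : GG K b b - GG K b a =
        rS K b - rS K a * Real.cos (b - a) + hS K a * Real.sin (b - a) := by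
      simp [GG]
      ring
    rw [e2, ← e]
    have e3 : Real.cos (b - a) * (sigS K).real (Ioc a b) =
        ∫ x in Ioc a b, Real.cos (b - a) ∂(sigS K) := by
      rw [setIntegral_const, smul_eq_mul, mul_comm]
    rw [e3]
    refine setIntegral_mono_on ?_ ?_ measurableSet_Ioc ?_
    · exact integrableOn_const hfin
    · have : ContinuousOn (fun x => Real.cos (b - x)) (Icc a b) := by fun_prop
      exact (this.integrableOn_Icc).mono_set Ioc_subset_Icc_self
    · intro x hx
      exact Real.cos_le_cos_of_nonneg_of_le_pi (by linarith [hx.2])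
        (by linarith [Real.pi_pos]) (by linarith [hx.1])
  calc ENNReal.ofReal (Real.cos (b - a)) * sigS K (Ioc a b)
      = ENNReal.ofReal (Real.cos (b - a) * (sigS K).real (Ioc a b)) := by
        rw [ENNReal.ofReal_mul hcos, measureReal_def, ENNReal.ofReal_toReal hfin]
    _ ≤ ENNReal.ofReal (GG K b b - GG K b a) := ENNReal.ofReal_le_ofReal h1
    _ = volume (Ioc (GG K b a) (GG K b b)) := Real.volume_Ioc.symm
    _ = μH[1] (Ioc (GG K b a) (GG K b b)) := by rw [hausdorffMeasure_real]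
    _ ≤ μH[1] ((fun x : E2 => (inner ℝ (ff b) x : ℝ)) '' tau K a b) := measure_mono (claim hK hab)
    _ ≤ μH[1] (tau K a b) := by
        have h := (lip_pi b).hausdorffMeasure_image_le zero_le_one (tau K a b)
        simpa using h

end Pool.Agent.MP9dd972
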