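import Mathlib
import Pool.Agent.Lib.MP_9dd972_gt.Defs
import Pool.Agent.Lib.MP_9dd972_gt.Supp
import Pool.Agent.Lib.MP_9dd972_gt.Stj
import Pool.Agent.Lib.MP_9dd972_gt.Sibp
import Pool.Agent.Lib.MP_9dd972_gt.Tau2

/-!
# MP_9dd972_gt, planar case, module TAU1: H^1 of a boundary arc, upper bound
-/

set_option autoImplicit false

namespace Pool.Agent.MP9dd972

open MeasureTheory Set
open scoped ENNReal NNReal Real

namespace Tau1Aux

open Tau2Aux

theorem frame_e (b s : ℝ) (x : E2) : (inner ℝ (ee s) x : ℝ) =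
    Real.cos (b - s) * inner ℝ (ee b) x - Real.sin (b - s) * inner ℝ (ff b) x := by
  rw [SuppAux.inner_ff, SuppAux.inner_ee, SuppAux.inner_ee, Real.sin_sub, Real.cos_sub]
  have hcs := Real.sin_sq_add_cos_sq b
  linear_combination -(Real.cos s * x 0 + Real.sin s * x 1) * hcs

theorem norm_sq_frame (b : ℝ) (x : E2) : ‖x‖ ^ 2 =
    (inner ℝ (ee b) x : ℝ) ^ 2 + (inner ℝ (ff b) x : ℝ) ^ 2 := by
  rw [SuppAux.inner_ff, SuppAux.inner_ee, EuclideanSpace.norm_sq_eq, Fin.sum_univ_two,
    Real.norm_eq_abs, Real.norm_eq_abs, sq_abs, sq_abs]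
  have hcs := Real.sin_sq_add_cos_sq b
  linear_combination -(x 0 ^ 2 + x 1 ^ 2) * hcs

/-- The two inequalities for a pair of points with normals `s ≤ t`. -/
theorem pair {K : Set E2} (hK : Body K) {x y : E2} (hx : x ∈ K) (hy : y ∈ K) {s t : ℝ} (b : ℝ)
    (hs : (inner ℝ (ee s) x : ℝ) = hS K s) (ht : (inner ℝ (ee t) y : ℝ) = hS K t) :
    (inner ℝ (ee b) (y - x) : ℝ) * Real.cos (b - s) ≤ inner ℝ (ff b) (y - x) * Real.sin (b - s) ∧
    (inner ℝ (ff b) (y - x) : ℝ) * Real.sin (b - t) ≤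
      inner ℝ (ee b) (y - x) * Real.cos (b - t) := by
  have h1 : (inner ℝ (ee s) (y - x) : ℝ) ≤ 0 := by
    rw [inner_sub_right, hs]
    linarith [inner_le_hS hK.comp hy s]
  have h2 : 0 ≤ (inner ℝ (ee t) (y - x) : ℝ) := by
    rw [inner_sub_right, ht]
    linarith [inner_le_hS hK.comp hx t]
  rw [frame_e b s] at h1
  rw [frame_e b t] at h2
  constructor <;> linarith

/-- elementary inequality -/
theorem elem {α β p q d : ℝ} (hq : 0 ≤ q) (hqp : q ≤ p) (hpd : p ≤ d) (hd : d < π / 2)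
    (h1 : α * Real.cos p ≤ β * Real.sin p) (h2 : β * Real.sin q ≤ α * Real.cos q) :
    (Real.cos d) ^ 2 * (α ^ 2 + β ^ 2) ≤ β ^ 2 := by
  have hpi := Real.pi_pos
  have cp : 0 < Real.cos p := Real.cos_pos_of_mem_Ioo ⟨by linarith, by linarith⟩
  have cq : 0 < Real.cos q := Real.cos_pos_of_mem_Ioo ⟨by linarith, by linarith⟩
  have cd : 0 < Real.cos d := Real.cos_pos_of_mem_Ioo ⟨by linarith, by linarith⟩
  have sp : 0 ≤ Real.sin p := Real.sin_nonneg_of_nonneg_of_le_pi (by linarith) (by linarith)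
  have sq' : 0 ≤ Real.sin q := Real.sin_nonneg_of_nonneg_of_le_pi (by linarith) (by linarith)
  have sd : 0 ≤ Real.sin d := Real.sin_nonneg_of_nonneg_of_le_pi (by linarith) (by linarith)
  have hdp : 0 ≤ Real.sin d * Real.cos p - Real.cos d * Real.sin p := by
    rw [← Real.sin_sub]
    exact Real.sin_nonneg_of_nonneg_of_le_pi (by linarith) (by linarith)
  have hdq : 0 ≤ Real.sin d * Real.cos q - Real.cos d * Real.sin q := by
    rw [← Real.sin_sub]
    exact Real.sin_nonneg_of_nonneg_of_le_pi (by linarith) (by linarith)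
  have hcs := Real.sin_sq_add_cos_sq d
  have key : |α| * Real.cos d ≤ |β| * Real.sin d := by
    rcases le_or_gt 0 β with hβ | hβ
    · have hα : 0 ≤ α := by
        by_contra hcon
        push Not at hcon
        have : α * Real.cos q < 0 := mul_neg_of_neg_of_pos hcon cq
        have : 0 ≤ β * Real.sin q := mul_nonneg hβ sq'
        linarith
      rw [abs_of_nonneg hα, abs_of_nonneg hβ]
      have h3 : (α * Real.cos d) * Real.cos p ≤ (β * Real.sin d) * Real.cos p := by
        calc (α * Real.cos d) * Real.cos p = (α * Real.cos p) * Real.cos d := by ring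
          _ ≤ (β * Real.sin p) * Real.cos d := mul_le_mul_of_nonneg_right h1 cd.le
          _ ≤ (β * Real.sin d) * Real.cos p := by
              have := mul_nonneg hβ hdp
              nlinarith
      exact le_of_mul_le_mul_right h3 cp
    · have hα : α ≤ 0 := by
        by_contra hcon
        push Not at hcon
        have : 0 < α * Real.cos p := mul_pos hcon cp
        have : β * Real.sin p ≤ 0 := mul_nonpos_of_nonpos_of_nonneg hβ.le sp
        linarith
      rw [abs_of_nonpos hα, abs_of_neg hβ]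
      have h3 : (-α * Real.cos d) * Real.cos q ≤ (-β * Real.sin d) * Real.cos q := by
        calc (-α * Real.cos d) * Real.cos q = (-(α * Real.cos q)) * Real.cos d := by ring
          _ ≤ (-(β * Real.sin q)) * Real.cos d := mul_le_mul_of_nonneg_right (by linarith) cd.le
          _ ≤ (-β * Real.sin d) * Real.cos q := by
              have := mul_nonneg (neg_nonneg.2 hβ.le) hdq
              nlinarith
      exact le_of_mul_le_mul_right h3 cq
  have hsq : (|α| * Real.cos d) ^ 2 ≤ (|β| * Real.sin d) ^ 2 :=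
    pow_le_pow_left₀ (mul_nonneg (abs_nonneg _) cd.le) key 2
  rw [mul_pow, mul_pow, sq_abs, sq_abs] at hsq
  nlinarith

/-- `pi` expands `tau` by at least `cos`. -/
theorem anti {K : Set E2} (hK : Body K) {a b : ℝ} (hab : a ≤ b) (hlt : b - a < π / 2)
    {x y : E2} (hx : x ∈ tau K a b) (hy : y ∈ tau K a b) :
    Real.cos (b - a) * dist x y ≤ |(inner ℝ (ff b) x : ℝ) - inner ℝ (ff b) y| := by
  have hpi := Real.pi_pos
  have hc : 0 ≤ Real.cos (b - a) :=
    Real.cos_nonneg_of_neg_pi_div_two_le_of_le (by linarith) hlt.le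
  have main : ∀ x y : E2, ∀ s t : ℝ, x ∈ K → y ∈ K → s ∈ Ioc a b → t ∈ Ioc a b → s ≤ t →
      (inner ℝ (ee s) x : ℝ) = hS K s → (inner ℝ (ee t) y : ℝ) = hS K t →
      Real.cos (b - a) * dist x y ≤ |(inner ℝ (ff b) x : ℝ) - inner ℝ (ff b) y| := by
    intro x y s t hx hy hs ht hst hxs hyt
    obtain ⟨h1, h2⟩ := pair hK hx hy b hxs hyt
    have h3 := elem (by linarith [ht.2] : 0 ≤ b - t) (by linarith : b - t ≤ b - s)
      (by linarith [hs.1] : b - s ≤ b - a) hlt h1 h2
    rw [← norm_sq_frame, ← mul_pow] at h3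
    have h4 := sq_le_sq.1 h3
    rw [abs_of_nonneg (mul_nonneg hc (norm_nonneg _)), inner_sub_right] at h4
    rw [dist_comm, dist_eq_norm, abs_sub_comm]
    exact h4
  obtain ⟨hxK, s, hs, hxs⟩ := hx
  obtain ⟨hyK, t, ht, hyt⟩ := hy
  rcases le_total s t with hst | hst
  · exact main x y s t hxK hyK hs ht hst hxs hyt
  · rw [dist_comm, abs_sub_comm]
    exact main y x t s hyK hxK ht hs hst hyt hxs

theorem beta_nonneg {K : Set E2} (hK : Body K) {x y : E2} (hx : x ∈ K) (hy : y ∈ K)
    {a b s t : ℝ} (has : a ≤ s) (hst : s < t) (htb : t ≤ b) (hlt : b - a < π / 2)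
    (hs : (inner ℝ (ee s) x : ℝ) = hS K s) (ht : (inner ℝ (ee t) y : ℝ) = hS K t) :
    (inner ℝ (ff b) x : ℝ) ≤ inner ℝ (ff b) y := by
  have hpi := Real.pi_pos
  obtain ⟨h1, h2⟩ := pair hK hx hy b hs ht
  have cs : 0 < Real.cos (b - s) := Real.cos_pos_of_mem_Ioo ⟨by linarith, by linarith⟩
  have ct : 0 < Real.cos (b - t) := Real.cos_pos_of_mem_Ioo ⟨by linarith, by linarith⟩
  have hsin : 0 < Real.sin (b - s) * Real.cos (b - t) - Real.cos (b - s) * Real.sin (b - t) := by
    rw [← Real.sin_sub]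
    exact Real.sin_pos_of_pos_of_lt_pi (by linarith) (by linarith)
  have h3 := mul_le_mul_of_nonneg_right h1 ct.le
  have h4 := mul_le_mul_of_nonneg_right h2 cs.le
  have h5 : 0 ≤ (inner ℝ (ff b) (y - x) : ℝ) *
      (Real.sin (b - s) * Real.cos (b - t) - Real.cos (b - s) * Real.sin (b - t)) := by
    nlinarith
  have h6 : 0 ≤ (inner ℝ (ff b) (y - x) : ℝ) := by
    by_contra hcon
    push Not at hcon
    have := mul_neg_of_neg_of_pos hcon hsin
    linarith
  rw [inner_sub_right] at h6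
  linarith

theorem range_sub {K : Set E2} (hK : Body K) {a b : ℝ} (hlt : b - a < π / 2) :
    (fun x : E2 => (inner ℝ (ff b) x : ℝ)) '' tau K a b ⊆ Icc (GG K b a) (GG K b b) := by
  rintro _ ⟨x, ⟨hx, t, ht, hxt⟩, rfl⟩
  obtain ⟨p, hp, hp1, hp2⟩ := exists_GG hK b a
  constructor
  · rw [← hp2]
    exact beta_nonneg hK hp hx le_rfl ht.1 ht.2 hlt hp1 hxt
  · rcases ht.2.lt_or_eq with htb | htb
    · obtain ⟨q, hq, hq1, hq2⟩ := exists_GG hK b b
      rw [← hq2]
      exact beta_nonneg hK hx hq ht.1.le htb le_rfl hlt hxt hq1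
    · obtain ⟨q, hq, hq1, hq2, hq3⟩ := exists_top hK.comp (Body.ne hK) b
      rw [htb] at hxt
      have e : GG K b b = rS K b := by simp [GG]
      rw [e]
      exact hq3 x hx hxt

end Tau1Aux

open Tau1Aux Tau2Aux in
theorem tau_upper {K : Set E2} (hK : Body K) {a b : ℝ} (hab : a ≤ b) (hlt : b - a < π / 2) :
    ENNReal.ofReal (Real.cos (b - a)) * μH[1] (tau K a b) ≤ sigS K (Ioc a b) := by
  have hpi := Real.pi_pos
  have hne := Body.ne hK
  have hlf := sigS_lf K
  have hcos : 0 < Real.cos (b - a) := Real.cos_pos_of_mem_Ioo ⟨by linarith, by linarith⟩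
  have hfin : sigS K (Ioc a b) ≠ ∞ := by
    rw [sigS_Ioc hK.comp hne hab]
    exact ENNReal.ofReal_ne_top
  have h1 : GG K b b - GG K b a ≤ (sigS K).real (Ioc a b) := by
    have e := sig_cos hK.comp hne hab
    have e2 : GG K b b - GG K b a =
        rS K b - rS K a * Real.cos (b - a) + hS K a * Real.sin (b - a) := by
      simp [GG]
      ring
    rw [e2, ← e]
    have e3 : (sigS K).real (Ioc a b) = ∫ x in Ioc a b, (1 : ℝ) ∂(sigS K) := by
      rw [setIntegral_const, smul_eq_mul, mul_one]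
    rw [e3]
    refine setIntegral_mono_on ?_ ?_ measurableSet_Ioc ?_
    · have : ContinuousOn (fun x => Real.cos (b - x)) (Icc a b) := by fun_prop
      exact (this.integrableOn_Icc).mono_set Ioc_subset_Icc_self
    · exact integrableOn_const hfin
    · intro x hx
      exact Real.cos_le_one _
  set f : E2 → ℝ := fun x : E2 => (inner ℝ (ff b) x : ℝ) with hf
  set g : ℝ → E2 := Function.invFunOn f (tau K a b) with hg
  have hgf : ∀ x ∈ tau K a b, g (f x) = x := by
    intro x hx
    have hex : ∃ y ∈ tau K a b, f y = f x := ⟨x, hx, rfl⟩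
    have h2 : g (f x) ∈ tau K a b := Function.invFunOn_mem hex
    have h3 : f (g (f x)) = f x := Function.invFunOn_eq hex
    have h4 := anti hK hab hlt h2 hx
    rw [show (inner ℝ (ff b) (g (f x)) : ℝ) = f (g (f x)) from rfl, h3, sub_self, abs_zero] at h4
    have h5 : dist (g (f x)) x ≤ 0 := by
      by_contra hcon
      push Not at hcon
      have := mul_pos hcos hcon
      linarith
    exact dist_le_zero.1 h5
  have hlip : LipschitzOnWith (Real.toNNReal (Real.cos (b - a))⁻¹) g (f '' tau K a b) := by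
    refine LipschitzOnWith.of_dist_le_mul ?_
    rintro _ ⟨x, hx, rfl⟩ _ ⟨y, hy, rfl⟩
    rw [hgf x hx, hgf y hy, Real.coe_toNNReal _ (inv_nonneg.2 hcos.le), Real.dist_eq]
    have h4 := anti hK hab hlt hx hy
    rw [← div_eq_inv_mul, le_div_iff₀ hcos]
    linarith
  have himg : g '' (f '' tau K a b) = tau K a b := by
    rw [image_image]
    ext x
    constructor
    · rintro ⟨y, hy, rfl⟩
      show g (f y) ∈ tau K a b
      rw [hgf y hy]
      exact hy
    · intro hx
      exact ⟨x, hx, hgf x hx⟩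
  have h6 := hlip.hausdorffMeasure_image_le zero_le_one
  rw [himg, ENNReal.rpow_one] at h6
  calc ENNReal.ofReal (Real.cos (b - a)) * μH[1] (tau K a b)
      ≤ ENNReal.ofReal (Real.cos (b - a)) *
        (((Real.toNNReal (Real.cos (b - a))⁻¹ : ℝ≥0) : ℝ≥0∞) * μH[1] (f '' tau K a b)) := by
        gcongr
    _ = (ENNReal.ofReal (Real.cos (b - a)) * ENNReal.ofReal (Real.cos (b - a))⁻¹) *
        μH[1] (f '' tau K a b) := by rw [mul_assoc]; rfl
    _ = μH[1] (f '' tau K a b) := by
        rw [← ENNReal.ofReal_mul hcos.le, mul_inv_cancel₀ hcos.ne', ENNReal.ofReal_one, one_mul]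
    _ ≤ μH[1] (Icc (GG K b a) (GG K b b)) := measure_mono (range_sub hK hlt)
    _ = ENNReal.ofReal (GG K b b - GG K b a) := by rw [hausdorffMeasure_real, Real.volume_Icc]
    _ ≤ ENNReal.ofReal ((sigS K).real (Ioc a b)) := ENNReal.ofReal_le_ofReal h1
    _ = sigS K (Ioc a b) := by rw [measureReal_def, ENNReal.ofReal_toReal hfin]

end Pool.Agent.MP9dd972
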