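import Mathlib
import Pool.Agent.Lib.MP_9dd972_gt.Defs
import Pool.Agent.Lib.MP_9dd972_gt.Supp

/-!
# MP_9dd972_gt, planar case, module TAU3: measurability, additivity and normals of boundary arcs
-/

set_option autoImplicit false

namespace Pool.Agent.MP9dd972

open MeasureTheory Set
open scoped ENNReal NNReal Real

namespace Tau3Aux

theorem Body.ne {K : Set E2} (hK : Body K) : K.Nonempty := ⟨0, interior_subset hK.zero⟩

theorem ee_add_pi (t : ℝ) : ee (t + π) = -ee t := by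
  ext i
  fin_cases i <;> simp [ee]

theorem norm_ee (t : ℝ) : ‖ee t‖ = 1 := by
  rw [EuclideanSpace.norm_eq]
  simp [ee, Fin.sum_univ_two]

theorem hS_pos' {K : Set E2} (hK : Body K) (t : ℝ) : 0 < hS K t := by
  obtain ⟨r, hr, hrK⟩ := Metric.isOpen_iff.1 isOpen_interior 0 hK.zero
  have hmem : (r / 2) • ee t ∈ K := by
    apply interior_subset
    apply hrK
    rw [mem_ball_zero_iff, norm_smul, norm_ee, mul_one, Real.norm_eq_abs, abs_of_pos (by linarith)]
    linarith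
  have h := inner_le_hS hK.comp hmem t
  rw [inner_smul_right, real_inner_self_eq_norm_sq, norm_ee] at h
  linarith

theorem normal_iff {K : Set E2} (hK : Body K) {x : E2} (hx : x ∈ K) (t : ℝ) :
    (∀ y ∈ K, inner ℝ (ee t) (y - x) ≤ 0) ↔ (inner ℝ (ee t) x : ℝ) = hS K t := by
  constructor
  · intro h
    obtain ⟨z, hz, hz1, -⟩ := exists_top hK.comp (Body.ne hK) t
    have h1 := h z hz
    rw [inner_sub_right] at h1
    have h2 := inner_le_hS hK.comp hx t
    linarith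
  · intro h y hy
    rw [inner_sub_right, h]
    linarith [inner_le_hS hK.comp hy t]

/-- `x` is the last point of the face of direction `ee t`. -/
def Last (K : Set E2) (t : ℝ) (x : E2) : Prop :=
  x ∈ K ∧ (inner ℝ (ee t) x : ℝ) = hS K t ∧
    ∀ y ∈ K, (inner ℝ (ee t) y : ℝ) = hS K t → (inner ℝ (ff t) y : ℝ) ≤ inner ℝ (ff t) x

theorem eq_of_inner {t : ℝ} {x y : E2} (h1 : (inner ℝ (ee t) x : ℝ) = inner ℝ (ee t) y)
    (h2 : (inner ℝ (ff t) x : ℝ) = inner ℝ (ff t) y) : x = y := by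
  rw [SuppAux.inner_ee, SuppAux.inner_ee] at h1
  rw [SuppAux.inner_ff, SuppAux.inner_ff] at h2
  have hcs := Real.sin_sq_add_cos_sq t
  ext i
  fin_cases i
  · show x 0 = y 0
    linear_combination Real.cos t * h1 - Real.sin t * h2 - (x 0 - y 0) * hcs
  · show x 1 = y 1
    linear_combination Real.sin t * h1 + Real.cos t * h2 - (x 1 - y 1) * hcs

theorem Last.unique {K : Set E2} {t : ℝ} {x y : E2} (hx : Last K t x) (hy : Last K t y) :
    x = y :=
  eq_of_inner (hx.2.1.trans hy.2.1.symm)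
    (le_antisymm (hy.2.2 x hx.1 hx.2.1) (hx.2.2 y hy.1 hy.2.1))

theorem last_of_normals {K : Set E2} (hK : Body K) {x : E2} (hx : x ∈ K) {s t₀ t : ℝ}
    (hs : (inner ℝ (ee s) x : ℝ) = hS K s) (ht : (inner ℝ (ee t) x : ℝ) = hS K t)
    (h1 : s ≤ t₀) (h2 : t₀ < t) (h3 : t - s < π) : Last K t₀ x := by
  have hsin : 0 < Real.sin (t - s) := Real.sin_pos_of_pos_of_lt_pi (by linarith) h3
  have hsin' : 0 < Real.sin (t - t₀) := Real.sin_pos_of_pos_of_lt_pi (by linarith) (by linarith)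
  have e0 : (inner ℝ (ee t₀) x : ℝ) = hS K t₀ := by
    apply le_antisymm (inner_le_hS hK.comp hx t₀)
    have h := hS_tc hK.comp (Body.ne hK) h1 h2.le h3.le
    rw [← hs, ← ht] at h
    have e : (inner ℝ (ee s) x : ℝ) * Real.sin (t - t₀) + inner ℝ (ee t) x * Real.sin (t₀ - s) =
        inner ℝ (ee t₀) x * Real.sin (t - s) := by
      rw [SuppAux.inner_ee, SuppAux.inner_ee, SuppAux.inner_ee, Real.sin_sub, Real.sin_sub,
        Real.sin_sub]
      ring
    rw [e] at h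
    exact le_of_mul_le_mul_right h hsin
  refine ⟨hx, e0, fun y hy hy0 => ?_⟩
  have hdec : ∀ z : E2, (inner ℝ (ee t) z : ℝ) =
      Real.cos (t - t₀) * inner ℝ (ee t₀) z + Real.sin (t - t₀) * inner ℝ (ff t₀) z := by
    intro z
    rw [SuppAux.inner_ee, SuppAux.inner_ee, SuppAux.inner_ff, Real.sin_sub, Real.cos_sub]
    have hcs := Real.sin_sq_add_cos_sq t₀
    linear_combination -(Real.cos t * z 0 + Real.sin t * z 1) * hcs
  have h := inner_le_hS hK.comp hy t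
  rw [← ht, hdec y, hdec x, hy0, e0] at h
  have h' : Real.sin (t - t₀) * inner ℝ (ff t₀) y ≤ Real.sin (t - t₀) * inner ℝ (ff t₀) x := by
    linarith
  exact le_of_mul_le_mul_left h' hsin'

theorem exists_angle {u : E2} (hu : u ∈ Metric.sphere (0 : E2) 1) : ∃ θ : ℝ, u = ee θ := by
  rw [mem_sphere_zero_iff_norm, EuclideanSpace.norm_eq] at hu
  have h1 : (u 0) ^ 2 + (u 1) ^ 2 = 1 := by
    have := congrArg (fun r : ℝ => r ^ 2) hu
    simp only [Fin.sum_univ_two, Real.norm_eq_abs, sq_abs] at this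
    rw [Real.sq_sqrt (by positivity)] at this
    simpa using this
  set z : ℂ := ⟨u 0, u 1⟩ with hz
  have hn : ‖z‖ = 1 := by
    rw [Complex.norm_def, Complex.normSq_apply, hz]
    simp only
    rw [show u 0 * u 0 + u 1 * u 1 = 1 by linarith [h1, sq (u 0), sq (u 1)]]
    exact Real.sqrt_one
  have hz0 : z ≠ 0 := by
    intro h
    rw [h, norm_zero] at hn
    exact zero_ne_one hn
  refine ⟨Complex.arg z, ?_⟩
  ext i
  fin_cases i
  · show u 0 = Real.cos (Complex.arg z)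
    rw [Complex.cos_arg hz0, hn, div_one]
  · show u 1 = Real.sin (Complex.arg z)
    rw [Complex.sin_arg, hn, div_one]

theorem exists_angle' {u : E2} (hu : u ∈ Metric.sphere (0 : E2) 1) (s : ℝ) :
    ∃ t ∈ Ioc (s - π) (s + π), u = ee t := by
  obtain ⟨θ, rfl⟩ := exists_angle hu
  have hp : (0 : ℝ) < 2 * π := Real.two_pi_pos
  refine ⟨toIocMod hp (s - π) θ, ?_, ?_⟩
  · have := toIocMod_mem_Ioc hp (s - π) θ
    refine ⟨this.1, this.2.trans (by linarith)⟩
  · have h := self_sub_toIocDiv_zsmul hp (s - π) θ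
    rw [← h, zsmul_eq_mul]
    ext i
    fin_cases i
    · show Real.cos θ = Real.cos (θ - _ * (2 * π))
      rw [Real.cos_sub_int_mul_two_pi]
    · show Real.sin θ = Real.sin (θ - _ * (2 * π))
      rw [Real.sin_sub_int_mul_two_pi]

theorem closed_part {K : Set E2} (hK : Body K) (c b : ℝ) :
    IsCompact {x | x ∈ K ∧ ∃ t ∈ Icc c b, (inner ℝ (ee t) x : ℝ) = hS K t} := by
  obtain ⟨M, hM⟩ := hS_lip hK.comp (Body.ne hK)
  have hcont : Continuous fun q : E2 × ℝ => (inner ℝ (ee q.2) q.1 : ℝ) := by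
    have : (fun q : E2 × ℝ => (inner ℝ (ee q.2) q.1 : ℝ)) =
        fun q : E2 × ℝ => Real.cos q.2 * q.1 0 + Real.sin q.2 * q.1 1 := by
      funext q
      exact SuppAux.inner_ee _ _
    rw [this]
    have c0 : Continuous fun q : E2 × ℝ => q.1 0 := (SuppAux.cont_coord 0).comp continuous_fst
    have c1 : Continuous fun q : E2 × ℝ => q.1 1 := (SuppAux.cont_coord 1).comp continuous_fst
    exact ((Real.continuous_cos.comp continuous_snd).mul c0).add
      ((Real.continuous_sin.comp continuous_snd).mul c1)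
  have hcl : IsClosed {q : E2 × ℝ | (inner ℝ (ee q.2) q.1 : ℝ) = hS K q.2} :=
    isClosed_eq hcont (hM.continuous.comp continuous_snd)
  have hc : IsCompact ((K ×ˢ Icc c b) ∩ {q : E2 × ℝ | (inner ℝ (ee q.2) q.1 : ℝ) = hS K q.2}) :=
    (hK.comp.prod isCompact_Icc).inter_right hcl
  have himg := hc.image continuous_fst
  have e : Prod.fst '' ((K ×ˢ Icc c b) ∩ {q : E2 × ℝ | (inner ℝ (ee q.2) q.1 : ℝ) = hS K q.2}) =
      {x | x ∈ K ∧ ∃ t ∈ Icc c b, (inner ℝ (ee t) x : ℝ) = hS K t} := by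
    ext x
    constructor
    · rintro ⟨⟨y, t⟩, ⟨⟨hy, ht⟩, h⟩, rfl⟩
      exact ⟨hy, t, ht, h⟩
    · rintro ⟨hx, t, ht, h⟩
      exact ⟨(x, t), ⟨⟨hx, ht⟩, h⟩, rfl⟩
  rwa [e] at himg

end Tau3Aux

open Tau3Aux

theorem tau_meas {K : Set E2} (hK : Body K) (a b : ℝ) : MeasurableSet (tau K a b) := by
  have e : tau K a b = ⋃ n : ℕ, {x | x ∈ K ∧ ∃ t ∈ Icc (a + 1 / ((n : ℝ) + 1)) b,
      (inner ℝ (ee t) x : ℝ) = hS K t} := by
    ext x
    rw [mem_iUnion]
    constructor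
    · rintro ⟨hx, t, ht, h⟩
      obtain ⟨n, hn⟩ := exists_nat_one_div_lt (sub_pos.2 ht.1)
      exact ⟨n, hx, t, ⟨by linarith, ht.2⟩, h⟩
    · rintro ⟨n, hx, t, ht, h⟩
      have : (0 : ℝ) < 1 / ((n : ℝ) + 1) := by positivity
      exact ⟨hx, t, ⟨by linarith [ht.1], ht.2⟩, h⟩
  rw [e]
  exact MeasurableSet.iUnion fun n => (closed_part hK _ b).measurableSet

theorem tau_union (K : Set E2) {a b c : ℝ} (hab : a ≤ b) (hbc : b ≤ c) :
    tau K a c = tau K a b ∪ tau K b c := by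
  ext x
  constructor
  · rintro ⟨hx, t, ht, h⟩
    rcases le_or_gt t b with htb | htb
    · exact Or.inl ⟨hx, t, ⟨ht.1, htb⟩, h⟩
    · exact Or.inr ⟨hx, t, ⟨htb, ht.2⟩, h⟩
  · rintro (⟨hx, t, ht, h⟩ | ⟨hx, t, ht, h⟩)
    · exact ⟨hx, t, ⟨ht.1, ht.2.trans hbc⟩, h⟩
    · exact ⟨hx, t, ⟨lt_of_le_of_lt hab ht.1, ht.2⟩, h⟩

theorem tau_inter {K : Set E2} (hK : Body K) {a b c : ℝ} (hab : a ≤ b) (hbc : b ≤ c)
    (hac : c - a < π) : (tau K a b ∩ tau K b c).Subsingleton := by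
  have key : ∀ x ∈ tau K a b ∩ tau K b c, Last K b x := by
    rintro x ⟨⟨hx, s, hs, hs'⟩, ⟨-, t, ht, ht'⟩⟩
    exact last_of_normals hK hx hs' ht' hs.2 ht.1 (by linarith [hs.1, ht.2])
  intro x hx y hy
  exact (key x hx).unique (key y hy)

theorem tau_normal {K : Set E2} (hK : Body K) {a b : ℝ} (hab : a < b) (hlt : b - a < π) :
    ∃ x₁ x₂ : E2, ∀ x ∈ tau K a b, x ≠ x₁ → x ≠ x₂ → ∀ u ∈ Metric.sphere (0 : E2) 1,
      (∀ y ∈ K, inner ℝ u (y - x) ≤ 0) → ∃ t ∈ Icc a b, u = ee t := by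
  have hlast : ∀ t : ℝ, ∃ x, Last K t x := by
    intro t
    obtain ⟨x, hx, h1, h2, h3⟩ := exists_top hK.comp (Body.ne hK) t
    exact ⟨x, hx, h1, fun y hy hy' => h2 ▸ h3 y hy hy'⟩
  obtain ⟨x₁, hx₁⟩ := hlast a
  obtain ⟨x₂, hx₂⟩ := hlast b
  refine ⟨x₁, x₂, ?_⟩
  rintro x ⟨hx, s, hs, hs'⟩ hne1 hne2 u hu hun
  obtain ⟨t, ht, rfl⟩ := exists_angle' hu s
  have hpi := Real.pi_pos
  have htn : (inner ℝ (ee t) x : ℝ) = hS K t := (normal_iff hK hx t).1 hun
  have htlt : t < s + π := by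
    refine lt_of_le_of_ne ht.2 fun heq => ?_
    have h0 := hun 0 (interior_subset hK.zero)
    rw [heq, ee_add_pi, inner_neg_left, inner_sub_right, inner_zero_right, hs'] at h0
    linarith [hS_pos' hK s]
  refine ⟨t, ⟨?_, ?_⟩, rfl⟩
  · by_contra hcon
    push Not at hcon
    exact hne1 ((last_of_normals hK hx htn hs' hcon.le hs.1 (by linarith [ht.1])).unique hx₁)
  · by_contra hcon
    push Not at hcon
    exact hne2 ((last_of_normals hK hx hs' htn hs.2 hcon (by linarith)).unique hx₂)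

end Pool.Agent.MP9dd972
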