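import Mathlib
import Pool.Agent.Lib.MP_9dd972_gt.Defs
import Pool.Agent.Lib.MP_9dd972_gt.Supp
import Pool.Agent.Lib.MP_9dd972_gt.Stj
import Pool.Agent.Lib.MP_9dd972_gt.Pol
import Pool.Agent.Lib.MP_9dd972_gt.Tau1
import Pool.Agent.Lib.MP_9dd972_gt.Tau2
import Pool.Agent.Lib.MP_9dd972_gt.Tau3

/-!
# MP_9dd972_gt, module LPSE: the L_p surface area measure of an arc
-/

set_option autoImplicit false

namespace Pool.Agent.MP9dd972

open MeasureTheory Set
open scoped ENNReal NNReal Real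

namespace LpseAux

/-- The integrand of `LpS`. -/
noncomputable def II (p : ℝ) (K : Set E2) (x : E2) : ℝ≥0∞ :=
  ⨅ (u : E2) (_ : u ∈ Metric.sphere (0 : E2) 1 ∧ ∀ y ∈ K, inner ℝ u (y - x) ≤ 0),
      ENNReal.ofReal (inner ℝ u x ^ (1 - p))

theorem ee_sphere (t : ℝ) : ee t ∈ Metric.sphere (0 : E2) 1 := by
  rw [mem_sphere_zero_iff_norm, EuclideanSpace.norm_eq]
  simp [ee, Fin.sum_univ_two]

theorem Body.ne {K : Set E2} (hK : Body K) : K.Nonempty := ⟨0, interior_subset hK.zero⟩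

theorem normal_iff {K : Set E2} (hK : Body K) {x : E2} (hx : x ∈ K) (t : ℝ) :
    (∀ y ∈ K, inner ℝ (ee t) (y - x) ≤ 0) ↔ (inner ℝ (ee t) x : ℝ) = hS K t := by
  constructor
  · intro h
    obtain ⟨z, hz, hz1, -⟩ := exists_top hK.comp (Body.ne hK) t
    have h1 := h z hz
    rw [inner_sub_right] at h1
    have h2 := inner_le_hS hK.comp hx t
    linarith
  · intro h y hy
    rw [inner_sub_right, h]
    linarith [inner_le_hS hK.comp hy t]

theorem set_eq {K : Set E2} (hK : Body K) (a b : ℝ) :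
    {x | x ∈ K ∧ ∃ u ∈ ee '' Ioc a b, ∀ y ∈ K, inner ℝ u (y - x) ≤ 0} = tau K a b := by
  ext x
  constructor
  · rintro ⟨hx, u, ⟨t, ht, rfl⟩, hu⟩
    exact ⟨hx, t, ht, (normal_iff hK hx t).1 hu⟩
  · rintro ⟨hx, t, ht, h⟩
    exact ⟨hx, ee t, ⟨t, ht, rfl⟩, (normal_iff hK hx t).2 h⟩

theorem LpS_eq {K : Set E2} (hK : Body K) (p a b : ℝ) :
    LpS p K (ee '' Ioc a b) = ∫⁻ x in tau K a b, II p K x ∂μH[1] := by
  have h1 : ((2 : ℕ) : ℝ) - 1 = 1 := by norm_num
  unfold LpS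
  rw [set_eq hK, h1]
  rfl

theorem II_bounds {K : Set E2} (hK : Body K) {p c d m M : ℝ} (hcd : c < d) (hlt : d - c < π)
    (hb : ∀ t ∈ Icc c d, m ≤ hS K t ^ (1 - p) ∧ hS K t ^ (1 - p) ≤ M) :
    ∀ᵐ x ∂(μH[1] : Measure E2), x ∈ tau K c d →
      ENNReal.ofReal m ≤ II p K x ∧ II p K x ≤ ENNReal.ofReal M := by
  have hna : NullSingletonClass (μH[1] : Measure E2) :=
    Measure.nullSingletonClass_hausdorff E2 one_pos
  obtain ⟨x₁, x₂, h⟩ := tau_normal hK hcd hlt
  have h1 : ∀ᵐ x ∂(μH[1] : Measure E2), x ≠ x₁ := by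
    rw [ae_iff]; simp
  have h2 : ∀ᵐ x ∂(μH[1] : Measure E2), x ≠ x₂ := by
    rw [ae_iff]; simp
  filter_upwards [h1, h2] with x hx1 hx2 hx
  constructor
  · refine le_iInf₂ fun u hu => ?_
    obtain ⟨t, ht, rfl⟩ := h x hx hx1 hx2 u hu.1 hu.2
    rw [(normal_iff hK hx.1 t).1 hu.2]
    exact ENNReal.ofReal_le_ofReal (hb t ht).1
  · obtain ⟨hxK, t, ht, hxt⟩ := hx
    refine iInf₂_le_of_le (ee t) ⟨ee_sphere t, (normal_iff hK hxK t).2 hxt⟩ ?_
    rw [hxt]
    exact ENNReal.ofReal_le_ofReal (hb t (Ioc_subset_Icc_self ht)).2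

/-- `A(c,d)` -/
noncomputable def AA (p : ℝ) (K : Set E2) (c d : ℝ) : ℝ≥0∞ := ∫⁻ x in tau K c d, II p K x ∂μH[1]

/-- `B(c,d)` -/
noncomputable def BB (p : ℝ) (K : Set E2) (c d : ℝ) : ℝ≥0∞ :=
  ∫⁻ t in Ioc c d, ENNReal.ofReal (hS K t ^ (1 - p)) ∂(sigS K)

theorem AA_bounds {K : Set E2} (hK : Body K) {p c d m M : ℝ} (hcd : c < d) (hlt : d - c < π)
    (hb : ∀ t ∈ Icc c d, m ≤ hS K t ^ (1 - p) ∧ hS K t ^ (1 - p) ≤ M) :
    ENNReal.ofReal m * μH[1] (tau K c d) ≤ AA p K c d ∧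
      AA p K c d ≤ ENNReal.ofReal M * μH[1] (tau K c d) := by
  have h := (ae_restrict_iff' (tau_meas hK c d)).2 (II_bounds hK hcd hlt hb)
  constructor
  · rw [← setLIntegral_const]
    exact lintegral_mono_ae (h.mono fun x hx => hx.1)
  · rw [← setLIntegral_const]
    exact lintegral_mono_ae (h.mono fun x hx => hx.2)

theorem BB_bounds {K : Set E2} {p c d m M : ℝ}
    (hb : ∀ t ∈ Icc c d, m ≤ hS K t ^ (1 - p) ∧ hS K t ^ (1 - p) ≤ M) :
    ENNReal.ofReal m * sigS K (Ioc c d) ≤ BB p K c d ∧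
      BB p K c d ≤ ENNReal.ofReal M * sigS K (Ioc c d) := by
  have h : ∀ᵐ t ∂((sigS K).restrict (Ioc c d)),
      ENNReal.ofReal m ≤ ENNReal.ofReal (hS K t ^ (1 - p)) ∧
        ENNReal.ofReal (hS K t ^ (1 - p)) ≤ ENNReal.ofReal M := by
    refine (ae_restrict_iff' measurableSet_Ioc).2 (Filter.Eventually.of_forall fun t ht => ?_)
    have := hb t (Ioc_subset_Icc_self ht)
    exact ⟨ENNReal.ofReal_le_ofReal this.1, ENNReal.ofReal_le_ofReal this.2⟩
  constructor
  · rw [← setLIntegral_const]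
    exact lintegral_mono_ae (h.mono fun x hx => hx.1)
  · rw [← setLIntegral_const]
    exact lintegral_mono_ae (h.mono fun x hx => hx.2)

/-- The approximate comparison. -/
def PP (p : ℝ) (K : Set E2) (k ε : ℝ≥0∞) (c d : ℝ) : Prop :=
  k * AA p K c d ≤ BB p K c d + ε * sigS K (Ioc c d) ∧
    k * BB p K c d ≤ AA p K c d + ε * sigS K (Ioc c d)

theorem PP_local {K : Set E2} (hK : Body K) {p c d k ε : ℝ} (hcd : c < d) (hlt : d - c < π / 2)
    (hk1 : k ≤ 1) (hk : k ≤ Real.cos (d - c))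
    (hb : ∀ t ∈ Icc c d, |hS K t ^ (1 - p) - hS K c ^ (1 - p)| ≤ ε) :
    PP p K (ENNReal.ofReal k) (ENNReal.ofReal (2 * ε)) c d := by
  set m := hS K c ^ (1 - p) - ε with hm
  set M := hS K c ^ (1 - p) + ε with hM
  have hb' : ∀ t ∈ Icc c d, m ≤ hS K t ^ (1 - p) ∧ hS K t ^ (1 - p) ≤ M := by
    intro t ht
    have := abs_le.1 (hb t ht)
    constructor <;> [rw [hm]; rw [hM]] <;> linarith [this.1, this.2]
  have hlt' : d - c < π := by linarith [Real.pi_pos]
  obtain ⟨a1, a2⟩ := AA_bounds hK hcd hlt' hb'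
  obtain ⟨b1, b2⟩ := BB_bounds (K := K) hb'
  have t1 := tau_upper hK hcd.le hlt
  have t2 := tau_lower hK hcd.le hlt
  have hkk : ENNReal.ofReal k ≤ ENNReal.ofReal (Real.cos (d - c)) := ENNReal.ofReal_le_ofReal hk
  have hk1' : ENNReal.ofReal k ≤ 1 := by
    rw [← ENNReal.ofReal_one]; exact ENNReal.ofReal_le_ofReal hk1
  have hMm : ENNReal.ofReal M ≤ ENNReal.ofReal m + ENNReal.ofReal (2 * ε) := by
    have : M = m + 2 * ε := by rw [hm, hM]; ring
    rw [this]; exact ENNReal.ofReal_add_le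
  set S := sigS K (Ioc c d) with hS'
  set T := (μH[1] : Measure E2) (tau K c d) with hT
  have kT : ENNReal.ofReal k * T ≤ S := (mul_le_mul_left hkk T).trans t1
  have kS : ENNReal.ofReal k * S ≤ T := (mul_le_mul_left hkk S).trans t2
  have kS' : ENNReal.ofReal k * S ≤ S := by
    calc ENNReal.ofReal k * S ≤ 1 * S := mul_le_mul_left hk1' S
      _ = S := one_mul S
  constructor
  · calc ENNReal.ofReal k * AA p K c d ≤ ENNReal.ofReal k * (ENNReal.ofReal M * T) := by gcongr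
      _ = ENNReal.ofReal M * (ENNReal.ofReal k * T) := by ring
      _ ≤ ENNReal.ofReal M * S := by gcongr
      _ ≤ (ENNReal.ofReal m + ENNReal.ofReal (2 * ε)) * S := by gcongr
      _ = ENNReal.ofReal m * S + ENNReal.ofReal (2 * ε) * S := by ring
      _ ≤ BB p K c d + ENNReal.ofReal (2 * ε) * S := by gcongr
  · calc ENNReal.ofReal k * BB p K c d ≤ ENNReal.ofReal k * (ENNReal.ofReal M * S) := by gcongr
      _ ≤ ENNReal.ofReal k * ((ENNReal.ofReal m + ENNReal.ofReal (2 * ε)) * S) := by gcongr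
      _ = ENNReal.ofReal m * (ENNReal.ofReal k * S)
            + ENNReal.ofReal (2 * ε) * (ENNReal.ofReal k * S) := by ring
      _ ≤ ENNReal.ofReal m * T + ENNReal.ofReal (2 * ε) * S := by gcongr
      _ ≤ AA p K c d + ENNReal.ofReal (2 * ε) * S := by gcongr

theorem AA_add {K : Set E2} (hK : Body K) {p c d e : ℝ} (hcd : c ≤ d) (hde : d ≤ e)
    (hlt : e - c < π) : AA p K c e = AA p K c d + AA p K d e := by
  have hna : NullSingletonClass (μH[1] : Measure E2) :=
    Measure.nullSingletonClass_hausdorff E2 one_pos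
  unfold AA
  rw [tau_union K hcd hde, Measure.restrict_union₀ ?_ (tau_meas hK d e).nullMeasurableSet,
    lintegral_add_measure]
  exact (tau_inter hK hcd hde hlt).measure_zero _

theorem BB_add {K : Set E2} {p c d e : ℝ} (hcd : c ≤ d) (hde : d ≤ e) :
    BB p K c e = BB p K c d + BB p K d e := by
  unfold BB
  rw [← Ioc_union_Ioc_eq_Ioc hcd hde, lintegral_union measurableSet_Ioc]
  exact Set.disjoint_left.2 fun x hx hx' => not_lt.2 hx.2 hx'.1

theorem SS_add {K : Set E2} {c d e : ℝ} (hcd : c ≤ d) (hde : d ≤ e) :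
    sigS K (Ioc c e) = sigS K (Ioc c d) + sigS K (Ioc d e) := by
  rw [← Ioc_union_Ioc_eq_Ioc hcd hde, measure_union _ measurableSet_Ioc]
  exact Set.disjoint_left.2 fun x hx hx' => not_lt.2 hx.2 hx'.1

theorem PP_add {K : Set E2} (hK : Body K) {p c d e : ℝ} {k ε : ℝ≥0∞} (hcd : c ≤ d) (hde : d ≤ e)
    (hlt : e - c < π) (h1 : PP p K k ε c d) (h2 : PP p K k ε d e) : PP p K k ε c e := by
  unfold PP at *
  rw [AA_add hK hcd hde hlt, BB_add hcd hde, SS_add hcd hde]
  constructor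
  · calc k * (AA p K c d + AA p K d e) = k * AA p K c d + k * AA p K d e := by ring
      _ ≤ (BB p K c d + ε * sigS K (Ioc c d)) + (BB p K d e + ε * sigS K (Ioc d e)) :=
          add_le_add h1.1 h2.1
      _ = _ := by ring
  · calc k * (BB p K c d + BB p K d e) = k * BB p K c d + k * BB p K d e := by ring
      _ ≤ (AA p K c d + ε * sigS K (Ioc c d)) + (AA p K d e + ε * sigS K (Ioc d e)) :=
          add_le_add h1.2 h2.2
      _ = _ := by ring

theorem G_cont {K : Set E2} (hK : Body K) {p : ℝ} :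
    Continuous fun t => hS K t ^ (1 - p) := by
  obtain ⟨M, hM⟩ := hS_lip hK.comp (Body.ne hK)
  exact hM.continuous.rpow_const fun t => Or.inl (hS_pos hK t).ne'

theorem PP_all {K : Set E2} (hK : Body K) {p a b k ε : ℝ} (hab : a < b) (hlt : b - a ≤ 1)
    (hk1 : k < 1) (hε : 0 < ε) :
    PP p K (ENNReal.ofReal k) (ENNReal.ofReal (2 * ε)) a b := by
  have hpi := Real.pi_gt_three
  have huc : UniformContinuousOn (fun t => hS K t ^ (1 - p)) (Icc a b) :=
    isCompact_Icc.uniformContinuousOn_of_continuous (G_cont hK).continuousOn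
  obtain ⟨δ, hδ, hδ'⟩ := Metric.uniformContinuousOn_iff.1 huc ε hε
  have hcos : ∀ᶠ s in nhds (0 : ℝ), k < Real.cos s := by
    have : Filter.Tendsto Real.cos (nhds 0) (nhds (Real.cos 0)) := Real.continuous_cos.tendsto 0
    rw [Real.cos_zero] at this
    exact this.eventually (lt_mem_nhds hk1)
  obtain ⟨η, hη, hη'⟩ := Metric.eventually_nhds_iff.1 hcos
  obtain ⟨n, hn⟩ := exists_nat_gt ((b - a) / min δ η)
  have hmin : 0 < min δ η := lt_min hδ hη
  have hn0 : (0 : ℝ) < n := lt_of_le_of_lt (div_nonneg (by linarith) hmin.le) hn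
  set q : ℝ := (b - a) / n with hq
  have hq0 : 0 < q := div_pos (by linarith) hn0
  have hqm : q < min δ η := by
    rw [hq, div_lt_iff₀ hn0]
    rw [div_lt_iff₀ hmin] at hn
    linarith [mul_comm (n : ℝ) (min δ η)]
  have hqδ : q < δ := hqm.trans_le (min_le_left _ _)
  have hqη : q < η := hqm.trans_le (min_le_right _ _)
  have hnq : (n : ℝ) * q = b - a := by rw [hq]; field_simp
  have hloc : ∀ i : ℕ, i < n →
      PP p K (ENNReal.ofReal k) (ENNReal.ofReal (2 * ε)) (a + i * q) (a + (i + 1 : ℕ) * q) := by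
    intro i hi
    have hi' : ((i + 1 : ℕ) : ℝ) ≤ n := by exact_mod_cast hi
    have hd : a + (i + 1 : ℕ) * q - (a + i * q) = q := by push_cast; ring
    have hle : ((i + 1 : ℕ) : ℝ) * q ≤ b - a := by
      rw [← hnq]; exact mul_le_mul_of_nonneg_right hi' hq0.le
    have hi0 : (0 : ℝ) ≤ i * q := by positivity
    have hq1 : q ≤ 1 := by
      have h1 : (1 : ℝ) ≤ n := le_trans (by push_cast; linarith [(Nat.cast_nonneg i : (0 : ℝ) ≤ i)]) hi'
      have : q ≤ n * q := by nlinarith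
      linarith
    refine PP_local hK (by linarith) (by rw [hd]; linarith) hk1.le ?_ ?_
    · rw [hd]
      refine (hη' ?_).le
      rw [Real.dist_eq, sub_zero, abs_of_pos hq0]
      exact hqη
    · intro t ht
      have h1 : t ∈ Icc a b := ⟨by linarith [ht.1], by linarith [ht.2]⟩
      have h2 : a + i * q ∈ Icc a b := ⟨by linarith, by linarith [ht.1, ht.2]⟩
      have h3 : dist t (a + i * q) < δ := by
        rw [Real.dist_eq, abs_of_nonneg (by linarith [ht.1])]
        linarith [ht.2]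
      have := hδ' t h1 _ h2 h3
      rw [Real.dist_eq] at this
      exact this.le
  have hind : ∀ i : ℕ, i < n →
      PP p K (ENNReal.ofReal k) (ENNReal.ofReal (2 * ε)) a (a + (i + 1 : ℕ) * q) := by
    intro i
    induction i with
    | zero =>
      intro hi
      have := hloc 0 hi
      simpa using this
    | succ i ih =>
      intro hi
      have h1 := ih (by omega)
      have h2 := hloc (i + 1) hi
      have hi' : ((i + 1 + 1 : ℕ) : ℝ) ≤ n := by exact_mod_cast hi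
      have hle : ((i + 1 + 1 : ℕ) : ℝ) * q ≤ b - a := by
        rw [← hnq]; exact mul_le_mul_of_nonneg_right hi' hq0.le
      refine PP_add hK ?_ ?_ ?_ h1 h2
      · have : (0 : ℝ) ≤ ((i + 1 : ℕ) : ℝ) * q := by positivity
        linarith
      · have : ((i + 1 + 1 : ℕ) : ℝ) * q = ((i + 1 : ℕ) : ℝ) * q + q := by push_cast; ring
        rw [this]; linarith
      · linarith
  have hn1 : 0 < n := by exact_mod_cast hn0
  have := hind (n - 1) (by omega)
  rw [Nat.sub_add_cancel hn1, hnq] at this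
  have hb : a + (b - a) = b := by ring
  rwa [hb] at this

theorem le_of_approx {A B S : ℝ≥0∞} (hS : S ≠ ∞)
    (h : ∀ k ε : ℝ, k < 1 → 0 < ε → ENNReal.ofReal k * A ≤ B + ENNReal.ofReal (2 * ε) * S) :
    A ≤ B := by
  have h1 : ∀ k : ℝ, k < 1 → ENNReal.ofReal k * A ≤ B := by
    intro k hk
    refine ENNReal.le_of_forall_pos_le_add fun ε hε _ => ?_
    obtain ⟨η, hη, hη'⟩ : ∃ η : ℝ, 0 < η ∧ ENNReal.ofReal (2 * η) * S ≤ ε := by
      refine ⟨(ε : ℝ) / (2 * (S.toReal + 1)), by positivity, ?_⟩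
      have hS0 := ENNReal.toReal_nonneg (a := S)
      have e1 : 2 * ((ε : ℝ) / (2 * (S.toReal + 1))) = ε / (S.toReal + 1) := by field_simp
      rw [e1]
      nth_rw 2 [← ENNReal.ofReal_toReal hS]
      rw [← ENNReal.ofReal_mul (by positivity), ← ENNReal.ofReal_coe_nnreal]
      refine ENNReal.ofReal_le_ofReal ?_
      rw [div_mul_eq_mul_div, div_le_iff₀ (by positivity)]
      have : (0 : ℝ) ≤ ε := ε.2
      nlinarith
    exact (h k η hk hη).trans (add_le_add le_rfl hη')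
  have ht : Filter.Tendsto (fun n : ℕ => ENNReal.ofReal (1 - 1 / ((n : ℝ) + 1)) * A)
      Filter.atTop (nhds (1 * A)) := by
    refine ENNReal.Tendsto.mul_const ?_ (Or.inl one_ne_zero)
    rw [← ENNReal.ofReal_one]
    refine ENNReal.tendsto_ofReal ?_
    have := (tendsto_const_nhds (x := (1 : ℝ))).sub (tendsto_one_div_add_atTop_nhds_zero_nat (𝕜 := ℝ))
    rwa [sub_zero] at this
  rw [one_mul] at ht
  refine le_of_tendsto' ht fun n => h1 _ ?_
  have : (0 : ℝ) < 1 / ((n : ℝ) + 1) := by positivity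
  linarith

end LpseAux

open LpseAux in
theorem lps_arc {K : Set E2} (hK : Body K) {p : ℝ} (hp0 : 0 < p) (hp1 : p < 1) {a b : ℝ}
    (hab : a < b) (hlt : b - a ≤ 1) :
    LpS p K (ee '' Ioc a b) =
      ∫⁻ t in Ioc a b, ENNReal.ofReal (hS K t ^ (1 - p)) ∂(sigS K) := by
  rw [LpS_eq hK]
  have hS : sigS K (Ioc a b) ≠ ∞ := by
    rw [sigS_Ioc hK.comp (Body.ne hK) hab.le]
    exact ENNReal.ofReal_ne_top
  exact le_antisymm
    (le_of_approx hS fun k ε hk hε => (PP_all hK hab hlt hk hε).1)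
    (le_of_approx hS fun k ε hk hε => (PP_all hK hab hlt hk hε).2)

end Pool.Agent.MP9dd972
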