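import Mathlib
import Pool.Agent.Lib.MP_9dd972_gt.Defs
import Pool.Agent.Lib.MP_9dd972_gt.Supp
import Pool.Agent.Lib.MP_9dd972_gt.Stj
import Pool.Agent.Lib.MP_9dd972_gt.Pol
import Pool.Agent.Lib.MP_9dd972_gt.Lpse

/-!
# MP_9dd972_gt, planar case: the pair hypothesis
-/

set_option autoImplicit false

namespace Pool.Agent.MP9dd972

open MeasureTheory Set
open scoped ENNReal NNReal Real

namespace MeqAux

theorem ee_continuous : Continuous ee := by
  unfold ee
  fun_prop

theorem ee_injOn {a b : ℝ} (hlt : b - a ≤ 1) : InjOn ee (Ioc a b) := by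
  intro s hs t ht h
  have h0 : Real.cos s = Real.cos t := by
    have := congrArg (fun v : E2 => v 0) h
    simpa [ee] using this
  have h1 : Real.sin s = Real.sin t := by
    have := congrArg (fun v : E2 => v 1) h
    simpa [ee] using this
  have h2 : Real.cos (s - t) = 1 := by
    rw [Real.cos_sub, h0, h1]
    nlinarith [Real.sin_sq_add_cos_sq t]
  have hpi := Real.pi_gt_three
  have h3 : s - t = 0 := by
    refine (Real.cos_eq_one_iff_of_lt_of_lt ?_ ?_).1 h2
    · linarith [hs.1, hs.2, ht.1, ht.2]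
    · linarith [hs.1, hs.2, ht.1, ht.2]
  linarith

theorem meas_image {a b : ℝ} (hlt : b - a ≤ 1) : MeasurableSet (ee '' Ioc a b) :=
  MeasurableSet.image_of_continuousOn_injOn measurableSet_Ioc ee_continuous.continuousOn
    (ee_injOn hlt)

theorem image_sub (a b : ℝ) : ee '' Ioc a b ⊆ Metric.sphere (0 : E2) 1 := by
  rintro _ ⟨t, _, rfl⟩
  rw [mem_sphere_zero_iff_norm]
  exact PolAux.norm_ee t

theorem body_ne {K : Set E2} (hK : Body K) : K.Nonempty := ⟨0, interior_subset hK.zero⟩

theorem hS_c {K : Set E2} (hK : Body K) : Continuous (hS K) := StjAux.hS_cont hK.comp (body_ne hK)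

theorem pow_c {K : Set E2} (hK : Body K) (q : ℝ) : Continuous (fun t => hS K t ^ q) :=
  (hS_c hK).rpow_const fun t => Or.inl (hS_pos hK t).ne'

theorem quot_c {K C : Set E2} (hK : Body K) (hC : Body C) (q : ℝ) :
    Continuous (fun t => (hS K t / hS C t) ^ q) := by
  refine ((hS_c hK).div (hS_c hC) fun t => (hS_pos hC t).ne').rpow_const fun t => Or.inl ?_
  exact (div_pos (hS_pos hK t) (hS_pos hC t)).ne'

theorem short {K C : Set E2} (hK : Body K) (hC : Body C) {p : ℝ} (hp0 : 0 < p) (hp1 : p < 1)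
    (h : ∀ ω : Set E2, MeasurableSet ω → ω ⊆ Metric.sphere (0 : E2) 1 → LpS p K ω = LpS p C ω)
    {a b : ℝ} (hab : a ≤ b) (hlt : b - a ≤ 1) :
    ((sigS K).withDensity fun t => ENNReal.ofReal (hS K t ^ (1 - p))) (Ioc a b) =
      ((sigS C).withDensity fun t => ENNReal.ofReal (hS C t ^ (1 - p))) (Ioc a b) := by
  rcases hab.eq_or_lt with rfl | hab
  · simp
  rw [withDensity_apply _ measurableSet_Ioc, withDensity_apply _ measurableSet_Ioc,
    ← lps_arc hK hp0 hp1 hab hlt, ← lps_arc hC hp0 hp1 hab hlt]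
  exact h _ (meas_image hlt) (image_sub a b)

theorem long {μ ν : Measure ℝ}
    (h : ∀ a b : ℝ, a ≤ b → b - a ≤ 1 → μ (Ioc a b) = ν (Ioc a b)) (n : ℕ) :
    ∀ a b : ℝ, a ≤ b → b - a ≤ n → μ (Ioc a b) = ν (Ioc a b) := by
  induction n with
  | zero =>
    intro a b hab hn
    have : a = b := le_antisymm hab (by push_cast at hn; linarith)
    subst this
    simp
  | succ n ih =>
    intro a b hab hn
    push_cast at hn
    rcases le_total (b - a) 1 with h1 | h1
    · exact h a b hab h1
    · have hu : Ioc a b = Ioc a (b - 1) ∪ Ioc (b - 1) b :=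
        (Ioc_union_Ioc_eq_Ioc (by linarith) (by linarith)).symm
      have hd : Disjoint (Ioc a (b - 1)) (Ioc (b - 1) b) := by
        rw [Set.disjoint_left]
        intro x hx hx'
        exact absurd hx.2 (not_le.2 hx'.1)
      rw [hu, measure_union hd measurableSet_Ioc, measure_union hd measurableSet_Ioc,
        ih a (b - 1) (by linarith) (by linarith), h (b - 1) b (by linarith) (by linarith)]

theorem dens_meas {g : ℝ → ℝ} (hg : Continuous g) : Measurable fun t => ENNReal.ofReal (g t) :=
  hg.measurable.ennreal_ofReal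

end MeqAux

open MeqAux

theorem lpair_of_eq {K C : Set E2} (hK : Body K) (hC : Body C) {p : ℝ} (hp0 : 0 < p) (hp1 : p < 1)
    (h : ∀ ω : Set E2, MeasurableSet ω → ω ⊆ Metric.sphere (0 : E2) 1 → LpS p K ω = LpS p C ω) :
    LPair p K C := by
  refine ⟨hK, hC, hp0, hp1, ?_⟩
  have e1 : ((sigS K).withDensity fun t => ENNReal.ofReal (hS K t ^ (1 - p))) =
      (sigS C).withDensity fun t => ENNReal.ofReal (hS C t ^ (1 - p)) := by
    have := sigS_lf K
    have : IsLocallyFiniteMeasure
        ((sigS K).withDensity fun t => ENNReal.ofReal (hS K t ^ (1 - p))) :=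
      IsLocallyFiniteMeasure.withDensity_ofReal (pow_c hK (1 - p))
    refine Measure.ext_of_Ioc _ _ fun a b hab => ?_
    obtain ⟨n, hn⟩ := exists_nat_ge (b - a)
    exact long (fun a b hab hlt => short hK hC hp0 hp1 h hab hlt) n a b hab.le hn
  have e2 : (fun t => ENNReal.ofReal (hS C t ^ (1 - p))) *
      (fun t => ENNReal.ofReal (hS C t ^ (p - 1))) = 1 := by
    funext t
    rw [Pi.mul_apply, ← ENNReal.ofReal_mul (Real.rpow_nonneg (hS_pos hC t).le _),
      ← Real.rpow_add (hS_pos hC t)]
    simp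
  have e3 : (fun t => ENNReal.ofReal (hS K t ^ (1 - p))) *
      (fun t => ENNReal.ofReal (hS C t ^ (p - 1))) =
      fun t => ENNReal.ofReal ((hS K t / hS C t) ^ (1 - p)) := by
    funext t
    rw [Pi.mul_apply, ← ENNReal.ofReal_mul (Real.rpow_nonneg (hS_pos hK t).le _),
      Real.div_rpow (hS_pos hK t).le (hS_pos hC t).le, div_eq_mul_inv,
      ← Real.rpow_neg (hS_pos hC t).le]
    congr 3
    ring
  calc sigS C = (sigS C).withDensity 1 := withDensity_one.symm
    _ = ((sigS C).withDensity fun t => ENNReal.ofReal (hS C t ^ (1 - p))).withDensity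
        (fun t => ENNReal.ofReal (hS C t ^ (p - 1))) := by
      rw [← e2, withDensity_mul _ (dens_meas (pow_c hC _)) (dens_meas (pow_c hC _))]
    _ = ((sigS K).withDensity fun t => ENNReal.ofReal (hS K t ^ (1 - p))).withDensity
        (fun t => ENNReal.ofReal (hS C t ^ (p - 1))) := by rw [e1]
    _ = _ := by
      rw [← e3, withDensity_mul _ (dens_meas (pow_c hK _)) (dens_meas (pow_c hC _))]

theorem LPair.symm {K C : Set E2} {p : ℝ} (h : LPair p K C) : LPair p C K := by
  refine ⟨h.bC, h.bK, h.p0, h.p1, ?_⟩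
  have e : (fun t => ENNReal.ofReal ((hS K t / hS C t) ^ (1 - p))) *
      (fun t => ENNReal.ofReal ((hS C t / hS K t) ^ (1 - p))) = 1 := by
    funext t
    have hk := hS_pos h.bK t
    have hc := hS_pos h.bC t
    rw [Pi.mul_apply, ← ENNReal.ofReal_mul (Real.rpow_nonneg (div_pos hk hc).le _),
      ← Real.mul_rpow (div_pos hk hc).le (div_pos hc hk).le]
    have : hS K t / hS C t * (hS C t / hS K t) = 1 := by
      field_simp
    rw [this]
    simp
  rw [h.dens, ← withDensity_mul _ (dens_meas (quot_c h.bK h.bC _))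
    (dens_meas (quot_c h.bC h.bK _)), e, withDensity_one]

theorem LPair.integral_eq {K C : Set E2} {p : ℝ} (h : LPair p K C) {f : ℝ → ℝ}
    (hf : Continuous f) (a b : ℝ) :
    ∫ x in Ioc a b, f x ∂(sigS C) =
      ∫ x in Ioc a b, f x * (hS K x / hS C x) ^ (1 - p) ∂(sigS K) := by
  have _ := hf
  rw [h.dens, restrict_withDensity measurableSet_Ioc,
    integral_withDensity_eq_integral_toReal_smul (dens_meas (quot_c h.bK h.bC _))
      (Filter.Eventually.of_forall fun x => ENNReal.ofReal_lt_top)]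
  refine integral_congr_ae (Filter.Eventually.of_forall fun x => ?_)
  show (ENNReal.ofReal ((hS K x / hS C x) ^ (1 - p))).toReal • f x = _
  rw [ENNReal.toReal_ofReal (Real.rpow_nonneg (div_pos (hS_pos h.bK x) (hS_pos h.bC x)).le _),
    smul_eq_mul, mul_comm]

end Pool.Agent.MP9dd972
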