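import Mathlib
import Pool.Agent.Lib.MP_9dd972_gt.Defs
import Pool.Agent.Lib.MP_9dd972_gt.Supp
import Pool.Agent.Lib.MP_9dd972_gt.Stj
import Pool.Agent.Lib.MP_9dd972_gt.Sibp
import Pool.Agent.Lib.MP_9dd972_gt.Pol
import Pool.Agent.Lib.MP_9dd972_gt.Meq

/-!
# MP_9dd972_gt, planar case, module LEN: no open half circle without a zero
-/

set_option autoImplicit false

namespace Pool.Agent.MP9dd972

open MeasureTheory Set
open scoped ENNReal NNReal Real

namespace LenAux

theorem cont {K : Set E2} (hK : Body K) : Continuous (hS K) := by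
  obtain ⟨M, hM⟩ := hS_lip hK.comp ⟨0, interior_subset hK.zero⟩
  exact hM.continuous

theorem half {K : Set E2} (hK : Body K) (a : ℝ) :
    ∫ x in Ioc a (a + π), Real.sin (x - a) ∂(sigS K) = hS K a + hS K (a + π) := by
  have h := sig_sin' hK.comp ⟨0, interior_subset hK.zero⟩ (a := a) (b := a + π)
    (by linarith [Real.pi_pos])
  rw [add_sub_cancel_left, Real.cos_pi, Real.sin_pi] at h
  rw [h]
  ring

end LenAux

theorem not_pos_half {K C : Set E2} {p : ℝ} (h : LPair p K C) (a : ℝ) :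
    ¬ ∀ t ∈ Ioo a (a + π), hS K t < hS C t := by
  intro H
  have hpi := Real.pi_pos
  have hKc := LenAux.cont h.bK
  have hCc := LenAux.cont h.bC
  have hKp := hS_pos h.bK
  have hCp := hS_pos h.bC
  have := sigS_lf K
  set b := a + π with hb
  have hab : a < b := by linarith
  -- the inequality at the end points
  have hle : ∀ t ∈ Icc a b, hS K t ≤ hS C t := by
    have hcl : closure (Ioo a b) = Icc a b := closure_Ioo hab.ne
    intro t ht
    rw [← hcl] at ht
    exact closure_minimal (fun x hx => (H x hx).le) (isClosed_le hKc hCc) ht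
  set ρ : ℝ → ℝ := fun x => (hS K x / hS C x) ^ (1 - p) with hρ
  have hp : 0 < 1 - p := by linarith [h.p1]
  have hρc : Continuous ρ :=
    (hKc.div hCc fun x => (hCp x).ne').rpow_const fun x => Or.inr hp.le
  have hρ1 : ∀ x ∈ Ioo a b, ρ x < 1 := fun x hx =>
    Real.rpow_lt_one (div_pos (hKp x) (hCp x)).le ((div_lt_one (hCp x)).2 (H x hx)) hp
  have hρle : ∀ x ∈ Icc a b, ρ x ≤ 1 := fun x hx =>
    Real.rpow_le_one (div_pos (hKp x) (hCp x)).le ((div_le_one (hCp x)).2 (hle x hx)) hp.le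
  have hsc : Continuous fun x : ℝ => Real.sin (x - a) :=
    Real.continuous_sin.comp (continuous_id.sub continuous_const)
  have h1 := h.integral_eq hsc a b
  rw [LenAux.half h.bC a] at h1
  have h2 := LenAux.half h.bK a
  have hi1 : IntegrableOn (fun x : ℝ => Real.sin (x - a)) (Ioc a b) (sigS K) := hsc.integrableOn_Ioc
  have hi2 : IntegrableOn (fun x : ℝ => Real.sin (x - a) * ρ x) (Ioc a b) (sigS K) :=
    (hsc.mul hρc).integrableOn_Ioc
  set g : ℝ → ℝ := fun x => Real.sin (x - a) - Real.sin (x - a) * ρ x with hg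
  have h3 : ∫ x in Ioc a b, g x ∂(sigS K) = (hS K a + hS K b) - (hS C a + hS C b) := by
    rw [hg, integral_sub hi1 hi2, h2, h1]
  have hsin : ∀ x ∈ Ioc a b, 0 ≤ Real.sin (x - a) := fun x hx =>
    Real.sin_nonneg_of_nonneg_of_le_pi (by linarith [hx.1]) (by linarith [hx.2])
  have hg0 : ∀ x ∈ Ioc a b, 0 ≤ g x := by
    intro x hx
    have e : g x = Real.sin (x - a) * (1 - ρ x) := by simp only [hg]; ring
    rw [e]
    exact mul_nonneg (hsin x hx) (sub_nonneg.2 (hρle x ⟨hx.1.le, hx.2⟩))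
  have h4 : ∫ x in Ioc a b, g x ∂(sigS K) = 0 := by
    refine le_antisymm ?_ (setIntegral_nonneg measurableSet_Ioc hg0)
    rw [h3]
    linarith [hle a ⟨le_rfl, hab.le⟩, hle b ⟨hab.le, le_rfl⟩]
  have h5 := (setIntegral_eq_zero_iff_of_nonneg_ae
    (ae_restrict_of_forall_mem measurableSet_Ioc hg0) (hi1.sub hi2)).1 h4
  have h6 : ∫ x in Ioc a b, Real.sin (x - a) ∂(sigS K) = 0 := by
    refine integral_eq_zero_of_ae ?_
    filter_upwards [h5, ae_restrict_mem (μ := sigS K) (measurableSet_Ioc (a := a) (b := b))] with x hx hxm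
    rcases hxm.2.eq_or_lt with hxb | hxb
    · rw [hxb, hb, add_sub_cancel_left, Real.sin_pi]
      rfl
    · exfalso
      have hx1 : x ∈ Ioo a b := ⟨hxm.1, hxb⟩
      have e : g x = Real.sin (x - a) * (1 - ρ x) := by simp only [hg]; ring
      rw [e] at hx
      have hs : 0 < Real.sin (x - a) :=
        Real.sin_pos_of_pos_of_lt_pi (by linarith [hx1.1]) (by linarith [hx1.2])
      have := mul_pos hs (sub_pos.2 (hρ1 x hx1))
      rw [hx] at this
      exact lt_irrefl _ this
  rw [h2] at h6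
  linarith [hKp a, hKp b]

end Pool.Agent.MP9dd972
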