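import Mathlib
import Pool.Agent.Lib.MP_9dd972_gt.Defs
import Pool.Agent.Lib.MP_9dd972_gt.Supp
import Pool.Agent.Lib.MP_9dd972_gt.Stj
import Pool.Agent.Lib.MP_9dd972_gt.Sibp
import Pool.Agent.Lib.MP_9dd972_gt.Pol
import Pool.Agent.Lib.MP_9dd972_gt.Meq

/-!
# MP_9dd972_gt, planar case, module NOD: the corner of a nodal arc
-/

set_option autoImplicit false

namespace Pool.Agent.MP9dd972

open MeasureTheory Set
open scoped ENNReal NNReal Real

namespace NodAux

/-- Derivative of the sinusoid `VV`. -/
noncomputable def VD (K : Set E2) (a b t : ℝ) : ℝ :=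
  (-(hS K a * Real.cos (b - t)) + hS K b * Real.cos (t - a)) / Real.sin (b - a)

theorem hasDerivAt_VV (K : Set E2) (a b t : ℝ) : HasDerivAt (VV K a b) (VD K a b t) t := by
  have h1 := (((hasDerivAt_id' t).const_sub b).sin).const_mul (hS K a)
  have h2 := (((hasDerivAt_id' t).sub_const a).sin).const_mul (hS K b)
  have h3 := (h1.fun_add h2).div_const (Real.sin (b - a))
  have e : VV K a b = fun x => (hS K a * Real.sin (b - x) + hS K b * Real.sin (x - a)) /
      Real.sin (b - a) := rfl
  rw [e]
  refine h3.congr_deriv ?_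
  rw [VD]
  ring

theorem hasDerivAt_VD (K : Set E2) (a b t : ℝ) : HasDerivAt (VD K a b) (-VV K a b t) t := by
  have h1 := ((((hasDerivAt_id' t).const_sub b).cos).const_mul (hS K a)).fun_neg
  have h2 := (((hasDerivAt_id' t).sub_const a).cos).const_mul (hS K b)
  have h3 := (h1.fun_add h2).div_const (Real.sin (b - a))
  have e : VD K a b = fun x => (-(hS K a * Real.cos (b - x)) + hS K b * Real.cos (x - a)) /
      Real.sin (b - a) := rfl
  rw [e]
  refine h3.congr_deriv ?_
  rw [VV]
  ring

theorem VV_bd (K : Set E2) (a b t : ℝ) :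
    |VV K a b t| ≤ (|hS K a| + |hS K b|) * |Real.sin (b - a)|⁻¹ := by
  rw [VV, abs_div, div_eq_mul_inv]
  refine mul_le_mul_of_nonneg_right ?_ (inv_nonneg.mpr (abs_nonneg _))
  refine (abs_add_le _ _).trans (add_le_add ?_ ?_)
  · rw [abs_mul]
    exact mul_le_of_le_one_right (abs_nonneg _) (Real.abs_sin_le_one _)
  · rw [abs_mul]
    exact mul_le_of_le_one_right (abs_nonneg _) (Real.abs_sin_le_one _)

theorem VD_bd (K : Set E2) (a b t : ℝ) :
    |VD K a b t| ≤ (|hS K a| + |hS K b|) * |Real.sin (b - a)|⁻¹ := by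
  rw [VD, abs_div, div_eq_mul_inv]
  refine mul_le_mul_of_nonneg_right ?_ (inv_nonneg.mpr (abs_nonneg _))
  refine (abs_add_le _ _).trans (add_le_add ?_ ?_)
  · rw [abs_neg, abs_mul]
    exact mul_le_of_le_one_right (abs_nonneg _) (Real.abs_cos_le_one _)
  · rw [abs_mul]
    exact mul_le_of_le_one_right (abs_nonneg _) (Real.abs_cos_le_one _)

theorem VV_lip (K : Set E2) (a b : ℝ) : ∃ M : ℝ≥0, LipschitzWith M (VV K a b) := by
  refine ⟨⟨(|hS K a| + |hS K b|) * |Real.sin (b - a)|⁻¹, by positivity⟩, ?_⟩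
  apply lipschitzWith_of_nnnorm_deriv_le (fun t => (hasDerivAt_VV K a b t).differentiableAt)
  intro t
  rw [(hasDerivAt_VV K a b t).deriv]
  exact VD_bd K a b t

theorem VD_lip (K : Set E2) (a b : ℝ) : ∃ M : ℝ≥0, LipschitzWith M (VD K a b) := by
  refine ⟨⟨(|hS K a| + |hS K b|) * |Real.sin (b - a)|⁻¹, by positivity⟩, ?_⟩
  apply lipschitzWith_of_nnnorm_deriv_le (fun t => (hasDerivAt_VD K a b t).differentiableAt)
  intro t
  rw [(hasDerivAt_VD K a b t).deriv]
  change |-VV K a b t| ≤ _
  rw [abs_neg]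
  exact VV_bd K a b t

theorem sin_zero {σ : Measure ℝ} {c d ψ : ℝ} (hσ : σ (Ioo c d) = 0) (hψ : ψ ≤ d) :
    ∫ x in Ioc c ψ, Real.sin (ψ - x) ∂σ = 0 := by
  apply integral_eq_zero_of_ae
  have h1 : ∀ᵐ x ∂σ.restrict (Ioc c ψ), x ∉ Ioo c d := by
    apply ae_restrict_of_ae
    exact (measure_eq_zero_iff_ae_notMem (μ := σ)).mp hσ
  filter_upwards [h1, ae_restrict_mem (measurableSet_Ioc (a := c) (b := ψ))] with x hx hx2
  have : x = ψ := by
    by_contra hne
    exact hx ⟨hx2.1, (lt_of_le_of_ne hx2.2 hne).trans_le hψ⟩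
  simp [this]

end NodAux

open NodAux SibpAux

theorem nodal_witness {K C : Set E2} {p : ℝ} (h : LPair p K C) {c d : ℝ} (hcd : c < d)
    (hpi : d - c < π) (hc : hS K c = hS C c) (hd : hS K d = hS C d)
    (hlt : ∀ t ∈ Ioo c d, hS K t < hS C t) :
    ∃ ψ ∈ Ioo c d, hS K ψ + hS C ψ < VV K c d ψ := by
  by_contra hcon
  push Not at hcon
  have hK := h.bK
  have hC := h.bC
  have neK : K.Nonempty := ⟨0, interior_subset hK.zero⟩
  have neC : C.Nonempty := ⟨0, interior_subset hC.zero⟩
  have posK := hS_pos hK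
  have posC := hS_pos hC
  obtain ⟨M1, lK⟩ := hS_lip hK.comp neK
  obtain ⟨M2, lC⟩ := hS_lip hC.comp neC
  obtain ⟨M3, lV⟩ := VV_lip K c d
  obtain ⟨M4, lVD⟩ := VD_lip K c d
  have hs : 0 < Real.sin (d - c) := Real.sin_pos_of_pos_of_lt_pi (by linarith) hpi
  have := sigS_lf K
  have := sigS_lf C
  have lW := lV.sub lK
  have lD := lC.sub lK
  have hVc : VV K c d c = hS K c := by
    rw [VV, sub_self, Real.sin_zero, mul_zero]
    field_simp
    ring
  have hVd : VV K c d d = hS K d := by
    rw [VV, sub_self, Real.sin_zero, mul_zero]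
    field_simp
    ring
  have I1 := sig_ibp hK.comp neK lW hcd.le
  have I2 := sig_ibp hC.comp neC lW hcd.le
  have I3 := sig_ibp hK.comp neK lD hcd.le
  have B1 := ibp_smooth lD lVD (fun x => (hasDerivAt_VV K c d x).deriv)
    (fun x => (hasDerivAt_VD K c d x).deriv) c d
  have cK : Continuous (hS K) := lK.continuous
  have cC : Continuous (hS C) := lC.continuous
  have cV : Continuous (VV K c d) := lV.continuous
  have i1 := ii_deriv_mul lV lC c d
  have i2 := ii_deriv_mul lV lK c d
  have i3 := ii_deriv_mul lK lC c d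
  have i4 := ii_deriv_mul lK lK c d
  have iVK : IntervalIntegrable (fun x => VV K c d x * hS K x) volume c d :=
    (cV.mul cK).intervalIntegrable _ _
  have iKK : IntervalIntegrable (fun x => hS K x * hS K x) volume c d :=
    (cK.mul cK).intervalIntegrable _ _
  have iVC : IntervalIntegrable (fun x => VV K c d x * hS C x) volume c d :=
    (cV.mul cC).intervalIntegrable _ _
  have iKC : IntervalIntegrable (fun x => hS K x * hS C x) volume c d :=
    (cK.mul cC).intervalIntegrable _ _
  -- the derivatives of W and D, almost everywhere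
  have dW : ∀ᵐ x, deriv (fun x => VV K c d x - hS K x) x = deriv (VV K c d) x - deriv (hS K) x := by
    filter_upwards [lK.ae_differentiableAt_real] with x hx
    exact deriv_fun_sub (hasDerivAt_VV K c d x).differentiableAt hx
  have dD : ∀ᵐ x, deriv (fun x => hS C x - hS K x) x = deriv (hS C) x - deriv (hS K) x := by
    filter_upwards [lK.ae_differentiableAt_real, lC.ae_differentiableAt_real] with x hx hx2
    exact deriv_fun_sub hx2 hx
  have J1 : ∫ x in c..d, deriv (fun x => VV K c d x - hS K x) x * deriv (hS K) x =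
      (∫ x in c..d, deriv (VV K c d) x * deriv (hS K) x) - ∫ x in c..d, deriv (hS K) x * deriv (hS K) x := by
    rw [← intervalIntegral.integral_sub i2 i4]
    apply intervalIntegral.integral_congr_ae
    filter_upwards [dW] with x hx _
    rw [hx]
    ring
  have J2 : ∫ x in c..d, deriv (fun x => VV K c d x - hS K x) x * deriv (hS C) x =
      (∫ x in c..d, deriv (VV K c d) x * deriv (hS C) x) - ∫ x in c..d, deriv (hS K) x * deriv (hS C) x := by
    rw [← intervalIntegral.integral_sub i1 i3]
    apply intervalIntegral.integral_congr_ae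
    filter_upwards [dW] with x hx _
    rw [hx]
    ring
  have J3 : ∫ x in c..d, deriv (fun x => hS C x - hS K x) x * deriv (hS K) x =
      (∫ x in c..d, deriv (hS K) x * deriv (hS C) x) - ∫ x in c..d, deriv (hS K) x * deriv (hS K) x := by
    rw [← intervalIntegral.integral_sub i3 i4]
    apply intervalIntegral.integral_congr_ae
    filter_upwards [dD] with x hx _
    rw [hx]
    ring
  have J4 : ∫ x in c..d, deriv (VV K c d) x * deriv (fun x => hS C x - hS K x) x =
      (∫ x in c..d, deriv (VV K c d) x * deriv (hS C) x) - ∫ x in c..d, deriv (VV K c d) x * deriv (hS K) x := by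
    rw [← intervalIntegral.integral_sub i1 i2]
    apply intervalIntegral.integral_congr_ae
    filter_upwards [dD] with x hx _
    rw [hx]
    ring
  have K1 : ∫ x in c..d, (VV K c d x - hS K x) * hS K x =
      (∫ x in c..d, VV K c d x * hS K x) - ∫ x in c..d, hS K x * hS K x := by
    rw [← intervalIntegral.integral_sub (iVK)
      (iKK)]
    congr 1
    funext x
    ring
  have K2 : ∫ x in c..d, (VV K c d x - hS K x) * hS C x =
      (∫ x in c..d, VV K c d x * hS C x) - ∫ x in c..d, hS K x * hS C x := by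
    rw [← intervalIntegral.integral_sub (iVC)
      (iKC)]
    congr 1
    funext x
    ring
  have K3 : ∫ x in c..d, (hS C x - hS K x) * hS K x =
      (∫ x in c..d, hS K x * hS C x) - ∫ x in c..d, hS K x * hS K x := by
    rw [← intervalIntegral.integral_sub (iKC)
      (iKK)]
    congr 1
    funext x
    ring
  have K4 : ∫ x in c..d, VV K c d x * (hS C x - hS K x) =
      (∫ x in c..d, VV K c d x * hS C x) - ∫ x in c..d, VV K c d x * hS K x := by
    rw [← intervalIntegral.integral_sub (iVC)
      (iVK)]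
    congr 1
    funext x
    ring
  rw [J1, K1] at I1
  rw [J2, K2] at I2
  rw [J3, K3] at I3
  rw [J4, K4] at B1
  rw [hVc, hVd, sub_self, sub_self, zero_mul, zero_mul] at I1 I2
  rw [← hc, ← hd, sub_self, sub_self, zero_mul, zero_mul] at I3
  rw [← hc, ← hd, sub_self, sub_self, mul_zero, mul_zero] at B1
  -- the measure identity
  set ρ : ℝ → ℝ := fun x => (hS K x / hS C x) ^ (1 - p) with hρ
  have cρ : Continuous ρ := by
    refine (cK.div cC fun x => (posC x).ne').rpow_const fun x => Or.inl ?_
    exact (div_pos (posK x) (posC x)).ne'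
  have hWρ := h.integral_eq (cV.sub cK) c d
  skip
  have hint : ∀ f : ℝ → ℝ, Continuous f → IntegrableOn f (Ioc c d) (sigS K) :=
    fun f hf => hf.integrableOn_Ioc
  have hzero : ∫ x in Ioc c d, ((hS C x - hS K x) - (VV K c d x - hS K x) * (1 - ρ x)) ∂(sigS K) = 0 := by
    have e1 : ∫ x in Ioc c d, ((hS C x - hS K x) - (VV K c d x - hS K x) * (1 - ρ x)) ∂(sigS K) =
        (∫ x in Ioc c d, (hS C x - hS K x) ∂(sigS K)) - ((∫ x in Ioc c d, (VV K c d x - hS K x) ∂(sigS K)) -
          ∫ x in Ioc c d, (VV K c d x - hS K x) * ρ x ∂(sigS K)) := by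
      have j1 : IntegrableOn (fun x => VV K c d x - hS K x) (Ioc c d) (sigS K) :=
        hint _ (cV.sub cK)
      have j2 : IntegrableOn (fun x => (VV K c d x - hS K x) * ρ x) (Ioc c d) (sigS K) :=
        hint _ ((cV.sub cK).mul cρ)
      have j3 : IntegrableOn (fun x => hS C x - hS K x) (Ioc c d) (sigS K) :=
        hint _ (cC.sub cK)
      have j4 : IntegrableOn (fun x => (VV K c d x - hS K x) - (VV K c d x - hS K x) * ρ x)
          (Ioc c d) (sigS K) := j1.sub j2
      rw [← integral_sub j1 j2, ← integral_sub j3 j4]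
      congr 1
      funext x
      ring
    have e2 : ∫ x in Ioc c d, (VV K c d x - hS K x) * ρ x ∂(sigS K) =
        ∫ x in Ioc c d, (VV K c d x - hS K x) ∂(sigS C) := hWρ.symm
    rw [e1, e2, I1, I2, I3]
    linarith
  have hρ_lt : ∀ x ∈ Ioo c d, ρ x ≤ 1 ∧ (VV K c d x - hS K x) * (1 - ρ x) < hS C x - hS K x := by
    intro x hx
    have hk0 := posK x
    have hg0 := posC x
    have hxlt : hS K x < hS C x := hlt x hx
    have hr0 : 0 < hS K x / hS C x := div_pos hk0 hg0
    have hr1 : hS K x / hS C x < 1 := (div_lt_one hg0).mpr hxlt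
    have h1 : ρ x ≤ 1 := Real.rpow_le_one hr0.le hr1.le (by linarith [h.p1])
    have h2 : hS K x / hS C x < ρ x := by
      have := Real.rpow_lt_rpow_of_exponent_gt hr0 hr1 (show 1 - p < 1 by linarith [h.p0])
      rwa [Real.rpow_one] at this
    have h3 : hS K x < hS C x * ρ x := by
      rw [div_lt_iff₀ hg0] at h2
      linarith
    have h4 : VV K c d x ≤ hS K x + hS C x := hcon x hx
    refine ⟨h1, ?_⟩
    have h5 : (VV K c d x - hS K x) * (1 - ρ x) ≤ hS C x * (1 - ρ x) :=
      mul_le_mul_of_nonneg_right (by linarith) (by linarith)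
    have h6 : hS C x * (1 - ρ x) = hS C x - hS C x * ρ x := by ring
    linarith
  have hnonneg : ∀ x ∈ Ioc c d, 0 ≤ (hS C x - hS K x) - (VV K c d x - hS K x) * (1 - ρ x) := by
    intro x hx
    rcases eq_or_lt_of_le hx.2 with h1 | h1
    · rw [h1, hVd, ← hd]
      simp
    · have := (hρ_lt x ⟨hx.1, h1⟩).2
      linarith
  have hFc : Continuous (fun x => (hS C x - hS K x) - (VV K c d x - hS K x) * (1 - ρ x)) :=
    (cC.sub cK).sub ((cV.sub cK).mul (continuous_const.sub cρ))
  have hnull : sigS K (Ioo c d) = 0 := by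
    have h1 : (fun x => (hS C x - hS K x) - (VV K c d x - hS K x) * (1 - ρ x)) =ᵐ[(sigS K).restrict (Ioc c d)] 0 := by
      refine (setIntegral_eq_zero_iff_of_nonneg_ae ?_ (hint _ hFc)).mp hzero
      filter_upwards [ae_restrict_mem (measurableSet_Ioc (a := c) (b := d))] with x hx
      exact hnonneg x hx
    have h2 : ∀ᵐ x ∂(sigS K).restrict (Ioo c d), False := by
      have h3 := ae_restrict_of_ae_restrict_of_subset
        (Ioo_subset_Ioc_self : Ioo c d ⊆ Ioc c d) h1
      filter_upwards [h3, ae_restrict_mem (measurableSet_Ioo (a := c) (b := d))] with x hx hx2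
      have := (hρ_lt x hx2).2
      simp only [Pi.zero_apply] at hx
      linarith
    rw [Filter.eventually_false_iff_eq_bot, ae_eq_bot, Measure.restrict_eq_zero] at h2
    exact h2
  have hnullC : sigS C (Ioo c d) = 0 := by
    rw [h.dens]
    exact withDensity_absolutelyContinuous _ _ hnull
  have formula : ∀ ψ, c < ψ → ψ ≤ d → hS C ψ - hS K ψ = (rS C c - rS K c) * Real.sin (ψ - c) := by
    intro ψ h1 h2
    have a1 := sig_sin hK.comp neK h1.le
    have a2 := sig_sin hC.comp neC h1.le
    rw [sin_zero hnull h2] at a1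
    rw [sin_zero hnullC h2] at a2
    rw [← hc] at a2
    linarith
  have f1 := formula d hcd le_rfl
  rw [← hd, sub_self] at f1
  have f2 : rS C c - rS K c = 0 := by
    rcases mul_eq_zero.mp f1.symm with h1 | h1
    · exact h1
    · exact absurd h1 hs.ne'
  have f3 := formula ((c + d) / 2) (by linarith) (by linarith)
  rw [f2, zero_mul] at f3
  have f4 := hlt ((c + d) / 2) ⟨by linarith, by linarith⟩
  linarith

end Pool.Agent.MP9dd972
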