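import Mathlib
import Pool.Agent.Lib.MP_9dd972_gt.Defs
import Pool.Agent.Lib.MP_9dd972_gt.Supp
import Pool.Agent.Lib.MP_9dd972_gt.Pol
import Pool.Agent.Lib.MP_9dd972_gt.Cent
import Pool.Agent.Lib.MP_9dd972_gt.Geo
import Pool.Agent.Lib.MP_9dd972_gt.Eval

set_option autoImplicit false

namespace Pool.Agent.MP9dd972

open MeasureTheory Set
open scoped ENNReal NNReal Real

namespace PartAAux

theorem crs_smul (a b s t : ℝ) : crs (a • ee s) (b • ee t) = a * b * Real.sin (t - s) := by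
  rw [Real.sin_sub]
  simp only [crs, ee, PiLp.smul_apply, smul_eq_mul, Matrix.cons_val_zero, Matrix.cons_val_one]
  ring

theorem ee_per (t : ℝ) : ee (t + 2 * π) = ee t := by
  simp only [ee, Real.cos_add_two_pi, Real.sin_add_two_pi]

/-- the elementary inequality for one summand -/
theorem summand {s h1 h2 h V A B lam : ℝ} (hs : 0 < s) (h1p : 0 < h1) (h2p : 0 < h2) (hp : 0 < h)
    (hV : h < V) (hVe : V = (h1 * B + h2 * A) / s) :
    (1 + lam) ^ 2 * (h1⁻¹ * h2⁻¹ * s) - (1 + lam ^ 2) * (h1⁻¹ * h⁻¹ * A + h⁻¹ * h2⁻¹ * B) ≤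
      s / (h1 * h2) * (h / (V - h) - (V - h) / h) := by
  have e1 : h1⁻¹ * h⁻¹ * A + h⁻¹ * h2⁻¹ * B = s / (h1 * h2) * (V / h) := by
    rw [hVe]
    field_simp
    ring
  have e2 : h1⁻¹ * h2⁻¹ * s = s / (h1 * h2) := by
    field_simp
  rw [e1, e2]
  have hU : 0 < s / (h1 * h2) := by positivity
  have hx : 0 < V - h := by linarith
  have key : (1 + lam) ^ 2 - (1 + lam ^ 2) * (V / h) ≤ h / (V - h) - (V - h) / h := by
    have e3 : h / (V - h) - (V - h) / h - ((1 + lam) ^ 2 - (1 + lam ^ 2) * (V / h)) =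
        (h - lam * (V - h)) ^ 2 / (h * (V - h)) := by
      field_simp
      ring
    have e4 : 0 ≤ (h - lam * (V - h)) ^ 2 / (h * (V - h)) := by positivity
    linarith
  have e5 := mul_le_mul_of_nonneg_left key hU.le
  calc _ = s / (h1 * h2) * ((1 + lam) ^ 2 - (1 + lam ^ 2) * (V / h)) := by ring
    _ ≤ _ := e5

end PartAAux

open PartAAux in
theorem partA {K : Set E2} (hK : Body K) (hc : ∫ x in K, x = (0 : E2)) {φ ψ : ℕ → ℝ}
    (hφ4 : φ 4 = φ 0 + 2 * π)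
    (hgap : ∀ j < 4, φ j < φ (j + 1) ∧ φ (j + 1) - φ j < π)
    (hψ : ∀ j < 4, φ j < ψ j ∧ ψ j < φ (j + 1))
    (hV : ∀ j < 4, hS K (ψ j) < VV K (φ j) (φ (j + 1)) (ψ j)) :
    0 ≤ ∑ j ∈ Finset.range 4, Real.sin (φ (j + 1) - φ j) / (hS K (φ j) * hS K (φ (j + 1))) *
      (hS K (ψ j) / (VV K (φ j) (φ (j + 1)) (ψ j) - hS K (ψ j)) -
        (VV K (φ j) (φ (j + 1)) (ψ j) - hS K (ψ j)) / hS K (ψ j)) := by
  obtain ⟨θ, σ, hθ4, hθσ, htop, hs⟩ := geo hK hφ4 hgap hψ hV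
  obtain ⟨lam, -, hsum⟩ := eval_ineq (L := polS K) (polS_compact hK) (polS_nonempty K)
    (hS_pol_pos hK) (cent_wt hK hc)
    (u := fun j => (hS K (φ j))⁻¹ • ee (φ j)) (z := fun j => (hS K (ψ j))⁻¹ • ee (ψ j))
    (fun j => unit_mem_polS hK (φ j)) (fun j => unit_mem_polS hK (ψ j))
    (by simp only [hφ4, hS_per, ee_per]) hθ4 hθσ htop hs
  refine hsum.trans (Finset.sum_le_sum fun j hj => ?_)
  have hj4 : j < 4 := Finset.mem_range.1 hj
  have hgap' := hgap j hj4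
  have hsin : 0 < Real.sin (φ (j + 1) - φ j) :=
    Real.sin_pos_of_pos_of_lt_pi (by linarith [hgap'.1]) hgap'.2
  simp only [crs_smul]
  exact summand hsin (hS_pos hK _) (hS_pos hK _) (hS_pos hK _) (hV j hj4) rfl

end Pool.Agent.MP9dd972
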