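import Mathlib
import Pool.Agent.Lib.MP_9dd972_gt.Defs
import Pool.Agent.Lib.MP_9dd972_gt.Supp
import Pool.Agent.Lib.MP_9dd972_gt.Stj
import Pool.Agent.Lib.MP_9dd972_gt.Sibp
import Pool.Agent.Lib.MP_9dd972_gt.Pol
import Pool.Agent.Lib.MP_9dd972_gt.Meq

/-!
# MP_9dd972_gt, planar case: unique continuation
-/

set_option autoImplicit false

namespace Pool.Agent.MP9dd972

open MeasureTheory Set
open scoped ENNReal NNReal Real

namespace UcAux

theorem abs_rpow_sub_one {x q : ℝ} (hx : 0 < x) (hq0 : 0 ≤ q) (hq1 : q ≤ 1) :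
    |x ^ q - 1| ≤ |x - 1| := by
  rcases le_total 1 x with h | h
  · have h1 : 1 ≤ x ^ q := Real.one_le_rpow h hq0
    have h2 : x ^ q ≤ x := by
      calc x ^ q ≤ x ^ (1 : ℝ) := Real.rpow_le_rpow_of_exponent_le h hq1
        _ = x := Real.rpow_one x
    rw [abs_of_nonneg (by linarith), abs_of_nonneg (by linarith)]
    linarith
  · have h1 : x ^ q ≤ 1 := Real.rpow_le_one hx.le h hq0
    have h2 : x ≤ x ^ q := by
      calc x = x ^ (1 : ℝ) := (Real.rpow_one x).symm
        _ ≤ x ^ q := Real.rpow_le_rpow_of_exponent_ge hx h hq1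
    rw [abs_of_nonpos (by linarith), abs_of_nonpos (by linarith)]
    linarith

theorem lower {f : ℝ → ℝ} (hf : Continuous f) (hp : ∀ t, f (t + 2 * π) = f t)
    (hpos : ∀ t, 0 < f t) : ∃ c : ℝ, 0 < c ∧ ∀ t, c ≤ f t := by
  obtain ⟨t0, -, ht0⟩ := (isCompact_Icc (a := (0 : ℝ)) (b := 2 * π)).exists_isMinOn
    ⟨0, by constructor <;> positivity⟩ hf.continuousOn
  refine ⟨f t0, hpos t0, fun t => ?_⟩
  have hper : Function.Periodic f (2 * π) := hp
  obtain ⟨y, hy, hty⟩ := hper.exists_mem_Ico₀ (by positivity) t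
  rw [hty]
  exact ht0 ⟨hy.1, hy.2.le⟩

theorem upper {f : ℝ → ℝ} (hf : Continuous f) (hp : ∀ t, f (t + 2 * π) = f t) :
    ∃ c : ℝ, ∀ t, f t ≤ c := by
  obtain ⟨t0, -, ht0⟩ := (isCompact_Icc (a := (0 : ℝ)) (b := 2 * π)).exists_isMaxOn
    ⟨0, by constructor <;> positivity⟩ hf.continuousOn
  refine ⟨f t0, fun t => ?_⟩
  have hper : Function.Periodic f (2 * π) := hp
  obtain ⟨y, hy, hty⟩ := hper.exists_mem_Ico₀ (by positivity) t
  rw [hty]
  exact ht0 ⟨hy.1, hy.2.le⟩

theorem sig_bdd {L : Set E2} (hL : IsCompact L) (hne : L.Nonempty) :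
    ∃ B : ℝ, 0 < B ∧ ∀ a b : ℝ, a ≤ b → b ≤ a + 1 → (sigS L).real (Ioc a b) ≤ B := by
  obtain ⟨M, hM⟩ := rS_bdd hL hne
  obtain ⟨N, hN⟩ := hS_lip hL hne
  obtain ⟨c, hc⟩ := upper hN.continuous (hS_per L)
  refine ⟨2 * M + |c| + 1, ?_, fun a b hab hb => ?_⟩
  · have := abs_nonneg (rS L 0)
    have := hM 0
    have := abs_nonneg c
    linarith
  · have hM0 : 0 ≤ M := (abs_nonneg _).trans (hM 0)
    rw [Measure.real, sigS_Ioc hL hne hab]
    have h1 : rS L b - rS L a ≤ 2 * M := by
      have := abs_le.1 (hM a)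
      have := abs_le.1 (hM b)
      linarith
    have h2 : ∫ s in a..b, hS L s ≤ |c| := by
      calc ∫ s in a..b, hS L s ≤ ∫ s in a..b, |c| := by
            apply intervalIntegral.integral_mono_on hab (hN.continuous.intervalIntegrable _ _)
              (continuous_const.intervalIntegrable _ _)
            intro x _
            exact (hc x).trans (le_abs_self c)
        _ = (b - a) * |c| := by simp
        _ ≤ 1 * |c| := mul_le_mul_of_nonneg_right (by linarith) (abs_nonneg c)
        _ = |c| := one_mul _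
    calc (ENNReal.ofReal (rS L b - rS L a + ∫ s in a..b, hS L s)).toReal
        ≤ max (rS L b - rS L a + ∫ s in a..b, hS L s) 0 := by
          rw [ENNReal.toReal_ofReal']
      _ ≤ 2 * M + |c| + 1 := by
          apply max_le
          · linarith
          · have := abs_nonneg c
            linarith

end UcAux

open UcAux

theorem uc {K C : Set E2} {p : ℝ} (h : LPair p K C) {z : ℝ} (hz : hS K z = hS C z)
    (hr : rS K z = rS C z) : ∀ t, hS K t = hS C t := by
  have hKc := h.bK.comp
  have hCc := h.bC.comp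
  have hKn : K.Nonempty := ⟨0, interior_subset h.bK.zero⟩
  have hCn : C.Nonempty := ⟨0, interior_subset h.bC.zero⟩
  obtain ⟨NK, hNK⟩ := hS_lip hKc hKn
  obtain ⟨NC, hNC⟩ := hS_lip hCc hCn
  have hcK := hNK.continuous
  have hcC := hNC.continuous
  obtain ⟨c, hc0, hc⟩ := lower hcC (hS_per C) (hS_pos h.bC)
  obtain ⟨B, hB0, hB⟩ := sig_bdd hKc hKn
  have hp0 := h.p0
  have hp1 := h.p1
  have := sigS_lf K
  -- the density
  have hrho : ∀ x, |(hS K x / hS C x) ^ (1 - p) - 1| ≤ c⁻¹ * |hS C x - hS K x| := by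
    intro x
    have h1 := hS_pos h.bC x
    have h2 := hS_pos h.bK x
    refine (abs_rpow_sub_one (div_pos h2 h1) (by linarith) (by linarith)).trans ?_
    have h3 : hS K x / hS C x - 1 = -(hS C x - hS K x) / hS C x := by
      field_simp
      ring
    rw [h3, abs_div, abs_neg, abs_of_pos h1, div_eq_inv_mul]
    apply mul_le_mul_of_nonneg_right _ (abs_nonneg _)
    exact inv_anti₀ hc0 (hc x)
  have hcont : Continuous fun x => (hS K x / hS C x) ^ (1 - p) := by
    apply Continuous.rpow_const (hcK.div hcC fun x => (hS_pos h.bC x).ne')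
    intro x
    right
    linarith
  set A := c⁻¹ with hA
  have hA0 : 0 < A := inv_pos.2 hc0
  obtain ⟨eps, he0, he1, heAB⟩ : ∃ eps : ℝ, 0 < eps ∧ eps ≤ 1 ∧ A * B * eps ≤ 1 / 2 := by
    refine ⟨min 1 (1 / (2 * (A * B))), by positivity, min_le_left _ _, ?_⟩
    have : min 1 (1 / (2 * (A * B))) ≤ 1 / (2 * (A * B)) := min_le_right _ _
    calc A * B * min 1 (1 / (2 * (A * B))) ≤ A * B * (1 / (2 * (A * B))) :=
          mul_le_mul_of_nonneg_left this (by positivity)
      _ = 1 / 2 := by field_simp
  -- one step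
  have step : ∀ z : ℝ, hS K z = hS C z → rS K z = rS C z →
      ∀ y ∈ Icc z (z + eps), hS K y = hS C y ∧ rS K y = rS C y := by
    intro z hz hr
    obtain ⟨ys, hys, hmax⟩ := (isCompact_Icc (a := z) (b := z + eps)).exists_isMaxOn
      ⟨z, by constructor <;> linarith⟩
      ((hcC.sub hcK).abs.continuousOn (s := Icc z (z + eps)))
    have hmax' : ∀ x ∈ Icc z (z + eps), |hS C x - hS K x| ≤ |hS C ys - hS K ys| := fun x hx =>
      hmax hx
    set M := |hS C ys - hS K ys| with hM
    have hM0 : 0 ≤ M := abs_nonneg _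
    have hfin : ∀ y, (sigS K) (Ioc z y) < ∞ := fun y =>
      (measure_mono Ioc_subset_Icc_self).trans_lt isCompact_Icc.measure_lt_top
    have key : ∀ y ∈ Icc z (z + eps), |hS C y - hS K y| ≤ M / 2 := by
      intro y hy
      have e1 := sig_sin hCc hCn hy.1
      have e2 := sig_sin hKc hKn hy.1
      rw [h.integral_eq (by fun_prop) z y] at e1
      have e3 : hS C y - hS K y = ∫ x in Ioc z y,
          Real.sin (y - x) * ((hS K x / hS C x) ^ (1 - p) - 1) ∂(sigS K) := by
        have i1 : IntegrableOn (fun x => Real.sin (y - x) * (hS K x / hS C x) ^ (1 - p))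
            (Ioc z y) (sigS K) :=
          ((by fun_prop : Continuous fun x => Real.sin (y - x)).mul hcont).integrableOn_Ioc
        have i2 : IntegrableOn (fun x => Real.sin (y - x)) (Ioc z y) (sigS K) :=
          (by fun_prop : Continuous fun x => Real.sin (y - x)).integrableOn_Ioc
        have : (fun x => Real.sin (y - x) * ((hS K x / hS C x) ^ (1 - p) - 1)) =
            fun x => Real.sin (y - x) * (hS K x / hS C x) ^ (1 - p) - Real.sin (y - x) := by
          funext x
          ring
        rw [this, integral_sub i1 i2, e1, e2, hz, hr]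
        ring
      rw [e3]
      have b1 : ∀ x ∈ Ioc z y, ‖Real.sin (y - x) * ((hS K x / hS C x) ^ (1 - p) - 1)‖ ≤
          eps * (A * M) := by
        intro x hx
        rw [norm_mul, Real.norm_eq_abs, Real.norm_eq_abs]
        apply mul_le_mul _ _ (abs_nonneg _) he0.le
        · have h1 : |Real.sin (y - x)| ≤ |y - x| := Real.abs_sin_le_abs
          refine h1.trans ?_
          rw [abs_of_nonneg (by linarith [hx.2])]
          linarith [hx.1, hy.2]
        · refine (hrho x).trans (mul_le_mul_of_nonneg_left (hmax' x ?_) hA0.le)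
          exact ⟨hx.1.le, hx.2.trans hy.2⟩
      have b2 := norm_setIntegral_le_of_norm_le_const (hfin y) b1
      rw [Real.norm_eq_abs] at b2
      refine b2.trans ?_
      have b3 : (sigS K).real (Ioc z y) ≤ B := hB z y hy.1 (by linarith [hy.2])
      calc eps * (A * M) * (sigS K).real (Ioc z y) ≤ eps * (A * M) * B :=
            mul_le_mul_of_nonneg_left b3 (by positivity)
        _ = (A * B * eps) * M := by ring
        _ ≤ 1 / 2 * M := mul_le_mul_of_nonneg_right heAB hM0
        _ = M / 2 := by ring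
    have hMz : M = 0 := by
      have := key ys hys
      linarith
    have hD : ∀ y ∈ Icc z (z + eps), hS K y = hS C y := by
      intro y hy
      have h1 := hmax' y hy
      rw [hMz] at h1
      have h2 := abs_nonpos_iff.1 h1
      linarith
    intro y hy
    refine ⟨hD y hy, ?_⟩
    have e1 := sig_cos hCc hCn hy.1
    have e2 := sig_cos hKc hKn hy.1
    rw [h.integral_eq (by fun_prop) z y] at e1
    have e3 : ∫ x in Ioc z y, Real.cos (y - x) * (hS K x / hS C x) ^ (1 - p) ∂(sigS K) =
        ∫ x in Ioc z y, Real.cos (y - x) ∂(sigS K) := by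
      apply setIntegral_congr_fun measurableSet_Ioc
      intro x hx
      have h1 := hD x ⟨hx.1.le, hx.2.trans hy.2⟩
      have h2 := (hS_pos h.bC x).ne'
      simp only [h1, div_self h2, Real.one_rpow, mul_one]
    rw [e3, e2, hz, hr] at e1
    linarith
  have iter : ∀ n : ℕ, ∀ y ∈ Icc z (z + n * eps), hS K y = hS C y ∧ rS K y = rS C y := by
    intro n
    induction n with
    | zero =>
      intro y hy
      have : y = z := by
        have h1 := hy.1
        have h2 := hy.2
        simp at h2
        linarith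
      rw [this]
      exact ⟨hz, hr⟩
    | succ n ih =>
      intro y hy
      rcases le_total y (z + n * eps) with h1 | h1
      · exact ih y ⟨hy.1, h1⟩
      · have h2 := ih (z + n * eps) ⟨by
          have : 0 ≤ (n : ℝ) * eps := by positivity
          linarith, le_refl _⟩
        apply step _ h2.1 h2.2 y ⟨h1, ?_⟩
        have h3 := hy.2
        push_cast at h3
        linarith
  obtain ⟨n, hn⟩ := exists_nat_gt (2 * π / eps)
  have hn' : 2 * π ≤ n * eps := by
    rw [div_lt_iff₀ he0] at hn
    exact hn.le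
  intro t
  have hper : Function.Periodic (fun t => hS K t - hS C t) (2 * π) := by
    intro t
    simp only [hS_per]
  obtain ⟨y, hy, hty⟩ := hper.exists_mem_Ico (by positivity) t z
  have h5 := (iter n y ⟨hy.1, by linarith [hy.2]⟩).1
  have hty' : hS K t - hS C t = hS K y - hS C y := hty
  linarith

end Pool.Agent.MP9dd972
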