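import Mathlib
import Pool.Agent.Lib.MP_9dd972_gt.Defs
import Pool.Agent.Lib.MP_9dd972_gt.Supp
import Pool.Agent.Lib.MP_9dd972_gt.Meq
import Pool.Agent.Lib.MP_9dd972_gt.Len
import Pool.Agent.Lib.MP_9dd972_gt.Uc
import Pool.Agent.Lib.MP_9dd972_gt.Der

/-!
# MP_9dd972_gt, planar case, module SEL: selection of four zeros
-/

set_option autoImplicit false

namespace Pool.Agent.MP9dd972

open MeasureTheory Set
open scoped ENNReal NNReal Real

namespace SelAux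

open Filter Topology

/-- positive derivative at a zero: positive values right of it -/
theorem pos_right {D : ℝ → ℝ} {z k : ℝ} (hd : HasDerivAt D k z) (hz : D z = 0) (hk : 0 < k)
    {w : ℝ} (hw : z < w) : ∃ t ∈ Ioo z w, 0 < D t := by
  have h1 := hasDerivAt_iff_tendsto_slope.1 hd
  have h2 : ∀ᶠ t in 𝓝[≠] z, 0 < slope D z t := h1.eventually (lt_mem_nhds hk)
  have h3 : ∀ᶠ t in 𝓝[>] z, 0 < slope D z t :=
    h2.filter_mono (nhdsWithin_mono z fun t ht => ne_of_gt ht)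
  have h4 : ∀ᶠ t in 𝓝[>] z, t ∈ Ioo z w := Ioo_mem_nhdsGT hw
  obtain ⟨t, ht1, ht2⟩ := (h3.and h4).exists
  refine ⟨t, ht2, ?_⟩
  rw [slope_def_field, hz, sub_zero] at ht1
  have h5 : 0 < t - z := sub_pos.2 ht2.1
  have h6 := mul_pos ht1 h5
  rwa [div_mul_cancel₀ _ h5.ne'] at h6

/-- positive derivative at a zero: negative values left of it -/
theorem neg_left {D : ℝ → ℝ} {z k : ℝ} (hd : HasDerivAt D k z) (hz : D z = 0) (hk : 0 < k)
    {w : ℝ} (hw : w < z) : ∃ t ∈ Ioo w z, D t < 0 := by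
  have h1 := hasDerivAt_iff_tendsto_slope.1 hd
  have h2 : ∀ᶠ t in 𝓝[≠] z, 0 < slope D z t := h1.eventually (lt_mem_nhds hk)
  have h3 : ∀ᶠ t in 𝓝[<] z, 0 < slope D z t :=
    h2.filter_mono (nhdsWithin_mono z fun t ht => ne_of_lt ht)
  have h4 : ∀ᶠ t in 𝓝[<] z, t ∈ Ioo w z := Ioo_mem_nhdsLT hw
  obtain ⟨t, ht1, ht2⟩ := (h3.and h4).exists
  refine ⟨t, ht2, ?_⟩
  rw [slope_def_field, hz, sub_zero] at ht1
  have h5 : t - z < 0 := sub_neg.2 ht2.2
  have h6 := mul_neg_of_pos_of_neg ht1 h5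
  rwa [div_mul_cancel₀ _ h5.ne] at h6

/-- no two consecutive zeros with positive derivatives -/
theorem no_two_pos {D : ℝ → ℝ} (hD : Continuous D) {z w k k' : ℝ} (hzw : z < w)
    (hz : D z = 0) (hw : D w = 0) (hno : ∀ t ∈ Ioo z w, D t ≠ 0)
    (hd : HasDerivAt D k z) (hd' : HasDerivAt D k' w) (hk : 0 < k) (hk' : 0 < k') : False := by
  obtain ⟨a, ha, ha'⟩ := pos_right hd hz hk hzw
  obtain ⟨b, hb, hb'⟩ := neg_left hd' hw hk' hzw
  obtain ⟨c, hc, hc'⟩ := (isPreconnected_Ioo (a := z) (b := w)).intermediate_value₂ hb ha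
    hD.continuousOn continuousOn_const hb'.le ha'.le
  exact hno c hc hc'

/-- consecutive zeros have derivatives of opposite signs -/
theorem opp_sign {D : ℝ → ℝ} (hD : Continuous D) {z w k k' : ℝ} (hzw : z < w)
    (hz : D z = 0) (hw : D w = 0) (hno : ∀ t ∈ Ioo z w, D t ≠ 0)
    (hd : HasDerivAt D k z) (hd' : HasDerivAt D k' w) (hk : k ≠ 0) (hk' : k' ≠ 0) :
    k * k' < 0 := by
  rcases lt_or_gt_of_ne hk with h1 | h1 <;> rcases lt_or_gt_of_ne hk' with h2 | h2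
  · exfalso
    exact no_two_pos (D := fun t => - D t) hD.neg hzw (by simp [hz]) (by simp [hw])
      (fun t ht => neg_ne_zero.2 (hno t ht)) hd.neg hd'.neg (neg_pos.2 h1) (neg_pos.2 h2)
  · exact mul_neg_of_neg_of_pos h1 h2
  · exact mul_neg_of_pos_of_neg h1 h2
  · exact (no_two_pos hD hzw hz hw hno hd hd' h1 h2).elim

/-- the zeros are isolated -/
theorem isolated {D : ℝ → ℝ} (hD : Continuous D) (k : ℝ → ℝ)
    (hk : ∀ z, D z = 0 → HasDerivAt D (k z) z ∧ k z ≠ 0) (x : ℝ) :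
    ∃ e > 0, ∀ t, t ≠ x → |t - x| < e → D t ≠ 0 := by
  have h : ∀ᶠ t in 𝓝[≠] x, D t ≠ 0 := by
    by_cases hx : D x = 0
    · obtain ⟨h1, h2⟩ := hk x hx
      exact h1.eventually_ne h2
    · exact (hD.continuousAt.eventually_ne hx).filter_mono nhdsWithin_le_nhds
  obtain ⟨e, he, h2⟩ := Metric.mem_nhdsWithin_iff.1 h
  refine ⟨e, he, fun t ht ht' => h2 ⟨?_, ht⟩⟩
  rw [Metric.mem_ball, Real.dist_eq]
  exact ht'

/-- the last zero before `b` -/
theorem last_zero {D : ℝ → ℝ} (hD : Continuous D) (k : ℝ → ℝ)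
    (hk : ∀ z, D z = 0 → HasDerivAt D (k z) z ∧ k z ≠ 0) {a b : ℝ}
    (hex : ∃ t ∈ Ioo a b, D t = 0) :
    ∃ w ∈ Ioo a b, D w = 0 ∧ ∀ t ∈ Ioo w b, D t ≠ 0 := by
  obtain ⟨t0, ht0, ht0'⟩ := hex
  obtain ⟨e, he, h1⟩ := isolated hD k hk b
  have hcpt : IsCompact (Icc t0 (b - e) ∩ {t | D t = 0}) :=
    isCompact_Icc.inter_right (isClosed_eq hD continuous_const)
  have hlt : ∀ t, t < b → D t = 0 → t ≤ b - e := by
    intro t ht ht'
    by_contra hcon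
    refine h1 t ht.ne ?_ ht'
    rw [abs_of_neg (sub_neg.2 ht)]
    linarith
  have hne : (Icc t0 (b - e) ∩ {t | D t = 0}).Nonempty :=
    ⟨t0, ⟨le_refl _, hlt t0 ht0.2 ht0'⟩, ht0'⟩
  obtain ⟨w, ⟨hw1, hw2⟩, hw3⟩ := hcpt.exists_isGreatest hne
  refine ⟨w, ⟨ht0.1.trans_le hw1.1, by linarith [hw1.2]⟩, hw2, fun t ht ht' => ?_⟩
  have h2 : t ≤ w := hw3 ⟨⟨hw1.1.trans ht.1.le, hlt t ht.2 ht'⟩, ht'⟩
  exact absurd ht.1 (not_lt.2 h2)

/-- the sequence with the given first values -/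
def seq5 (a b c d e : ℝ) : ℕ → ℝ
  | 0 => a
  | 1 => b
  | 2 => c
  | 3 => d
  | _ => e

theorem abstract_select {D : ℝ → ℝ} (hD : Continuous D) (k : ℝ → ℝ)
    (hk : ∀ z, D z = 0 → HasDerivAt D (k z) z ∧ k z ≠ 0)
    (hper : ∀ t, D (t + 2 * π) = D t) (hkper : ∀ t, k (t + 2 * π) = k t)
    (hex : ∀ a, ∃ t ∈ Ioo a (a + π), D t = 0) :
    ∃ φ : ℕ → ℝ, φ 4 = φ 0 + 2 * π ∧ (∀ j < 4, φ j < φ (j + 1) ∧ φ (j + 1) - φ j < π) ∧
      (∀ j ≤ 4, D (φ j) = 0) := by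
  have hpi := Real.pi_pos
  have mk : ∀ a b c d : ℝ, D a = 0 → D b = 0 → D c = 0 → D d = 0 → a < b → b < c → c < d →
      d < a + 2 * π → b - a < π → c - b < π → d - c < π → a + 2 * π - d < π →
      ∃ φ : ℕ → ℝ, φ 4 = φ 0 + 2 * π ∧ (∀ j < 4, φ j < φ (j + 1) ∧ φ (j + 1) - φ j < π) ∧
        (∀ j ≤ 4, D (φ j) = 0) := by
    intro a b c d ha hb hc hd h1 h2 h3 h4 g1 g2 g3 g4
    refine ⟨seq5 a b c d (a + 2 * π), rfl, ?_, ?_⟩
    · intro j hj
      have : j = 0 ∨ j = 1 ∨ j = 2 ∨ j = 3 := by omega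
      rcases this with rfl | rfl | rfl | rfl
      · exact ⟨h1, g1⟩
      · exact ⟨h2, g2⟩
      · exact ⟨h3, g3⟩
      · exact ⟨h4, g4⟩
    · intro j hj
      have : j = 0 ∨ j = 1 ∨ j = 2 ∨ j = 3 ∨ j = 4 := by omega
      rcases this with rfl | rfl | rfl | rfl | rfl
      · exact ha
      · exact hb
      · exact hc
      · exact hd
      · show D (a + 2 * π) = 0
        rw [hper, ha]
  obtain ⟨z1, -, hz1⟩ := hex 0
  obtain ⟨z2, hz2, hz2', hz2''⟩ := last_zero hD k hk (hex z1)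
  obtain ⟨z3, hz3, hz3', hz3''⟩ := last_zero hD k hk (hex z2)
  have h31 : z1 + π ≤ z3 := by
    by_contra hcon
    exact hz2'' z3 ⟨hz3.1, not_le.1 hcon⟩ hz3'
  rcases h31.eq_or_lt with h | h
  · obtain ⟨z4, hz4, hz4'⟩ := hex z3
    refine mk z1 z2 z3 z4 hz1 hz2' hz3' hz4' hz2.1 hz3.1 hz4.1 ?_ ?_ ?_ ?_ ?_
    · linarith [hz4.2]
    · linarith [hz2.2]
    · linarith [hz3.2]
    · linarith [hz4.2]
    · linarith [hz4.1]
  · have hz3lt : z3 < z1 + 2 * π := by linarith [hz3.2, hz2.2]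
    by_cases c1 : ∃ t ∈ Ioo z1 z2, D t = 0
    · obtain ⟨w, hw, hw'⟩ := c1
      refine mk z1 w z2 z3 hz1 hw' hz2' hz3' hw.1 hw.2 hz3.1 hz3lt ?_ ?_ ?_ ?_
      · linarith [hz2.2, hw.2]
      · linarith [hz2.2, hw.1]
      · linarith [hz3.2]
      · linarith
    by_cases c2 : ∃ t ∈ Ioo z2 z3, D t = 0
    · obtain ⟨w, hw, hw'⟩ := c2
      refine mk z1 z2 w z3 hz1 hz2' hw' hz3' hz2.1 hw.1 hw.2 hz3lt ?_ ?_ ?_ ?_
      · linarith [hz2.2]
      · linarith [hz3.2, hw.2]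
      · linarith [hz3.2, hw.1]
      · linarith
    by_cases c3 : ∃ t ∈ Ioo z3 (z1 + 2 * π), D t = 0
    · obtain ⟨w, hw, hw'⟩ := c3
      refine mk z1 z2 z3 w hz1 hz2' hz3' hw' hz2.1 hz3.1 hw.1 hw.2 ?_ ?_ ?_ ?_
      · linarith [hz2.2]
      · linarith [hz3.2]
      · linarith [hw.2]
      · linarith [hw.1]
    exfalso
    push_neg at c1 c2 c3
    have hz1p : D (z1 + 2 * π) = 0 := by rw [hper, hz1]
    obtain ⟨d1, k1⟩ := hk z1 hz1
    obtain ⟨d2, k2⟩ := hk z2 hz2'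
    obtain ⟨d3, k3⟩ := hk z3 hz3'
    obtain ⟨d4, k4⟩ := hk _ hz1p
    rw [hkper] at d4 k4
    have e1 := opp_sign hD hz2.1 hz1 hz2' c1 d1 d2 k1 k2
    have e2 := opp_sign hD hz3.1 hz2' hz3' c2 d2 d3 k2 k3
    have e3 := opp_sign hD hz3lt hz3' hz1p c3 d3 d4 k3 k1
    have e4 : 0 < (k z1 * k z2) * (k z2 * k z3) := mul_pos_of_neg_of_neg e1 e2
    have e5 := mul_neg_of_pos_of_neg e4 e3
    have e6 : (k z1 * k z2) * (k z2 * k z3) * (k z3 * k z1) = (k z1 * k z2 * k z3) ^ 2 := by ring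
    rw [e6] at e5
    exact absurd e5 (not_lt.2 (sq_nonneg _))

end SelAux

theorem select {K C : Set E2} {p : ℝ} (h : LPair p K C) (hne : ¬ ∀ t, hS K t = hS C t) :
    ∃ φ : ℕ → ℝ, φ 4 = φ 0 + 2 * π ∧ (∀ j < 4, φ j < φ (j + 1) ∧ φ (j + 1) - φ j < π) ∧
      (∀ j ≤ 4, hS K (φ j) = hS C (φ j)) ∧
      ∀ j < 4, ∃ t ∈ Ioo (φ j) (φ (j + 1)), hS K t ≠ hS C t := by
  have cK : Continuous (hS K) := by
    obtain ⟨M, hM⟩ := hS_lip h.bK.comp ⟨0, interior_subset h.bK.zero⟩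
    exact hM.continuous
  have cC : Continuous (hS C) := by
    obtain ⟨M, hM⟩ := hS_lip h.bC.comp ⟨0, interior_subset h.bC.zero⟩
    exact hM.continuous
  set D : ℝ → ℝ := fun t => hS C t - hS K t with hDdef
  have hD : Continuous D := cC.sub cK
  have hk : ∀ z, D z = 0 → HasDerivAt D (rS C z - rS K z) z ∧ rS C z - rS K z ≠ 0 := by
    intro z hz
    have hz' : hS K z = hS C z := by
      have : hS C z - hS K z = 0 := hz
      linarith
    refine ⟨deriv_diff h hz', fun h0 => hne (uc h hz' ?_)⟩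
    linarith
  have hex : ∀ a, ∃ t ∈ Ioo a (a + π), D t = 0 := by
    intro a
    by_contra hcon
    push_neg at hcon
    obtain ⟨t1, ht1, h1⟩ : ∃ t ∈ Ioo a (a + π), hS C t ≤ hS K t := by
      by_contra h2
      push_neg at h2
      exact not_pos_half h a h2
    obtain ⟨t2, ht2, h2⟩ : ∃ t ∈ Ioo a (a + π), hS K t ≤ hS C t := by
      by_contra h2
      push_neg at h2
      exact not_pos_half h.symm a h2
    obtain ⟨c, hc, hc'⟩ := (isPreconnected_Ioo (a := a) (b := a + π)).intermediate_value₂ ht1 ht2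
      hD.continuousOn continuousOn_const
      (show D t1 ≤ (fun _ => (0 : ℝ)) t1 from sub_nonpos.2 h1)
      (show (fun _ => (0 : ℝ)) t2 ≤ D t2 from sub_nonneg.2 h2)
    exact hcon c hc hc'
  obtain ⟨φ, h4, hφ, hz⟩ := SelAux.abstract_select hD (fun z => rS C z - rS K z) hk
    (fun t => by simp only [hDdef, hS_per]) (fun t => by simp only [rS_per]) hex
  refine ⟨φ, h4, hφ, fun j hj => ?_, fun j hj => ?_⟩
  · have : hS C (φ j) - hS K (φ j) = 0 := hz j hj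
    linarith
  · obtain ⟨e, he, h1⟩ := SelAux.isolated hD (fun z => rS C z - rS K z) hk (φ j)
    have hlt := (hφ j hj).1
    set t : ℝ := φ j + min (e / 2) ((φ (j + 1) - φ j) / 2) with ht
    have hm : 0 < min (e / 2) ((φ (j + 1) - φ j) / 2) := lt_min (by linarith) (by linarith)
    have hm1 : min (e / 2) ((φ (j + 1) - φ j) / 2) ≤ e / 2 := min_le_left _ _
    have hm2 : min (e / 2) ((φ (j + 1) - φ j) / 2) ≤ (φ (j + 1) - φ j) / 2 := min_le_right _ _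
    refine ⟨t, ⟨by linarith, by linarith⟩, fun heq => ?_⟩
    refine h1 t (by linarith : φ j < t).ne' ?_ ?_
    · rw [ht, add_sub_cancel_left, abs_of_pos hm]
      linarith
    · show hS C t - hS K t = 0
      linarith

end Pool.Agent.MP9dd972
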