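import Mathlib
import Pool.Agent.Lib.MP_9dd972_gt.Defs
import Pool.Agent.Lib.MP_9dd972_gt.Supp
import Pool.Agent.Lib.MP_9dd972_gt.Meq
import Pool.Agent.Lib.MP_9dd972_gt.Nod
import Pool.Agent.Lib.MP_9dd972_gt.Sel

set_option autoImplicit false

namespace Pool.Agent.MP9dd972

open MeasureTheory Set
open scoped ENNReal NNReal Real

namespace PartBAux

theorem body_ne {K : Set E2} (h : Body K) : K.Nonempty := ⟨0, interior_subset h.zero⟩

/-- the sinusoid of a subinterval lies below the sinusoid of the interval -/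
theorem VV_mono {K : Set E2} (hK : Body K) {a b c d ψ : ℝ} (hac : a ≤ c) (hcψ : c < ψ) (hψd : ψ < d)
    (hdb : d ≤ b) (hpi : b - a < π) : VV K c d ψ ≤ VV K a b ψ := by
  have hsab : 0 < Real.sin (b - a) := Real.sin_pos_of_pos_of_lt_pi (by linarith) hpi
  have hscd : 0 < Real.sin (d - c) := Real.sin_pos_of_pos_of_lt_pi (by linarith) (by linarith)
  have h1 : 0 < Real.sin (d - ψ) := Real.sin_pos_of_pos_of_lt_pi (by linarith) (by linarith)
  have h2 : 0 < Real.sin (ψ - c) := Real.sin_pos_of_pos_of_lt_pi (by linarith) (by linarith)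
  have hc := hS_tc hK.comp (body_ne hK) (a := a) (x := c) (b := b) hac (by linarith) hpi.le
  have hd := hS_tc hK.comp (body_ne hK) (a := a) (x := d) (b := b) (by linarith) hdb hpi.le
  unfold VV
  rw [div_le_div_iff₀ hscd hsab]
  have e1 : Real.sin (b - c) * Real.sin (d - ψ) + Real.sin (b - d) * Real.sin (ψ - c) =
      Real.sin (b - ψ) * Real.sin (d - c) := by
    simp only [Real.sin_sub]; ring
  have e2 : Real.sin (c - a) * Real.sin (d - ψ) + Real.sin (d - a) * Real.sin (ψ - c) =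
      Real.sin (ψ - a) * Real.sin (d - c) := by
    simp only [Real.sin_sub]; ring
  calc (hS K c * Real.sin (d - ψ) + hS K d * Real.sin (ψ - c)) * Real.sin (b - a)
      = (hS K c * Real.sin (b - a)) * Real.sin (d - ψ) + (hS K d * Real.sin (b - a)) * Real.sin (ψ - c) := by
        ring
    _ ≤ (hS K a * Real.sin (b - c) + hS K b * Real.sin (c - a)) * Real.sin (d - ψ) +
        (hS K a * Real.sin (b - d) + hS K b * Real.sin (d - a)) * Real.sin (ψ - c) :=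
        add_le_add (mul_le_mul_of_nonneg_right hc h1.le) (mul_le_mul_of_nonneg_right hd h2.le)
    _ = hS K a * (Real.sin (b - c) * Real.sin (d - ψ) + Real.sin (b - d) * Real.sin (ψ - c)) +
        hS K b * (Real.sin (c - a) * Real.sin (d - ψ) + Real.sin (d - a) * Real.sin (ψ - c)) := by ring
    _ = (hS K a * Real.sin (b - ψ) + hS K b * Real.sin (ψ - a)) * Real.sin (d - c) := by
        rw [e1, e2]; ring

/-- a continuous function without zeros on `(c,d)` has the sign of one point -/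
theorem sign_const {f g : ℝ → ℝ} (hf : Continuous f) (hg : Continuous g) {c d t₀ : ℝ}
    (ht₀ : t₀ ∈ Ioo c d) (hlt : f t₀ < g t₀) (hne : ∀ t ∈ Ioo c d, f t ≠ g t) :
    ∀ t ∈ Ioo c d, f t < g t := by
  intro t ht
  by_contra hcon
  have hgt : g t < f t := lt_of_le_of_ne (not_lt.1 hcon) (hne t ht).symm
  have hcont : ContinuousOn (fun x => g x - f x) (uIcc t t₀) := (hg.sub hf).continuousOn
  have h0 : (0 : ℝ) ∈ uIcc (g t - f t) (g t₀ - f t₀) := by
    rw [mem_uIcc]; left; constructor <;> linarith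
  obtain ⟨x, hx, hx0⟩ := intermediate_value_uIcc hcont h0
  have hxI : x ∈ Ioo c d := by
    rcases le_total t t₀ with hh | hh
    · rw [uIcc_of_le hh] at hx
      exact ⟨lt_of_lt_of_le ht.1 hx.1, lt_of_le_of_lt hx.2 ht₀.2⟩
    · rw [uIcc_of_ge hh] at hx
      exact ⟨lt_of_lt_of_le ht₀.1 hx.1, lt_of_le_of_lt hx.2 ht.2⟩
  have hx0' : g x - f x = 0 := hx0
  exact hne x hxI (by linarith)

/-- the witness in one gap -/
theorem gap {K C : Set E2} {p : ℝ} (h : LPair p K C) {a b t₀ : ℝ} (ht₀ : t₀ ∈ Ioo a b)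
    (hpi : b - a < π) (ha : hS K a = hS C a) (hb : hS K b = hS C b) (hne : hS K t₀ ≠ hS C t₀) :
    ∃ ψ ∈ Ioo a b, hS K ψ + hS C ψ < VV K a b ψ := by
  obtain ⟨MK, hMK⟩ := hS_lip h.bK.comp (body_ne h.bK)
  obtain ⟨MC, hMC⟩ := hS_lip h.bC.comp (body_ne h.bC)
  have hcK := hMK.continuous
  have hcC := hMC.continuous
  have hclosed : IsClosed {t : ℝ | hS K t = hS C t} := isClosed_eq hcK hcC
  obtain ⟨c, ⟨⟨hca, hct⟩, hc0⟩, hcmax⟩ :=
    (isCompact_Icc.inter_right hclosed : IsCompact (Icc a t₀ ∩ {t : ℝ | hS K t = hS C t})).exists_isGreatest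
      ⟨a, ⟨le_rfl, ht₀.1.le⟩, ha⟩
  obtain ⟨d, ⟨⟨hdt, hdb⟩, hd0⟩, hdmin⟩ :=
    (isCompact_Icc.inter_right hclosed : IsCompact (Icc t₀ b ∩ {t : ℝ | hS K t = hS C t})).exists_isLeast
      ⟨b, ⟨ht₀.2.le, le_rfl⟩, hb⟩
  have hc0' : hS K c = hS C c := hc0
  have hd0' : hS K d = hS C d := hd0
  have hct' : c < t₀ := lt_of_le_of_ne hct fun e => hne (by rw [← e]; exact hc0')
  have hdt' : t₀ < d := lt_of_le_of_ne hdt fun e => hne (by rw [e]; exact hd0')
  have hno : ∀ t ∈ Ioo c d, hS K t ≠ hS C t := by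
    intro t ht he
    rcases le_total t t₀ with hh | hh
    · exact absurd (hcmax ⟨⟨hca.trans ht.1.le, hh⟩, he⟩) (not_le.2 ht.1)
    · exact absurd (hdmin ⟨⟨hh, ht.2.le.trans hdb⟩, he⟩) (not_le.2 ht.2)
  have hcd : c < d := hct'.trans hdt'
  have hcdpi : d - c < π := by linarith
  rcases lt_or_gt_of_ne hne with hlt | hgt
  · obtain ⟨ψ, hψ, hV⟩ := nodal_witness h hcd hcdpi hc0' hd0'
      (sign_const hcK hcC ⟨hct', hdt'⟩ hlt hno)
    exact ⟨ψ, ⟨lt_of_le_of_lt hca hψ.1, lt_of_lt_of_le hψ.2 hdb⟩,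
      hV.trans_le (VV_mono h.bK hca hψ.1 hψ.2 hdb hpi)⟩
  · obtain ⟨ψ, hψ, hV⟩ := nodal_witness h.symm hcd hcdpi hc0'.symm hd0'.symm
      (sign_const hcC hcK ⟨hct', hdt'⟩ hgt fun t ht => (hno t ht).symm)
    have hVV : VV C c d ψ = VV K c d ψ := by
      unfold VV; rw [hc0', hd0']
    rw [hVV, add_comm] at hV
    exact ⟨ψ, ⟨lt_of_le_of_lt hca hψ.1, lt_of_lt_of_le hψ.2 hdb⟩,
      hV.trans_le (VV_mono h.bK hca hψ.1 hψ.2 hdb hpi)⟩

end PartBAux

theorem partB {K C : Set E2} {p : ℝ} (h : LPair p K C) (hne : ¬ ∀ t, hS K t = hS C t) :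
    ∃ φ ψ : ℕ → ℝ, φ 4 = φ 0 + 2 * π ∧ (∀ j < 4, φ j < φ (j + 1) ∧ φ (j + 1) - φ j < π) ∧
      (∀ j ≤ 4, hS K (φ j) = hS C (φ j)) ∧ (∀ j < 4, φ j < ψ j ∧ ψ j < φ (j + 1)) ∧
      ∀ j < 4, hS K (ψ j) + hS C (ψ j) < VV K (φ j) (φ (j + 1)) (ψ j) := by
  obtain ⟨φ, h4, hgap, heq, hw⟩ := select h hne
  have key : ∀ j : ℕ, ∃ ψ : ℝ, j < 4 → (ψ ∈ Ioo (φ j) (φ (j + 1)) ∧
      hS K ψ + hS C ψ < VV K (φ j) (φ (j + 1)) ψ) := by
    intro j
    by_cases hj : j < 4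
    · obtain ⟨t, ht, htne⟩ := hw j hj
      obtain ⟨ψ, hψ, hV⟩ := PartBAux.gap h ht (hgap j hj).2 (heq j hj.le) (heq (j + 1) hj) htne
      exact ⟨ψ, fun _ => ⟨hψ, hV⟩⟩
    · exact ⟨0, fun hj' => absurd hj' hj⟩
  choose ψ hψ using key
  exact ⟨φ, ψ, h4, hgap, heq, fun j hj => (hψ j hj).1, fun j hj => (hψ j hj).2⟩

end Pool.Agent.MP9dd972
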