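import Mathlib
import Pool.Agent.Lib.MP_9dd972_gt.Defs
import Pool.Agent.Lib.MP_9dd972_gt.Pol
import Pool.Agent.Lib.MP_9dd972_gt.Eqs
import Pool.Agent.Lib.MP_9dd972_gt.Int0
import Pool.Agent.Lib.MP_9dd972_gt.Meq
import Pool.Agent.Lib.MP_9dd972_gt.PartA
import Pool.Agent.Lib.MP_9dd972_gt.PartB

/-!
# MP_9dd972_gt, planar case: final assembly
-/

set_option autoImplicit false

namespace Pool.Agent.MP9dd972

open MeasureTheory Set
open scoped ENNReal NNReal Real

theorem planar_uniqueness {p : ℝ} {K C : Set E2} (hP : LPair p K C)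
    (cK : ∫ x in K, x = (0 : E2)) (cC : ∫ x in C, x = (0 : E2)) : K = C := by
  by_contra hKC
  have hne : ¬ ∀ t, hS K t = hS C t := fun h => hKC (eq_of_hS hP.bK hP.bC h)
  obtain ⟨φ, ψ, h4, hgap, heq, hψ, hV⟩ := partB hP hne
  have posK := hS_pos hP.bK
  have posC := hS_pos hP.bC
  have hVV : ∀ j < 4, VV C (φ j) (φ (j + 1)) (ψ j) = VV K (φ j) (φ (j + 1)) (ψ j) := by
    intro j hj
    simp only [VV, heq j hj.le, heq (j + 1) hj]
  have hVK : ∀ j < 4, hS K (ψ j) < VV K (φ j) (φ (j + 1)) (ψ j) := by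
    intro j hj
    linarith [hV j hj, posC (ψ j)]
  have hVC : ∀ j < 4, hS C (ψ j) < VV C (φ j) (φ (j + 1)) (ψ j) := by
    intro j hj
    rw [hVV j hj]
    linarith [hV j hj, posK (ψ j)]
  have hA := partA hP.bK cK h4 hgap hψ hVK
  have hB := partA hP.bC cC h4 hgap hψ hVC
  have key : ∀ j ∈ Finset.range 4,
      Real.sin (φ (j + 1) - φ j) / (hS K (φ j) * hS K (φ (j + 1))) *
      (hS K (ψ j) / (VV K (φ j) (φ (j + 1)) (ψ j) - hS K (ψ j)) -
        (VV K (φ j) (φ (j + 1)) (ψ j) - hS K (ψ j)) / hS K (ψ j)) +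
      Real.sin (φ (j + 1) - φ j) / (hS C (φ j) * hS C (φ (j + 1))) *
      (hS C (ψ j) / (VV C (φ j) (φ (j + 1)) (ψ j) - hS C (ψ j)) -
        (VV C (φ j) (φ (j + 1)) (ψ j) - hS C (ψ j)) / hS C (ψ j)) < 0 := by
    intro j hj
    have hj4 : j < 4 := Finset.mem_range.mp hj
    rw [hVV j hj4, ← heq j hj4.le, ← heq (j + 1) hj4]
    have hs : 0 < Real.sin (φ (j + 1) - φ j) :=
      Real.sin_pos_of_pos_of_lt_pi (by linarith [(hgap j hj4).1]) (hgap j hj4).2
    have hU : 0 < Real.sin (φ (j + 1) - φ j) / (hS K (φ j) * hS K (φ (j + 1))) :=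
      div_pos hs (mul_pos (posK _) (posK _))
    set V := VV K (φ j) (φ (j + 1)) (ψ j) with hVdef
    set x := hS K (ψ j) with hx
    set y := hS C (ψ j) with hy
    have hx0 : 0 < x := posK _
    have hy0 : 0 < y := posC _
    have hxy : x + y < V := hV j hj4
    have e1 : x / (V - x) < x / y := div_lt_div_of_pos_left hx0 hy0 (by linarith)
    have e2 : y / (V - y) < y / x := div_lt_div_of_pos_left hy0 hx0 (by linarith)
    have e3 : y / x < (V - x) / x := div_lt_div_of_pos_right (by linarith) hx0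
    have e4 : x / y < (V - y) / y := div_lt_div_of_pos_right (by linarith) hy0
    rw [← mul_add]
    exact mul_neg_of_pos_of_neg hU (by linarith)
  have hsum := Finset.sum_lt_sum_of_nonempty (s := Finset.range 4) (by simp) key
  rw [Finset.sum_add_distrib, Finset.sum_const_zero] at hsum
  linarith

end Pool.Agent.MP9dd972
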